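import Mathlib

/-!
# Module Grp: cyclic p-groups

PROOFS.
* `exists_ord`: `D = ⟨u⟩` is cyclic of order `p ^ m`, `m > 0`; `x = u ^ (p ^ (m - 1))`.  A subgroup `Q ≠ ⊥` of `D` has
  an element of order `p` (`exists_prime_orderOf_dvd_card'`), and a cyclic group has only one
  subgroup of order `p` (e.g. `IsCyclic.card_orderOf_eq_totient`, `IsCyclic.exists_unique_...`; or: an
  element `u ^ i` of order `p` has `p ^ (m-1) ∣ i`, so it is a power of `x`, hence generates
  `⟨x⟩` because of the orders).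
* `free_of_cyclic`: let `d ≠ 1`; `Q = ⟨d⟩ ≠ ⊥`, so `x = d ^ m`, `g⁻¹ x g = (g⁻¹ d g) ^ m ∈ D`.  `⟨g⁻¹ x g⟩` is a
  nontrivial subgroup of `D`, so it contains `⟨x⟩`, and the orders agree: `g⁻¹ ⟨x⟩ g = ⟨x⟩`, so
  `g` normalizes `⟨x⟩` (finite group; compare `LemMAux.free` in P0c8ca5R.LemM).
* `norm_iff`: if `q⁻¹ u q ∈ D` for all `u ∈ ⟨x⟩` then `q⁻¹ ⟨x⟩ q` is a nontrivial subgroup of `D`, so it
  contains `⟨x⟩`, equality by orders.  Conversely clear.
* `pow_cent_of_cyclic`: `Q = ⟨u⟩` of order `p ^ m`, `g u g⁻¹ = u ^ j` (`j : ℕ`).  `x = u ^ i` and `x ^ j = g x g⁻¹ = x`, so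
  `p ∣ j - 1` in `ℤ`.  By `dvd_sub_pow_of_dvd_sub` `p ^ (m + 1) ∣ j ^ (p ^ m) - 1`.  `g ^ n u g ^ (-n) = u ^ (j ^ n)` for
  all `n`; so `g ^ (p ^ m)` commutes with `u` and with all of `Q`.
* `cent_of_pow`: `g x g⁻¹ = x ^ j`, `g ^ (p ^ n) x g ^ (- p ^ n) = x ^ (j ^ (p ^ n)) = x`, so `j ^ (p ^ n) = 1` in `ZMod p`;
  `ZMod.pow_card_pow`: `j ^ (p ^ n) = j` in `ZMod p`.  So `x ^ j = x`, `g` commutes with `x`.
* `isCyclic_of_le`: subgroups of cyclic groups are cyclic (`isCyclic_of_injective` applied to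
  `Subgroup.inclusion`).
-/

namespace Pool.Agent.Lib.P0c8ca5.Cb

variable {p : ℕ} {A : Type*} [Group A]

namespace GrpAux

theorem conj_iter {g u : A} {j : ℕ} (h : g * u * g⁻¹ = u ^ j) (n : ℕ) :
    g ^ n * u * (g ^ n)⁻¹ = u ^ (j ^ n) := by
  induction n with
  | zero => simp
  | succ n ih =>
    have e1 : g ^ (n + 1) * u * (g ^ (n + 1))⁻¹ = g * (g ^ n * u * (g ^ n)⁻¹) * g⁻¹ := by
      rw [pow_succ']
      group
    rw [e1, ih, pow_succ, mul_comm (j ^ n) j, pow_mul, ← h, conj_pow]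

theorem orderOf_conj_inv (g x : A) : orderOf (g⁻¹ * x * g) = orderOf x := by
  have h := orderOf_injective (MulAut.conj g⁻¹).toMonoidHom (MulAut.conj g⁻¹).injective x
  rw [← h]
  congr 1
  simp

theorem zpowers_eq [Fact p.Prime] [Finite A] {D : Subgroup A} {x y : A}
    (hord : orderOf x = p) (hordy : orderOf y = p)
    (hmin : ∀ Q : Subgroup A, Q ≤ D → Q ≠ ⊥ → Subgroup.zpowers x ≤ Q) (hy : y ∈ D) :
    Subgroup.zpowers x = Subgroup.zpowers y := by
  have hne : Subgroup.zpowers y ≠ ⊥ := by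
    intro h
    rw [Subgroup.zpowers_eq_bot] at h
    rw [h, orderOf_one] at hordy
    exact (Fact.out : p.Prime).one_lt.ne hordy
  have hle : Subgroup.zpowers y ≤ D := by
    rw [Subgroup.zpowers_le]
    exact hy
  apply Subgroup.eq_of_le_of_card_ge (hmin _ hle hne)
  rw [Nat.card_zpowers, Nat.card_zpowers, hord, hordy]

theorem norm_of_eq {x g : A} (h : Subgroup.zpowers x = Subgroup.zpowers (g⁻¹ * x * g)) :
    g ∈ Subgroup.normalizer (Subgroup.zpowers x : Set A) := by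
  have hc : ∀ k : ℤ, (g⁻¹ * x * g) ^ k = g⁻¹ * x ^ k * g := by
    intro k
    have := conj_zpow (i := k) (a := g⁻¹) (b := x)
    rw [inv_inv] at this
    exact this
  rw [Subgroup.mem_normalizer_iff]
  intro u
  constructor
  · intro hu
    rw [h] at hu
    obtain ⟨k, rfl⟩ := hu
    refine ⟨k, ?_⟩
    change x ^ k = g * (g⁻¹ * x * g) ^ k * g⁻¹
    rw [hc]
    group
  · intro hu
    obtain ⟨k, hk⟩ := hu
    change x ^ k = g * u * g⁻¹ at hk
    rw [h]
    refine ⟨k, ?_⟩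
    change (g⁻¹ * x * g) ^ k = u
    rw [hc, hk]
    group

theorem exists_orderOf_eq [Fact p.Prime] [Finite A] {Q : Subgroup A} (hQ : IsPGroup p Q)
    (hne : Q ≠ ⊥) : ∃ y : Q, orderOf y = p := by
  obtain ⟨n, hn⟩ := IsPGroup.iff_card.1 hQ
  have h0 : n ≠ 0 := by
    intro h
    rw [h, pow_zero] at hn
    exact hne (Subgroup.card_eq_one.1 hn)
  have hdvd : p ∣ Nat.card Q := by
    rw [hn]
    exact dvd_pow_self p h0
  exact exists_prime_orderOf_dvd_card' p hdvd

theorem mem_natpow [Finite A] {x y : A} (h : y ∈ Subgroup.zpowers x) : ∃ n : ℕ, x ^ n = y :=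
  mem_powers_iff_mem_zpowers.2 h

end GrpAux

open GrpAux

theorem isCyclic_of_le {P Q : Subgroup A} (h : P ≤ Q) (hQ : IsCyclic Q) : IsCyclic P :=
  isCyclic_of_injective (Subgroup.inclusion h) (Subgroup.inclusion_injective h)

theorem exists_ord [Fact p.Prime] [Finite A] {D : Subgroup A} (hD : IsPGroup p D)
    (hc : IsCyclic D) (hne : D ≠ ⊥) :
    ∃ x ∈ D, orderOf x = p ∧ ∀ Q : Subgroup A, Q ≤ D → Q ≠ ⊥ → Subgroup.zpowers x ≤ Q := by
  classical
  have hp : p.Prime := Fact.out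
  obtain ⟨x, hx⟩ := exists_orderOf_eq hD hne
  have hxA : orderOf (x : A) = p := by
    rw [← hx]
    exact orderOf_injective D.subtype D.subtype_injective x
  refine ⟨x, x.2, hxA, ?_⟩
  intro Q hQD hQ
  have hQp : IsPGroup p Q := hD.to_le hQD
  obtain ⟨y, hy⟩ := exists_orderOf_eq hQp hQ
  have hyA : orderOf (y : A) = p := by
    rw [← hy]
    exact orderOf_injective Q.subtype Q.subtype_injective y
  have : Fintype D := Fintype.ofFinite D
  have hcount := IsCyclic.card_pow_eq_one_le (α := D) (n := p) hp.pos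
  let y' : D := ⟨y, hQD y.2⟩
  have hy' : orderOf y' = p := by
    rw [← hyA]
    exact (orderOf_injective D.subtype D.subtype_injective y').symm
  have hsub : (Subgroup.zpowers y' : Set D).toFinset ⊆ Finset.univ.filter (fun a : D => a ^ p = 1) := by
    intro a ha
    rw [Set.mem_toFinset] at ha
    rw [Finset.mem_filter]
    refine ⟨Finset.mem_univ _, ?_⟩
    obtain ⟨n, rfl⟩ := mem_natpow ha
    rw [← pow_mul, mul_comm, pow_mul, ← hy', pow_orderOf_eq_one, one_pow]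
  have hcard : (Subgroup.zpowers y' : Set D).toFinset.card = p := by
    rw [Set.toFinset_card, ← Nat.card_eq_fintype_card]
    rw [← hy', ← Nat.card_zpowers]
    rfl
  have heq : (Subgroup.zpowers y' : Set D).toFinset = Finset.univ.filter (fun a : D => a ^ p = 1) :=
    Finset.eq_of_subset_of_card_le hsub (by rw [hcard]; exact hcount)
  have hx' : x ∈ Subgroup.zpowers y' := by
    have h1 : x ∈ (Subgroup.zpowers y' : Set D).toFinset := by
      rw [heq, Finset.mem_filter]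
      refine ⟨Finset.mem_univ _, ?_⟩
      rw [← hx, pow_orderOf_eq_one]
    rw [Set.mem_toFinset] at h1
    exact h1
  rw [Subgroup.zpowers_le]
  obtain ⟨n, hn⟩ := mem_natpow hx'
  have h2 : (y : A) ^ n = (x : A) := congrArg Subtype.val hn
  rw [← h2]
  exact Q.pow_mem y.2 n

theorem free_of_cyclic [Fact p.Prime] [Finite A] {D : Subgroup A} {x : A} (hx : x ∈ D)
    (hord : orderOf x = p)
    (hmin : ∀ Q : Subgroup A, Q ≤ D → Q ≠ ⊥ → Subgroup.zpowers x ≤ Q) {g : A}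
    (hg : g ∉ Subgroup.normalizer (Subgroup.zpowers x : Set A)) {d : A} (hd : d ∈ D)
    (hgd : g⁻¹ * d * g ∈ D) : d = 1 := by
  by_contra hne
  apply hg
  have h1 : Subgroup.zpowers x ≤ Subgroup.zpowers d := by
    apply hmin
    · rw [Subgroup.zpowers_le]
      exact hd
    · intro h
      exact hne (Subgroup.zpowers_eq_bot.1 h)
  obtain ⟨m, hm⟩ := mem_natpow (h1 (Subgroup.mem_zpowers x))
  have h2 : g⁻¹ * x * g ∈ D := by
    have e : g⁻¹ * x * g = (g⁻¹ * d * g) ^ m := by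
      rw [← hm]
      have := conj_pow (i := m) (a := g⁻¹) (b := d)
      rw [inv_inv] at this
      exact this.symm
    rw [e]
    exact D.pow_mem hgd m
  exact norm_of_eq (zpowers_eq hord ((orderOf_conj_inv g x).trans hord) hmin h2)

theorem norm_iff [Fact p.Prime] [Finite A] {D : Subgroup A} {x : A} (hx : x ∈ D)
    (hord : orderOf x = p)
    (hmin : ∀ Q : Subgroup A, Q ≤ D → Q ≠ ⊥ → Subgroup.zpowers x ≤ Q) {q : A} :
    (∀ u ∈ Subgroup.zpowers x, q⁻¹ * u * q ∈ D) ↔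
      q ∈ Subgroup.normalizer (Subgroup.zpowers x : Set A) := by
  constructor
  · intro h
    exact norm_of_eq (zpowers_eq hord ((orderOf_conj_inv q x).trans hord) hmin
      (h x (Subgroup.mem_zpowers x)))
  · intro h u hu
    have h1 := (Subgroup.mem_normalizer_iff.1 (inv_mem h) u).1 hu
    rw [inv_inv] at h1
    have h2 : Subgroup.zpowers x ≤ D := by
      rw [Subgroup.zpowers_le]
      exact hx
    exact h2 h1

theorem pow_cent_of_cyclic [Fact p.Prime] [Finite A] {Q : Subgroup A} (hQ : IsPGroup p Q)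
    (hc : IsCyclic Q) {x : A} (hx : x ∈ Q) (hord : orderOf x = p) {g : A}
    (hg : g ∈ Subgroup.normalizer (Q : Set A)) (hgx : g * x = x * g) :
    ∃ n : ℕ, g ^ p ^ n ∈ Subgroup.centralizer (Q : Set A) := by
  obtain ⟨⟨u, hu⟩, hgen⟩ := hc
  obtain ⟨m, hm⟩ := IsPGroup.iff_card.1 hQ
  have hgenA : ∀ w ∈ Q, ∃ n : ℕ, u ^ n = w := by
    intro w hw
    obtain ⟨n, hn⟩ := mem_natpow (hgen ⟨w, hw⟩)
    exact ⟨n, congrArg Subtype.val hn⟩
  have hordu : orderOf u = p ^ m := by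
    have h1 : orderOf (⟨u, hu⟩ : Q) = Nat.card Q := orderOf_eq_card_of_forall_mem_zpowers hgen
    have h2 : orderOf ((⟨u, hu⟩ : Q) : A) = orderOf (⟨u, hu⟩ : Q) :=
      orderOf_injective Q.subtype Q.subtype_injective (⟨u, hu⟩ : Q)
    rw [← hm, ← h1, ← h2]
  have hgu : g * u * g⁻¹ ∈ Q := (Subgroup.mem_normalizer_iff.1 hg u).1 hu
  obtain ⟨j, hj⟩ := hgenA _ hgu
  obtain ⟨i, hi⟩ := hgenA x hx
  have hxj : x ^ j = x ^ 1 := by
    have h1 : g * x * g⁻¹ = x := by rw [hgx]; group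
    rw [pow_one]
    conv_rhs => rw [← h1]
    rw [← hi, ← pow_mul, mul_comm, pow_mul, hj, conj_pow]
  rw [pow_eq_pow_iff_modEq, hord] at hxj
  have hdvd : (p : ℤ) ∣ (j : ℤ) - 1 := by
    have h1 := (Nat.modEq_iff_dvd.1 hxj.symm)
    simpa using h1
  have hdvd2 := dvd_sub_pow_of_dvd_sub (R := ℤ) (p := p) (a := (j : ℤ)) (b := 1) hdvd m
  have hmod : j ^ p ^ m ≡ 1 [MOD p ^ m] := by
    apply Nat.ModEq.symm
    rw [Nat.modEq_iff_dvd]
    have h1 : ((p ^ m : ℕ) : ℤ) ∣ (p : ℤ) ^ (m + 1) := by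
      push_cast
      exact pow_dvd_pow _ (Nat.le_succ m)
    have h2 := h1.trans hdvd2
    simpa using h2
  have hfix : g ^ p ^ m * u * (g ^ p ^ m)⁻¹ = u := by
    rw [conj_iter hj.symm (p ^ m)]
    have h1 : u ^ (j ^ p ^ m) = u ^ 1 := by
      rw [pow_eq_pow_iff_modEq, hordu]
      exact hmod
    rw [h1, pow_one]
  refine ⟨m, ?_⟩
  have hcomm : Commute u (g ^ p ^ m) := by
    have h1 : g ^ p ^ m * u = u * g ^ p ^ m := by
      calc g ^ p ^ m * u = g ^ p ^ m * u * (g ^ p ^ m)⁻¹ * g ^ p ^ m := by group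
        _ = u * g ^ p ^ m := by rw [hfix]
    exact h1.symm
  rw [Subgroup.mem_centralizer_iff]
  intro w hw
  obtain ⟨n, rfl⟩ := hgenA w hw
  exact hcomm.pow_left n

theorem cent_of_pow [Fact p.Prime] [Finite A] {x g : A} (hord : orderOf x = p)
    (hg : g ∈ Subgroup.normalizer (Subgroup.zpowers x : Set A)) {n : ℕ}
    (h : g ^ p ^ n ∈ Subgroup.centralizer (Subgroup.zpowers x : Set A)) :
    g ∈ Subgroup.centralizer (Subgroup.zpowers x : Set A) := by
  have hgx : g * x * g⁻¹ ∈ Subgroup.zpowers x :=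
    (Subgroup.mem_normalizer_iff.1 hg x).1 (Subgroup.mem_zpowers x)
  obtain ⟨j, hj⟩ := mem_natpow hgx
  have h1 := conj_iter hj.symm (p ^ n)
  have h2 : g ^ p ^ n * x * (g ^ p ^ n)⁻¹ = x := by
    have h3 := (Subgroup.mem_centralizer_iff.1 h) x (Subgroup.mem_zpowers x)
    rw [← h3]
    group
  rw [h2] at h1
  have hmod : j ^ p ^ n ≡ 1 [MOD p] := by
    have h3 : x ^ (j ^ p ^ n) = x ^ 1 := by rw [← h1, pow_one]
    rw [pow_eq_pow_iff_modEq, hord] at h3
    exact h3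
  have hj1 : j ≡ 1 [MOD p] := by
    apply (ZMod.natCast_eq_natCast_iff _ _ _).1
    have h3 := (ZMod.natCast_eq_natCast_iff _ _ _).2 hmod
    rw [Nat.cast_pow, ZMod.pow_card_pow, Nat.cast_one] at h3
    rw [h3, Nat.cast_one]
  have hxj : x ^ j = x := by
    have h3 : x ^ j = x ^ 1 := by
      rw [pow_eq_pow_iff_modEq, hord]
      exact hj1
    rw [h3, pow_one]
  have hcomm : Commute x g := by
    have h3 : g * x * g⁻¹ = x := by rw [← hj, hxj]
    have h4 : g * x = x * g := by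
      calc g * x = g * x * g⁻¹ * g := by group
        _ = x * g := by rw [h3]
    exact h4.symm
  rw [Subgroup.mem_centralizer_iff]
  intro w hw
  obtain ⟨k, rfl⟩ := hw
  exact hcomm.zpow_left k

end Pool.Agent.Lib.P0c8ca5.Cb
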