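import Mathlib
import Pool.Agent.Lib.P0c8ca5R.Defs
import Pool.Agent.Lib.P0c8ca5R.Tr
import Pool.Agent.Lib.P0c8ca5R.Comp
import Pool.Agent.Lib.P0c8ca5R.Ac
import Pool.Agent.Lib.P0c8ca5R.Free
import Pool.Agent.Lib.P0c8ca5R.Triv

/-!
# Blocks all of whose Brauer subgroups are cyclic: definitions

* `Nil p K f`: the block `f` of `kK` has only cyclic Brauer subgroups `P` and `N_K(P) / C_K(P)` is
  a p-group for all of them.
* `St K f ε τ`: `f` lies in the ideal generated by the idempotent `ε`, and `ε kK ε = k[τ]`.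
* `Data`: the data attached to a block `e` of `kA` with a nontrivial cyclic defect group `D`; `D₁ = ⟨x⟩`
  is the subgroup of order `p` of `D`, `N` its normalizer, `C` its centralizer, `b` the part of `e`
  supported in `C`.
* `InJ C a`: `a ∈ kC` acts as zero on all irreducible representations of `C`; `FJ C R i = J ^ i V`.
* `Cor`, `MI`: an idempotent `ε` whose image in the irreducible representation `ρ` is the line
  spanned by `s`; `MI ε ρ s` is the radical of `ε kA ε`.
-/

namespace Pool.Agent.Lib.P0c8ca5.Cb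

open MonoidAlgebra Rk

variable {p : ℕ} {k : Type*} [Field k] {A : Type*} [Group A]
variable {V : Type*} [AddCommGroup V] [Module k V]

/-- nil pairs -/
structure Nil (p : ℕ) (K : Subgroup A) (f : MonoidAlgebra k A) : Prop where
  blk : IsBlock K f
  cyc : ∀ P : Subgroup A, P ≤ K → IsPGroup p P → HasBr P f → IsCyclic P
  cen : ∀ P : Subgroup A, P ≤ K → IsPGroup p P → HasBr P f → ∀ g ∈ K,
    g ∈ Subgroup.normalizer (P : Set A) → ∃ n : ℕ, g ^ p ^ n ∈ Subgroup.centralizer (P : Set A)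

/-- `ε kK ε` is generated by the nilpotent element `τ`, and `f` is in the ideal generated by `ε` -/
structure St (K : Subgroup A) (f ε τ : MonoidAlgebra k A) : Prop where
  blk : IsBlock K f
  es : SuppIn K ε
  ts : SuppIn K τ
  ee : ε * ε = ε
  ef : ε * f = ε
  et : ε * τ = τ
  te : τ * ε = τ
  nil : IsNilpotent τ
  gen : ∀ a, SuppIn K a → ∃ P : Polynomial k, ε * a * ε = Polynomial.aeval τ P * ε
  full : ∃ (m : ℕ) (u v : Fin m → MonoidAlgebra k A), (∀ i, SuppIn K (u i)) ∧
    (∀ i, SuppIn K (v i)) ∧ ∑ i, u i * ε * v i = f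

open Classical in
/-- the data attached to a block `e` with a nontrivial cyclic defect group `D` -/
structure Data (p : ℕ) (e a b : MonoidAlgebra k A) (x : A) (D D₁ N C : Subgroup A)
    (X : Finset A) : Prop where
  ord : orderOf x = p
  hD₁ : D₁ = Subgroup.zpowers x
  hN : N = Subgroup.normalizer (D₁ : Set A)
  hC : C = Subgroup.centralizer (D₁ : Set A)
  hDp : IsPGroup p D
  cycD : IsCyclic D
  D1D : D₁ ≤ D
  min : ∀ Q : Subgroup A, Q ≤ D → Q ≠ ⊥ → D₁ ≤ Q
  DC : D ≤ C
  free : ∀ g : A, g ∉ N → ∀ d ∈ D, g⁻¹ * d * g ∈ D → d = 1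
  reps : Reps X ⊤ D
  blk : IsBlock ⊤ e
  br : HasBr D e
  conj : ∀ Q : Subgroup A, IsPGroup p Q → HasBr Q e → ∃ g : A, Q ≤ cg g D
  bsupp : SuppIn C b
  binv : InvBy N b
  bb : b * b = b
  be : ∀ c ∈ C, b.coeff c = e.coeff c
  asupp : SuppIn C a
  ainv : InvBy D a
  ab : a * b = a
  trb : ∑ q ∈ X.filter (fun q => q ∈ N), cj q a = b
  unit : ∃ w ∈ fixAlg k ⊤ ⊤, (∑ q ∈ X, cj q a) * w * e = e

section
variable {e a b : MonoidAlgebra k A} {x : A} {D D₁ N C : Subgroup A} {X : Finset A}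

theorem Data.mem (h : Data p e a b x D D₁ N C X) : x ∈ D₁ := by
  rw [h.hD₁]; exact Subgroup.mem_zpowers x

theorem Data.card (h : Data p e a b x D D₁ N C X) : Nat.card D₁ = p := by
  rw [h.hD₁, Nat.card_zpowers, h.ord]

theorem Data.isPGroup [Fact p.Prime] (h : Data p e a b x D D₁ N C X) : IsPGroup p D₁ :=
  IsPGroup.of_card (n := 1) (by rw [h.card, pow_one])

theorem Data.CN (h : Data p e a b x D D₁ N C X) : C ≤ N := by
  rw [h.hC, h.hN]; exact Subgroup.centralizer_le_normalizer _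

theorem Data.DN (h : Data p e a b x D D₁ N C X) : D ≤ N := h.DC.trans h.CN

theorem Data.D1C (h : Data p e a b x D D₁ N C X) : D₁ ≤ C := h.D1D.trans h.DC

theorem Data.D1N (h : Data p e a b x D D₁ N C X) : D₁ ≤ N := h.D1C.trans h.CN

theorem Data.bN (h : Data p e a b x D D₁ N C X) : SuppIn N b := h.bsupp.mono h.CN

theorem Data.aN (h : Data p e a b x D D₁ N C X) : SuppIn N a := h.asupp.mono h.CN

theorem Data.ND1 (h : Data p e a b x D D₁ N C X) :
    N ≤ Subgroup.normalizer (D₁ : Set A) := le_of_eq h.hN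

/-- the centralizer is normal in the normalizer -/
theorem Data.NC (h : Data p e a b x D D₁ N C X) : N ≤ Subgroup.normalizer (C : Set A) := by
  have key : ∀ g ∈ Subgroup.normalizer (D₁ : Set A), ∀ c ∈ Subgroup.centralizer (D₁ : Set A),
      g * c * g⁻¹ ∈ Subgroup.centralizer (D₁ : Set A) := by
    intro g hg c hc
    rw [Subgroup.mem_centralizer_iff] at hc ⊢
    intro d hd
    have h1 : g⁻¹ * d * g ∈ D₁ := by
      have := (Subgroup.mem_normalizer_iff.1 (inv_mem hg) d).1 hd
      rwa [inv_inv] at this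
    have h2 := hc _ h1
    calc d * (g * c * g⁻¹) = g * ((g⁻¹ * d * g) * c) * g⁻¹ := by group
      _ = g * (c * (g⁻¹ * d * g)) * g⁻¹ := by rw [h2]
      _ = _ := by group
  intro g hg
  rw [h.hN] at hg
  rw [h.hC, Subgroup.mem_normalizer_iff]
  intro c
  refine ⟨fun hc => key g hg c hc, fun hc => ?_⟩
  have := key g⁻¹ (inv_mem hg) _ hc
  have e1 : g⁻¹ * (g * c * g⁻¹) * g⁻¹⁻¹ = c := by group
  rwa [e1] at this

theorem Data.binvC (h : Data p e a b x D D₁ N C X) : InvBy C b := h.binv.mono h.CN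

theorem Data.bmem (h : Data p e a b x D D₁ N C X) : b ∈ fixAlg k C C :=
  mem_fixAlg.2 ⟨h.bsupp, h.binvC⟩

end

/-- the elements of `kC` that act as zero on all irreducible representations of `C` -/
def InJ (C : Subgroup A) (a : MonoidAlgebra k A) : Prop :=
  SuppIn C a ∧ ∀ (n : ℕ) (ρ : Rp k C n), Irr' ρ → act ρ a = 0

/-- the radical filtration -/
noncomputable def FJ [Fintype A] (C : Subgroup A) (R : A → Module.End k V) : ℕ → Submodule k V
  | 0 => ⊤
  | i + 1 => Submodule.span k {w | ∃ a v, InJ C a ∧ v ∈ FJ C R i ∧ w = ac R a v}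

/-- the elements `m` of `ε kA ε` with `m s = 0` -/
noncomputable def MI [Fintype A] (ε : MonoidAlgebra k A) {n : ℕ} (ρ : Rp k (⊤ : Subgroup A) n)
    (s : Fin n → k) : Submodule k (MonoidAlgebra k A) where
  carrier := {m | ε * m = m ∧ m * ε = m ∧ ac (ofRep ρ) m s = 0}
  add_mem' := by
    rintro m m' ⟨h1, h2, h3⟩ ⟨h1', h2', h3'⟩
    refine ⟨by rw [mul_add, h1, h1'], by rw [add_mul, h2, h2'], ?_⟩
    rw [ac_add, LinearMap.add_apply, h3, h3', add_zero]
  zero_mem' := by
    refine ⟨mul_zero _, zero_mul _, ?_⟩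
    have h := ac_sum (R := ofRep ρ) (∅ : Finset ℕ) (fun _ => (0 : MonoidAlgebra k A))
    rw [Finset.sum_empty, Finset.sum_empty] at h
    rw [h]
    rfl
  smul_mem' := by
    rintro c m ⟨h1, h2, h3⟩
    refine ⟨by rw [mul_smul_comm, h1], by rw [smul_mul_assoc, h2], ?_⟩
    have h4 : ac (ofRep ρ) (c • m) = c • ac (ofRep ρ) m := by
      rw [ac, ac, Finset.smul_sum]
      refine Finset.sum_congr rfl (fun g _ => ?_)
      rw [smul_smul]
      rfl
    rw [h4, LinearMap.smul_apply, h3, smul_zero]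

/-- `ε` is an idempotent below the block `f` of `kA` with a one dimensional image in `ρ` -/
structure Cor [Fintype A] (f ε : MonoidAlgebra k A) {n : ℕ} (ρ : Rp k (⊤ : Subgroup A) n)
    (s : Fin n → k) : Prop where
  blk : IsBlock ⊤ f
  irr : Irr' ρ
  one : ac (ofRep ρ) f = 1
  ee : ε * ε = ε
  ef : ε * f = ε
  full : ∃ (m : ℕ) (u v : Fin m → MonoidAlgebra k A), ∑ i, u i * ε * v i = f
  s0 : s ≠ 0
  es : ac (ofRep ρ) ε s = s
  dim : ∀ v, ∃ c : k, ac (ofRep ρ) ε v = c • s
  nil : ∃ r : ℕ, MI ε ρ s ^ r = ⊥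

theorem suppIn_top (c : MonoidAlgebra k A) : SuppIn (⊤ : Subgroup A) c :=
  fun x _ => Subgroup.mem_top x

theorem ac_smul [Fintype A] {R : A → Module.End k V} (c : k) (m : MonoidAlgebra k A) :
    ac R (c • m) = c • ac R m := by
  rw [ac, ac, Finset.smul_sum]
  refine Finset.sum_congr rfl (fun g _ => ?_)
  rw [smul_smul]
  rfl

theorem ac_zero [Fintype A] {R : A → Module.End k V} : ac R (0 : MonoidAlgebra k A) = 0 := by
  have h := ac_smul (R := R) (0 : k) (0 : MonoidAlgebra k A)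
  rwa [zero_smul, zero_smul] at h

theorem ac_sub [Fintype A] {R : A → Module.End k V} (c c' : MonoidAlgebra k A) :
    ac R (c - c') = ac R c - ac R c' := by
  have h := ac_add (R := R) (c - c') c'
  rw [sub_add_cancel] at h
  rw [h, add_sub_cancel_right]

end Pool.Agent.Lib.P0c8ca5.Cb
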