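import Mathlib
import Pool.Agent.Lib.P0c8ca5B.Defs
import Pool.Agent.Lib.P0c8ca5R.BrA

/-!
# Module Tra: a block of positive defect is a relative trace from a nontrivial p-subgroup
(compare P0c8ca5R.BrA)
-/

namespace Pool.Agent.Lib.P0c8ca5.Cb

open MonoidAlgebra Rk BrAAux

variable {p : ℕ} {k : Type*} [Field k] {A : Type*} [Group A]

theorem exists_trace [Fact p.Prime] [CharP k p] [IsAlgClosed k] [Fintype A]
    {e : MonoidAlgebra k A} (he : IsBlock ⊤ e)
    (hnz : ¬ IsDZ p ⊤ e) :
    ∃ (D : Subgroup A) (a : MonoidAlgebra k A), IsPGroup p D ∧ D ≠ ⊥ ∧ HasBr D e ∧ InvBy D a ∧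
      ∀ X : Finset A, Reps X ⊤ D → ∑ q ∈ X, cj q a = e := by
  classical
  have hpp : p.Prime := Fact.out
  obtain ⟨y, -, hey, -, w, hw, hwe⟩ := exists_class (p := p) he he.invBy le_rfl
    Subgroup.le_normalizer (fun x _ => ⟨0, Subgroup.mem_top _⟩)
  set C : Subgroup A := Subgroup.centralizer {y} with hC
  obtain ⟨P, hS⟩ := exists_isSyl (p := p) C
  have hyP : y ∈ Subgroup.centralizer (P : Set A) := by
    rw [Subgroup.mem_centralizer_iff]
    intro h hh
    exact (Subgroup.mem_centralizer_iff.1 (hS.le hh) y rfl).symm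
  have hBr : HasBr P e := ⟨y, hyP, hey⟩
  have hm : ((P.relIndex C : ℕ) : k) ≠ 0 := by
    intro h
    exact hS.ndvd ((CharP.cast_eq_zero_iff k p _).1 h)
  -- `w e` is central
  have hw' : w * e ∈ fixAlg k ⊤ ⊤ := (fixAlg k ⊤ ⊤).mul_mem hw he.mem
  have hw'inv : InvBy (⊤ : Subgroup A) (w * e) := (mem_fixAlg.1 hw').2
  set a : MonoidAlgebra k A := (e.coeff y / (P.relIndex C : ℕ)) • (single y 1 * (w * e)) with ha
  have hainv : InvBy P a := by
    have h1 : InvBy P (single y (1:k)) := by
      rw [invBy_iff_commute]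
      intro g hg
      have h2 := Subgroup.mem_centralizer_iff.1 hyP g hg
      change single g 1 * single y 1 = single y 1 * single g 1
      rw [single_mul_single, single_mul_single, h2]
    have h2 : InvBy P (single y (1:k) * (w * e)) := by
      rw [invBy_iff_commute] at h1 ⊢
      intro g hg
      exact (h1 g hg).mul_right (invBy_iff_commute.1 hw'inv g (Subgroup.mem_top _))
    intro g hg x
    rw [ha, coeff_smul_apply, coeff_smul_apply, h2 g hg]
  have hsum : ∀ X : Finset A, Reps X ⊤ P → ∑ q ∈ X, cj q a = e := by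
    intro X hX
    have h1 : ∑ q ∈ X, cj q (single y (1:k)) =
        ((P.relIndex C : ℕ) : k) • ((e.coeff y)⁻¹ • resS (cls ⊤ y : Set A) e) := by
      ext z
      rw [coeff_smul_apply, coeff_smul_apply, coeff_sum, Finsupp.finsetSum_apply]
      by_cases hz : z ∈ cls ⊤ y
      · obtain ⟨g, _, hg⟩ := mem_cls.1 hz
        rw [coeff_resS_of_mem _ (Finset.mem_coe.2 hz)]
        have h2 : e.coeff z = e.coeff y := by rw [hg]; exact he.invBy g (Subgroup.mem_top _) y
        rw [h2, smul_eq_mul, smul_eq_mul, inv_mul_cancel₀ hey, mul_one,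
          ← card_reps hX hS.le g, Finset.card_filter, Nat.cast_sum]
        refine Finset.sum_congr rfl (fun q _ => ?_)
        rw [coeff_cj, coeff_single, Finsupp.single_apply, Nat.cast_ite, Nat.cast_one, Nat.cast_zero]
        congr 1
        rw [hg, hC, Subgroup.mem_centralizer_iff]
        apply propext
        constructor
        · intro h t ht
          rw [Set.mem_singleton_iff] at ht
          subst ht
          calc t * (g⁻¹ * q) = g⁻¹ * q * (q⁻¹ * (g * t * g⁻¹) * q) := by group
            _ = g⁻¹ * q * t := by rw [← h]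
        · intro h
          have := h y rfl
          calc y = (g⁻¹ * q)⁻¹ * ((g⁻¹ * q) * y) := by group
            _ = (g⁻¹ * q)⁻¹ * (y * (g⁻¹ * q)) := by rw [this]
            _ = _ := by group
      · rw [coeff_resS_of_notMem _ (fun h => hz (Finset.mem_coe.1 h)), smul_zero, smul_zero]
        apply Finset.sum_eq_zero
        intro q _
        rw [coeff_cj, coeff_single, Finsupp.single_apply, if_neg]
        intro h
        apply hz
        refine mem_cls.2 ⟨q, Subgroup.mem_top _, ?_⟩
        calc z = q * (q⁻¹ * z * q) * q⁻¹ := by group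
          _ = q * y * q⁻¹ := by rw [← h]
    have h2 : ∀ q ∈ X, cj q a =
        (e.coeff y / (P.relIndex C : ℕ)) • (cj q (single y 1) * (w * e)) := by
      intro q _
      rw [ha, cj_smul, cj_mul, invBy_iff_cj.1 hw'inv q (Subgroup.mem_top _)]
    rw [Finset.sum_congr rfl h2, ← Finset.smul_sum, ← Finset.sum_mul, h1, smul_mul_assoc,
      smul_mul_assoc, smul_smul, smul_smul, ← mul_assoc, hwe]
    have h3 : e.coeff y / ((P.relIndex C : ℕ) : k) * ((P.relIndex C : ℕ) : k) * (e.coeff y)⁻¹
        = 1 := by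
      rw [div_mul_cancel₀ _ hm, mul_inv_cancel₀ hey]
    rw [h3, one_smul]
  -- `P` is not trivial
  have hPne : P ≠ ⊥ := by
    intro hPb
    apply hnz
    refine ⟨he, fun Q _ hQ hbrQ => ?_⟩
    by_contra hQne
    obtain ⟨x, hx, hex⟩ := hbrQ
    apply hex
    have h1 : Reps (Finset.univ : Finset A) ⊤ P := by
      refine ⟨fun q _ => Subgroup.mem_top _, fun g _ => ⟨g, ⟨Finset.mem_univ _, ?_⟩, ?_⟩⟩
      · rw [inv_mul_cancel]; exact P.one_mem
      · rintro q ⟨_, hq⟩
        rw [hPb, Subgroup.mem_bot] at hq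
        exact (inv_mul_eq_one.1 hq)
    have h2 := hsum _ h1
    have h3 : trK (⊤ : Subgroup A) a = e := by
      rw [← h2, trK]
      refine Finset.sum_congr ?_ (fun _ _ => rfl)
      ext q
      simp
    rw [← h3]
    exact coeff_trK_eq_zero hQ le_top hQne a hx
  exact ⟨P, a, hS.isPGroup, hPne, hBr, hainv, hsum⟩

end Pool.Agent.Lib.P0c8ca5.Cb
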