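import Mathlib
import Pool.Agent.Lib.P0c8ca5B.Tra
import Pool.Agent.Lib.P0c8ca5B.Grp
import Pool.Agent.Lib.P0c8ca5R.BrB

/-!
# Module Dat: existence of the data

Compare the module P0c8ca5R.BrB, which treats the case `D = D₁` (the lemmas of the namespace `Rk.BrBAux` can be
used: `norm_cent`, `mem_norm_cent`, `invBy_sum_cj`; `mem_norm_iff`).

PROOF of `resS_sum_cj'`.  As `resS_sum_cj` in BrB: for `g ∈ C(D₁)` apply `BrAAux.sum_fixed` (P0c8ca5R.BrA) with `Q = D₁`
to `F q = (cj q c).coeff g`; by `hfix` the remaining `q` are those of `X ∩ N(D₁)`.  For `g ∉ C(D₁)` both sides vanish.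
PROOF of `exists_data`.  `exists_trace` (P0c8ca5B.Tra) gives `D`, `a₀`.  `D` is cyclic by `hcyc`.  `exists_ord` gives `x`;
`D₁ = ⟨x⟩`, `N` its normalizer, `C` its centralizer, `X` from `exists_reps`, `b = resS C e`, `a = resS C a₀ * b`.
`free`: `free_of_cyclic`; `DC`: `D` is abelian (cyclic); `min`: `exists_ord`; `conj`: `conj_of_hasBr` (P0c8ca5R.BrA) for `a₀`.
`ainv`: `resS C a₀` is `D`-invariant (`resS_invBy`, `D` normalizes `C`), `b` is `D`-invariant as `D ≤ C ≤ N`.  The other
fields as in BrB, with `resS_sum_cj'` and `norm_iff`; `resS_mul` for the p-group `D₁`; `b ≠ 0` because `HasBr D e` and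
the centralizer of `D` is contained in `C`.
-/

namespace Pool.Agent.Lib.P0c8ca5.Cb

open MonoidAlgebra Rk

variable {p : ℕ} {k : Type*} [Field k] {A : Type*} [Group A]

open Classical in
theorem resS_sum_cj' [Fact p.Prime] [CharP k p] [Fintype A] {D D₁ : Subgroup A} {X : Finset A}
    (hX : Reps X ⊤ D) (hD₁ : IsPGroup p D₁)
    (hfix : ∀ q, (∀ u ∈ D₁, q⁻¹ * u * q ∈ D) ↔ q ∈ Subgroup.normalizer (D₁ : Set A))
    {c : MonoidAlgebra k A} (hc : InvBy D c) :
    resS (Subgroup.centralizer (D₁ : Set A) : Set A) (∑ q ∈ X, cj q c) =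
      ∑ q ∈ X.filter (fun q => q ∈ Subgroup.normalizer (D₁ : Set A)),
        cj q (resS (Subgroup.centralizer (D₁ : Set A) : Set A) c) := by
  ext g
  rw [coeff_sum, Finsupp.finsetSum_apply]
  by_cases hg : g ∈ (Subgroup.centralizer (D₁ : Set A) : Set A)
  · rw [coeff_resS_of_mem _ hg, coeff_sum, Finsupp.finsetSum_apply,
      BrAAux.sum_fixed (p := p) hX hD₁ (fun q => (cj q c).coeff g)]
    · refine Finset.sum_congr ?_ ?_
      · ext q
        rw [Finset.mem_filter, Finset.mem_filter, hfix]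
      · intro q hq
        have hq' := (Finset.mem_filter.1 hq).2
        rw [coeff_cj, coeff_cj, coeff_resS_of_mem _ (BrBAux.norm_cent hq' hg)]
    · intro q d hd
      rw [← cj_cj, invBy_iff_cj.1 hc d hd]
    · intro u hu q
      rw [coeff_cj, coeff_cj]
      congr 1
      have := Subgroup.mem_centralizer_iff.1 hg u hu
      calc (u * q)⁻¹ * g * (u * q) = q⁻¹ * u⁻¹ * (g * u) * q := by group
        _ = q⁻¹ * u⁻¹ * (u * g) * q := by rw [← this]
        _ = q⁻¹ * g * q := by group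
  · rw [coeff_resS_of_notMem _ hg]
    symm
    apply Finset.sum_eq_zero
    intro q hq
    rw [coeff_cj, coeff_resS_of_notMem]
    intro h
    apply hg
    have h1 := BrBAux.norm_cent
      ((Subgroup.normalizer (D₁ : Set A)).inv_mem (Finset.mem_filter.1 hq).2) h
    have e1 : (q⁻¹)⁻¹ * (q⁻¹ * g * q) * q⁻¹ = g := by group
    rwa [e1] at h1

theorem exists_data [Fact p.Prime] [CharP k p] [IsAlgClosed k] [Fintype A]
    {e : MonoidAlgebra k A} (he : IsBlock ⊤ e)
    (hcyc : ∀ P : Subgroup A, IsPGroup p P → HasBr P e → IsCyclic P)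
    (hnz : ¬ IsDZ p ⊤ e) :
    ∃ (a b : MonoidAlgebra k A) (x : A) (D D₁ N C : Subgroup A) (X : Finset A),
      Data p e a b x D D₁ N C X := by
  classical
  obtain ⟨D, a₀, hDp, hDne, hbr, ha₀, hsum⟩ := exists_trace he hnz
  have hcycD : IsCyclic D := hcyc D hDp hbr
  obtain ⟨x, hxD, hord, hmin⟩ := exists_ord hDp hcycD hDne
  obtain ⟨X, hX⟩ := exists_reps (K := (⊤ : Subgroup A)) (D := D) le_top
  set D₁ := Subgroup.zpowers x with hD₁
  set C : Subgroup A := Subgroup.centralizer (D₁ : Set A) with hC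
  set N : Subgroup A := Subgroup.normalizer (D₁ : Set A) with hN
  have hD₁D : D₁ ≤ D := by
    rw [hD₁, Subgroup.zpowers_le]
    exact hxD
  have hD₁p : IsPGroup p D₁ := hDp.to_le hD₁D
  have hDC : D ≤ C := by
    intro d hd
    rw [hC, Subgroup.mem_centralizer_iff]
    intro y hy
    have h1 : (⟨d, hd⟩ : D) * ⟨y, hD₁D hy⟩ = ⟨y, hD₁D hy⟩ * ⟨d, hd⟩ :=
      hcycD.isMulCommutative.is_comm.comm _ _
    exact (congrArg Subtype.val h1).symm
  have hCN' : C ≤ N := Subgroup.centralizer_le_normalizer _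
  have hDN : D ≤ N := hDC.trans hCN'
  have hCN : N ≤ Subgroup.normalizer (C : Set A) := fun g hg => BrBAux.mem_norm_cent hg
  have hfix : ∀ q, (∀ u ∈ D₁, q⁻¹ * u * q ∈ D) ↔ q ∈ Subgroup.normalizer (D₁ : Set A) :=
    fun q => norm_iff hxD hord hmin
  have heD : InvBy D₁ e := he.invBy.mono le_top
  set b := resS (C : Set A) e with hb
  set a := resS (C : Set A) a₀ * b with ha
  have hbb : b * b = b := by rw [hb, ← resS_mul hD₁p heD heD, he.idem]
  have hbsupp : SuppIn C b := resS_suppIn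
  have hasupp : SuppIn C a := resS_suppIn.mul hbsupp
  have hbinv : InvBy N b := resS_invBy hCN (he.invBy.mono le_top)
  have hae := hsum X hX
  have h1 : ∑ q ∈ X.filter (fun q => q ∈ N), cj q (resS (C : Set A) a₀) = b := by
    rw [hb, ← hae, resS_sum_cj' hX hD₁p hfix ha₀]
  have htrb : ∑ q ∈ X.filter (fun q => q ∈ N), cj q a = b := by
    have h2 : ∀ q ∈ X.filter (fun q => q ∈ N), cj q a = cj q (resS (C : Set A) a₀) * b := by
      intro q hq
      rw [ha, cj_mul, invBy_iff_cj.1 hbinv q (Finset.mem_filter.1 hq).2]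
    rw [Finset.sum_congr rfl h2, ← Finset.sum_mul, h1, hbb]
  have hainv : InvBy D a := by
    have h2 : InvBy D (resS (C : Set A) a₀) := resS_invBy (hDN.trans hCN) ha₀
    have h3 : InvBy D b := hbinv.mono hDN
    rw [ha, invBy_iff_commute] at *
    exact fun g hg => (h2 g hg).mul_right (h3 g hg)
  have hbne : b ≠ 0 := by
    obtain ⟨c, hc, hec⟩ := hbr
    intro h
    apply hec
    have hcC : c ∈ (C : Set A) := by
      have h4 : Subgroup.centralizer (D : Set A) ≤ C := Subgroup.centralizer_le hD₁D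
      exact h4 hc
    rw [← coeff_resS_of_mem (S := (C : Set A)) e hcC, ← hb, h]
    rfl
  refine ⟨a, b, x, D, D₁, N, C, X, ?_⟩
  refine ⟨hord, rfl, rfl, rfl, hDp, hcycD, hD₁D, hmin, hDC,
    fun g hg d hd hgd => free_of_cyclic hxD hord hmin hg hd hgd,
    hX, he, hbr, fun Q hQ hbrQ => conj_of_hasBr hX ha₀ hae hQ hbrQ,
    hbsupp, hbinv, hbb, fun c hc => coeff_resS_of_mem e hc, hasupp, hainv, ?_, htrb, ?_⟩
  · rw [ha, mul_assoc, hbb]
  · set z := ∑ q ∈ X, cj q a with hz
    have hzinv : InvBy ⊤ z := BrBAux.invBy_sum_cj hX hainv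
    have hzmem : z ∈ fixAlg k ⊤ ⊤ := mem_fixAlg.2 ⟨fun _ _ => Subgroup.mem_top _, hzinv⟩
    have hzD : InvBy D₁ z := hzinv.mono le_top
    have hzr : resS (C : Set A) z = b := by
      rw [hz, resS_sum_cj' hX hD₁p hfix hainv, ← htrb]
      refine Finset.sum_congr rfl (fun q _ => ?_)
      rw [resS_eq_self hasupp]
    have hzeD : InvBy D₁ (z * e) := by
      rw [invBy_iff_commute] at hzD heD ⊢
      exact fun g hg => (hzD g hg).mul_right (heD g hg)
    have hzer : resS (C : Set A) (z * e) = b := by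
      rw [resS_mul hD₁p hzD heD, hzr, ← hb, hbb]
    have hA : IsArtinianRing (fixAlg k (⊤ : Subgroup A) ⊤) := IsArtinianRing.of_finite k _
    rcases he.primIdem.nilp_or_unit ⟨z, hzmem⟩ with ⟨n, hn⟩ | ⟨w, hw⟩
    · exfalso
      have h1 : (z * e) ^ n = 0 := congrArg Subtype.val hn
      have h2 : ∀ m : ℕ, InvBy D₁ ((z * e) ^ m) ∧ resS (C : Set A) ((z * e) ^ (m + 1)) = b := by
        intro m
        induction m with
        | zero =>
          refine ⟨?_, ?_⟩
          · rw [pow_zero, invBy_iff_commute]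
            intro g _; exact Commute.one_right _
          · rw [zero_add, pow_one, hzer]
        | succ m ih =>
          have h3 : InvBy D₁ ((z * e) ^ (m + 1)) := by
            rw [invBy_iff_commute] at hzeD ⊢
            exact fun g hg => (hzeD g hg).pow_right _
          refine ⟨h3, ?_⟩
          rw [pow_succ, resS_mul hD₁p h3 hzeD, ih.2, hzer, hbb]
      have h3 : (z * e) ^ (n + 1) = 0 := by rw [pow_succ, h1, zero_mul]
      apply hbne
      rw [← (h2 n).2, h3, resS_zero]
    · exact ⟨w.1, w.2, congrArg Subtype.val hw⟩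

end Pool.Agent.Lib.P0c8ca5.Cb
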