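import Mathlib
import Pool.Agent.Lib.P0c8ca5B.Defs
import Pool.Agent.Lib.P0c8ca5N.ChB

/-!
# Module PartA2 (compare P0c8ca5R.PartA2)
-/

namespace Pool.Agent.Lib.P0c8ca5.Cb

open MonoidAlgebra Rk

variable {p : ℕ} {k : Type*} [Field k] {A : Type*} [Group A]

namespace PartA2Aux

/-- density: every endomorphism is the action of an element of the group algebra -/
theorem exists_ac [IsAlgClosed k] [Fintype A] {n : ℕ} (ρ : Rp k (⊤ : Subgroup A) n) (hρ : Irr' ρ)
    (T : (Fin n → k) →ₗ[k] (Fin n → k)) : ∃ u : MonoidAlgebra k A, ac (ofRep ρ) u = T := by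
  classical
  obtain ⟨a, -, ha⟩ := ChBAux.density (ι := Unit) (fun _ => n) (fun _ => ρ)
    (fun _ => irr_iff.2 hρ) (fun i j hij => absurd (Subsingleton.elim i j) hij) () T
  let u : MonoidAlgebra k A := MonoidAlgebra.ofCoeff
    (Finsupp.equivFunOnFinite.symm fun g => a.coeff ⟨g, Subgroup.mem_top g⟩)
  have hu : ∀ g : A, u.coeff g = a.coeff ⟨g, Subgroup.mem_top g⟩ := fun g => rfl
  refine ⟨u, ?_⟩
  have hs : a.coeff.sum (fun i b => b • ρ i) = ∑ i : (⊤ : Subgroup A), a.coeff i • ρ i :=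
    Finsupp.sum_fintype _ _ (fun i => zero_smul _ _)
  rw [← ha, Representation.asAlgebraHom_def, MonoidAlgebra.lift_apply, ac]
  refine Eq.trans ?_ hs.symm
  refine Fintype.sum_equiv (Subgroup.topEquiv (G := A)).symm.toEquiv _ _ (fun g => ?_)
  rw [hu, ofRep_mem ρ (Subgroup.mem_top g)]
  rfl

end PartA2Aux

open PartA2Aux in
theorem partA2 [Fact p.Prime] [CharP k p] [IsAlgClosed k] [Fintype A] {e a b : MonoidAlgebra k A}
    {x : A} {D D₁ N C : Subgroup A} {X : Finset A} (h : Data p e a b x D D₁ N C X) {n : ℕ}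
    (ρ : Rp k (⊤ : Subgroup A) n) (hρ : Irr' ρ) (he : act ρ e = 1)
    (θ : (Fin n → k) →ₗ[k] (Fin n → k)) :
    ac (ofRep ρ) b ≠ trS N (ofRep ρ) (ofRep ρ) θ := by
  classical
  intro hbt
  have hR : IsRep ⊤ (ofRep ρ) := isRep_ofRep ρ
  have he' : ac (ofRep ρ) e = 1 := by rw [ac_ofRep]; exact he
  generalize hRdef : ofRep ρ = R at hbt hR he'
  have hRN : IsRep N R := hR.mono le_top
  have hRD : IsRep D R := hR.mono le_top
  have hST : ∀ c : MonoidAlgebra k A, SuppIn ⊤ c := fun c x _ => Subgroup.mem_top x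
  obtain ⟨θ', hθ'⟩ := exists_trS_sub h.DN hRN hRN θ
  set z := ∑ q ∈ X, cj q a with hz
  have e1 : ac R z = RT X R R (ac R a) :=
    (RT_ac (fun q _ => Subgroup.mem_top q) hR (hST a)).symm
  have e2 : ac R a = ac R a * ac R b := by rw [← ac_mul hR (hST a) (hST b), h.ab]
  have heD : Eqv D R R (ac R a) := ac_eqv hR le_top (hST a) h.ainv
  have e4 : ac R a = trS D R R (ac R a ∘ₗ θ') := by
    rw [trS_comp_left heD, ← hθ', ← hbt]
    exact e2
  have e5 : ac R z = trS ⊤ R R (ac R a ∘ₗ θ') := by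
    rw [e1, ← RT_trS h.reps le_top hR hR (ac R a ∘ₗ θ'), ← e4]
  obtain ⟨w, hw, hzw⟩ := h.unit
  have hw2 : InvBy ⊤ w := (mem_fixAlg.1 hw).2
  have e6 : (1 : Module.End k (Fin n → k)) = ac R z * ac R w := by
    rw [← ac_mul hR (hST _) (hST _)]
    have h1 := congrArg (ac R) hzw
    rw [ac_mul hR (hST _) (hST _), he', mul_one] at h1
    exact h1.symm
  have hwE : Eqv ⊤ R R (ac R w) := ac_eqv hR le_rfl (hST w) hw2
  have e7 : (1 : Module.End k (Fin n → k)) = trS ⊤ R R ((ac R a ∘ₗ θ') ∘ₗ ac R w) := by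
    rw [trS_comp_right hwE, ← e5]
    exact e6
  obtain ⟨u, hu⟩ := exists_ac ρ hρ ((ac R a ∘ₗ θ') ∘ₗ ac R w)
  rw [hRdef] at hu
  rw [← hu, trS_ac hR le_rfl (hST u)] at e7
  have hmem : trK ⊤ u ∈ fixAlg k (⊤ : Subgroup A) ⊤ := mem_fixAlg.2 ⟨hST _, trK_invBy ⊤ u⟩
  have hart : IsArtinianRing (fixAlg k (⊤ : Subgroup A) ⊤) := by
    have : Module.Finite k (MonoidAlgebra k A) :=
      inferInstance
    have h3 : FiniteDimensional k (fixAlg k (⊤ : Subgroup A) ⊤) :=
      inferInstance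
    exact IsArtinianRing.of_finite k _
  have hnt := hρ.nontriv
  rcases h.blk.primIdem.nilp_or_unit ⟨trK ⊤ u, hmem⟩ with h1 | ⟨w', h1⟩
  · obtain ⟨m, hm⟩ := h1
    have h2 : (trK ⊤ u * e) ^ m = 0 := congrArg Subtype.val hm
    have h3 : ac R (trK ⊤ u * e) = 1 := by
      rw [ac_mul hR (hST _) (hST _), he', ← e7, mul_one]
    have h4 : ∀ j : ℕ, ac R ((trK ⊤ u * e) ^ j) = 1 := by
      intro j
      induction j with
      | zero => rw [pow_zero, ac_one hR]
      | succ j ih => rw [pow_succ, ac_mul hR (hST _) (hST _), ih, h3, one_mul]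
    have h5 := h4 m
    rw [h2] at h5
    have h6 : ac R (0 : MonoidAlgebra k A) = 0 := by
      have := ac_sum (R := R) (∅ : Finset ℕ) (fun _ => (0 : MonoidAlgebra k A))
      simpa using this
    rw [h6] at h5
    exact zero_ne_one h5
  · have h2 : trK ⊤ u * (w' : MonoidAlgebra k A) * e = e := congrArg Subtype.val h1
    have hinv : InvBy ⊤ ((w' : MonoidAlgebra k A) * e) :=
      (mem_fixAlg.1 (Subalgebra.mul_mem _ w'.2 h.blk.mem)).2
    have h3 : e = trK ⊤ (u * ((w' : MonoidAlgebra k A) * e)) := by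
      rw [trK_mul u hinv, ← mul_assoc, h2]
    obtain ⟨y, hy, hy'⟩ := h.br
    apply hy'
    rw [h3]
    refine coeff_trK_eq_zero h.hDp le_top ?_ _ hy
    intro hD
    have h4 := h.card
    have h5 : D₁ = ⊥ := le_bot_iff.1 (hD ▸ h.D1D)
    rw [h5, Subgroup.card_bot] at h4
    exact (Fact.out (p := p.Prime)).one_lt.ne h4

end Pool.Agent.Lib.P0c8ca5.Cb
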