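import Mathlib
import Pool.Agent.Lib.P0c8ca5B.Defs

/-!
# Further definitions

* `JS k A`: the elements of `kA` that act as zero on all irreducible representations of `A`.
* `IsDer R d`: `d` is a derivation of `kA` with values in `End V`.
* `Cen p x D₁`: `x` is a central element of order `p` of `A`, `D₁ = ⟨x⟩`; `yel x = x - 1`.
* `Lft`: the lifts `ε`, `t` of `ε'`, `τ'` to `kA`.
-/

namespace Pool.Agent.Lib.P0c8ca5.Cb

open MonoidAlgebra Rk

variable {p : ℕ} {k : Type*} [Field k] {A : Type*} [Group A]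
variable {V : Type*} [AddCommGroup V] [Module k V]

/-- the elements of `kA` that act as zero on all irreducible representations -/
noncomputable def JS (k : Type*) [Field k] (A : Type*) [Group A] [Fintype A] :
    Submodule k (MonoidAlgebra k A) where
  carrier := {a | InJ (⊤ : Subgroup A) a}
  add_mem' := by
    rintro a a' ⟨h1, h2⟩ ⟨h1', h2'⟩
    refine ⟨suppIn_top _, fun n ρ hρ => ?_⟩
    rw [← ac_ofRep, ac_add, ac_ofRep, ac_ofRep, h2 n ρ hρ, h2' n ρ hρ, add_zero]
  zero_mem' := by
    refine ⟨suppIn_top _, fun n ρ hρ => ?_⟩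
    rw [← ac_ofRep, ac_zero]
  smul_mem' := by
    rintro c a ⟨h1, h2⟩
    refine ⟨suppIn_top _, fun n ρ hρ => ?_⟩
    rw [← ac_ofRep, ac_smul, ac_ofRep, h2 n ρ hρ, smul_zero]

/-- derivations of `kA` with values in `End V` -/
def IsDer [Fintype A] (R : A → Module.End k V) (d : MonoidAlgebra k A →ₗ[k] Module.End k V) :
    Prop := ∀ a b, d (a * b) = ac R a * d b + d a * ac R b

/-- the derivation is inner -/
def IsInn [Fintype A] (R : A → Module.End k V) (d : MonoidAlgebra k A →ₗ[k] Module.End k V) :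
    Prop := ∃ γ : Module.End k V, ∀ a, d a = ac R a * γ - γ * ac R a

/-- `x` is a central element of order `p` -/
structure Cen (p : ℕ) (x : A) (D₁ : Subgroup A) : Prop where
  ord : orderOf x = p
  hD₁ : D₁ = Subgroup.zpowers x
  cen : ∀ g : A, g * x = x * g

/-- the element `x - 1` -/
noncomputable def yel (k : Type*) [Field k] (x : A) : MonoidAlgebra k A := single x 1 - 1

/-- lifts of an idempotent `ε'` and of a generator `τ'` -/
structure Lft (x : A) (D₁ : Subgroup A) (f ε t : MonoidAlgebra k A)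
    (ε' τ' : MonoidAlgebra k (NQ D₁)) : Prop where
  ee : ε * ε = ε
  ef : ε * f = ε
  et : ε * t = t
  te : t * ε = t
  pe : proj D₁ ε = ε'
  pt : proj D₁ t = τ'
  nil : IsNilpotent t
  full : ∃ (m : ℕ) (u v : Fin m → MonoidAlgebra k A), ∑ i, u i * ε * v i = f
  gen : ∀ a, ∃ (P : Polynomial k) (a' : MonoidAlgebra k A),
    ε * a * ε = Polynomial.aeval t P * ε + yel k x * (ε * a' * ε)
  comm : ∀ a, t * (ε * a * ε) = ε * a * ε * t

end Pool.Agent.Lib.P0c8ca5.Cb
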