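import Mathlib
import Pool.Agent.Lib.P0c8ca5B.Defs

/-!
# Module Rad: the radical and the radical filtration

`InJ C a`: `a` is supported in `C` and acts as zero on all irreducible representations of `C`.
`FJ C R 0 = ⊤`, `FJ C R (i + 1)` is spanned by the `ac R a v`, `InJ C a`, `v ∈ FJ C R i` (P0c8ca5B.Defs).

PROOFS.
* `inJ_mul_left`, `inJ_mul_right`: `act ρ (u * a) = act ρ u * act ρ a` (`act_mul` of P0c8ca5, it needs
  `SuppIn C u`).  `inJ_add`, `inJ_smul`, `inJ_sum`: clear (`act` is linear; or use `ac (ofRep ρ)`: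
  `ac_ofRep`, `ac_add`, `ac_smul`, `ac_sum`).
* `inJ_cj`: let `g` normalize `C`, `ρ : Rp k C n` irreducible.  `σ x := ρ (g x g⁻¹)` is an irreducible
  representation of `C` (the same stable subspaces).  `act ρ (cj g a) = ∑_x (cj g a).coeff x • ρ x =
  ∑_y a.coeff y • ρ (g y g⁻¹) = act σ a = 0` (substitute `x = g y g⁻¹`, `coeff_cj`).
* `FJ_stable`: `R g (ac R a v) = ac R (cj g a) (R g v)` for `g ∈ N`, `a` supported in `C ≤ N` (compare
  `hc_ac` in P0c8ca5R.Ac), `cj g a` is in `J` by `inJ_cj`; induction on `i`, `Submodule.span_induction`.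
* `FJ_anti`: induction on `i` (`Submodule.span_mono`).
* `FJ_one_ne_top`: apply `exists_irr_quot` (P0c8ca5.Rep) to the representation `toRep hR` of `C` on the
  finite dimensional nonzero space `V`: a `C`-stable `W` with irreducible quotient; transport the
  quotient to `Fin n → k` (`trRep`, `Module.finBasis`; compare the proof of `dev2` in P0c8ca5R.Dev2).  An
  element `a` of `J` acts as zero on the quotient, so `ac R a v ∈ W` for all `v`; so `FJ C R 1 ≤ W ≠ ⊤`.
* `J_zero_irr`: `FJ C T 1` is an `N`-stable subspace (`FJ_stable`) of the irreducible representation `T`,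
  and it is not `⊤` (`FJ_one_ne_top`, `T` is also a representation of `C`), so it is `⊥`.
-/

namespace Pool.Agent.Lib.P0c8ca5.Cb

open MonoidAlgebra Rk

variable {p : ℕ} {k : Type*} [Field k] {A : Type*} [Group A]
variable {V : Type*} [AddCommGroup V] [Module k V]

namespace RadAux

theorem SuppIn_smul {C : Subgroup A} {a : MonoidAlgebra k A} (c : k) (ha : SuppIn C a) :
    SuppIn C (c • a) := by
  intro x hx
  apply ha x
  intro h0
  apply hx
  change c • a.coeff x = 0
  rw [h0, smul_zero]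

end RadAux

theorem inJ_mul_left [Fintype A] {C : Subgroup A} {u a : MonoidAlgebra k A} (hu : SuppIn C u)
    (ha : InJ C a) : InJ C (u * a) := by
  refine ⟨hu.mul ha.1, fun n ρ hρ => ?_⟩
  rw [act_mul ρ hu, ha.2 n ρ hρ, mul_zero]

theorem inJ_mul_right [Fintype A] {C : Subgroup A} {u a : MonoidAlgebra k A} (hu : SuppIn C u)
    (ha : InJ C a) : InJ C (a * u) := by
  refine ⟨ha.1.mul hu, fun n ρ hρ => ?_⟩
  rw [act_mul ρ ha.1, ha.2 n ρ hρ, zero_mul]

theorem inJ_add [Fintype A] {C : Subgroup A} {a a' : MonoidAlgebra k A} (ha : InJ C a)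
    (ha' : InJ C a') : InJ C (a + a') := by
  refine ⟨ha.1.add ha'.1, fun n ρ hρ => ?_⟩
  rw [← ac_ofRep, ac_add, ac_ofRep, ac_ofRep, ha.2 n ρ hρ, ha'.2 n ρ hρ, add_zero]

theorem inJ_smul [Fintype A] {C : Subgroup A} {a : MonoidAlgebra k A} (c : k) (ha : InJ C a) :
    InJ C (c • a) := by
  refine ⟨RadAux.SuppIn_smul c ha.1, fun n ρ hρ => ?_⟩
  rw [← ac_ofRep, ac_smul, ac_ofRep, ha.2 n ρ hρ, smul_zero]

theorem inJ_cj [Fintype A] {C : Subgroup A} {g : A} (hg : g ∈ Subgroup.normalizer (C : Set A))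
    {a : MonoidAlgebra k A} (ha : InJ C a) : InJ C (cj g a) := by
  refine ⟨ha.1.cj hg, fun n ρ hρ => ?_⟩
  have hmem : ∀ x ∈ C, g * x * g⁻¹ ∈ C := fun x hx => (Subgroup.mem_normalizer_iff.1 hg x).1 hx
  have hmem' : ∀ y ∈ C, g⁻¹ * y * g ∈ C := by
    intro y hy
    have h1 := (Subgroup.mem_normalizer_iff.1 (inv_mem hg) y).1 hy
    rwa [inv_inv] at h1
  set R' : A → Module.End k (Fin n → k) := fun x => ofRep ρ (g * x * g⁻¹) with hR'def
  have hR0 : IsRep C (ofRep ρ) := isRep_ofRep ρ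
  have hR' : IsRep C R' := by
    refine ⟨?_, ?_⟩
    · change ofRep ρ (g * 1 * g⁻¹) = 1
      rw [mul_one, mul_inv_cancel, hR0.one]
    · intro x hx y hy
      change ofRep ρ (g * (x * y) * g⁻¹) = ofRep ρ (g * x * g⁻¹) * ofRep ρ (g * y * g⁻¹)
      rw [← hR0.mul _ (hmem x hx) _ (hmem y hy)]
      congr 1
      group
  have hirr : Irr C R' := by
    have h0 := (irr_ofRep ρ).1 hρ
    refine ⟨h0.1, fun W hW => h0.2 W (fun y hy w hw => ?_)⟩
    have h1 := hW (g⁻¹ * y * g) (hmem' y hy) w hw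
    have e1 : g * (g⁻¹ * y * g) * g⁻¹ = y := by group
    change ofRep ρ (g * (g⁻¹ * y * g) * g⁻¹) w ∈ W at h1
    rwa [e1] at h1
  have hz := ha.2 n (toRep hR') ((irr_toRep hR').2 hirr)
  rw [act_toRep hR' ha.1] at hz
  rw [← ac_ofRep, ← hz, ac, ac]
  symm
  refine Fintype.sum_equiv (MulAut.conj g).toEquiv _ _ (fun x => ?_)
  change a.coeff x • ofRep ρ (g * x * g⁻¹) = (cj g a).coeff (g * x * g⁻¹) • ofRep ρ (g * x * g⁻¹)
  have e1 : g⁻¹ * (g * x * g⁻¹) * g = x := by group
  rw [coeff_cj, e1]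

theorem FJ_stable [Fintype A] {C N : Subgroup A} (hCN : C ≤ N)
    (hN : N ≤ Subgroup.normalizer (C : Set A)) {R : A → Module.End k V} (hR : IsRep N R) (i : ℕ) :
    ∀ g ∈ N, ∀ v ∈ FJ C R i, R g v ∈ FJ C R i := by
  induction i with
  | zero =>
    intro g _ v _
    exact Submodule.mem_top
  | succ i ih =>
    intro g hg v hv
    change v ∈ Submodule.span k {w | ∃ a v, InJ C a ∧ v ∈ FJ C R i ∧ w = ac R a v} at hv
    change R g v ∈ Submodule.span k {w | ∃ a v, InJ C a ∧ v ∈ FJ C R i ∧ w = ac R a v}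
    induction hv using Submodule.span_induction with
    | mem w hw =>
      obtain ⟨a, v, ha, hv, rfl⟩ := hw
      apply Submodule.subset_span
      refine ⟨cj g a, R g v, inJ_cj (hN hg) ha, ih g hg v hv, ?_⟩
      have h1 := LinearMap.congr_fun (hc_ac hR hg (ha.1.mono hCN)) (R g v)
      rw [hc_apply, hR.inv_apply hg] at h1
      exact h1
    | zero =>
      rw [map_zero]
      exact Submodule.zero_mem _
    | add x y _ _ hx hy =>
      rw [map_add]
      exact Submodule.add_mem _ hx hy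
    | smul c x _ hx =>
      rw [map_smul]
      exact Submodule.smul_mem _ c hx

theorem FJ_anti [Fintype A] {C : Subgroup A} {R : A → Module.End k V} {i j : ℕ} (hij : i ≤ j) :
    FJ C R j ≤ FJ C R i := by
  have key : ∀ i, FJ C R (i + 1) ≤ FJ C R i := by
    intro i
    induction i with
    | zero => exact le_top
    | succ i ih =>
      apply Submodule.span_mono
      rintro w ⟨a, v, ha, hv, rfl⟩
      exact ⟨a, v, ha, ih hv, rfl⟩
  exact antitone_nat_of_succ_le key hij

theorem FJ_one_ne_top [Fintype A] [Module.Finite k V] [Nontrivial V] {C : Subgroup A}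
    {R : A → Module.End k V} (hR : IsRep C R) : FJ C R 1 ≠ ⊤ := by
  intro htop
  obtain ⟨W, hW, hirr⟩ := exists_irr_quot (toRep hR)
  set n := Module.finrank k (V ⧸ W) with hn
  let E : (V ⧸ W) ≃ₗ[k] (Fin n → k) := (Module.finBasis k (V ⧸ W)).equivFun
  let ρ : Rp k C n := trRep (quotRep (toRep hR) W hW) E
  have hρ : Irr' ρ := hirr.trRep E
  let π : V →ₗ[k] (Fin n → k) := E.toLinearMap ∘ₗ W.mkQ
  have hP : Eqv C R (ofRep ρ) π := by
    intro g hg v
    rw [ofRep_mem ρ hg]
    change E (W.mkQ (R g v)) = trRep (quotRep (toRep hR) W hW) E ⟨g, hg⟩ (E (W.mkQ v))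
    rw [trRep_apply]
    rfl
  have hle : FJ C R 1 ≤ W := by
    change Submodule.span k {w | ∃ a v, InJ C a ∧ v ∈ FJ C R 0 ∧ w = ac R a v} ≤ W
    rw [Submodule.span_le]
    rintro _ ⟨a, v, ha, _, rfl⟩
    have h1 := LinearMap.congr_fun (comp_ac hP ha.1) v
    rw [ac_ofRep, ha.2 n ρ hρ] at h1
    have h2 : W.mkQ (ac R a v) = 0 := by
      apply E.injective
      rw [map_zero]
      exact h1
    exact (Submodule.Quotient.mk_eq_zero W).1 h2
  rw [htop] at hle
  have h4 := hirr.nontriv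
  rw [Submodule.Quotient.nontrivial_iff] at h4
  exact h4 (eq_top_iff.2 hle)

theorem J_zero_irr [Fintype A] [Module.Finite k V] {C N : Subgroup A} (hCN : C ≤ N)
    (hN : N ≤ Subgroup.normalizer (C : Set A)) {T : A → Module.End k V} (hT : IsRep N T)
    (hirr : Irr N T) {a : MonoidAlgebra k A} (ha : InJ C a) : ac T a = 0 := by
  have : Nontrivial V := hirr.1
  rcases hirr.2 (FJ C T 1) (FJ_stable hCN hN hT 1) with h | h
  · apply LinearMap.ext
    intro v
    have h1 : ac T a v ∈ FJ C T 1 :=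
      Submodule.subset_span ⟨a, v, ha, Submodule.mem_top, rfl⟩
    rw [h, Submodule.mem_bot] at h1
    exact h1
  · exact absurd h (FJ_one_ne_top (hT.mono hCN))

end Pool.Agent.Lib.P0c8ca5.Cb
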