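import Mathlib
import Pool.Agent.Lib.P0c8ca5B.Rad
import Pool.Agent.Lib.P0c8ca5B.Defs2

/-!
# Module Rad2: the radical is nilpotent

PROOFS.
* `FJ_eq_bot`: if `FJ C R i ≠ ⊥` then `FJ C R (i + 1) ≠ FJ C R i`: apply `FJ_one_ne_top` to the restriction of `R` to
  the `C`-stable (`FJ_stable` for `N = C`) nonzero subspace `FJ C R i` (restrict `R g` for `g ∈ C`, `0` otherwise; compare the
  representation `S` in P0c8ca5B.PartA): the span of the `ac R a v`, `v ∈ FJ C R i`, is not all of `FJ C R i`.  Since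
  `FJ C R (i + 1) ≤ FJ C R i` (`FJ_anti`) the dimensions decrease, so some `FJ C R r = ⊥`.
* `JS_nilp`: apply `FJ_eq_bot` to `C = ⊤` and the left regular representation `R g = LinearMap.mulLeft k (single g 1)`
  on `V = MonoidAlgebra k A` (`IsRep ⊤ R`, `ac R a = LinearMap.mulLeft k a`).  By induction on `r` (`pow_succ'`,
  `Submodule.mul_induction_on`): `a ∈ JS k A ^ r` implies `a * v ∈ FJ ⊤ R r` for all `v`.  With
  `FJ ⊤ R r = ⊥` and `v = 1`: `a = 0`.
* `mem_JS`: let `a * f = a` and `ac (ofRep ρ) a = 0`; let `σ` be irreducible.  `act σ f` is `0` or `1`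
  (`act_zero_or_one` in P0c8ca5.CliffC); if `0` then `act σ a = act σ (a * f) = 0` (`act_mul`), if `1` then `σ ≅ ρ` by
  `huniq` and `act σ a` is conjugate to `act ρ a = 0` (`Iso`, `act_apply`; `ac_ofRep`).
* `cor_of`: only `nil` is to be shown.  `m ∈ MI ε ρ s`: `m * f = m * ε * f = m`, and
  `ac (ofRep ρ) m v = ac (ofRep ρ) m (ac (ofRep ρ) ε v) = c • ac (ofRep ρ) m s = 0` by `hdim`
  (`ac_mul (isRep_ofRep ρ) (suppIn_top _) (suppIn_top _)`); so `m ∈ JS k A` by `mem_JS`.  So `MI ^ r ≤ JS ^ r = ⊥`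
  (`Submodule.pow_le_pow_left` or `pow_le_pow_left'`).
-/

namespace Pool.Agent.Lib.P0c8ca5.Cb

open MonoidAlgebra Rk

variable {p : ℕ} {k : Type*} [Field k] {A : Type*} [Group A]
variable {V : Type*} [AddCommGroup V] [Module k V]

namespace Rad2Aux

open Classical in
/-- restriction to a stable subspace -/
noncomputable def res (C : Subgroup A) (R : A → Module.End k V) (U : Submodule k V)
    (h : ∀ g ∈ C, ∀ v ∈ U, R g v ∈ U) : A → Module.End k U := fun g =>
  if hg : g ∈ C then (R g).restrict (h g hg) else 0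

theorem res_apply {C : Subgroup A} {R : A → Module.End k V} {U : Submodule k V}
    (h : ∀ g ∈ C, ∀ v ∈ U, R g v ∈ U) {g : A} (hg : g ∈ C) (v : U) :
    ((res C R U h g v : U) : V) = R g v := by
  unfold res
  rw [dif_pos hg]
  rfl

theorem res_isRep {C : Subgroup A} {R : A → Module.End k V} {U : Submodule k V}
    (h : ∀ g ∈ C, ∀ v ∈ U, R g v ∈ U) (hR : IsRep C R) : IsRep C (res C R U h) := by
  refine ⟨?_, ?_⟩
  · apply LinearMap.ext
    intro v
    apply Subtype.ext
    rw [res_apply h C.one_mem, hR.one]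
    rfl
  · intro g hg x hx
    apply LinearMap.ext
    intro v
    apply Subtype.ext
    rw [res_apply h (C.mul_mem hg hx), hR.mul g hg x hx, Module.End.mul_apply,
      Module.End.mul_apply, res_apply h hg, res_apply h hx]

theorem res_ac [Fintype A] {C : Subgroup A} {R : A → Module.End k V} {U : Submodule k V}
    (h : ∀ g ∈ C, ∀ v ∈ U, R g v ∈ U) {a : MonoidAlgebra k A} (ha : SuppIn C a) (v : U) :
    ((ac (res C R U h) a v : U) : V) = ac R a v := by
  rw [ac, ac, LinearMap.sum_apply, LinearMap.sum_apply, Submodule.coe_sum]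
  refine Finset.sum_congr rfl fun g _ => ?_
  by_cases hg : a.coeff g = 0
  · rw [hg, zero_smul, zero_smul]
    rfl
  · rw [LinearMap.smul_apply, LinearMap.smul_apply, Submodule.coe_smul, res_apply h (ha g hg)]

theorem step [Fintype A] [Module.Finite k V] {C : Subgroup A} {R : A → Module.End k V}
    (hR : IsRep C R) {i : ℕ} (hne : FJ C R i ≠ ⊥) : FJ C R (i + 1) < FJ C R i := by
  refine lt_of_le_of_ne (FJ_anti (Nat.le_succ i)) ?_
  intro he
  have hst := FJ_stable (le_refl C) Subgroup.le_normalizer hR i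
  have : Nontrivial (FJ C R i) := (Submodule.nontrivial_iff_ne_bot).2 hne
  apply FJ_one_ne_top (res_isRep hst hR)
  rw [eq_top_iff]
  intro u _
  have hle : FJ C R (i + 1) ≤ (FJ C (res C R (FJ C R i) hst) 1).map (FJ C R i).subtype := by
    change Submodule.span k {w | ∃ a v, InJ C a ∧ v ∈ FJ C R i ∧ w = ac R a v} ≤ _
    rw [Submodule.span_le]
    rintro _ ⟨a, v, ha, hv, rfl⟩
    refine ⟨ac (res C R (FJ C R i) hst) a ⟨v, hv⟩, ?_, ?_⟩
    · exact Submodule.subset_span ⟨a, ⟨v, hv⟩, ha, Submodule.mem_top, rfl⟩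
    · exact res_ac hst ha.1 ⟨v, hv⟩
  have hu : (u : V) ∈ FJ C R (i + 1) := by
    rw [he]
    exact u.2
  obtain ⟨u', hu', hu2⟩ := hle hu
  have : u' = u := Subtype.ext hu2
  rwa [this] at hu'

/-- left regular representation -/
noncomputable def lr (k : Type*) [Field k] (A : Type*) [Group A] :
    A → Module.End k (MonoidAlgebra k A) := fun g => LinearMap.mulLeft k (single g 1)

theorem lr_isRep : IsRep (⊤ : Subgroup A) (lr k A) := by
  refine ⟨?_, ?_⟩
  · apply LinearMap.ext
    intro v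
    change single (1 : A) (1 : k) * v = v
    rw [← MonoidAlgebra.one_def, one_mul]
  · intro g _ h _
    apply LinearMap.ext
    intro v
    change single (g * h) (1 : k) * v = single g (1 : k) * (single h (1 : k) * v)
    rw [← mul_assoc, single_mul_single, one_mul]

theorem sum_single [Fintype A] (a : MonoidAlgebra k A) :
    ∑ g, a.coeff g • single g (1 : k) = a := by
  classical
  ext x
  rw [MonoidAlgebra.coeff_sum, Finsupp.finsetSum_apply, Finset.sum_eq_single x]
  · change a.coeff x • (Finsupp.single x (1 : k)) x = _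
    rw [Finsupp.single_eq_same, smul_eq_mul, mul_one]
  · intro y _ hy
    change a.coeff y • (Finsupp.single y (1 : k)) x = _
    rw [Finsupp.single_eq_of_ne (Ne.symm hy), smul_zero]
  · intro h
    exact absurd (Finset.mem_univ x) h

theorem lr_ac [Fintype A] (a v : MonoidAlgebra k A) : ac (lr k A) a v = a * v := by
  rw [ac, LinearMap.sum_apply]
  conv_rhs => rw [← sum_single a, Finset.sum_mul]
  refine Finset.sum_congr rfl fun g _ => ?_
  rw [LinearMap.smul_apply, smul_mul_assoc]
  rfl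

theorem pow_le [Fintype A] (r : ℕ) : ∀ a ∈ JS k A ^ r, ∀ v : MonoidAlgebra k A,
    a * v ∈ FJ ⊤ (lr k A) r := by
  induction r with
  | zero =>
    intro a _ v
    exact Submodule.mem_top
  | succ r ih =>
    intro a ha
    rw [pow_succ'] at ha
    induction ha using Submodule.mul_induction_on' with
    | mem_mul_mem b hb c hc =>
      intro v
      rw [mul_assoc]
      apply Submodule.subset_span
      exact ⟨b, c * v, hb, ih c hc v, (lr_ac b (c * v)).symm⟩
    | add x _ y _ hx hy =>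
      intro v
      rw [add_mul]
      exact Submodule.add_mem _ (hx v) (hy v)

end Rad2Aux

open Rad2Aux

theorem FJ_eq_bot [Fintype A] [Module.Finite k V] {C : Subgroup A}
    {R : A → Module.End k V} (hR : IsRep C R) : ∃ r : ℕ, FJ C R r = ⊥ := by
  by_contra hcon
  push Not at hcon
  have key : ∀ i, Module.finrank k (FJ C R i) + i ≤ Module.finrank k V := by
    intro i
    induction i with
    | zero => exact Submodule.finrank_le _
    | succ i ih =>
      have h1 := Submodule.finrank_lt_finrank_of_lt (step hR (hcon i))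
      omega
  have h2 := key (Module.finrank k V + 1)
  omega

theorem JS_nilp [Fintype A] : ∃ r : ℕ, JS k A ^ r = ⊥ := by
  have : Module.Finite k (MonoidAlgebra k A) := inferInstance
  obtain ⟨r, hr⟩ := FJ_eq_bot (lr_isRep (k := k) (A := A))
  refine ⟨r, ?_⟩
  rw [eq_bot_iff]
  intro a ha
  have h1 := pow_le r a ha 1
  rw [hr, mul_one] at h1
  exact h1

theorem mem_JS [Fintype A] {f : MonoidAlgebra k A} (hf : IsBlock ⊤ f) {n : ℕ}
    {ρ : Rp k (⊤ : Subgroup A) n}
    (huniq : ∀ (m : ℕ) (σ : Rp k (⊤ : Subgroup A) m), Irr' σ → act σ f = 1 → Iso σ ρ)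
    {a : MonoidAlgebra k A} (haf : a * f = a) (ha : ac (ofRep ρ) a = 0) : a ∈ JS k A := by
  refine ⟨suppIn_top a, fun m σ hσ => ?_⟩
  rcases act_zero_or_one hσ (suppIn_top f) (mem_fixAlg.1 hf.mem).2 hf.idem with h | h
  · rw [← haf, act_mul σ (suppIn_top a), h, mul_zero]
  · obtain ⟨P, hP⟩ := huniq m σ hσ h
    have hE : Eqv (⊤ : Subgroup A) (ofRep σ) (ofRep ρ) P.toLinearMap := by
      intro g hg v
      rw [ofRep_mem σ hg, ofRep_mem ρ hg]
      exact hP ⟨g, hg⟩ v
    have h1 := comp_ac hE (suppIn_top a)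
    rw [ha, ac_ofRep] at h1
    apply LinearMap.ext
    intro v
    apply P.injective
    have h2 := LinearMap.congr_fun h1 v
    rw [LinearMap.zero_apply, map_zero]
    exact h2

theorem cor_of [Fintype A] {f ε : MonoidAlgebra k A} (hf : IsBlock ⊤ f) {n : ℕ}
    {ρ : Rp k (⊤ : Subgroup A) n} (hρ : Irr' ρ) (hone : act ρ f = 1)
    (huniq : ∀ (m : ℕ) (σ : Rp k (⊤ : Subgroup A) m), Irr' σ → act σ f = 1 → Iso σ ρ)
    (hee : ε * ε = ε) (hef : ε * f = ε)
    (hfull : ∃ (m : ℕ) (u v : Fin m → MonoidAlgebra k A), ∑ i, u i * ε * v i = f)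
    {s : Fin n → k} (hs : s ≠ 0) (hes : ac (ofRep ρ) ε s = s)
    (hdim : ∀ v, ∃ c : k, ac (ofRep ρ) ε v = c • s) : Cor f ε ρ s := by
  refine ⟨hf, hρ, by rw [ac_ofRep, hone], hee, hef, hfull, hs, hes, hdim, ?_⟩
  obtain ⟨r, hr⟩ := JS_nilp (k := k) (A := A)
  refine ⟨r, ?_⟩
  rw [eq_bot_iff, ← hr]
  apply pow_le_pow_left'
  rintro m ⟨h1, h2, h3⟩
  apply mem_JS hf huniq
  · conv_lhs => rw [← h2, mul_assoc, hef]
    exact h2
  · apply LinearMap.ext
    intro v
    obtain ⟨c, hc⟩ := hdim v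
    conv_lhs => rw [← h2, ac_mul (isRep_ofRep ρ) (suppIn_top _) (suppIn_top _)]
    rw [Module.End.mul_apply, hc, map_smul, h3, smul_zero]
    rfl

end Pool.Agent.Lib.P0c8ca5.Cb
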