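import Mathlib
import Pool.Agent.Lib.P0c8ca5B.Rad2
import Pool.Agent.Lib.P0c8ca5B.PartA2

/-!
# Module CorX: existence of a primitive idempotent

PROOF of `exists_cor`.  `R = ofRep ρ`; `ac_mul (isRep_ofRep ρ) (suppIn_top _) (suppIn_top _)` gives multiplicativity.
(1) Choose `s ≠ 0` (`hρ.nontriv`) and a linear form `φ` with `φ s = 1`; `T v = φ v • s`, `T * T = T`.  By density
    (`PartA2Aux.exists_ac`) there is `u₀` with `ac R u₀ = T`; `u = u₀ * f` also (`ac R f = 1` by `ac_ofRep`, `hone`), `u * f = u`.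
(2) `u - u * u` is in `JS k A` (`mem_JS`: `(u - u * u) * f = u - u * u`, `ac R (u - u * u) = 0`), so nilpotent
    (`JS_nilp`: its `r`-th power is in `JS ^ r = ⊥`; take `r > 0`).  `ε = 1 - (1 - u ^ r) ^ r` is idempotent
    (Mathlib: `isIdempotentElem_one_sub_one_sub_pow_pow` in RingTheory/Idempotents, or a direct proof).  `ε` is a
    polynomial in `u` without constant term, so `ε * f = ε` (`(1 - u ^ r) * f = f - u ^ r`, `f` central: `1 - ε = (1 - u ^ r) ^ r`,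
    `(1 - ε) * (1 - f) = (1 - f)` because `(1 - u ^ r) * (1 - f) = 1 - f`), and `ac R ε = 1 - (1 - T ^ r) ^ r = T`.
(3) `full`: for the standard basis `e_i` choose by density `a_i`, `b_i` with `ac R (a_i) v = φ v • e_i`, `ac R (b_i) v = v i • s`;
    then `ac R (∑ a_i ε b_i) = 1`.  Put `c = (∑ a_i ε b_i) * f` and `w = f - c`; `w ∈ JS k A` by `mem_JS`, so `w ^ r = 0`.
    All of `c, w` commute with `f`, `c * f = c`, `f = f ^ r - w ^ r = (f - w) * (∑_{j < r} f ^ j w ^ (r - 1 - j))` (`f` and `w`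
    commute: `Commute.mul_geom_sum₂`) `= c * z`, so `f = ∑ a_i ε (b_i f z)`.
(4) `cor_of` with `s`: `ac R ε s = T s = s`, `ac R ε v = φ v • s`.
-/

namespace Pool.Agent.Lib.P0c8ca5.Cb

open MonoidAlgebra Rk

variable {p : ℕ} {k : Type*} [Field k] {A : Type*} [Group A]

namespace CorXAux

theorem comm_of_invBy {f : MonoidAlgebra k A} (hf : InvBy (⊤ : Subgroup A) f)
    (w : MonoidAlgebra k A) : Commute f w := by
  induction w using MonoidAlgebra.induction_on with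
  | of g => exact (invBy_iff_commute.1 hf g (Subgroup.mem_top g)).symm
  | add a b ha hb => exact ha.add_right hb
  | smul r a ha => exact ha.smul_right r

theorem ac_mul' [Fintype A] {n : ℕ} (ρ : Rp k (⊤ : Subgroup A) n) (a b : MonoidAlgebra k A) :
    ac (ofRep ρ) (a * b) = ac (ofRep ρ) a * ac (ofRep ρ) b :=
  ac_mul (isRep_ofRep ρ) (suppIn_top _) (suppIn_top _)

theorem ac_pow [Fintype A] {n : ℕ} (ρ : Rp k (⊤ : Subgroup A) n) (a : MonoidAlgebra k A)
    (m : ℕ) : ac (ofRep ρ) (a ^ m) = ac (ofRep ρ) a ^ m := by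
  induction m with
  | zero => rw [pow_zero, pow_zero, ac_one (isRep_ofRep ρ)]
  | succ m ih => rw [pow_succ, pow_succ, ac_mul', ih]

theorem idem_pow {R : Type*} [Ring R] {x : R} (hx : x * x = x) {m : ℕ} (hm : 0 < m) :
    x ^ m = x := by
  obtain ⟨j, rfl⟩ := Nat.exists_eq_succ_of_ne_zero hm.ne'
  clear hm
  induction j with
  | zero => exact pow_one x
  | succ j ih => rw [pow_succ, ih, hx]

theorem nilp' [Fintype A] : ∃ r : ℕ, 0 < r ∧ ∀ w ∈ JS k A, w ^ r = 0 := by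
  obtain ⟨r, hr⟩ := JS_nilp (k := k) (A := A)
  refine ⟨r + 1, Nat.succ_pos r, fun w hw => ?_⟩
  have h := Submodule.pow_mem_pow (JS k A) hw r
  rw [hr, Submodule.mem_bot] at h
  rw [pow_succ, h, zero_mul]

/-- the linear map `v ↦ c * v i • s` -/
def mp {n : ℕ} (i : Fin n) (c : k) (s : Fin n → k) : (Fin n → k) →ₗ[k] (Fin n → k) :=
  LinearMap.smulRight (c • LinearMap.proj i : (Fin n → k) →ₗ[k] k) s

theorem mp_apply {n : ℕ} (i : Fin n) (c : k) (s v : Fin n → k) :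
    mp i c s v = (c * v i) • s := rfl

end CorXAux

open CorXAux in
theorem exists_cor [IsAlgClosed k] [Fintype A] {f : MonoidAlgebra k A} (hf : IsBlock ⊤ f)
    {n : ℕ} {ρ : Rp k (⊤ : Subgroup A) n} (hρ : Irr' ρ) (hone : act ρ f = 1)
    (huniq : ∀ (m : ℕ) (σ : Rp k (⊤ : Subgroup A) m), Irr' σ → act σ f = 1 → Iso σ ρ) :
    ∃ (ε : MonoidAlgebra k A) (s : Fin n → k), Cor f ε ρ s := by
  classical
  have hnt := hρ.nontriv
  obtain ⟨s, hs⟩ := exists_ne (0 : Fin n → k)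
  obtain ⟨i₀, hi₀⟩ := Function.ne_iff.1 hs
  rw [Pi.zero_apply] at hi₀
  have hT1 : mp i₀ (s i₀)⁻¹ s s = s := by
    rw [mp_apply, inv_mul_cancel₀ hi₀, one_smul]
  have hTT : mp i₀ (s i₀)⁻¹ s * mp i₀ (s i₀)⁻¹ s = mp i₀ (s i₀)⁻¹ s := by
    apply LinearMap.ext
    intro v
    rw [Module.End.mul_apply, mp_apply (v := v), map_smul, hT1]
  have hRf : ac (ofRep ρ) f = 1 := by rw [ac_ofRep]; exact hone
  have hone' : ac (ofRep ρ) (1 : MonoidAlgebra k A) = 1 := ac_one (isRep_ofRep ρ)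
  obtain ⟨r, hr0, hr⟩ := nilp' (k := k) (A := A)
  obtain ⟨u₀, hu₀⟩ := PartA2Aux.exists_ac ρ hρ (mp i₀ (s i₀)⁻¹ s)
  have hff : f * f = f := hf.idem
  obtain ⟨u, hu, huf⟩ : ∃ u : MonoidAlgebra k A, ac (ofRep ρ) u = mp i₀ (s i₀)⁻¹ s ∧ u * f = u :=
    ⟨u₀ * f, by rw [ac_mul', hu₀, hRf, mul_one], by rw [mul_assoc, hff]⟩
  have huJ : u - u ^ 2 ∈ JS k A := by
    refine mem_JS hf huniq ?_ ?_
    · rw [sub_mul, pow_two, mul_assoc, huf]
    · rw [ac_sub, ac_pow, hu, pow_two, hTT, sub_self]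
  have hidem := isIdempotentElem_one_sub_one_sub_pow_pow u r (hr _ huJ)
  obtain ⟨ε, hε⟩ : ∃ ε : MonoidAlgebra k A, ε = 1 - (1 - u ^ r) ^ r := ⟨_, rfl⟩
  rw [← hε] at hidem
  have hurf : u ^ r * f = u ^ r := by
    obtain ⟨j, hj⟩ := Nat.exists_eq_succ_of_ne_zero hr0.ne'
    rw [hj, pow_succ, mul_assoc, huf]
  have hεf : ε * f = ε := by
    have h1 : ∀ j : ℕ, (1 - u ^ r) ^ j * (1 - f) = 1 - f := by
      intro j
      induction j with
      | zero => rw [pow_zero, one_mul]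
      | succ j ih =>
        have h2 : (1 - u ^ r) * (1 - f) = 1 - f := by
          rw [sub_mul, one_mul, mul_sub, mul_one, hurf, sub_self, sub_zero]
        rw [pow_succ, mul_assoc, h2, ih]
    have h2 := h1 r
    have h3 : (1 - u ^ r) ^ r = 1 - ε := by rw [hε, sub_sub_cancel]
    rw [h3, sub_mul, one_mul, mul_sub, mul_one] at h2
    have h4 : ε - ε * f = 0 := by
      have h5 := sub_eq_self.1 h2
      exact h5
    exact (sub_eq_zero.1 h4).symm
  have hacε : ac (ofRep ρ) ε = mp i₀ (s i₀)⁻¹ s := by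
    have h1 : (1 - mp i₀ (s i₀)⁻¹ s) * (1 - mp i₀ (s i₀)⁻¹ s) = 1 - mp i₀ (s i₀)⁻¹ s := by
      rw [sub_mul, one_mul, mul_sub, mul_one, hTT, sub_self, sub_zero]
    rw [hε, ac_sub, ac_pow, ac_sub, ac_pow, hone', hu, idem_pow hTT hr0, idem_pow h1 hr0,
      sub_sub_cancel]
  have hcom : ∀ w, Commute f w := comm_of_invBy hf.invBy
  have hfull : ∃ (m : ℕ) (u v : Fin m → MonoidAlgebra k A), ∑ i, u i * ε * v i = f := by
    have ha : ∀ i : Fin n, ∃ a : MonoidAlgebra k A,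
        ac (ofRep ρ) a = mp i₀ (s i₀)⁻¹ (Pi.single i 1) := fun i => PartA2Aux.exists_ac ρ hρ _
    have hb : ∀ i : Fin n, ∃ b : MonoidAlgebra k A, ac (ofRep ρ) b = mp i 1 s :=
      fun i => PartA2Aux.exists_ac ρ hρ _
    choose a ha using ha
    choose b hb using hb
    obtain ⟨d, hd⟩ : ∃ d : MonoidAlgebra k A, d = ∑ i, a i * ε * b i := ⟨_, rfl⟩
    have hacd : ac (ofRep ρ) d = 1 := by
      rw [hd, ac_sum]
      apply LinearMap.ext
      intro v
      rw [LinearMap.sum_apply]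
      have h1 : ∀ i, ac (ofRep ρ) (a i * ε * b i) v = Pi.single i (v i) := by
        intro i
        rw [ac_mul', ac_mul', ha, hb, hacε, Module.End.mul_apply, Module.End.mul_apply,
          mp_apply (v := v), one_mul, map_smul, map_smul, hT1, mp_apply,
          inv_mul_cancel₀ hi₀, one_smul]
        ext j
        rw [Pi.smul_apply, Pi.single_apply, Pi.single_apply, smul_eq_mul]
        split_ifs
        · rw [mul_one]
        · rw [mul_zero]
      rw [Finset.sum_congr rfl (fun i _ => h1 i), Finset.univ_sum_single]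
      rfl
    obtain ⟨w, hw⟩ : ∃ w : MonoidAlgebra k A, w = f - d * f := ⟨_, rfl⟩
    have hwJ : w ∈ JS k A := by
      refine mem_JS hf huniq ?_ ?_
      · rw [hw, sub_mul, mul_assoc, hff]
      · rw [hw, ac_sub, ac_mul', hacd, hRf, mul_one, sub_self]
    have h2 := (hcom w).mul_geom_sum₂ r
    rw [hr w hwJ, sub_zero, idem_pow hff hr0] at h2
    have h3 : f - w = d * f := by rw [hw, sub_sub_cancel]
    rw [h3] at h2
    obtain ⟨z, hz⟩ : ∃ z : MonoidAlgebra k A,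
      z = ∑ i ∈ Finset.range r, f ^ i * w ^ (r - 1 - i) := ⟨_, rfl⟩
    rw [← hz] at h2
    refine ⟨n, a, fun i => b i * (f * z), ?_⟩
    rw [← h2]
    conv_rhs => rw [mul_assoc, hd, Finset.sum_mul]
    refine Finset.sum_congr rfl (fun i _ => ?_)
    rw [h2]
    simp only [mul_assoc]
  refine ⟨ε, s, cor_of hf hρ hone huniq hidem hεf hfull hs ?_ ?_⟩
  · rw [hacε, hT1]
  · intro v
    exact ⟨(s i₀)⁻¹ * v i₀, by rw [hacε, mp_apply]⟩

end Pool.Agent.Lib.P0c8ca5.Cb
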