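import Mathlib
import Pool.Agent.Lib.P0c8ca5B.Defs2

/-!
# Module Der: the derivation attached to a linear form on `MI / MI²`

Let `h : Cor f ε ρ s`, `R = ofRep ρ`, `M = MI ε ρ s`, `a v := ac R a v` (multiplicative:
`ac_mul (isRep_ofRep ρ) (suppIn_top _) (suppIn_top _)`), `f = ∑ u_i ε v_i` (`h.full`).
PROOF of `exists_der`.
(0) For `l` with `ε l ε = l` there is `λ(l) ∈ k` with `l s = λ(l) s` (`h.dim` for `l s = ε (l s)`) and `l - λ(l) ε ∈ M`.
    `λ` is linear and unique as `s ≠ 0`; one can define `λ(l) = χ (l s)` with a linear form `χ`, `χ s = 1`.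
(1) For `z` with `z ε = z` and `z s = 0` put `ψ^(z) = ∑_i ψ (ε v_i z) • (u_i s)`; define the linear map `ψ^` by this
    formula for all `z`.  Here `ε v_i z ∈ M`.
    (1a) `a (ψ^ z) = ψ^ (a z)` for such `z`.  Indeed `f z = z`?  This holds if `z = f z`; so use it for `z = z' ` with
    `f z = z` (all `z` below are in `f kA`; `f` is central).  `a u_i s = f a u_i ε s = ∑_j u_j (ε v_j a u_i ε) s =
    ∑_j λ(ε v_j a u_i ε) u_j s`, and `ε v_j a z = ∑_i (ε v_j a u_i ε) (ε v_i z)` is congruent to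
    `∑_i λ(ε v_j a u_i ε) (ε v_i z)` modulo `M M`, so `ψ (ε v_j a z) = ∑_i λ(..) ψ (ε v_i z)`.
    (1b) for `z ∈ M`: `ψ^ z = ψ z • s`: `ε v_i z = (ε v_i ε) z`, so `ψ (ε v_i z) = λ(ε v_i ε) ψ z`, and
    `∑_i λ(ε v_i ε) u_i s = ∑_i u_i ε v_i ε s = f s = s`.
(2) Section: `sec v = ∑_i χ (ε v_i v) • (u_i ε)` (with `χ s = 1`; `ε v_i v = χ (ε v_i v) s`), linear in `v`, `sec v ∈ kA`,
    `(sec v) ε = sec v`, `f (sec v) = sec v` (as `f u_i ε = u_i f ε = u_i ε`), `(sec v) s = ∑ χ(..) u_i s = ∑ u_i ε v_i v = v`.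
(3) `d a v := ψ^ (a (sec v) - sec (a v))`; it is linear in `a` and `v`.  The element `z = a (sec v) - sec (a v)` satisfies
    `z ε = z`, `f z = z`, `z s = 0`.
    Derivation: `d (a b) v = ψ^ (a (b (sec v) - sec (b v)) + a (sec (b v)) - sec (a (b v))) = a (d b v) + d a (b v)` by (1a).
(4) For `m ∈ M`: `d m s = ψ^ (m (sec s) - sec (m s)) = ψ^ (m (sec s))`; `m (sec s) = m (ε (sec s))` and
    `ε (sec s) = ε (sec s) ε` has `λ = 1` (`(sec s) s = s`, `ε s = s`), so `m (sec s) = m + m m'` with `m' ∈ M`; it is in `M`,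
    and by (1b) `d m s = ψ (m + m m') • s = ψ m • s`.
PROOF of `inn_zero`: `d m s = m (γ s) - γ (m s) = m (ε (γ s)) = c • m s = 0` (`h.dim`, `m = m ε`).
-/

namespace Pool.Agent.Lib.P0c8ca5.Cb

open MonoidAlgebra Rk

variable {p : ℕ} {k : Type*} [Field k] {A : Type*} [Group A]

namespace DerAux

variable [Fintype A] {f ε : MonoidAlgebra k A} {n : ℕ} {ρ : Rp k (⊤ : Subgroup A) n}
  {s : Fin n → k}

theorem act_mul (a b : MonoidAlgebra k A) :
    ac (ofRep ρ) (a * b) = ac (ofRep ρ) a * ac (ofRep ρ) b :=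
  ac_mul (isRep_ofRep ρ) (suppIn_top _) (suppIn_top _)

theorem act_app (a b : MonoidAlgebra k A) (v : Fin n → k) :
    ac (ofRep ρ) (a * b) v = ac (ofRep ρ) a (ac (ofRep ρ) b v) := by
  rw [act_mul]
  rfl

theorem exists_chi (hs : s ≠ 0) : ∃ χ : (Fin n → k) →ₗ[k] k, χ s = 1 := by
  have h1 : ¬ ∀ φ : Module.Dual k (Fin n → k), φ s = 0 := by
    rw [Module.forall_dual_apply_eq_zero_iff]
    exact hs
  push Not at h1
  obtain ⟨φ, hφ⟩ := h1
  refine ⟨(φ s)⁻¹ • φ, ?_⟩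
  rw [LinearMap.smul_apply, smul_eq_mul, inv_mul_cancel₀ hφ]

theorem cen (h : Cor f ε ρ s) (a : MonoidAlgebra k A) : a * f = f * a :=
  commute_of (suppIn_top a) h.blk.invBy

theorem fe (h : Cor f ε ρ s) : f * ε = ε := by rw [← cen h, h.ef]

theorem lam (h : Cor f ε ρ s) {χ : (Fin n → k) →ₗ[k] k} (hχ : χ s = 1)
    {l : MonoidAlgebra k A} (hl : ε * l = l) (v : Fin n → k) :
    ac (ofRep ρ) l v = χ (ac (ofRep ρ) l v) • s := by
  obtain ⟨c, hc⟩ := h.dim (ac (ofRep ρ) l v)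
  rw [← act_app, hl] at hc
  rw [hc, map_smul, hχ, smul_eq_mul, mul_one]

theorem dec (h : Cor f ε ρ s) {χ : (Fin n → k) →ₗ[k] k} (hχ : χ s = 1)
    {l : MonoidAlgebra k A} (hl : ε * l = l) (hl' : l * ε = l) :
    l - χ (ac (ofRep ρ) l s) • ε ∈ MI ε ρ s := by
  refine ⟨?_, ?_, ?_⟩
  · rw [mul_sub, mul_smul_comm, h.ee, hl]
  · rw [sub_mul, smul_mul_assoc, h.ee, hl']
  · rw [ac_sub, ac_smul, LinearMap.sub_apply, LinearMap.smul_apply, h.es, ← lam h hχ hl, sub_self]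

theorem psi_mul (h : Cor f ε ρ s) {χ : (Fin n → k) →ₗ[k] k} (hχ : χ s = 1)
    {ψ : MonoidAlgebra k A →ₗ[k] k}
    (hψ : ∀ m ∈ MI ε ρ s, ∀ m' ∈ MI ε ρ s, ψ (m * m') = 0)
    {l m : MonoidAlgebra k A} (hl : ε * l = l) (hl' : l * ε = l) (hm : m ∈ MI ε ρ s) :
    ψ (l * m) = χ (ac (ofRep ρ) l s) * ψ m := by
  have h1 := hψ _ (dec h hχ hl hl') _ hm
  have h2 : ε * m = m := hm.1
  rw [sub_mul, smul_mul_assoc, h2, map_sub, map_smul, smul_eq_mul, sub_eq_zero] at h1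
  exact h1

theorem mem_of (h : Cor f ε ρ s) {v z : MonoidAlgebra k A} (hz : z * ε = z)
    (hzs : ac (ofRep ρ) z s = 0) : ε * v * z ∈ MI ε ρ s := by
  refine ⟨?_, ?_, ?_⟩
  · rw [← mul_assoc, ← mul_assoc, h.ee]
  · rw [mul_assoc, hz]
  · rw [act_app, hzs, map_zero]

/-- the map `ψ^` -/
noncomputable def Psi (ρ : Rp k (⊤ : Subgroup A) n) (s : Fin n → k) (ε : MonoidAlgebra k A)
    {m : ℕ} (u v : Fin m → MonoidAlgebra k A) (ψ : MonoidAlgebra k A →ₗ[k] k) :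
    MonoidAlgebra k A →ₗ[k] (Fin n → k) :=
  ∑ i, (ψ.comp (LinearMap.mulLeft k (ε * v i))).smulRight (ac (ofRep ρ) (u i) s)

theorem Psi_apply {m : ℕ} (u v : Fin m → MonoidAlgebra k A) (ψ : MonoidAlgebra k A →ₗ[k] k)
    (z : MonoidAlgebra k A) :
    Psi ρ s ε u v ψ z = ∑ i, ψ (ε * v i * z) • ac (ofRep ρ) (u i) s := by
  rw [Psi, LinearMap.sum_apply]
  rfl

/-- the section -/
noncomputable def dsec (ρ : Rp k (⊤ : Subgroup A) n) (ε : MonoidAlgebra k A)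
    {m : ℕ} (u v : Fin m → MonoidAlgebra k A) (χ : (Fin n → k) →ₗ[k] k) :
    (Fin n → k) →ₗ[k] MonoidAlgebra k A :=
  ∑ i, (χ.comp (ac (ofRep ρ) (ε * v i))).smulRight (u i * ε)

theorem sec_apply {m : ℕ} (u v : Fin m → MonoidAlgebra k A) (χ : (Fin n → k) →ₗ[k] k)
    (w : Fin n → k) :
    dsec ρ ε u v χ w = ∑ i, χ (ac (ofRep ρ) (ε * v i) w) • (u i * ε) := by
  rw [dsec, LinearMap.sum_apply]
  rfl

theorem sec_e (h : Cor f ε ρ s) {m : ℕ} (u v : Fin m → MonoidAlgebra k A)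
    (χ : (Fin n → k) →ₗ[k] k) (w : Fin n → k) : dsec ρ ε u v χ w * ε = dsec ρ ε u v χ w := by
  rw [sec_apply, Finset.sum_mul]
  refine Finset.sum_congr rfl fun i _ => ?_
  rw [smul_mul_assoc, mul_assoc, h.ee]

theorem f_sec (h : Cor f ε ρ s) {m : ℕ} (u v : Fin m → MonoidAlgebra k A)
    (χ : (Fin n → k) →ₗ[k] k) (w : Fin n → k) : f * dsec ρ ε u v χ w = dsec ρ ε u v χ w := by
  rw [sec_apply, Finset.mul_sum]
  refine Finset.sum_congr rfl fun i _ => ?_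
  rw [mul_smul_comm, ← mul_assoc, ← cen h, mul_assoc, fe h]

theorem sec_s (h : Cor f ε ρ s) {m : ℕ} (u v : Fin m → MonoidAlgebra k A)
    (huv : ∑ i, u i * ε * v i = f) {χ : (Fin n → k) →ₗ[k] k} (hχ : χ s = 1) (w : Fin n → k) :
    ac (ofRep ρ) (dsec ρ ε u v χ w) s = w := by
  rw [sec_apply, ac_sum, LinearMap.sum_apply]
  have h1 : ∀ i, ac (ofRep ρ) (χ (ac (ofRep ρ) (ε * v i) w) • (u i * ε)) s =
      ac (ofRep ρ) (u i * ε * v i) w := by
    intro i
    have h2 : ε * (ε * v i) = ε * v i := by rw [← mul_assoc, h.ee]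
    rw [ac_smul, LinearMap.smul_apply, act_app (u i) ε, h.es, ← map_smul, ← lam h hχ h2,
      ← act_app, mul_assoc]
  rw [Finset.sum_congr rfl fun i _ => h1 i, ← LinearMap.sum_apply, ← ac_sum, huv, h.one]
  rfl

theorem Psi_act (h : Cor f ε ρ s) {χ : (Fin n → k) →ₗ[k] k} (hχ : χ s = 1)
    {ψ : MonoidAlgebra k A →ₗ[k] k}
    (hψ : ∀ m ∈ MI ε ρ s, ∀ m' ∈ MI ε ρ s, ψ (m * m') = 0) {m : ℕ}
    (u v : Fin m → MonoidAlgebra k A) (huv : ∑ i, u i * ε * v i = f)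
    (a : MonoidAlgebra k A) {z : MonoidAlgebra k A} (hz : z * ε = z) (hfz : f * z = z)
    (hzs : ac (ofRep ρ) z s = 0) :
    ac (ofRep ρ) a (Psi ρ s ε u v ψ z) = Psi ρ s ε u v ψ (a * z) := by
  rw [Psi_apply, Psi_apply, map_sum]
  have h1 : ∀ i, ac (ofRep ρ) a (ac (ofRep ρ) (u i) s) =
      ∑ j, χ (ac (ofRep ρ) (ε * v j * a * u i * ε) s) • ac (ofRep ρ) (u j) s := by
    intro i
    have h2 : ac (ofRep ρ) a (ac (ofRep ρ) (u i) s) = ac (ofRep ρ) (f * (a * u i * ε)) s := by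
      rw [act_app f, h.one, act_app, h.es, act_app]
      rfl
    rw [h2, ← huv, Finset.sum_mul, ac_sum, LinearMap.sum_apply]
    refine Finset.sum_congr rfl fun j _ => ?_
    have h3 : ε * (ε * v j * a * u i * ε) = ε * v j * a * u i * ε := by
      simp only [← mul_assoc]
      rw [h.ee]
    rw [← map_smul, ← lam h hχ h3, ← act_app]
    simp only [mul_assoc]
  have h4 : ∀ j, ψ (ε * v j * (a * z)) =
      ∑ i, χ (ac (ofRep ρ) (ε * v j * a * u i * ε) s) * ψ (ε * v i * z) := by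
    intro j
    have h5 : ε * v j * (a * z) = ∑ i, (ε * v j * a * u i * ε) * (ε * v i * z) := by
      have h6 : ε * v j * (a * z) = ε * v j * a * (f * z) := by
        rw [hfz]
        simp only [mul_assoc]
      rw [h6, ← huv, Finset.sum_mul, Finset.mul_sum]
      refine Finset.sum_congr rfl fun i _ => ?_
      have h7 : (ε * v j * a * u i * ε) * (ε * v i * z) =
          ε * v j * a * u i * (ε * ε) * v i * z := by simp only [mul_assoc]
      rw [h7, h.ee]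
      simp only [mul_assoc]
    rw [h5, map_sum]
    refine Finset.sum_congr rfl fun i _ => ?_
    refine psi_mul h hχ hψ ?_ ?_ (mem_of h hz hzs)
    · simp only [← mul_assoc]
      rw [h.ee]
    · rw [mul_assoc, h.ee]
  have h8 : ∀ i, ac (ofRep ρ) a (ψ (ε * v i * z) • ac (ofRep ρ) (u i) s) =
      ∑ j, (χ (ac (ofRep ρ) (ε * v j * a * u i * ε) s) * ψ (ε * v i * z)) •
        ac (ofRep ρ) (u j) s := by
    intro i
    rw [map_smul, h1 i, Finset.smul_sum]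
    refine Finset.sum_congr rfl fun j _ => ?_
    rw [smul_smul, mul_comm]
  rw [Finset.sum_congr rfl fun i _ => h8 i, Finset.sum_comm]
  refine Finset.sum_congr rfl fun j _ => ?_
  rw [h4 j, Finset.sum_smul]

theorem Psi_mem (h : Cor f ε ρ s) {χ : (Fin n → k) →ₗ[k] k} (hχ : χ s = 1)
    {ψ : MonoidAlgebra k A →ₗ[k] k}
    (hψ : ∀ m ∈ MI ε ρ s, ∀ m' ∈ MI ε ρ s, ψ (m * m') = 0) {m : ℕ}
    (u v : Fin m → MonoidAlgebra k A) (huv : ∑ i, u i * ε * v i = f)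
    {z : MonoidAlgebra k A} (hz : z ∈ MI ε ρ s) : Psi ρ s ε u v ψ z = ψ z • s := by
  rw [Psi_apply]
  have h0 : ε * z = z := hz.1
  have h1 : ∀ i, ψ (ε * v i * z) • ac (ofRep ρ) (u i) s =
      ψ z • ac (ofRep ρ) (u i * ε * v i) (ac (ofRep ρ) ε s) := by
    intro i
    have h2 : ε * v i * z = (ε * v i * ε) * z := by rw [mul_assoc _ ε z, h0]
    have h3 : ε * (ε * v i * ε) = ε * v i * ε := by
      simp only [← mul_assoc]
      rw [h.ee]
    have h4 : (ε * v i * ε) * ε = ε * v i * ε := by rw [mul_assoc, h.ee]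
    rw [h2, psi_mul h hχ hψ h3 h4 hz, mul_comm, ← smul_smul, ← map_smul, ← lam h hχ h3,
      ← act_app, ← act_app]
    simp only [mul_assoc]
  rw [Finset.sum_congr rfl fun i _ => h1 i, ← Finset.smul_sum, ← LinearMap.sum_apply, ← ac_sum,
    huv, h.one, h.es]
  rfl

/-- the derivation -/
noncomputable def dd (ρ : Rp k (⊤ : Subgroup A) n) (s : Fin n → k) (ε : MonoidAlgebra k A)
    {m : ℕ} (u v : Fin m → MonoidAlgebra k A) (ψ : MonoidAlgebra k A →ₗ[k] k)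
    (χ : (Fin n → k) →ₗ[k] k) : MonoidAlgebra k A →ₗ[k] Module.End k (Fin n → k) :=
  LinearMap.mk₂ k (fun a w => Psi ρ s ε u v ψ
    (a * dsec ρ ε u v χ w - dsec ρ ε u v χ (ac (ofRep ρ) a w)))
    (fun a b w => by
      rw [← map_add]
      congr 1
      rw [ac_add, LinearMap.add_apply, map_add, add_mul]
      abel)
    (fun c a w => by
      rw [← map_smul]
      congr 1
      rw [ac_smul, LinearMap.smul_apply, map_smul, smul_mul_assoc, smul_sub])
    (fun a w w' => by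
      rw [← map_add]
      congr 1
      rw [map_add, map_add, map_add, mul_add]
      abel)
    (fun c a w => by
      rw [← map_smul]
      congr 1
      rw [map_smul, map_smul, map_smul, mul_smul_comm, smul_sub])

theorem dd_apply {m : ℕ} (u v : Fin m → MonoidAlgebra k A) (ψ : MonoidAlgebra k A →ₗ[k] k)
    (χ : (Fin n → k) →ₗ[k] k) (a : MonoidAlgebra k A) (w : Fin n → k) :
    dd ρ s ε u v ψ χ a w = Psi ρ s ε u v ψ
      (a * dsec ρ ε u v χ w - dsec ρ ε u v χ (ac (ofRep ρ) a w)) := rfl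

end DerAux

open DerAux in
theorem exists_der [Fintype A] {f ε : MonoidAlgebra k A} {n : ℕ}
    {ρ : Rp k (⊤ : Subgroup A) n} {s : Fin n → k} (h : Cor f ε ρ s)
    (ψ : MonoidAlgebra k A →ₗ[k] k)
    (hψ : ∀ m ∈ MI ε ρ s, ∀ m' ∈ MI ε ρ s, ψ (m * m') = 0) :
    ∃ d : MonoidAlgebra k A →ₗ[k] Module.End k (Fin n → k), IsDer (ofRep ρ) d ∧
      ∀ m ∈ MI ε ρ s, d m s = ψ m • s := by
  obtain ⟨m, u, v, huv⟩ := h.full
  obtain ⟨χ, hχ⟩ := exists_chi h.s0
  refine ⟨dd ρ s ε u v ψ χ, fun a b => ?_, fun z hz => ?_⟩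
  · apply LinearMap.ext
    intro w
    rw [LinearMap.add_apply, Module.End.mul_apply, Module.End.mul_apply, dd_apply, dd_apply,
      dd_apply, Psi_act h hχ hψ u v huv, ← map_add]
    · congr 1
      rw [act_app, mul_sub, ← mul_assoc]
      abel
    · rw [sub_mul, mul_assoc, sec_e h, sec_e h]
    · rw [mul_sub, ← mul_assoc, ← cen h, mul_assoc, f_sec h, f_sec h]
    · rw [ac_sub, LinearMap.sub_apply, act_app, sec_s h u v huv hχ, sec_s h u v huv hχ, sub_self]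
  · have hz1 : ε * z = z := hz.1
    have hz2 : z * ε = z := hz.2.1
    have hz3 : ac (ofRep ρ) z s = 0 := hz.2.2
    rw [dd_apply, hz3, map_zero, sub_zero]
    set l := ε * dsec ρ ε u v χ s with hl
    have hl1 : ε * l = l := by rw [hl, ← mul_assoc, h.ee]
    have hl2 : l * ε = l := by rw [hl, mul_assoc, sec_e h]
    have hl3 : ac (ofRep ρ) l s = s := by rw [hl, act_app, sec_s h u v huv hχ, h.es]
    have h1 : z * dsec ρ ε u v χ s = z * l := by rw [hl, ← mul_assoc, hz2]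
    have h2 := dec h hχ hl1 hl2
    rw [hl3, hχ, one_smul] at h2
    have h3 : z * l = z + z * (l - ε) := by rw [mul_sub, hz2]; abel
    have h4 : z * l ∈ MI ε ρ s := by
      refine ⟨by rw [← mul_assoc, hz1], by rw [mul_assoc, hl2], ?_⟩
      rw [act_app, hl3, hz3]
    rw [h1, Psi_mem h hχ hψ u v huv h4, h3, map_add, hψ z hz _ h2, add_zero]

open DerAux in
theorem inn_zero [Fintype A] {f ε : MonoidAlgebra k A} {n : ℕ}
    {ρ : Rp k (⊤ : Subgroup A) n} {s : Fin n → k} (h : Cor f ε ρ s)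
    {d : MonoidAlgebra k A →ₗ[k] Module.End k (Fin n → k)} (hd : IsInn (ofRep ρ) d)
    {m : MonoidAlgebra k A} (hm : m ∈ MI ε ρ s) : d m s = 0 := by
  obtain ⟨γ, hγ⟩ := hd
  have h2 : m * ε = m := hm.2.1
  have h3 : ac (ofRep ρ) m s = 0 := hm.2.2
  rw [hγ, LinearMap.sub_apply, Module.End.mul_apply, Module.End.mul_apply, h3, map_zero, sub_zero]
  obtain ⟨c, hc⟩ := h.dim (γ s)
  rw [← h2, act_app, hc, map_smul, h3, smul_zero]

end Pool.Agent.Lib.P0c8ca5.Cb
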