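import Mathlib
import Pool.Agent.Lib.P0c8ca5B.Defs2

/-!
# Module DerTr: derivations are inner if the identity is a full trace

PROOF.  `R` is a representation of `A` on `V`, `1 = ∑_h R h α R(h⁻¹)` with `α = ac R a` (`hc_ac`, `trK`; or `trS_ac` of
P0c8ca5R.Ac: `trS ⊤ R R (ac R a) = ac R (trK ⊤ a)`).  Put `γ = - ∑_h d(h) α R(h⁻¹)`, `d(h) = d (single h 1)`.
For `g ∈ A`: `R g γ - γ R g = - ∑_h R g d(h) α R(h⁻¹) + ∑_h d(h) α R(h⁻¹) R g`.  Now `d(g h) = R g d(h) + d(g) R h`, and the
substitution `h → g h` in the second sum gives `∑_h d(g h) α R(h⁻¹)` (`R((g h)⁻¹) R g = R(h⁻¹)`), so the difference is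
`∑_h (d(g h) - R g d(h)) α R(h⁻¹) = d(g) ∑_h R h α R(h⁻¹) = d(g)`.  By linearity it holds for all elements of `kA`
(`MonoidAlgebra.induction_on` or: two linear maps that agree on all `single g 1`).
-/

namespace Pool.Agent.Lib.P0c8ca5.Cb

open MonoidAlgebra Rk

variable {p : ℕ} {k : Type*} [Field k] {A : Type*} [Group A]
variable {V : Type*} [AddCommGroup V] [Module k V]

namespace DerTrAux

theorem ac_single [Fintype A] (R : A → Module.End k V) (g : A) :
    ac R (single g (1 : k)) = R g := by
  classical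
  rw [ac, Finset.sum_eq_single g]
  · change (Finsupp.single g (1 : k)) g • R g = R g
    rw [Finsupp.single_eq_same, one_smul]
  · intro x _ hx
    change (Finsupp.single g (1 : k)) x • R x = 0
    rw [Finsupp.single_eq_of_ne hx, zero_smul]
  · intro h; exact absurd (Finset.mem_univ _) h

theorem eq_sum [Fintype A] (a : MonoidAlgebra k A) :
    a = ∑ g, a.coeff g • single g (1 : k) := by
  classical
  ext x
  rw [coeff_sum, Finsupp.finsetSum_apply, Finset.sum_eq_single x]
  · change a.coeff x = a.coeff x • (Finsupp.single x (1 : k)) x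
    rw [Finsupp.single_eq_same, smul_eq_mul, mul_one]
  · intro y _ hy
    change a.coeff y • (Finsupp.single y (1 : k)) x = 0
    rw [Finsupp.single_eq_of_ne (Ne.symm hy), smul_zero]
  · intro h; exact absurd (Finset.mem_univ _) h

end DerTrAux

open DerTrAux in
theorem inn_of_trace [Fintype A] {R : A → Module.End k V} (hR : IsRep ⊤ R)
    {d : MonoidAlgebra k A →ₗ[k] Module.End k V} (hd : IsDer R d) {a : MonoidAlgebra k A}
    (ha : ac R (trK ⊤ a) = 1) : IsInn R d := by
  classical
  set α : Module.End k V := ac R a with hα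
  set D : A → Module.End k V := fun h => d (single h 1) with hD
  have hm : ∀ g h, R (g * h) = R g * R h := fun g h =>
    hR.mul g (Subgroup.mem_top _) h (Subgroup.mem_top _)
  have hDm : ∀ g h, D (g * h) = R g * D h + D g * R h := by
    intro g h
    have h1 := hd (single g 1) (single h 1)
    rw [single_mul_single, one_mul, ac_single, ac_single] at h1
    exact h1
  have hone : ∑ h, R h * α * R h⁻¹ = 1 := by
    rw [← ha, ← trS_ac hR le_rfl (suppIn_top _), trS]
    refine (Finset.sum_congr ?_ (fun h _ => ?_))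
    · ext h
      simp
    · rfl
  set S : Module.End k V := ∑ h, D h * α * R h⁻¹ with hS
  refine ⟨-S, ?_⟩
  have key : ∀ g, D g = S * R g - R g * S := by
    intro g
    have e1 : S * R g = ∑ h, D (g * h) * α * R h⁻¹ := by
      rw [hS, Finset.sum_mul]
      symm
      refine Fintype.sum_equiv (Equiv.mulLeft g) _ _ (fun h => ?_)
      change _ = D (g * h) * α * R (g * h)⁻¹ * R g
      rw [mul_assoc (D (g * h) * α), ← hm]
      congr 2
      group
    have e2 : R g * S = ∑ h, R g * D h * α * R h⁻¹ := by
      rw [hS, Finset.mul_sum]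
      exact Finset.sum_congr rfl (fun h _ => by simp only [mul_assoc])
    rw [e1, e2, ← Finset.sum_sub_distrib]
    have e3 : ∀ h, D (g * h) * α * R h⁻¹ - R g * D h * α * R h⁻¹
        = D g * (R h * α * R h⁻¹) := by
      intro h
      rw [hDm, add_mul, add_mul, add_sub_cancel_left]
      simp only [mul_assoc]
    rw [Finset.sum_congr rfl (fun h _ => e3 h), ← Finset.mul_sum, hone, mul_one]
  intro b
  have h1 : d b = ∑ g, b.coeff g • D g := by
    conv_lhs => rw [eq_sum b]
    rw [map_sum]
    exact Finset.sum_congr rfl (fun g _ => by rw [map_smul])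
  rw [h1, ac, mul_neg, neg_mul, sub_neg_eq_add, add_comm, ← sub_eq_add_neg, Finset.mul_sum,
    Finset.sum_mul, ← Finset.sum_sub_distrib]
  refine Finset.sum_congr rfl (fun g _ => ?_)
  rw [mul_smul_comm, smul_mul_assoc, ← smul_sub, ← key g]

end Pool.Agent.Lib.P0c8ca5.Cb
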