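import Mathlib
import Pool.Agent.Lib.P0c8ca5B.Defs2

/-!
# Module Gen: one generator modulo the square of the radical is enough

PROOF.  `M = MI ε ρ s`.  `M * M ≤ M` (products: `ε (m m') = m m'`, `(m m') s = m (m' s) = 0`).  By induction on `n`:
`M ^ (n + 1) ≤ span {τ ^ (n + 1)} ⊔ M ^ (n + 2)`: from `M ≤ span {τ} ⊔ M ^ 2` multiply by `M ^ n ≤ span {τ ^ n} ⊔ M ^ (n + 1)`
(`Submodule.sup_mul`, `Submodule.mul_sup`, `Submodule.span_mul_span`; the mixed terms are in `M ^ (n + 2)` as `τ ∈ M`).  So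
`M ≤ span {τ, τ ^ 2, ..., τ ^ n} ⊔ M ^ (n + 1)` and with `h.nil` every element of `M` is `∑_{1 ≤ i ≤ n} c_i τ ^ i =
aeval τ P * ε` (`τ ^ i * ε = τ ^ i` for `i ≥ 1`, `τ ε = τ`).  `τ` is nilpotent: `τ ^ r ∈ M ^ r = ⊥` (if `r = 0` then `⊥ = 1`, so
`1 = 0` in `kA`, excluded; or take `r + 1`).
`gen`: for `a` the element `l = ε a ε` has `l s = c • s` (`h.dim`, applied to the vector `ac R (a ε) s`; `ac R l s = ac R ε (..)`), so
`l - c • ε ∈ M`, and `l = aeval τ (C c + P) * ε`.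
The other fields: `es`, `ts`: `suppIn_top`; `full`: `h.full`; `et`, `te`: `τ ∈ M`.
-/

namespace Pool.Agent.Lib.P0c8ca5.Cb

open MonoidAlgebra Rk

variable {p : ℕ} {k : Type*} [Field k] {A : Type*} [Group A]

namespace GenAux

/-- `M ^ (n + 1) ≤ span {τ ^ (n + 1)} ⊔ M ^ (n + 2)` -/
theorem pow_le {B : Type*} [Ring B] [Algebra k B] {M : Submodule k B} {τ : B} (hτ : τ ∈ M)
    (hMM : M * M ≤ M) (hM : M ≤ Submodule.span k {τ} ⊔ M ^ 2) (n : ℕ) :
    M ^ (n + 1) ≤ Submodule.span k {τ ^ (n + 1)} ⊔ M ^ (n + 2) := by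
  induction n with
  | zero => simpa using hM
  | succ n ih =>
    have hs1 : Submodule.span k {τ} ≤ M := by
      rw [Submodule.span_singleton_le_iff_mem]
      exact hτ
    have hsn : Submodule.span k {τ ^ (n + 1)} ≤ M ^ (n + 1) := by
      rw [Submodule.span_singleton_le_iff_mem]
      exact Submodule.pow_mem_pow M hτ (n + 1)
    calc M ^ (n + 1 + 1) = M * M ^ (n + 1) := by rw [pow_succ' M (n + 1)]
      _ ≤ (Submodule.span k {τ} ⊔ M ^ 2) * (Submodule.span k {τ ^ (n + 1)} ⊔ M ^ (n + 2)) :=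
          mul_le_mul' hM ih
      _ ≤ Submodule.span k {τ ^ (n + 1 + 1)} ⊔ M ^ (n + 1 + 2) := by
          rw [Submodule.mul_sup, Submodule.sup_mul, Submodule.sup_mul]
          refine sup_le (sup_le ?_ ?_) (sup_le ?_ ?_)
          · rw [Submodule.span_mul_span, Set.singleton_mul_singleton, ← pow_succ' τ (n + 1)]
            exact le_sup_left
          · refine le_trans ?_ le_sup_right
            have h1 : M ^ (n + 1 + 2) = M ^ 2 * M ^ (n + 1) := by
              rw [← pow_add]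
              congr 1
              omega
            rw [h1]
            exact mul_le_mul' le_rfl hsn
          · refine le_trans ?_ le_sup_right
            have h1 : M ^ (n + 1 + 2) = M * M ^ (n + 2) := by
              rw [← pow_succ' M (n + 2)]
            rw [h1]
            exact mul_le_mul' hs1 le_rfl
          · refine le_trans ?_ le_sup_right
            have h1 : M ^ (n + 1 + 2) = M * M ^ (n + 2) := by
              rw [← pow_succ' M (n + 2)]
            rw [h1, pow_two]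
            exact mul_le_mul' hMM le_rfl

/-- the polynomials in `τ` times `ε` -/
noncomputable def T {B : Type*} [Ring B] [Algebra k B] (ε τ : B) : Submodule k B :=
  LinearMap.range ((LinearMap.mulRight k ε) ∘ₗ (Polynomial.aeval τ).toLinearMap)

theorem mem_T {B : Type*} [Ring B] [Algebra k B] {ε τ b : B} :
    b ∈ T (k := k) ε τ ↔ ∃ P : Polynomial k, Polynomial.aeval τ P * ε = b := Iff.rfl

theorem pow_mul_eq {B : Type*} [Ring B] {ε τ : B} (te : τ * ε = τ) (n : ℕ) :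
    τ ^ (n + 1) * ε = τ ^ (n + 1) := by
  rw [pow_succ, mul_assoc, te]

theorem le_T {B : Type*} [Ring B] [Algebra k B] {M : Submodule k B} {ε τ : B} (hτ : τ ∈ M)
    (te : τ * ε = τ) (hMM : M * M ≤ M) (hM : M ≤ Submodule.span k {τ} ⊔ M ^ 2) {r : ℕ}
    (hr : M ^ r = ⊥) : M ≤ T (k := k) ε τ := by
  have h1 : ∀ n : ℕ, M ≤ T (k := k) ε τ ⊔ M ^ (n + 1) := by
    intro n
    induction n with
    | zero =>
      rw [zero_add, pow_one]
      exact le_sup_right
    | succ n ih =>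
      refine ih.trans (sup_le le_sup_left ((pow_le hτ hMM hM n).trans (sup_le_sup ?_ le_rfl)))
      rw [Submodule.span_singleton_le_iff_mem, mem_T]
      refine ⟨Polynomial.X ^ (n + 1), ?_⟩
      rw [map_pow, Polynomial.aeval_X, pow_mul_eq te]
  have h2 := h1 r
  rw [pow_succ, hr, Submodule.bot_mul, sup_bot_eq] at h2
  exact h2

end GenAux

open GenAux in
theorem Cor.st [Fintype A] {f ε : MonoidAlgebra k A} {n : ℕ}
    {ρ : Rp k (⊤ : Subgroup A) n} {s : Fin n → k} (h : Cor f ε ρ s) {τ : MonoidAlgebra k A}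
    (hτ : τ ∈ MI ε ρ s) (hM : MI ε ρ s ≤ Submodule.span k {τ} ⊔ MI ε ρ s ^ 2) :
    St ⊤ f ε τ := by
  have hmul : ∀ a b : MonoidAlgebra k A, ac (ofRep ρ) (a * b) = ac (ofRep ρ) a * ac (ofRep ρ) b :=
    fun a b => ac_mul (isRep_ofRep ρ) (suppIn_top _) (suppIn_top _)
  have hMM : MI ε ρ s * MI ε ρ s ≤ MI ε ρ s := by
    rw [Submodule.mul_le]
    rintro m ⟨h1, h2, h3⟩ m' ⟨h1', h2', h3'⟩
    refine ⟨by rw [← mul_assoc, h1], by rw [mul_assoc, h2'], ?_⟩
    rw [hmul]
    change ac (ofRep ρ) m (ac (ofRep ρ) m' s) = 0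
    rw [h3', map_zero]
  have te : τ * ε = τ := hτ.2.1
  have et : ε * τ = τ := hτ.1
  obtain ⟨r, hr⟩ := h.nil
  have hT : MI ε ρ s ≤ T (k := k) ε τ := le_T hτ te hMM hM hr
  refine ⟨h.blk, suppIn_top _, suppIn_top _, h.ee, h.ef, et, te, ⟨r, ?_⟩, ?_, ?_⟩
  · have h1 := Submodule.pow_mem_pow (MI ε ρ s) hτ r
    rw [hr] at h1
    exact (Submodule.mem_bot k).1 h1
  · intro a _
    obtain ⟨c, hc⟩ := h.dim (ac (ofRep ρ) (a * ε) s)
    have hl : ε * a * ε - c • ε ∈ MI ε ρ s := by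
      refine ⟨?_, ?_, ?_⟩
      · rw [mul_sub, mul_smul_comm, h.ee, mul_assoc ε a ε, ← mul_assoc ε ε (a * ε), h.ee]
      · rw [sub_mul, smul_mul_assoc, h.ee, mul_assoc (ε * a) ε ε, h.ee]
      · rw [ac_sub, ac_smul, LinearMap.sub_apply, LinearMap.smul_apply, h.es, mul_assoc, hmul]
        change ac (ofRep ρ) ε (ac (ofRep ρ) (a * ε) s) - c • s = 0
        rw [hc, sub_self]
    obtain ⟨P, hP⟩ := mem_T.1 (hT hl)
    refine ⟨Polynomial.C c + P, ?_⟩
    rw [map_add, Polynomial.aeval_C, add_mul, hP, Algebra.algebraMap_eq_smul_one,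
      smul_mul_assoc, one_mul, add_sub_cancel]
  · obtain ⟨m, u, v, huv⟩ := h.full
    exact ⟨m, u, v, fun _ => suppIn_top _, fun _ => suppIn_top _, huv⟩

end Pool.Agent.Lib.P0c8ca5.Cb
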