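import Mathlib
import Pool.Agent.Lib.P0c8ca5B.CorX
import Pool.Agent.Lib.P0c8ca5B.Der
import Pool.Agent.Lib.P0c8ca5B.DerTr
import Pool.Agent.Lib.P0c8ca5B.Gen
import Pool.Agent.Lib.P0c8ca5R.CardDZ

/-!
# Module DzSt: blocks of defect zero

PROOF.  `exists_rep hf.blk`, `unique_rep hf` (P0c8ca5R.CardDZ), `exists_cor`: `hc : Cor f ε ρ s`.  `lemC hf hf.blk.invBy
le_rfl Subgroup.le_normalizer (fun x _ => ⟨0, Subgroup.mem_top _⟩)` gives `a` with `f = trK ⊤ a`, so `ac (ofRep ρ) (trK ⊤ a) = 1`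
and every derivation is inner (`inn_of_trace`).  `MI ≤ MI ^ 2`: otherwise there is a linear form `ψ`, zero on `MI ^ 2`, with
`ψ m ≠ 0` for some `m ∈ MI` (`Submodule.exists_le_ker_of_notMem`); `exists_der` and `inn_zero` give `ψ m • s = 0`.  `hc.st` with
`τ = 0`.
-/

namespace Pool.Agent.Lib.P0c8ca5.Cb

open MonoidAlgebra Rk

variable {p : ℕ} {k : Type*} [Field k] {A : Type*} [Group A]

theorem dz_st [Fact p.Prime] [CharP k p] [IsAlgClosed k] [Fintype A]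
    {f : MonoidAlgebra k A} (hf : IsDZ p ⊤ f) : ∃ ε, St ⊤ f ε 0 := by
  classical
  obtain ⟨n, ρ, hρ, hone⟩ := CardDZAux.exists_rep hf.blk
  obtain ⟨ε, s, hc⟩ := exists_cor hf.blk hρ hone
    (fun m σ hσ h1 => CardDZAux.unique_rep hf hσ hρ h1 hone)
  obtain ⟨P, a, -, -, -, -, -, -, -, hfa, -⟩ := lemC hf hf.blk.invBy (le_refl (⊤ : Subgroup A))
    Subgroup.le_normalizer (fun x _ => ⟨0, Subgroup.mem_top _⟩)
  have ha : ac (ofRep ρ) (trK ⊤ a) = 1 := by rw [← hfa]; exact hc.one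
  refine ⟨ε, hc.st (τ := 0) (Submodule.zero_mem _) ?_⟩
  have key : MI ε ρ s ≤ MI ε ρ s ^ 2 := by
    intro m hm
    by_contra hm2
    obtain ⟨ψ, hψm, hψ⟩ := Submodule.exists_le_ker_of_notMem hm2
    have hψ' : ∀ m ∈ MI ε ρ s, ∀ m' ∈ MI ε ρ s, ψ (m * m') = 0 := by
      intro m hm m' hm'
      have h1 : m * m' ∈ MI ε ρ s ^ 2 := by
        rw [pow_two]
        exact Submodule.mul_mem_mul hm hm'
      exact hψ h1
    obtain ⟨d, hd, hds⟩ := exists_der hc ψ hψ'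
    have h2 := inn_zero hc (inn_of_trace (isRep_ofRep ρ) hd ha) hm
    rw [hds m hm, smul_eq_zero] at h2
    exact h2.elim hψm hc.s0
  exact key.trans le_sup_right

end Pool.Agent.Lib.P0c8ca5.Cb
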