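import Mathlib
import Pool.Agent.Lib.P0c8ca5B.Defs2
import Pool.Agent.Lib.P0c8ca5R.Inf3

/-!
# Module PrC: a central element of order `p`

All easy.  `norm`, `cent`: every `g` commutes with `x`, so with the elements of `D₁ = zpowers x` (`Subgroup.mem_zpowers_iff`,
`Commute.zpow_right`).  `isPGroup`: `IsPGroup.of_card` (`Nat.card_zpowers`).  `sec_top`: every element of `NQ D₁` is `qm D₁ n hn`
(`qm_surj`, `mem_sec` in P0c8ca5.Sect).  `card_lt`: `Inf3Aux.card_secK` (P0c8ca5R.Inf3) with `K = ⊤`, `R = D₁`, and `sec_top`.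
`invBy`: `InvBy D₁ a` as `D₁` is central.  `yel_comm`: `x g = g x`; extend by linearity (`MonoidAlgebra.induction_on`, or both sides
are linear in `a`).  `yel_pow`: `sub_pow_char` (commuting elements: `sub_pow_char_of_commute`), `single_pow`, `pow_orderOf_eq_one`; `kA`
has characteristic `p`.  `proj_mul'`: `proj_mul` (P0c8ca5.Sect) with `invBy`.  `proj_yel`: `proj_single'` or coefficients (`coeff_proj`).
`proj_single'`: `coeff_proj`: both sides have coefficient `1` on the coset of `g`, else `0`.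
-/

namespace Pool.Agent.Lib.P0c8ca5.Cb

open MonoidAlgebra Rk

variable {p : ℕ} {k : Type*} [Field k] {A : Type*} [Group A] {x : A} {D₁ : Subgroup A}

namespace PrCAux

theorem comm_D (h : Cen p x D₁) {d : A} (hd : d ∈ D₁) (g : A) : g * d = d * g := by
  rw [h.hD₁, Subgroup.mem_zpowers_iff] at hd
  obtain ⟨n, rfl⟩ := hd
  have h1 : Commute g x := h.cen g
  exact (h1.zpow_right n).eq

theorem mem_D (h : Cen p x D₁) : x ∈ D₁ := by
  rw [h.hD₁]
  exact Subgroup.mem_zpowers x

end PrCAux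

theorem Cen.norm (h : Cen p x D₁) : Subgroup.normalizer (D₁ : Set A) = ⊤ := by
  rw [eq_top_iff]
  intro g _
  rw [Subgroup.mem_normalizer_iff]
  intro d
  constructor
  · intro hd
    rw [PrCAux.comm_D h hd g, mul_assoc, mul_inv_cancel, mul_one]
    exact hd
  · intro hd
    have h1 := PrCAux.comm_D h hd g⁻¹
    have h2 : g⁻¹ * (g * d * g⁻¹) = d * g⁻¹ := by group
    rw [h2] at h1
    have h3 : d = g * d * g⁻¹ := mul_right_cancel h1
    rw [h3]
    exact hd

theorem Cen.mem_norm (h : Cen p x D₁) (g : A) : g ∈ Subgroup.normalizer (D₁ : Set A) := by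
  rw [h.norm]
  exact Subgroup.mem_top g

theorem Cen.cent (h : Cen p x D₁) : Subgroup.centralizer (D₁ : Set A) = ⊤ := by
  rw [eq_top_iff]
  intro g _
  rw [Subgroup.mem_centralizer_iff]
  intro d hd
  exact (PrCAux.comm_D h hd g).symm

theorem Cen.isPGroup [Fact p.Prime] (h : Cen p x D₁) : IsPGroup p D₁ := by
  refine IsPGroup.of_card (n := 1) ?_
  rw [h.hD₁, Nat.card_zpowers, h.ord, pow_one]

theorem Cen.sec_top (h : Cen p x D₁) : sec ⊤ D₁ = ⊤ := by
  rw [eq_top_iff]
  intro w _
  obtain ⟨n, hn, rfl⟩ := qm_surj w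
  exact qm_mem_sec hn (Subgroup.mem_top n)

theorem Cen.card_lt [Fact p.Prime] [Finite A] (h : Cen p x D₁) :
    Nat.card (NQ D₁) < Nat.card A := by
  have h1 := Inf3Aux.card_secK (K := ⊤) (R := D₁) le_top (by rw [h.norm])
  rw [h.sec_top, Subgroup.card_top, Subgroup.card_top] at h1
  have h2 : Nat.card D₁ = p := by rw [h.hD₁, Nat.card_zpowers, h.ord]
  rw [h2] at h1
  have h3 : 2 ≤ p := (Fact.out : p.Prime).two_le
  have h4 : 0 < Nat.card (NQ D₁) := Nat.card_pos
  nlinarith

theorem Cen.invBy (h : Cen p x D₁) (a : MonoidAlgebra k A) : InvBy D₁ a := by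
  intro g hg y
  rw [← PrCAux.comm_D h hg y, mul_assoc, mul_inv_cancel, mul_one]

theorem Cen.yel_comm (h : Cen p x D₁) (a : MonoidAlgebra k A) : yel k x * a = a * yel k x := by
  have h1 : single x (1 : k) * a = a * single x 1 :=
    (invBy_iff_commute.1 (h.invBy a) x (PrCAux.mem_D h)).eq
  unfold yel
  rw [sub_mul, mul_sub, h1, one_mul, mul_one]

theorem Cen.yel_pow [Fact p.Prime] [CharP k p] (h : Cen p x D₁) : yel k x ^ p = 0 := by
  have hc : CharP (MonoidAlgebra k A) p :=
    charP_of_injective_algebraMap (algebraMap k (MonoidAlgebra k A)).injective p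
  unfold yel
  rw [sub_pow_char_of_commute p (Commute.one_right _), one_pow, single_pow, one_pow]
  have h1 : x ^ p = 1 := by
    rw [← h.ord]
    exact pow_orderOf_eq_one x
  rw [h1, ← MonoidAlgebra.one_def, sub_self]

theorem Cen.proj_mul' [Fact p.Prime] [CharP k p] [Fintype A] (h : Cen p x D₁)
    (a b : MonoidAlgebra k A) : proj D₁ (a * b) = proj D₁ a * proj D₁ b := by
  exact proj_mul h.isPGroup (h.invBy a) (h.invBy b)

theorem Cen.proj_single' [Fintype A] (h : Cen p x D₁) (g : A) :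
    proj D₁ (single g (1 : k)) = single (qm D₁ g (h.mem_norm g)) 1 := by
  classical
  ext w
  obtain ⟨n, hn, rfl⟩ := qm_surj w
  rw [coeff_proj]
  have h1 : ∀ y, (single g (1 : k)).coeff y = if y = g then 1 else 0 := by
    intro y
    change (Finsupp.single g (1 : k)) y = _
    rw [Finsupp.single_apply]
    simp only [eq_comm]
  have h2 : (single (qm D₁ g (h.mem_norm g)) (1 : k)).coeff (qm D₁ n hn)
      = if n⁻¹ * g ∈ D₁ then 1 else 0 := by
    change (Finsupp.single (qm D₁ g (h.mem_norm g)) (1 : k)) (qm D₁ n hn) = _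
    rw [Finsupp.single_apply]
    have h3 : qm D₁ g (h.mem_norm g) = qm D₁ n hn ↔ n⁻¹ * g ∈ D₁ := by
      rw [eq_comm, qm_eq_iff]
    simp only [h3]
  rw [h2, Finset.sum_eq_single g]
  · rw [h1, if_pos rfl]
  · intro y _ hy
    rw [h1, if_neg hy, ite_self]
  · intro h3
    exact absurd (Finset.mem_univ _) h3

theorem Cen.proj_yel [Fintype A] (h : Cen p x D₁) : proj D₁ (yel k x) = 0 := by
  have h1 : yel k x = single x (1 : k) + (-1 : k) • (1 : MonoidAlgebra k A) := by
    unfold yel
    rw [neg_one_smul, sub_eq_add_neg]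
  have h2 : qm D₁ x (h.mem_norm x) = 1 := qm_eq_one_iff.2 (PrCAux.mem_D h)
  rw [h1, proj_add, proj_smul, proj_one, h.proj_single', h2, neg_one_smul, ← MonoidAlgebra.one_def]
  exact add_neg_cancel _

end Pool.Agent.Lib.P0c8ca5.Cb
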