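import Mathlib
import Pool.Agent.Lib.P0c8ca5B.PrC

/-!
# Module PrK: the kernel of the projection modulo a central subgroup

PROOF.  `π` is given by `proj D₁` (`proj_one`, `proj_add`, `proj_smul` in P0c8ca5.Official, `Cen.proj_mul'`; it is
convenient to build an `AlgHom` with `AlgHom.ofLinearMap`).  Surjective: `NQ D₁` is the set of the `qm D₁ g _` (`qm_surj`), use
`Cen.proj_single'` and linearity.  Kernel: choose for every `w : NQ D₁` a representative `r(w) ∈ A` (`qm D₁ (r w) _ = w`).  For
`g ∈ A` with `w = qm D₁ g _` we have `g = r(w) x ^ i` for some natural number `i` (`qm_eq_iff`, `D₁ = zpowers x`, `x` of finite order), so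
`single g 1 - single (r w) 1 = single (r w) 1 * (single x 1 ^ i - 1) = yel * c_g` (`mul_geom_sum` or `sub_one_mul_geom..`; `yel`
is central).  If `proj D₁ a = 0` then `a = ∑_g a(g) • single g 1 = ∑_g a(g) • (single g 1 - single (r (g D₁)) 1)` because
`∑_g a(g) • single (r (g D₁)) 1 = ∑_w (∑_{g ∈ w} a(g)) • single (r w) 1 = 0` (`coeff_proj`: the inner sum is the coefficient of
`proj D₁ a` at `w`).  So `a = yel * ∑_g a(g) • c_g`.
-/

namespace Pool.Agent.Lib.P0c8ca5.Cb

open MonoidAlgebra Rk

variable {p : ℕ} {k : Type*} [Field k] {A : Type*} [Group A] {x : A} {D₁ : Subgroup A}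

namespace PrKAux

theorem smul_coeff {B : Type*} (c : k) (a : MonoidAlgebra k B) (w : B) :
    (c • a).coeff w = c * a.coeff w := rfl

theorem add_coeff {B : Type*} (a b : MonoidAlgebra k B) (w : B) :
    (a + b).coeff w = a.coeff w + b.coeff w := rfl

theorem decomp [Fact p.Prime] [CharP k p] [Fintype A] [Fintype (NQ D₁)] (h : Cen p x D₁) (r : NQ D₁ → A)
    (hr : ∀ w, qm D₁ (r w) (h.mem_norm (r w)) = w) (a : MonoidAlgebra k A) :
    ∃ a', a = yel k x * a' + ∑ w, (proj D₁ a).coeff w • single (r w) (1 : k) := by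
  classical
  induction a using MonoidAlgebra.induction_on with
  | of g =>
    have h1 : qm D₁ (r (qm D₁ g (h.mem_norm g))) (h.mem_norm _) = qm D₁ g (h.mem_norm g) := hr _
    rw [qm_eq_iff] at h1
    have h1' : (r (qm D₁ g (h.mem_norm g)))⁻¹ * g ∈ Subgroup.zpowers x :=
      (SetLike.ext_iff.1 h.hD₁ _).1 h1
    have hfin : IsOfFinOrder x := isOfFinOrder_of_finite x
    obtain ⟨i, hi⟩ := (hfin.mem_powers_iff_mem_zpowers).2 h1'
    have hg : g = r (qm D₁ g (h.mem_norm g)) * x ^ i := by
      have hi' : x ^ i = (r (qm D₁ g (h.mem_norm g)))⁻¹ * g := hi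
      rw [hi']; group
    have hsum : ∑ w, (proj D₁ (single g (1 : k))).coeff w • single (r w) (1 : k)
        = single (r (qm D₁ g (h.mem_norm g))) 1 := by
      rw [h.proj_single', Finset.sum_eq_single (qm D₁ g (h.mem_norm g))]
      · have : (single (qm D₁ g (h.mem_norm g)) (1 : k) : MonoidAlgebra k (NQ D₁)).coeff
            (qm D₁ g (h.mem_norm g)) = 1 := by
          change (Finsupp.single _ (1 : k) : NQ D₁ →₀ k) _ = 1
          rw [Finsupp.single_apply, if_pos rfl]
        rw [this, one_smul]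
      · intro w _ hw
        have : (single (qm D₁ g (h.mem_norm g)) (1 : k) : MonoidAlgebra k (NQ D₁)).coeff w = 0 := by
          change (Finsupp.single _ (1 : k) : NQ D₁ →₀ k) _ = 0
          rw [Finsupp.single_apply, if_neg (fun e => hw e.symm)]
        rw [this, zero_smul]
      · intro h'; exact absurd (Finset.mem_univ _) h'
    refine ⟨single (r (qm D₁ g (h.mem_norm g))) 1 * ∑ j ∈ Finset.range i, (single x (1 : k)) ^ j, ?_⟩
    rw [MonoidAlgebra.of_apply, hsum, ← mul_assoc, h.yel_comm, mul_assoc]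
    have h2 : yel k x * ∑ j ∈ Finset.range i, (single x (1 : k)) ^ j = single (x ^ i) 1 - 1 := by
      unfold yel
      rw [mul_geom_sum, MonoidAlgebra.single_pow, one_pow]
    rw [h2, mul_sub, mul_one, MonoidAlgebra.single_mul_single, mul_one, ← hg, sub_add_cancel]
  | add a b ha hb =>
    obtain ⟨a', ha'⟩ := ha
    obtain ⟨b', hb'⟩ := hb
    refine ⟨a' + b', ?_⟩
    rw [proj_add, mul_add]
    simp only [add_coeff, add_smul, Finset.sum_add_distrib]
    nth_rewrite 1 [ha', hb']
    abel
  | smul c a ha =>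
    obtain ⟨a', ha'⟩ := ha
    refine ⟨c • a', ?_⟩
    rw [proj_smul, mul_smul_comm]
    simp only [smul_coeff, mul_smul]
    rw [← Finset.smul_sum, ← smul_add, ← ha']

end PrKAux

open PrKAux

theorem Cen.exists_pi [Fact p.Prime] [CharP k p] [Fintype A] (h : Cen p x D₁) :
    ∃ π : MonoidAlgebra k A →ₐ[k] MonoidAlgebra k (NQ D₁), (∀ a, π a = proj D₁ a) ∧
      Function.Surjective π ∧ ∀ a, π a = 0 → ∃ a', a = yel k x * a' := by
  classical
  haveI : Fintype (NQ D₁) := Fintype.ofFinite _
  let L : MonoidAlgebra k A →ₗ[k] MonoidAlgebra k (NQ D₁) :=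
    { toFun := fun a => proj D₁ a
      map_add' := fun a b => proj_add a b
      map_smul' := fun c a => proj_smul c a }
  refine ⟨AlgHom.ofLinearMap L (proj_one) (fun a b => h.proj_mul' a b), fun a => rfl, ?_, ?_⟩
  · intro b
    change ∃ a, proj D₁ a = b
    induction b using MonoidAlgebra.induction_on with
    | of w =>
      obtain ⟨g, hg, rfl⟩ := qm_surj w
      exact ⟨single g 1, h.proj_single' g⟩
    | add a b ha hb =>
      obtain ⟨a', ha'⟩ := ha
      obtain ⟨b', hb'⟩ := hb
      exact ⟨a' + b', by rw [proj_add, ha', hb']⟩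
    | smul c a ha =>
      obtain ⟨a', ha'⟩ := ha
      exact ⟨c • a', by rw [proj_smul, ha']⟩
  · intro a ha
    have ha' : proj D₁ a = 0 := ha
    have hr : ∀ w : NQ D₁, ∃ g : A, qm D₁ g (h.mem_norm g) = w := by
      intro w
      obtain ⟨g, hg, rfl⟩ := qm_surj w
      exact ⟨g, rfl⟩
    choose r hr using hr
    obtain ⟨a', h1⟩ := decomp h r hr a
    refine ⟨a', ?_⟩
    rw [ha'] at h1
    have h2 : ∑ w, (0 : MonoidAlgebra k (NQ D₁)).coeff w • single (r w) (1 : k) = 0 := by
      refine Finset.sum_eq_zero fun w _ => ?_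
      have : (0 : MonoidAlgebra k (NQ D₁)).coeff w = 0 := rfl
      rw [this, zero_smul]
    rw [h2, add_zero] at h1
    exact h1

end Pool.Agent.Lib.P0c8ca5.Cb
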