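import Mathlib
import Pool.Agent.Lib.P0c8ca5B.PrK

/-!
# Module PrI: lifting idempotents modulo a central subgroup of order `p`

Let `π` be the homomorphism of `Cen.exists_pi`, `yel = yel k x`, central with `yel ^ p = 0`.
PROOF.  Take `u₀` with `π u₀ = u'`, `u₁ = u₀ f`, `π u₁ = u'`, `u₁ f = u₁`.  `u₁ - u₁ ^ 2` is in the kernel, so it is
`yel * c` and its `p`-th power is `yel ^ p * c ^ p = 0`.  `u = 1 - (1 - u₁ ^ p) ^ p` is idempotent (Mathlib:
`isIdempotentElem_one_sub_one_sub_pow_pow` in RingTheory/Idempotents), `π u = 1 - (1 - u') ^ p = u'`, and `u f = u` since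
`(1 - u₁ ^ p) (1 - f) = 1 - f` and `1 - u = (1 - u₁ ^ p) ^ p`, so `(1 - u) (1 - f) = 1 - f`.
-/

namespace Pool.Agent.Lib.P0c8ca5.Cb

open MonoidAlgebra Rk

variable {p : ℕ} {k : Type*} [Field k] {A : Type*} [Group A] {x : A} {D₁ : Subgroup A}

namespace PrIAux

/-- The polynomial lift `1 - (1 - a ^ n) ^ n` of an idempotent is itself. -/
theorem lift_fix {R : Type*} [Ring R] {a : R} (ha : a * a = a) {n : ℕ} (hn : n ≠ 0) :
    1 - (1 - a ^ n) ^ n = a := by
  have h1 : IsIdempotentElem a := ha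
  have h2 : IsIdempotentElem (1 - a) := h1.one_sub
  obtain ⟨m, rfl⟩ := Nat.exists_eq_succ_of_ne_zero hn
  rw [h1.pow_succ_eq, h2.pow_succ_eq]
  exact sub_sub_cancel 1 a

theorem pow_mul_fix {R : Type*} [Ring R] {a c : R} (h : a * c = c) (n : ℕ) : a ^ n * c = c := by
  induction n with
  | zero => simp
  | succ n ih => rw [pow_succ, mul_assoc, h, ih]

end PrIAux

theorem Cen.lift_idem [Fact p.Prime] [CharP k p] [Fintype A] (h : Cen p x D₁)
    {f : MonoidAlgebra k A} (hf : IsBlock ⊤ f) {u' : MonoidAlgebra k (NQ D₁)}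
    (hu : u' * u' = u') (huf : u' * proj D₁ f = u') :
    ∃ u : MonoidAlgebra k A, u * u = u ∧ u * f = u ∧ proj D₁ u = u' := by
  classical
  obtain ⟨π, hπ, hsur, hker⟩ := Cen.exists_pi (k := k) h
  have hp : p ≠ 0 := (Fact.out : p.Prime).ne_zero
  obtain ⟨u₀, hu₀⟩ := hsur u'
  have hff : f * f = f := hf.idem
  set u₁ : MonoidAlgebra k A := u₀ * f with hu₁
  have h1f : u₁ * f = u₁ := by rw [hu₁, mul_assoc, hff]
  have hπ1 : π u₁ = u' := by rw [hu₁, map_mul, hu₀, hπ f, huf]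
  have hz : π (u₁ - u₁ ^ 2) = 0 := by
    rw [map_sub, map_pow, hπ1, pow_two, hu, sub_self]
  obtain ⟨c, hc⟩ := hker _ hz
  have hnil : (u₁ - u₁ ^ 2) ^ p = 0 := by
    have hcomm : Commute (yel k x) c := h.yel_comm c
    rw [hc, hcomm.mul_pow, h.yel_pow, zero_mul]
  have hidem := isIdempotentElem_one_sub_one_sub_pow_pow u₁ p hnil
  refine ⟨1 - (1 - u₁ ^ p) ^ p, hidem, ?_, ?_⟩
  · have h1 : u₁ * (1 - f) = 0 := by rw [mul_sub, mul_one, h1f, sub_self]
    have h2 : u₁ ^ p * (1 - f) = 0 := by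
      obtain ⟨m, rfl⟩ := Nat.exists_eq_succ_of_ne_zero hp
      rw [pow_succ, mul_assoc, h1, mul_zero]
    have h3 : (1 - u₁ ^ p) * (1 - f) = 1 - f := by rw [sub_mul, one_mul, h2, sub_zero]
    have h4 : (1 - u₁ ^ p) ^ p * (1 - f) = 1 - f := PrIAux.pow_mul_fix h3 p
    have h5 : (1 - (1 - u₁ ^ p) ^ p) * (1 - f) = 0 := by
      rw [sub_mul, one_mul, h4, sub_self]
    rw [mul_sub, mul_one, sub_eq_zero] at h5
    exact h5.symm
  · rw [← hπ, map_sub, map_pow, map_sub, map_pow, map_one, hπ1]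
    exact PrIAux.lift_fix hu hp

end Pool.Agent.Lib.P0c8ca5.Cb
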