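import Mathlib
import Pool.Agent.Lib.P0c8ca5B.PrI

/-!
# Module LiftA: lifting `ε'` and `τ'`

Let `π` be the homomorphism of `Cen.exists_pi`, `yel` central, `yel ^ p = 0`.
PROOF.  `ε` from `Cen.lift_idem` (`hs.ee`, `hs.ef`): `ε ε = ε`, `ε f = ε`, `π ε = ε'`.  Take `t₀` with `π t₀ = τ'` and `t = ε t₀ ε`:
`π t = ε' τ' ε' = τ'`, `ε t = t = t ε`.
`nil`: `τ' ^ m = 0`, so `t ^ m = yel * c` and `t ^ (m p) = yel ^ p * c ^ p = 0`.
`full`: lift `u_i'`, `v_i'` of `hs.full` to `u_i`, `v_i`; `c = (∑ u_i ε v_i) f`, `w = f - c`; `π w = 0`, so `w ^ p = 0`, and `w f = w`, `f` is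
central.  `f = f ^ p - w ^ p = (f - w) * z = c * z` with `z = ∑_{j < p} f ^ j w ^ (p - 1 - j)` (`Commute.mul_geom_sum₂`,
`p ≥ 1`), so `f = ∑ u_i ε (v_i f z)`.
`gen`: `π (ε a ε) = ε' π(a) ε' = aeval τ' P * ε' = π (aeval t P * ε)` (`hs.gen`, `Polynomial.aeval_algHom_apply`), so
`ε a ε - aeval t P * ε = yel * c`; multiply by `ε` from both sides: it is `yel * (ε c ε)` (`ε (aeval t P * ε) ε = aeval t P * ε`:
`ε` commutes with `t`).
`comm`: by induction on `j` and `gen`: for every `a` and `j` there are `b` commuting with `t` and `a'` with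
`ε a ε = b + yel ^ j * (ε a' ε)` (`aeval t P * ε` commutes with `t`; so does `yel ^ j *` it).  Take `j = p`.
-/

namespace Pool.Agent.Lib.P0c8ca5.Cb

open MonoidAlgebra Rk

variable {p : ℕ} {k : Type*} [Field k] {A : Type*} [Group A] {x : A} {D₁ : Subgroup A}

namespace LiftAAux

variable {k : Type*} [Field k] {S T : Type*} [Ring S] [Algebra k S] [Ring T] [Algebra k T]

theorem nil {p : ℕ} {y : S} (hy : ∀ a, y * a = a * y) (hyp : y ^ p = 0) (π : S →ₐ[k] T)
    (hker : ∀ a, π a = 0 → ∃ a', a = y * a') {a : S} (h : IsNilpotent (π a)) : IsNilpotent a := by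
  obtain ⟨m, hm⟩ := h
  obtain ⟨c, hc⟩ := hker (a ^ m) (by rw [map_pow, hm])
  refine ⟨m * p, ?_⟩
  have hcom : Commute y c := hy c
  rw [pow_mul, hc, hcom.mul_pow, hyp, zero_mul]

theorem full {p : ℕ} (hp : 1 ≤ p) {y : S} (hy : ∀ a, y * a = a * y) (hyp : y ^ p = 0) (π : S →ₐ[k] T)
    (hsur : Function.Surjective π) (hker : ∀ a, π a = 0 → ∃ a', a = y * a') {f ε : S}
    (hff : f * f = f) (hfc : ∀ a, f * a = a * f) {m : ℕ} {u' v' : Fin m → T}
    (h : ∑ i, u' i * π ε * v' i = π f) :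
    ∃ (m : ℕ) (u v : Fin m → S), ∑ i, u i * ε * v i = f := by
  choose u hu using fun i => hsur (u' i)
  choose v hv using fun i => hsur (v' i)
  obtain ⟨c, hc⟩ : ∃ c, c = (∑ i, u i * ε * v i) * f := ⟨_, rfl⟩
  have hw : π (f - c) = 0 := by
    rw [map_sub, hc, map_mul, map_sum]
    have : ∑ i, π (u i * ε * v i) = ∑ i, u' i * π ε * v' i := by
      refine Finset.sum_congr rfl fun i _ => ?_
      rw [map_mul, map_mul, hu, hv]
    rw [this, h, ← map_mul, hff, sub_self]
  obtain ⟨d, hd⟩ := hker _ hw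
  have hwp : (f - c) ^ p = 0 := by
    have hcom : Commute y d := hy d
    rw [hd, hcom.mul_pow, hyp, zero_mul]
  have hfp : f ^ p = f := by
    have hI : IsIdempotentElem f := hff
    exact hI.pow_eq (by omega)
  have hcom : Commute f (f - c) := hfc _
  have hg := hcom.mul_geom_sum₂ p
  rw [hwp, sub_zero, hfp, sub_sub_cancel] at hg
  obtain ⟨z, hz⟩ : ∃ z, z = ∑ i ∈ Finset.range p, f ^ i * (f - c) ^ (p - 1 - i) := ⟨_, rfl⟩
  rw [← hz, hc] at hg
  refine ⟨m, u, fun i => v i * f * z, ?_⟩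
  calc ∑ i, u i * ε * (v i * f * z) = ∑ i, (u i * ε * v i) * (f * z) := by
        refine Finset.sum_congr rfl fun i _ => ?_
        noncomm_ring
    _ = (∑ i, u i * ε * v i) * (f * z) := by rw [Finset.sum_mul]
    _ = f := by rw [← mul_assoc, hg]

theorem com_aeval {e t : S} (h : e * t = t * e) (P : Polynomial k) :
    e * Polynomial.aeval t P = Polynomial.aeval t P * e := by
  have h1 : Commute e t := h
  induction P using Polynomial.induction_on' with
  | add P Q hP hQ => rw [map_add, mul_add, add_mul, hP, hQ]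
  | monomial n a =>
    rw [Polynomial.aeval_monomial]
    have h2 : Commute e (algebraMap k S a * t ^ n) := (show Commute e (algebraMap k S a) from (Algebra.commutes a e).symm).mul_right (h1.pow_right n)
    exact h2

theorem gen {y : S} (hy : ∀ a, y * a = a * y) (π : S →ₐ[k] T)
    (hker : ∀ a, π a = 0 → ∃ a', a = y * a') {ε t : S} (hee : ε * ε = ε) (het : ε * t = t)
    (hte : t * ε = t) (a : S) (P : Polynomial k)
    (h : π ε * π a * π ε = Polynomial.aeval (π t) P * π ε) :
    ∃ a' : S, ε * a * ε = Polynomial.aeval t P * ε + y * (ε * a' * ε) := by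
  have h1 : π (ε * a * ε - Polynomial.aeval t P * ε) = 0 := by
    rw [map_sub, map_mul, map_mul, h, map_mul, Polynomial.aeval_algHom_apply, sub_self]
  obtain ⟨c, hc⟩ := hker _ h1
  refine ⟨c, ?_⟩
  have hcm : ε * Polynomial.aeval t P = Polynomial.aeval t P * ε :=
    com_aeval (by rw [het, hte]) P
  have h2 : ε * (ε * a * ε - Polynomial.aeval t P * ε) * ε =
      ε * a * ε - Polynomial.aeval t P * ε := by
    have e1 : ε * (ε * a * ε) * ε = ε * a * ε := by
      calc ε * (ε * a * ε) * ε = (ε * ε) * a * (ε * ε) := by noncomm_ring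
        _ = _ := by rw [hee]
    have e2 : ε * (Polynomial.aeval t P * ε) * ε = Polynomial.aeval t P * ε := by
      calc ε * (Polynomial.aeval t P * ε) * ε = (ε * Polynomial.aeval t P) * (ε * ε) := by
            noncomm_ring
        _ = Polynomial.aeval t P * (ε * ε) := by rw [hcm, hee, mul_assoc, hee]
        _ = _ := by rw [hee]
    rw [mul_sub, sub_mul, e1, e2]
  have h3 : ε * a * ε - Polynomial.aeval t P * ε = y * (ε * c * ε) := by
    rw [← h2, hc]
    calc ε * (y * c) * ε = (ε * y) * c * ε := by noncomm_ring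
      _ = (y * ε) * c * ε := by rw [hy]
      _ = _ := by noncomm_ring
  rw [← h3]
  abel

theorem comm {p : ℕ} {y : S} (hy : ∀ a, y * a = a * y) (hyp : y ^ p = 0) {ε t : S}
    (het : ε * t = t) (hte : t * ε = t)
    (hg : ∀ a, ∃ (P : Polynomial k) (a' : S), ε * a * ε = Polynomial.aeval t P * ε + y * (ε * a' * ε)) :
    ∀ a, t * (ε * a * ε) = ε * a * ε * t := by
  have key : ∀ (j : ℕ) (a : S), ∃ b a', t * b = b * t ∧ ε * a * ε = b + y ^ j * (ε * a' * ε) := by
    intro j
    induction j with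
    | zero => intro a; exact ⟨0, a, by simp, by simp⟩
    | succ j ih =>
      intro a
      obtain ⟨b, a', h1, h2⟩ := ih a
      obtain ⟨P, a'', h3⟩ := hg a'
      have hcj : Commute (y ^ j) t := Commute.pow_left (hy t) j
      refine ⟨b + y ^ j * (Polynomial.aeval t P * ε), a'', ?_, ?_⟩
      · have h4 : t * Polynomial.aeval t P = Polynomial.aeval t P * t := com_aeval rfl P
        have h5 : t * (y ^ j * (Polynomial.aeval t P * ε)) = y ^ j * (Polynomial.aeval t P * ε) * t := by
          calc t * (y ^ j * (Polynomial.aeval t P * ε)) = (t * y ^ j) * (Polynomial.aeval t P * ε) := by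
                noncomm_ring
            _ = (y ^ j * t) * (Polynomial.aeval t P * ε) := by rw [hcj.eq]
            _ = y ^ j * ((t * Polynomial.aeval t P) * ε) := by noncomm_ring
            _ = y ^ j * ((Polynomial.aeval t P * t) * ε) := by rw [h4]
            _ = y ^ j * (Polynomial.aeval t P * (t * ε)) := by noncomm_ring
            _ = y ^ j * (Polynomial.aeval t P * (ε * t)) := by rw [hte, het]
            _ = _ := by noncomm_ring
        rw [mul_add, add_mul, h1, h5]
      · rw [h2, h3, mul_add, pow_succ]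
        noncomm_ring
  intro a
  obtain ⟨b, a', h1, h2⟩ := key p a
  rw [h2, hyp, zero_mul, add_zero, h1]

theorem comm_of_invBy {k : Type*} [Field k] {A : Type*} [Group A] {f : MonoidAlgebra k A}
    (hf : InvBy (⊤ : Subgroup A) f)
    (w : MonoidAlgebra k A) : Commute f w := by
  induction w using MonoidAlgebra.induction_on with
  | of g => exact ((invBy_iff_commute.1 hf) g (Subgroup.mem_top _)).symm
  | add a b ha hb => exact ha.add_right hb
  | smul c a ha => exact ha.smul_right c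

end LiftAAux

theorem exists_lft [Fact p.Prime] [CharP k p] [Fintype A] (h : Cen p x D₁)
    {f : MonoidAlgebra k A} (hf : IsBlock ⊤ f) {ε' τ' : MonoidAlgebra k (NQ D₁)}
    (hs : St (⊤ : Subgroup (NQ D₁)) (proj D₁ f) ε' τ') :
    ∃ ε t : MonoidAlgebra k A, Lft x D₁ f ε t ε' τ' := by
  classical
  obtain ⟨π, hπ, hsur, hker⟩ := h.exists_pi (k := k)
  have hy : ∀ a : MonoidAlgebra k A, yel k x * a = a * yel k x := h.yel_comm
  have hyp : yel k x ^ p = 0 := h.yel_pow
  obtain ⟨ε, hee, hef, hpe⟩ := h.lift_idem hf hs.ee hs.ef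
  obtain ⟨t₀, ht₀⟩ := hsur τ'
  have hpe' : π ε = ε' := by rw [hπ, hpe]
  have hpt : π (ε * t₀ * ε) = τ' := by
    rw [map_mul, map_mul, hpe', ht₀, hs.et, hs.te]
  have het : ε * (ε * t₀ * ε) = ε * t₀ * ε := by
    rw [← mul_assoc, ← mul_assoc, hee]
  have hte : ε * t₀ * ε * ε = ε * t₀ * ε := by rw [mul_assoc, hee]
  have hgen : ∀ a, ∃ (P : Polynomial k) (a' : MonoidAlgebra k A),
      ε * a * ε = Polynomial.aeval (ε * t₀ * ε) P * ε + yel k x * (ε * a' * ε) := by
    intro a
    obtain ⟨P, hP⟩ := hs.gen (π a) (suppIn_top _)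
    obtain ⟨a', ha'⟩ := LiftAAux.gen hy π hker hee het hte a P (by rw [hpe', hpt, hP])
    exact ⟨P, a', ha'⟩
  obtain ⟨m, u', v', -, -, huv⟩ := hs.full
  refine ⟨ε, ε * t₀ * ε, hee, hef, het, hte, hpe, by rw [← hπ, hpt], ?_, ?_, hgen, ?_⟩
  · exact LiftAAux.nil hy hyp π hker (by rw [hpt]; exact hs.nil)
  · exact LiftAAux.full (Fact.out : p.Prime).one_lt.le hy hyp π hsur hker hf.idem (fun a => LiftAAux.comm_of_invBy hf.invBy a)
      (by rw [hpe', hπ f]; exact huv)
  · exact LiftAAux.comm hy hyp het hte hgen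

end Pool.Agent.Lib.P0c8ca5.Cb
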