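import Mathlib
import Pool.Agent.Lib.P0c8ca5B.PrK

/-!
# Module LiftB: two cases in which the lift generates

Notation: `y = yel k x`, central, `y ^ p = 0`; `E = ε kA ε`; `hl.gen`: `ε a ε = P(t) ε + y (ε a' ε)`.  In `St ⊤ f ε τ` the fields `es`, `ts` are
`suppIn_top`, `ee`, `ef` are in `hl`, and `full` comes from `hl.full`.
PROOF of `lft_zero` (`τ' = 0`).  `proj D₁ t = 0`, so `t = y c` (`Cen.exists_pi`) and `t = ε t ε = y (ε c ε)`.  So
`P(t) ε = P(0) ε + t (..) = P.coeff 0 • ε + y (ε c' ε)`: every `ε a ε` is `c₀ • ε + y (ε a' ε)`.  By induction on `j`: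
`ε a ε = (polynomial in y) * ε + y ^ j (ε a' ε)`; take `j = p`.  A polynomial in `y` times `ε` is the same polynomial in `y ε` times `ε`
(`(y ε) ^ i = y ^ i ε` for `i ≥ 1`).  Nilpotent: `(y ε) ^ p = y ^ p ε = 0`.
PROOF of `lft_gen`.  Hypothesis: `y ε = t l + y² l'`, `l, l' ∈ E`.  By induction on `j ≥ 2`: there are `l, l' ∈ E` with
`y ε = t l + y ^ j l'` (`y ^ j l' = y ^ (j - 1) (y ε) l' = y ^ (j - 1) (t l₀ + y² l₀') l'`, and `y` is central, `l l' ∈ E`).  With
`j = p` or larger: `y ε = t l` with `l ∈ E`.  So `ε a ε = P(t) ε + (y ε) (ε a' ε) = P(t) ε + t (ε a'' ε)` with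
`ε a'' ε = l (ε a' ε)`.  By induction on `j`: `ε a ε = Q(t) ε + t ^ j (ε a'' ε)` (`t ^ j P(t) ε = (X ^ j P)(t) ε`); `t` is nilpotent.
-/

namespace Pool.Agent.Lib.P0c8ca5.Cb

open MonoidAlgebra Rk

namespace LiftBAux

variable {k : Type*} [Field k] {S : Type*} [Ring S] [Algebra k S]

theorem iter {e T : S} (H : ∀ a : S, ∃ (P : Polynomial k) (a' : S),
      e * a * e = Polynomial.aeval T P * e + T * (e * a' * e)) (j : ℕ) :
    ∀ a : S, ∃ (P : Polynomial k) (a' : S),
      e * a * e = Polynomial.aeval T P * e + T ^ j * (e * a' * e) := by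
  induction j with
  | zero => exact fun a => ⟨0, a, by simp⟩
  | succ j ih =>
    intro a
    obtain ⟨P, a', h⟩ := ih a
    obtain ⟨Q, a'', h'⟩ := H a'
    refine ⟨P + Polynomial.X ^ j * Q, a'', ?_⟩
    rw [h, h', map_add, map_mul, map_pow, Polynomial.aeval_X, pow_succ]
    noncomm_ring

theorem fin {e T : S} (H : ∀ a : S, ∃ (P : Polynomial k) (a' : S),
      e * a * e = Polynomial.aeval T P * e + T * (e * a' * e)) (hT : IsNilpotent T) :
    ∀ a : S, ∃ P : Polynomial k, e * a * e = Polynomial.aeval T P * e := by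
  intro a
  obtain ⟨N, hN⟩ := hT
  obtain ⟨P, a', h⟩ := iter H N a
  exact ⟨P, by rw [h, hN, zero_mul, add_zero]⟩

theorem pow_mul_e {e y : S} (he : e * e = e) (hy : ∀ a, y * a = a * y) (i : ℕ) :
    (y * e) ^ i * e = y ^ i * e := by
  induction i with
  | zero => simp
  | succ i ih =>
    calc (y * e) ^ (i + 1) * e = (y * e) ^ i * (y * (e * e)) := by rw [pow_succ]; noncomm_ring
      _ = (y * e) ^ i * (e * y) := by rw [he, hy e]
      _ = ((y * e) ^ i * e) * y := by rw [mul_assoc]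
      _ = y ^ i * (e * y) := by rw [ih, mul_assoc]
      _ = y ^ (i + 1) * e := by rw [← hy e, pow_succ, mul_assoc]

theorem aeval_mul_e {e y : S} (he : e * e = e) (hy : ∀ a, y * a = a * y) (P : Polynomial k) :
    Polynomial.aeval (y * e) P * e = Polynomial.aeval y P * e := by
  induction P using Polynomial.induction_on' with
  | add P Q hP hQ => rw [map_add, map_add, add_mul, add_mul, hP, hQ]
  | monomial n c =>
    rw [Polynomial.aeval_monomial, Polynomial.aeval_monomial, mul_assoc, mul_assoc,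
      pow_mul_e he hy]

theorem base {e t y c : S} (hy : ∀ a, y * a = a * y) (het : e * t = t)
    (hc : t = y * c)
    (H : ∀ a : S, ∃ (P : Polynomial k) (a' : S),
      e * a * e = Polynomial.aeval t P * e + y * (e * a' * e)) :
    ∀ a : S, ∃ (P : Polynomial k) (a' : S),
      e * a * e = Polynomial.aeval y P * e + y * (e * a' * e) := by
  intro a
  obtain ⟨P, a', h⟩ := H a
  refine ⟨Polynomial.C (P.coeff 0), c * Polynomial.aeval t P.divX + a', ?_⟩
  have h1 : Polynomial.aeval t P = t * Polynomial.aeval t P.divX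
      + algebraMap k S (P.coeff 0) := by
    conv_lhs => rw [← Polynomial.X_mul_divX_add P]
    rw [map_add, map_mul, Polynomial.aeval_X, Polynomial.aeval_C]
  have h2 : t * Polynomial.aeval t P.divX * e = y * (e * (c * Polynomial.aeval t P.divX) * e) := by
    calc t * Polynomial.aeval t P.divX * e = (e * t) * Polynomial.aeval t P.divX * e := by rw [het]
      _ = (e * (y * c)) * Polynomial.aeval t P.divX * e := by rw [← hc]
      _ = (e * y) * (c * Polynomial.aeval t P.divX * e) := by noncomm_ring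
      _ = (y * e) * (c * Polynomial.aeval t P.divX * e) := by rw [hy e]
      _ = _ := by noncomm_ring
  rw [h, h1, Polynomial.aeval_C, add_mul, h2]
  noncomm_ring

theorem gen1 {e t y : S} (he : e * e = e) (hy : ∀ a, y * a = a * y)
    (h : ∃ l l', y * e = t * (e * l * e) + y ^ 2 * (e * l' * e)) (j : ℕ) :
    ∃ l l', y * e = t * (e * l * e) + y ^ (j + 2) * (e * l' * e) := by
  obtain ⟨l₀, l₀', h₀⟩ := h
  induction j with
  | zero => exact ⟨l₀, l₀', h₀⟩
  | succ j ih =>
    obtain ⟨l, l', h⟩ := ih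
    refine ⟨l + l₀ * e * l' * y ^ (j + 1), l₀' * e * l', ?_⟩
    have hp : ∀ n : ℕ, ∀ a, y ^ n * a = a * y ^ n := fun n a => by
      induction n with
      | zero => simp
      | succ n ihn => rw [pow_succ, mul_assoc, hy a, ← mul_assoc, ihn, mul_assoc]
    have e1 : y ^ (j + 2) * (e * l' * e) = (y * e) * (e * l' * e) * y ^ (j + 1) := by
      calc y ^ (j + 2) * (e * l' * e) = (y ^ (j + 1) * y) * (e * l' * e) := by rw [← pow_succ]
        _ = y ^ (j + 1) * (y * (e * l' * e)) := by rw [mul_assoc]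
        _ = (y * (e * l' * e)) * y ^ (j + 1) := hp _ _
        _ = (y * ((e * e) * l' * e)) * y ^ (j + 1) := by rw [he]
        _ = _ := by noncomm_ring
    have e2 : (y ^ 2 * (e * l₀' * e)) * (e * l' * e) * y ^ (j + 1)
        = y ^ (j + 3) * (e * (l₀' * e * l') * e) := by
      calc (y ^ 2 * (e * l₀' * e)) * (e * l' * e) * y ^ (j + 1)
          = y ^ (j + 1) * ((y ^ 2 * (e * l₀' * e)) * (e * l' * e)) := (hp _ _).symm
        _ = (y ^ (j + 1) * y ^ 2) * ((e * l₀' * (e * e) * l' * e)) := by noncomm_ring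
        _ = y ^ (j + 3) * ((e * l₀' * e * l' * e)) := by rw [← pow_add, he]
        _ = _ := by noncomm_ring
    have e3 : (t * (e * l₀ * e)) * (e * l' * e) * y ^ (j + 1)
        = t * (e * (l₀ * e * l' * y ^ (j + 1)) * e) := by
      calc (t * (e * l₀ * e)) * (e * l' * e) * y ^ (j + 1)
          = t * (e * l₀ * (e * e) * l' * (e * y ^ (j + 1))) := by noncomm_ring
        _ = t * (e * l₀ * e * l' * (y ^ (j + 1) * e)) := by rw [he, hp]
        _ = _ := by noncomm_ring
    calc y * e = t * (e * l * e) + y ^ (j + 2) * (e * l' * e) := h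
      _ = t * (e * l * e) + (t * (e * l₀ * e) + y ^ 2 * (e * l₀' * e)) * (e * l' * e)
          * y ^ (j + 1) := by rw [e1, h₀]
      _ = t * (e * l * e) + ((t * (e * l₀ * e)) * (e * l' * e) * y ^ (j + 1)
          + (y ^ 2 * (e * l₀' * e)) * (e * l' * e) * y ^ (j + 1)) := by noncomm_ring
      _ = t * (e * l * e) + (t * (e * (l₀ * e * l' * y ^ (j + 1)) * e)
          + y ^ (j + 3) * (e * (l₀' * e * l') * e)) := by rw [e2, e3]
      _ = _ := by noncomm_ring

theorem gen2 {e t y : S} (he : e * e = e) (hy : ∀ a, y * a = a * y) {N : ℕ} (hN : y ^ N = 0)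
    (h : ∃ l l', y * e = t * (e * l * e) + y ^ 2 * (e * l' * e))
    (H : ∀ a : S, ∃ (P : Polynomial k) (a' : S),
      e * a * e = Polynomial.aeval t P * e + y * (e * a' * e)) :
    ∀ a : S, ∃ (P : Polynomial k) (a' : S),
      e * a * e = Polynomial.aeval t P * e + t * (e * a' * e) := by
  obtain ⟨l, l', h1⟩ := gen1 he hy h N
  rw [pow_add, hN, zero_mul, zero_mul, add_zero] at h1
  intro a
  obtain ⟨P, a', h2⟩ := H a
  refine ⟨P, l * e * a', ?_⟩
  have e1 : y * (e * a' * e) = t * (e * (l * e * a') * e) := by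
    calc y * (e * a' * e) = y * ((e * e) * a' * e) := by rw [he]
      _ = (y * e) * (e * a' * e) := by noncomm_ring
      _ = (t * (e * l * e)) * (e * a' * e) := by rw [h1]
      _ = t * (e * l * (e * e) * a' * e) := by noncomm_ring
      _ = t * (e * l * e * a' * e) := by rw [he]
      _ = _ := by noncomm_ring
  rw [h2, e1]

end LiftBAux

variable {p : ℕ} {k : Type*} [Field k] {A : Type*} [Group A] {x : A} {D₁ : Subgroup A}

theorem lft_zero [Fact p.Prime] [CharP k p] [Fintype A] (h : Cen p x D₁)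
    {f ε t : MonoidAlgebra k A} (hf : IsBlock ⊤ f) {ε' : MonoidAlgebra k (NQ D₁)}
    (hl : Lft x D₁ f ε t ε' 0) : St ⊤ f ε (yel k x * ε) := by
  have hy : ∀ a : MonoidAlgebra k A, yel k x * a = a * yel k x := h.yel_comm
  have hyp : yel k x ^ p = 0 := h.yel_pow
  obtain ⟨π, hπ, -, hker⟩ := h.exists_pi (k := k)
  obtain ⟨c, hc⟩ := hker t (by rw [hπ, hl.pt])
  have hB := LiftBAux.base hy hl.et hc hl.gen
  have hF := LiftBAux.fin hB ⟨p, hyp⟩
  refine ⟨hf, suppIn_top _, suppIn_top _, hl.ee, hl.ef, ?_, ?_, ?_, ?_, ?_⟩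
  · rw [← mul_assoc, ← hy, mul_assoc, hl.ee]
  · rw [mul_assoc, hl.ee]
  · refine ⟨p + 1, ?_⟩
    rw [pow_succ]
    calc (yel k x * ε) ^ p * (yel k x * ε) = ((yel k x * ε) ^ p * ε) * yel k x := by
          rw [hy, mul_assoc]
      _ = 0 := by rw [LiftBAux.pow_mul_e hl.ee hy, hyp, zero_mul, zero_mul]
  · intro a _
    obtain ⟨P, hP⟩ := hF a
    exact ⟨P, by rw [hP, LiftBAux.aeval_mul_e hl.ee hy]⟩
  · obtain ⟨m, u, v, huv⟩ := hl.full
    exact ⟨m, u, v, fun _ => suppIn_top _, fun _ => suppIn_top _, huv⟩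

theorem lft_gen [Fact p.Prime] [CharP k p] [Fintype A] (h : Cen p x D₁)
    {f ε t : MonoidAlgebra k A} (hf : IsBlock ⊤ f) {ε' τ' : MonoidAlgebra k (NQ D₁)}
    (hl : Lft x D₁ f ε t ε' τ')
    (hy : ∃ l l', yel k x * ε = t * (ε * l * ε) + yel k x ^ 2 * (ε * l' * ε)) :
    St ⊤ f ε t := by
  have hyc : ∀ a : MonoidAlgebra k A, yel k x * a = a * yel k x := h.yel_comm
  have hyp : yel k x ^ p = 0 := h.yel_pow
  have hB := LiftBAux.gen2 hl.ee hyc hyp hy hl.gen
  have hF := LiftBAux.fin hB hl.nil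
  refine ⟨hf, suppIn_top _, suppIn_top _, hl.ee, hl.ef, hl.et, hl.te, hl.nil,
    fun a _ => hF a, ?_⟩
  obtain ⟨m, u, v, huv⟩ := hl.full
  exact ⟨m, u, v, fun _ => suppIn_top _, fun _ => suppIn_top _, huv⟩

end Pool.Agent.Lib.P0c8ca5.Cb
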