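import Mathlib
import Pool.Agent.Lib.P0c8ca5B.Defs

/-!
# Module Mor: extension of homomorphisms from `ε V` to `V`

Let `h : St C c ε τ` (P0c8ca5B.Defs) with `c = ∑ u_i ε v_i`.

PROOF of `St.mor`.  Put `φ v = ∑_i ac R' (u_i) (g (ac R ε (ac R (v_i) v)))`.  All elements are supported in `C`, so
`ac_mul` (P0c8ca5R.Ac) applies to `IsRep C R`.
(1) `g` commutes with `ε kC ε` on `ε V`: for `a ∈ kC`, `g (ac R (ε a ε) v) = ac R' (ε a ε) (g (ac R ε v))`:
    by `h.gen`, `ε a ε = P(τ) ε`; `g (ac R (τ ^ i * ε) v) = ac R' (τ ^ i) (g (ac R ε v))` by induction on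
    `i` from `hg` (`ε τ = τ = τ ε`); for `P` use `Polynomial.induction_on` or `aeval_eq_sum_range`; and
    `ac R' ε (g (ac R ε v)) = g (ac R ε v)` (`hge`).
(2) `φ (ac R x v) = ac R' x (φ v)` for `x ∈ kC`: `ε v_i x = ε v_i x c` (`ε y = ε c y = ε y c`, `c` is central in
    `kC`: `commute_of` or `h.blk.mem`) `= ∑_j (ε v_i x u_j ε) v_j`, so
    `g (ac R (ε v_i x) v) = ∑_j g (ac R (ε (v_i x u_j) ε) (ac R (v_j) v))
      = ∑_j ac R' (ε v_i x u_j ε) (g (ac R ε (ac R (v_j) v)))` by (1).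
    So `φ (ac R x v) = ∑_j ac R' (∑_i u_i ε v_i x u_j ε) (g_j) = ∑_j ac R' (c x u_j ε) (g_j) =
    ac R' x (∑_j ac R' (u_j c ε) (g_j)) = ac R' x (∑_j ac R' (u_j) g_j)`,
    `g_j = g (ac R ε (ac R (v_j) v)) = ac R' ε g_j`, `c ε = ε c = ε`.
    For `x = single g 1`: `ac R (single g 1) = R g`; so `Eqv C R R' φ`.
(3) `ac R' c (φ v) = φ v`: `c u_i g_i = u_i c ε g_i = u_i g_i`.  `φ (ac R c v) = φ v`: `ε v_i c = ε c v_i = ε v_i`.
(4) `φ (ac R ε v) = ∑_i ac R' (u_i) (g (ac R (ε v_i ε) v)) = ∑_i ac R' (u_i ε v_i ε) (g (ac R ε v)) =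
    ac R' (c ε) (g (ac R ε v)) = g (ac R ε v)` by (1).
(5) the last statement: `ac R (v_i) w ∈ W`.
PROOF of `St.eq_of_eps`: `ac R c v = ∑_i ac R (u_i) (ac R ε (ac R (v_i) v))`, `φ ∘ ac R (u_i) = ac R' (u_i) ∘ φ`
(`comp_ac`).
-/

namespace Pool.Agent.Lib.P0c8ca5.Cb

open MonoidAlgebra Rk

variable {p : ℕ} {k : Type*} [Field k] {A : Type*} [Group A]
variable {V V' : Type*} [AddCommGroup V] [Module k V] [AddCommGroup V'] [Module k V']

namespace MorAux

theorem ac_single [Fintype A] {R : A → Module.End k V} (g : A) :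
    ac R (single g (1 : k)) = R g := by
  classical
  rw [ac, Finset.sum_eq_single g]
  · change (Finsupp.single g (1 : k)) g • R g = R g
    rw [Finsupp.single_eq_same, one_smul]
  · intro x _ hx
    change (Finsupp.single g (1 : k)) x • R x = 0
    rw [Finsupp.single_eq_of_ne hx, zero_smul]
  · intro h; exact absurd (Finset.mem_univ _) h

theorem suppIn_single {C : Subgroup A} {g : A} (hg : g ∈ C) : SuppIn C (single g (1 : k)) := by
  classical
  intro x hx
  by_contra hxC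
  apply hx
  change (Finsupp.single g (1 : k)) x = 0
  rw [Finsupp.single_eq_of_ne]
  rintro rfl
  exact hxC hg

theorem ac_mul_apply [Fintype A] {C : Subgroup A} {R : A → Module.End k V} (hR : IsRep C R)
    {a b : MonoidAlgebra k A} (ha : SuppIn C a) (hb : SuppIn C b) (v : V) :
    ac R (a * b) v = ac R a (ac R b v) := by
  rw [ac_mul hR ha hb]
  rfl

theorem ac_mem [Fintype A] {C : Subgroup A} {R : A → Module.End k V} {a : MonoidAlgebra k A}
    (ha : SuppIn C a) (W : Submodule k V) (hW : ∀ x ∈ C, ∀ w ∈ W, R x w ∈ W) {w : V}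
    (hw : w ∈ W) : ac R a w ∈ W := by
  rw [ac, LinearMap.sum_apply]
  refine W.sum_mem (fun x _ => ?_)
  rw [LinearMap.smul_apply]
  by_cases hx : x ∈ C
  · exact W.smul_mem _ (hW x hx w hw)
  · have h0 : a.coeff x = 0 := by
      by_contra h; exact hx (ha x h)
    rw [h0, zero_smul]
    exact W.zero_mem

variable [Fintype A] {C : Subgroup A} {c ε τ : MonoidAlgebra k A}

theorem supp_pow (h : St C c ε τ) (n : ℕ) : SuppIn C (τ ^ n * ε) := by
  induction n with
  | zero => rw [pow_zero, one_mul]; exact h.es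
  | succ n ih => rw [pow_succ', mul_assoc]; exact h.ts.mul ih

theorem eps_pow (h : St C c ε τ) (n : ℕ) : ε * (τ ^ n * ε) = τ ^ n * ε := by
  cases n with
  | zero => rw [pow_zero, one_mul, h.ee]
  | succ n => rw [pow_succ', mul_assoc, ← mul_assoc ε τ, h.et]

section
variable {R : A → Module.End k V} {R' : A → Module.End k V'}

theorem step_pow (h : St C c ε τ) (hR : IsRep C R) (hR' : IsRep C R')
    (g : V →ₗ[k] V') (hg : ∀ v, g (ac R τ (ac R ε v)) = ac R' τ (g (ac R ε v)))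
    (hge : ∀ v, ac R' ε (g (ac R ε v)) = g (ac R ε v)) (n : ℕ) (v : V) :
    g (ac R (τ ^ n * ε) v) = ac R' (τ ^ n * ε) (g (ac R ε v)) := by
  induction n with
  | zero => rw [pow_zero, one_mul, hge]
  | succ n ih =>
    have h1 : ac R (τ ^ n * ε) v = ac R ε (ac R (τ ^ n * ε) v) := by
      rw [← ac_mul_apply hR h.es (supp_pow h n), eps_pow h n]
    rw [pow_succ', mul_assoc, ac_mul_apply hR h.ts (supp_pow h n),
      ac_mul_apply hR' h.ts (supp_pow h n), h1, hg, ← h1, ih]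

theorem key1 (h : St C c ε τ) (hR : IsRep C R) (hR' : IsRep C R')
    (g : V →ₗ[k] V') (hg : ∀ v, g (ac R τ (ac R ε v)) = ac R' τ (g (ac R ε v)))
    (hge : ∀ v, ac R' ε (g (ac R ε v)) = g (ac R ε v)) {a : MonoidAlgebra k A}
    (ha : SuppIn C a) (v : V) :
    g (ac R (ε * a * ε) v) = ac R' (ε * a * ε) (g (ac R ε v)) := by
  obtain ⟨P, hP⟩ := h.gen a ha
  rw [hP]
  clear hP
  induction P using Polynomial.induction_on' with
  | add P Q hP hQ =>
    rw [map_add, add_mul, ac_add, ac_add, LinearMap.add_apply, LinearMap.add_apply, map_add, hP,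
      hQ]
  | monomial n r =>
    rw [Polynomial.aeval_monomial, ← Algebra.smul_def, smul_mul_assoc, ac_smul, ac_smul,
      LinearMap.smul_apply, LinearMap.smul_apply, map_smul, step_pow h hR hR' g hg hge]

end

theorem c_eps (h : St C c ε τ) : c * ε = ε := by
  rw [← commute_of h.es h.blk.invBy, h.ef]

/-- `ε y = ε y c` -/
theorem eps_mul (h : St C c ε τ) {y : MonoidAlgebra k A} (hy : SuppIn C y) :
    ε * y * c = ε * y := by
  rw [mul_assoc, commute_of hy h.blk.invBy, ← mul_assoc, h.ef]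

end MorAux

open MorAux

theorem St.mor [Fintype A] {C : Subgroup A} {c ε τ : MonoidAlgebra k A} (h : St C c ε τ)
    {R : A → Module.End k V} {R' : A → Module.End k V'} (hR : IsRep C R) (hR' : IsRep C R')
    (g : V →ₗ[k] V') (hg : ∀ v, g (ac R τ (ac R ε v)) = ac R' τ (g (ac R ε v)))
    (hge : ∀ v, ac R' ε (g (ac R ε v)) = g (ac R ε v)) :
    ∃ φ : V →ₗ[k] V', Eqv C R R' φ ∧ ac R' c ∘ₗ φ = φ ∧ φ ∘ₗ ac R c = φ ∧
      (∀ v, φ (ac R ε v) = g (ac R ε v)) ∧
      ∀ W : Submodule k V, (∀ x ∈ C, ∀ w ∈ W, R x w ∈ W) → (∀ w ∈ W, g (ac R ε w) = 0) →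
        ∀ w ∈ W, φ w = 0 := by
  obtain ⟨m, u, v, hu, hv, huv⟩ := h.full
  have hcs : SuppIn C c := h.blk.suppIn
  let φ : V →ₗ[k] V' := ∑ i, ac R' (u i) ∘ₗ g ∘ₗ ac R ε ∘ₗ ac R (v i)
  have hφ : ∀ w, φ w = ∑ i, ac R' (u i) (g (ac R ε (ac R (v i) w))) := by
    intro w
    change (∑ i, ac R' (u i) ∘ₗ g ∘ₗ ac R ε ∘ₗ ac R (v i)) w = _
    rw [LinearMap.sum_apply]
    rfl
  -- the action on `G = g ∘ ε`
  have hG : ∀ y, SuppIn C y → ∀ w, g (ac R ε (ac R y w))
      = ∑ j, ac R' (ε * (y * u j) * ε) (g (ac R ε (ac R (v j) w))) := by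
    intro y hy w
    have h1 : ε * y = ∑ j, (ε * (y * u j) * ε) * v j := by
      rw [← eps_mul h hy, ← huv, Finset.mul_sum]
      refine Finset.sum_congr rfl (fun j _ => ?_)
      simp only [mul_assoc]
    rw [← ac_mul_apply hR h.es hy, h1, ac_sum, LinearMap.sum_apply, map_sum]
    refine Finset.sum_congr rfl (fun j _ => ?_)
    rw [ac_mul_apply hR ((h.es.mul (hy.mul (hu j))).mul h.es) (hv j),
      key1 h hR hR' g hg hge (hy.mul (hu j))]
  -- the second step
  have hφx : ∀ x, SuppIn C x → ∀ w, φ (ac R x w) = ac R' x (φ w) := by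
    intro x hx w
    rw [hφ, hφ]
    have h1 : ∀ i, ac R' (u i) (g (ac R ε (ac R (v i) (ac R x w))))
        = ∑ j, ac R' (u i * ε * v i * (x * u j * ε)) (g (ac R ε (ac R (v j) w))) := by
      intro i
      rw [← ac_mul_apply hR (hv i) hx, hG _ ((hv i).mul hx), map_sum]
      refine Finset.sum_congr rfl (fun j _ => ?_)
      rw [← ac_mul_apply hR' (hu i) ((h.es.mul (((hv i).mul hx).mul (hu j))).mul h.es)]
      simp only [mul_assoc]
    rw [Finset.sum_congr rfl (fun i _ => h1 i), Finset.sum_comm, map_sum]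
    refine Finset.sum_congr rfl (fun j _ => ?_)
    rw [← LinearMap.sum_apply, ← ac_sum, ← Finset.sum_mul, huv]
    have h2 : c * (x * u j * ε) = x * u j * ε := by
      rw [← commute_of ((hx.mul (hu j)).mul h.es) h.blk.invBy, mul_assoc, h.ef]
    rw [h2, mul_assoc, ac_mul_apply hR' hx ((hu j).mul h.es), ac_mul_apply hR' (hu j) h.es, hge]
  have hφc : ∀ w, φ (ac R c w) = φ w := by
    intro w
    rw [hφ, hφ]
    refine Finset.sum_congr rfl (fun i _ => ?_)
    have h1 : ac R ε (ac R (v i) (ac R c w)) = ac R ε (ac R (v i) w) := by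
      rw [← ac_mul_apply hR (hv i) hcs, ← ac_mul_apply hR h.es ((hv i).mul hcs), ← mul_assoc,
        eps_mul h (hv i), ac_mul_apply hR h.es (hv i)]
    rw [h1]
  refine ⟨φ, ?_, ?_, ?_, ?_, ?_⟩
  · intro x hx w
    have h1 := hφx (single x (1 : k)) (suppIn_single hx) w
    rw [ac_single, ac_single] at h1
    exact h1
  · apply LinearMap.ext
    intro w
    rw [LinearMap.comp_apply, ← hφx c hcs, hφc]
  · apply LinearMap.ext
    intro w
    rw [LinearMap.comp_apply, hφc]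
  · intro w
    rw [hφ]
    have h1 : ∀ i, ac R' (u i) (g (ac R ε (ac R (v i) (ac R ε w))))
        = ac R' (u i * ε * v i * ε) (g (ac R ε w)) := by
      intro i
      have h2 : ac R ε (ac R (v i) (ac R ε w)) = ac R (ε * v i * ε) w := by
        rw [mul_assoc, ac_mul_apply hR h.es ((hv i).mul h.es), ac_mul_apply hR (hv i) h.es]
      rw [h2, key1 h hR hR' g hg hge (hv i),
        ← ac_mul_apply hR' (hu i) ((h.es.mul (hv i)).mul h.es)]
      simp only [mul_assoc]
    rw [Finset.sum_congr rfl (fun i _ => h1 i), ← LinearMap.sum_apply, ← ac_sum,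
      ← Finset.sum_mul, huv, c_eps h, hge]
  · intro W hW hW0 w hw
    rw [hφ]
    refine Finset.sum_eq_zero (fun i _ => ?_)
    rw [hW0 _ (ac_mem (hv i) W hW hw), map_zero]

theorem St.eq_of_eps [Fintype A] {C : Subgroup A} {c ε τ : MonoidAlgebra k A} (h : St C c ε τ)
    {R : A → Module.End k V} {R' : A → Module.End k V'} (hR : IsRep C R) (hR' : IsRep C R')
    {φ φ' : V →ₗ[k] V'} (hφ : Eqv C R R' φ) (hφ' : Eqv C R R' φ')
    (he : ∀ v, φ (ac R ε v) = φ' (ac R ε v)) : φ ∘ₗ ac R c = φ' ∘ₗ ac R c := by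
  obtain ⟨m, u, v, hu, hv, huv⟩ := h.full
  apply LinearMap.ext
  intro w
  have h1 : ac R c w = ∑ i, ac R (u i) (ac R ε (ac R (v i) w)) := by
    rw [← huv, ac_sum, LinearMap.sum_apply]
    refine Finset.sum_congr rfl (fun i _ => ?_)
    rw [mul_assoc, ac_mul_apply hR (hu i) (h.es.mul (hv i)), ac_mul_apply hR h.es (hv i)]
  rw [LinearMap.comp_apply, LinearMap.comp_apply, h1, map_sum, map_sum]
  refine Finset.sum_congr rfl (fun i _ => ?_)
  have h2 : ∀ y, φ (ac R (u i) y) = ac R' (u i) (φ y) := fun y =>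
    LinearMap.congr_fun (comp_ac hφ (hu i)) y
  have h3 : ∀ y, φ' (ac R (u i) y) = ac R' (u i) (φ' y) := fun y =>
    LinearMap.congr_fun (comp_ac hφ' (hu i)) y
  rw [h2, h3, he]

end Pool.Agent.Lib.P0c8ca5.Cb
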