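import Mathlib
import Pool.Agent.Lib.P0c8ca5B.PrC
import Pool.Agent.Lib.P0c8ca5B.Mor
import Pool.Agent.Lib.P0c8ca5R.Inf1

/-!
# Module InfR: irreducible representations modulo a central subgroup of order `p`

PROOF of `exists_bar`.  `ofRep ρ x = 1`: `irr_trivial` (P0c8ca5R.Triv; see its use at the beginning of the proof of
`card_irr_infl` in P0c8ca5R.Inf1) with `K = ⊤`.  As there, `ρ` is constant on the cosets of `D₁`; `defl hn ρ _` is a representation of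
`sec ⊤ D₁ = ⊤` (`Cen.sec_top`); transport it to `⊤` (for instance define `R' : NQ D₁ → End` by `R' w = ofRep (defl ..) w`, show
`IsRep ⊤ R'` (`isRep_ofRep` for `sec ⊤ D₁`, rewritten by `sec_top`) and take `toRep`; `irr_defl`, `act_infl`, `act_toRep`,
`ac_ofRep`).
PROOF of `iso_of_bar`.  Let `P` be the isomorphism `σ' ≅ ρ'`.  `P (act σ' b v) = act ρ' b (P v)` for all `b`.  For `g ∈ A`:
`σ g v = act σ (single g 1) v = act σ' (proj D₁ (single g 1)) v`, and the same for `ρ` (`ac_single` in P0c8ca5B.Mor, `ac_ofRep`).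
-/

namespace Pool.Agent.Lib.P0c8ca5.Cb

open MonoidAlgebra Rk

variable {p : ℕ} {k : Type*} [Field k] {A : Type*} [Group A] {x : A} {D₁ : Subgroup A}

theorem exists_bar [Fact p.Prime] [CharP k p] [Fintype A] (h : Cen p x D₁) {n : ℕ}
    {ρ : Rp k (⊤ : Subgroup A) n} (hρ : Irr' ρ) : ofRep ρ x = 1 ∧
      ∃ ρ' : Rp k (⊤ : Subgroup (NQ D₁)) n, Irr' ρ' ∧ (∀ a, act ρ' (proj D₁ a) = act ρ a) ∧
        ∀ g : A, ofRep ρ' (qm D₁ g (h.mem_norm g)) = ofRep ρ g := by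
  classical
  have hn : (⊤ : Subgroup A) ≤ Subgroup.normalizer (D₁ : Set A) := by rw [h.norm]
  have htr : ∀ d ∈ D₁, ofRep ρ d = 1 :=
    irr_trivial le_top hn h.isPGroup (isRep_ofRep ρ) ((irr_ofRep ρ).1 hρ)
  have hx : x ∈ D₁ := by
    rw [h.hD₁]
    exact Subgroup.mem_zpowers x
  refine ⟨htr x hx, ?_⟩
  have hc : ∀ y z : (⊤ : Subgroup A), Inf1Aux.prK hn y = Inf1Aux.prK hn z → ρ y = ρ z := by
    intro y z hyz
    have h2 := htr _ ((Inf1Aux.prK_eq_iff hn).1 hyz)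
    rw [ofRep_mem ρ (Subgroup.mem_top _)] at h2
    have h4 : z = y * ⟨(y : A)⁻¹ * z, Subgroup.mem_top _⟩ := by
      apply Subtype.ext
      change (z : A) = (y : A) * ((y : A)⁻¹ * (z : A))
      rw [mul_inv_cancel_left]
    rw [h4, map_mul, h2, mul_one]
  let δ : Representation k (sec (⊤ : Subgroup A) D₁) (Fin n → k) := Inf1Aux.defl hn ρ hc
  have hδ : Irr' δ := Inf1Aux.irr_defl hn hc hρ
  have hR1 : IsRep (sec (⊤ : Subgroup A) D₁) (ofRep δ) := isRep_ofRep δ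
  have hI1 : Irr (sec (⊤ : Subgroup A) D₁) (ofRep δ) := (irr_ofRep δ).1 hδ
  have hR : IsRep (⊤ : Subgroup (NQ D₁)) (ofRep δ) := by
    rw [← h.sec_top]
    exact hR1
  have hI : Irr (⊤ : Subgroup (NQ D₁)) (ofRep δ) := by
    rw [← h.sec_top]
    exact hI1
  refine ⟨toRep hR, (irr_toRep hR).2 hI, fun a => ?_, fun g => ?_⟩
  · rw [act_toRep hR (suppIn_top _), ac_ofRep, ← Inf1Aux.act_infl le_top hn δ]
    congr 1
    exact MonoidHom.ext fun y => Inf1Aux.defl_prK hn ρ hc y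
  · rw [ofRep_mem (toRep hR) (Subgroup.mem_top _), ofRep_mem ρ (Subgroup.mem_top g)]
    change ofRep δ (qm D₁ g (h.mem_norm g)) = _
    have h1 : qm D₁ g (h.mem_norm g) ∈ sec (⊤ : Subgroup A) D₁ := qm_mem_sec _ (Subgroup.mem_top g)
    rw [ofRep_mem δ h1]
    exact Inf1Aux.defl_prK hn ρ hc ⟨g, Subgroup.mem_top g⟩

theorem iso_of_bar [Fact p.Prime] [CharP k p] [Fintype A] (h : Cen p x D₁) {m n : ℕ}
    {σ : Rp k (⊤ : Subgroup A) m} {ρ : Rp k (⊤ : Subgroup A) n}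
    {σ' : Rp k (⊤ : Subgroup (NQ D₁)) m} {ρ' : Rp k (⊤ : Subgroup (NQ D₁)) n}
    (hσ : ∀ a, act σ' (proj D₁ a) = act σ a) (hρ : ∀ a, act ρ' (proj D₁ a) = act ρ a)
    (hi : Iso σ' ρ') : Iso σ ρ := by
  classical
  obtain ⟨P, hP⟩ := hi
  have : Fintype ↥(⊤ : Subgroup (NQ D₁)) := Fintype.ofFinite _
  have h1 : ∀ (b : MonoidAlgebra k (NQ D₁)) (v : Fin m → k), P (act σ' b v) = act ρ' b (P v) := by
    intro b v
    rw [act_apply, act_apply, map_sum]
    refine Finset.sum_congr rfl fun y _ => ?_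
    rw [map_smul]
    congr 1
    exact hP y v
  have hs : ∀ {r : ℕ} (τ : Rp k (⊤ : Subgroup A) r) (g : (⊤ : Subgroup A)) (v : Fin r → k),
      τ g v = act τ (single (g : A) (1 : k)) v := by
    intro r τ g v
    rw [← ac_ofRep, MorAux.ac_single, ofRep_mem τ g.2]
  refine ⟨P, fun g v => ?_⟩
  rw [hs σ g v, hs ρ g (P v), ← hσ, ← hρ, h1]

end Pool.Agent.Lib.P0c8ca5.Cb
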