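import Mathlib
import Pool.Agent.Lib.P0c8ca5B.Rad
import Pool.Agent.Lib.P0c8ca5R.CardDZ

/-!
# Module RadSt: the radical filtration of a block with `ε kC ε = k[τ]`

Let `h : St C c ε τ` (P0c8ca5B.Defs): `c` is a block of `kC`, `c = ∑ u_i ε v_i`, `ε kC ε = k[τ]`.

PROOFS.
* `St.inJ_tau`: let `ρ` be irreducible and suppose `act ρ τ w ≠ 0` for some `w`.  Put `u = act ρ ε w`; then
  `act ρ τ u = act ρ τ w ≠ 0` (`τ = τ ε`).  The span of the `ρ x (act ρ τ u)`, `x ∈ C`, equivalently
  `{act ρ a (act ρ τ u) | SuppIn C a}`, is a nonzero stable subspace, so it is everything: there is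
  `a ∈ kC` with `act ρ (a τ) u = u`.  So `u = act ρ (ε a τ) u = act ρ (ε a ε τ) u`, and `ε a ε τ =
  P(τ) ε τ = P(τ) τ` for a polynomial `P` (`h.gen`).  `P(τ) τ` is nilpotent, so `u = 0`:
  contradiction.  (Iterate: `u = act ρ ((P(τ) τ) ^ n) u`.)
* `St.J_eq`: by `h.gen`, `ε * a * ε = P(τ) * ε`.  Write `P = C s + X * Q` (`s = P.coeff 0`, `Q = P.divX`), so
  `ε * a * ε = s • ε + τ * (Q(τ) * ε)`.  There is an irreducible `ρ` with `act ρ c = 1` (`exists_rep`
  in P0c8ca5R.CardDZ).  `act ρ (ε * a * ε) = 0` (`inJ_mul_left`, `inJ_mul_right`) and `act ρ τ = 0`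
  (`inJ_tau`), so `s • act ρ ε = 0`; `act ρ ε ≠ 0` because `c = ∑ u_i ε v_i` acts as `1` on a nonzero
  space.  So `s = 0`; take `l = Q(τ) * ε` (it is supported in `C`, `ε * l = l * ε = l` as `ε` commutes
  with `τ`).
* `St.FJ_sub` (`ε J^i V ⊆ τ^i V`): induction on `i` and `Submodule.span_induction`.  `i = 0`: `w = v`.
  For `v = ac R a v'`, `InJ C a`, `v' ∈ FJ C R i`: `ε a = ε a c` (see `St.eps_comm`: `ε a = ε c a =
  ε a c` as `c` is central) `= ∑_j ε a u_j ε v_j = ∑_j (ε (a u_j) ε) v_j`, with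
  `ε (a u_j) ε = τ l_j` (`J_eq`), `l_j = l_j ε`.  `ac R (v_j) v' ∈ FJ C R i` (`FJ_stable` for `N = C`, `v_j` is a
  combination of elements of `C`), so `ac R ε (ac R (v_j) v') = ac R (τ ^ i) (ac R ε w_j)` by
  induction, and `ac R (τ l_j) (ac R (τ^i) (ac R ε w_j)) = ac R (τ ^ (i+1)) (ac R ε (ac R (l_j) w_j))`
  because `l_j` commutes with `τ` (choose `l_j = Q(τ) ε` as above: it is convenient to add the
  statement that `l` commutes with `τ` to `J_eq`, see below).
* `St.sub_FJ` (`τ^i ε V ⊆ J^i V`): induction on `i`: `ac R (τ ^ (i+1)) (ac R ε w) =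
  ac R τ (ac R (τ ^ i) (ac R ε w))`, `InJ C τ`.
* `St.FJ_zero`: if `τ ^ r = 0` then `c` kills `J^r V`: for `v ∈ FJ C R r`, `ac R c v = ∑_i ac R (u_i)
  (ac R ε (ac R (v_i) v))` and `ac R (v_i) v ∈ FJ C R r`, so `ac R ε (..) = ac R (τ ^ r) (..) = 0`.
-/

namespace Pool.Agent.Lib.P0c8ca5.Cb

open MonoidAlgebra Rk

variable {p : ℕ} {k : Type*} [Field k] {A : Type*} [Group A]
variable {V : Type*} [AddCommGroup V] [Module k V]

namespace RadStAux

theorem memBot {C : Subgroup A} {a : MonoidAlgebra k A} (ha : SuppIn C a) :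
    a ∈ fixAlg k C (⊥ : Subgroup A) := by
  refine ⟨ha, fun g hg => ?_⟩
  rw [Subgroup.mem_bot] at hg
  subst hg
  exact Commute.one_left a

theorem supp_aeval {C : Subgroup A} {t : MonoidAlgebra k A} (ht : SuppIn C t)
    (P : Polynomial k) : SuppIn C (Polynomial.aeval t P) := by
  have h := (Polynomial.aeval (⟨t, memBot ht⟩ : fixAlg k C (⊥ : Subgroup A)) P).2
  rw [Polynomial.aeval_subalgebra_coe] at h
  exact h.1

theorem comm_aeval {R : Type*} [Ring R] [Algebra k R] (t : R) (P : Polynomial k) :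
    Polynomial.aeval t P * t = t * Polynomial.aeval t P := by
  have h := congrArg (Polynomial.aeval t) (mul_comm P Polynomial.X)
  rwa [map_mul, map_mul, Polynomial.aeval_X] at h

theorem comm_eps {R : Type*} [Ring R] [Algebra k R] {e t : R} (h : e * t = t * e)
    (P : Polynomial k) : e * Polynomial.aeval t P = Polynomial.aeval t P * e := by
  induction P using Polynomial.induction_on' with
  | add P Q hP hQ => rw [map_add, mul_add, add_mul, hP, hQ]
  | monomial n a =>
    rw [Polynomial.aeval_monomial, ← mul_assoc, ← Algebra.commutes, mul_assoc, mul_assoc,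
      ((show Commute e t from h).pow_right n).eq]

theorem supp_single {C : Subgroup A} {g : A} (hg : g ∈ C) : SuppIn C (single g (1 : k)) := by
  classical
  intro x hx
  have h1 : (Finsupp.single g (1 : k)) x ≠ 0 := hx
  by_contra h
  exact h1 (Finsupp.single_eq_of_ne (fun h2 => h (h2 ▸ hg)))

theorem ac_single [Fintype A] (R : A → Module.End k V) (g : A) :
    ac R (single g (1 : k)) = R g := by
  classical
  rw [ac, Finset.sum_eq_single g]
  · change (Finsupp.single g (1 : k)) g • R g = R g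
    rw [Finsupp.single_eq_same, one_smul]
  · intro x _ hx
    change (Finsupp.single g (1 : k)) x • R x = 0
    rw [Finsupp.single_eq_of_ne hx, zero_smul]
  · intro h; exact absurd (Finset.mem_univ _) h

theorem smul_supp {C : Subgroup A} {a : MonoidAlgebra k A} (c : k) (ha : SuppIn C a) :
    SuppIn C (c • a) := by
  intro x hx
  refine ha x (fun h0 => hx ?_)
  change c • a.coeff x = 0
  rw [h0, smul_zero]

theorem mul_ap [Fintype A] {N : Subgroup A} {R : A → Module.End k V} (hR : IsRep N R)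
    {c c' : MonoidAlgebra k A} (hc : SuppIn N c) (hc' : SuppIn N c') (v : V) :
    ac R (c * c') v = ac R c (ac R c' v) := by
  rw [ac_mul hR hc hc']
  rfl

theorem pow_supp {C : Subgroup A} {a : MonoidAlgebra k A} (ha : SuppIn C a) (n : ℕ) :
    SuppIn C (a ^ n) := ((fixAlg k C (⊥ : Subgroup A)).pow_mem (memBot ha) n).1

theorem comm_c [Fintype A] {C : Subgroup A} {c ε τ : MonoidAlgebra k A} (h : St C c ε τ)
    {a : MonoidAlgebra k A} (ha : SuppIn C a) : a * c = c * a :=
  commute_of ha h.blk.invBy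

theorem c_sum [Fintype A] {C : Subgroup A} {c ε τ : MonoidAlgebra k A} (h : St C c ε τ)
    {R : A → Module.End k V} (hR : IsRep C R) (v : V) {m : ℕ} {u w : Fin m → MonoidAlgebra k A}
    (hu : ∀ i, SuppIn C (u i)) (hw : ∀ i, SuppIn C (w i)) (hf : ∑ i, u i * ε * w i = c) :
    ac R c v = ∑ i, ac R (u i) (ac R ε (ac R (w i) v)) := by
  rw [← hf, ac_sum, LinearMap.sum_apply]
  refine Finset.sum_congr rfl fun i _ => ?_
  rw [mul_ap hR ((hu i).mul h.es) (hw i), mul_ap hR (hu i) h.es]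

end RadStAux

open RadStAux

theorem St.inJ_tau [Fintype A] {C : Subgroup A} {c ε τ : MonoidAlgebra k A} (h : St C c ε τ) :
    InJ C τ := by
  refine ⟨h.ts, fun n ρ hρ => ?_⟩
  rw [← ac_ofRep]
  have hR := isRep_ofRep ρ
  have hI := (irr_ofRep ρ).1 hρ
  generalize ofRep ρ = R at hR hI ⊢
  by_contra hne
  obtain ⟨w, hw⟩ : ∃ w, ac R τ w ≠ 0 := by
    by_contra hall
    push Not at hall
    exact hne (LinearMap.ext hall)
  set u := ac R ε w with hu
  have hu1 : ac R τ u = ac R τ w := by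
    rw [hu, ← mul_ap hR h.ts h.es, h.te]
  let W : Submodule k (Fin n → k) :=
    { carrier := {x | ∃ a, SuppIn C a ∧ x = ac R a (ac R τ u)}
      add_mem' := by
        rintro x y ⟨a, ha, rfl⟩ ⟨b, hb, rfl⟩
        exact ⟨a + b, ha.add hb, by rw [ac_add, LinearMap.add_apply]⟩
      zero_mem' := ⟨0, suppIn_zero, by rw [ac_zero]; rfl⟩
      smul_mem' := by
        rintro d x ⟨a, ha, rfl⟩
        exact ⟨d • a, smul_supp d ha, by rw [ac_smul, LinearMap.smul_apply]⟩ }
  have hW : ∀ g ∈ C, ∀ x ∈ W, R g x ∈ W := by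
    rintro g hg _ ⟨a, ha, rfl⟩
    refine ⟨single g 1 * a, (supp_single hg).mul ha, ?_⟩
    rw [mul_ap hR (supp_single hg) ha, ac_single]
  have hmem : ac R τ w ∈ W := by
    refine ⟨ε, h.es, ?_⟩
    rw [← mul_ap hR h.es h.ts, h.et, hu1]
  rcases hI.2 W hW with h0 | h1
  · rw [h0, Submodule.mem_bot] at hmem
    exact hw hmem
  · have hut : u ∈ W := by rw [h1]; exact Submodule.mem_top
    obtain ⟨a, ha, hau⟩ := hut
    obtain ⟨P, hP⟩ := h.gen a ha
    have hεu : ac R ε u = u := by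
      rw [hu, ← mul_ap hR h.es h.es, h.ee]
    obtain ⟨ν, hν⟩ : ∃ ν, ν = ε * a * ε * τ := ⟨_, rfl⟩
    have hνs : SuppIn C ν := by
      rw [hν]
      exact ((h.es.mul ha).mul h.es).mul h.ts
    have hνu : ac R ν u = u := by
      have e1 : ν = ε * (a * (ε * τ)) := by rw [hν]; simp only [mul_assoc]
      rw [e1, h.et, mul_ap hR h.es (ha.mul h.ts), mul_ap hR ha h.ts, ← hau, hεu]
    have hνn : IsNilpotent ν := by
      have e1 : ν = Polynomial.aeval τ P * τ := by rw [hν, hP, mul_assoc, h.et]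
      obtain ⟨m, hm⟩ := h.nil
      refine ⟨m, ?_⟩
      rw [e1, (show Commute (Polynomial.aeval τ P) τ from comm_aeval τ P).mul_pow, hm, mul_zero]
    obtain ⟨m, hm⟩ := hνn
    have key : ∀ j : ℕ, ac R (ν ^ j) u = u := by
      intro j
      induction j with
      | zero =>
        rw [pow_zero, ac_one hR]
        rfl
      | succ j ih => rw [pow_succ, mul_ap hR (pow_supp hνs j) hνs, hνu, ih]
    have h2 := key m
    rw [hm, ac_zero] at h2
    apply hw
    rw [← hu1, ← h2]
    exact map_zero _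

theorem St.J_eq [Fintype A] {C : Subgroup A} {c ε τ : MonoidAlgebra k A} (h : St C c ε τ)
    {a : MonoidAlgebra k A} (ha : InJ C a) :
    ∃ l, SuppIn C l ∧ ε * l = l ∧ l * ε = l ∧ l * τ = τ * l ∧ ε * a * ε = τ * l := by
  obtain ⟨P, hP⟩ := h.gen a ha.1
  have hdiv := Polynomial.divX_mul_X_add P
  set Q := P.divX with hQ
  set s := P.coeff 0 with hs
  have hQs : SuppIn C (Polynomial.aeval τ Q) := supp_aeval h.ts Q
  have hP2 : ε * a * ε = Polynomial.aeval τ Q * τ + s • ε := by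
    rw [hP, ← hdiv, map_add, map_mul, Polynomial.aeval_X, Polynomial.aeval_C, add_mul, mul_assoc,
      h.te, Algebra.algebraMap_eq_smul_one, smul_mul_assoc, one_mul]
  have hs0 : s = 0 := by
    obtain ⟨n, ρ, hρ, hρ1⟩ := CardDZAux.exists_rep h.blk
    have h1 : InJ C (ε * a * ε) := inJ_mul_right h.es (inJ_mul_left h.es ha)
    have h2 := h1.2 n ρ hρ
    have h3 := (St.inJ_tau h).2 n ρ hρ
    rw [← ac_ofRep] at h2 h3 hρ1
    have hR := isRep_ofRep ρ
    have hI := (irr_ofRep ρ).1 hρ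
    generalize ofRep ρ = R at hR hI h2 h3 hρ1
    rw [hP2, ac_add, ac_mul hR hQs h.ts, h3, mul_zero, zero_add, ac_smul] at h2
    by_contra hs0
    have h4 : ac R ε = 0 := (smul_eq_zero.1 h2).resolve_left hs0
    obtain ⟨m, u, v, hu, hv, hf⟩ := h.full
    have hnt := hI.1
    obtain ⟨x, hx⟩ := exists_ne (0 : Fin n → k)
    apply hx
    have h5 := c_sum h hR x hu hv hf
    rw [hρ1] at h5
    change x = _ at h5
    rw [h5]
    refine Finset.sum_eq_zero fun i _ => ?_
    rw [h4, LinearMap.zero_apply, map_zero]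
  rw [hs0, zero_smul, add_zero] at hP2
  have hετ : ε * τ = τ * ε := by rw [h.et, h.te]
  have hcomm : ε * Polynomial.aeval τ Q = Polynomial.aeval τ Q * ε :=
    comm_eps hετ Q
  refine ⟨Polynomial.aeval τ Q * ε, hQs.mul h.es, ?_, ?_, ?_, ?_⟩
  · rw [← mul_assoc, hcomm, mul_assoc, h.ee]
  · rw [mul_assoc, h.ee]
  · rw [mul_assoc, h.et, ← mul_assoc, ← comm_aeval, mul_assoc, h.te]
  · rw [hP2, ← mul_assoc, ← comm_aeval, mul_assoc, h.te]

/-- a `C`-stable subspace is stable under `kC` -/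
theorem ac_stable [Fintype A] {C : Subgroup A} {R : A → Module.End k V} {W : Submodule k V}
    (hW : ∀ g ∈ C, ∀ w ∈ W, R g w ∈ W) {a : MonoidAlgebra k A} (ha : SuppIn C a) {w : V}
    (hw : w ∈ W) : ac R a w ∈ W := by
  rw [ac, LinearMap.sum_apply]
  refine W.sum_mem fun g _ => ?_
  rw [LinearMap.smul_apply]
  by_cases hg : g ∈ C
  · exact W.smul_mem _ (hW g hg w hw)
  · have h0 : a.coeff g = 0 := by
      by_contra h; exact hg (ha g h)
    rw [h0, zero_smul]
    exact W.zero_mem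

theorem St.FJ_sub [Fintype A] {C : Subgroup A} {c ε τ : MonoidAlgebra k A} (h : St C c ε τ)
    {R : A → Module.End k V} (hR : IsRep C R) (i : ℕ) {v : V} (hv : v ∈ FJ C R i) :
    ∃ w, ac R ε v = ac R (τ ^ i) (ac R ε w) := by
  induction i generalizing v with
  | zero =>
    refine ⟨v, ?_⟩
    rw [pow_zero, ac_one hR]
    rfl
  | succ i ih =>
    have hstab : ∀ g ∈ C, ∀ v ∈ FJ C R i, R g v ∈ FJ C R i :=
      FJ_stable le_rfl Subgroup.le_normalizer hR i
    rw [FJ] at hv
    induction hv using Submodule.span_induction with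
    | mem x hx =>
      obtain ⟨a, v', ha, hv', rfl⟩ := hx
      obtain ⟨m, u, y, hu, hy, hf⟩ := h.full
      have hl : ∀ j, ∃ l, SuppIn C l ∧ ε * l = l ∧ l * ε = l ∧ l * τ = τ * l ∧
          ε * (a * u j) * ε = τ * l := fun j => St.J_eq h (inJ_mul_right (hu j) ha)
      choose l hls hεl hlε hlτ hleq using hl
      have hw : ∀ j, ∃ w, ac R ε (ac R (y j) v') = ac R (τ ^ i) (ac R ε w) := fun j =>
        ih (ac_stable hstab (hy j) hv')
      choose w hw using hw
      have hτi := pow_supp h.ts i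
      have hτi' := pow_supp h.ts (i + 1)
      refine ⟨∑ j, ac R (l j) (w j), ?_⟩
      have e0 : ac R ε (ac R a v') = ∑ j, ac R (ε * (a * u j) * ε) (ac R ε (ac R (y j) v')) := by
        have e1 : ε * a = ∑ j, ε * (a * u j) * ε * (ε * y j) := by
          have e2 : ε * a = ε * a * c := by
            rw [mul_assoc, comm_c h ha.1, ← mul_assoc, h.ef]
          conv_lhs => rw [e2, ← hf, Finset.mul_sum]
          refine Finset.sum_congr rfl fun j _ => ?_
          calc ε * a * (u j * ε * y j) = ε * (a * u j) * ε * y j := by simp only [mul_assoc]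
            _ = ε * (a * u j) * (ε * ε) * y j := by rw [h.ee]
            _ = _ := by simp only [mul_assoc]
        rw [← mul_ap hR h.es ha.1, e1, ac_sum, LinearMap.sum_apply]
        refine Finset.sum_congr rfl fun j _ => ?_
        rw [mul_ap hR ((h.es.mul (ha.1.mul (hu j))).mul h.es) (h.es.mul (hy j)),
          mul_ap hR h.es (hy j)]
      rw [e0, map_sum, map_sum]
      refine Finset.sum_congr rfl fun j _ => ?_
      rw [hw j, hleq j, ← mul_ap hR (h.ts.mul (hls j)) hτi, ← mul_ap hR (((h.ts.mul (hls j)).mul hτi)) h.es,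
        ← mul_ap hR h.es (hls j), ← mul_ap hR hτi' (h.es.mul (hls j))]
      congr 1
      have hc : Commute (l j) (τ ^ i) := (show Commute (l j) τ from hlτ j).pow_right i
      have e3 : τ * l j * τ ^ i * ε = τ ^ (i + 1) * (ε * l j) := by
        rw [mul_assoc τ, hc.eq, hεl j, pow_succ', mul_assoc, mul_assoc, mul_assoc, hlε j]
      rw [e3]
    | zero => exact ⟨0, by simp only [map_zero]⟩
    | add x y _ _ hx hy =>
      obtain ⟨w, hw⟩ := hx
      obtain ⟨w', hw'⟩ := hy
      exact ⟨w + w', by rw [map_add, map_add, map_add, hw, hw']⟩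
    | smul d x _ hx =>
      obtain ⟨w, hw⟩ := hx
      exact ⟨d • w, by rw [map_smul, map_smul, map_smul, hw]⟩

theorem St.sub_FJ [Fintype A] {C : Subgroup A} {c ε τ : MonoidAlgebra k A} (h : St C c ε τ)
    {R : A → Module.End k V} (hR : IsRep C R) (i : ℕ) (w : V) :
    ac R (τ ^ i) (ac R ε w) ∈ FJ C R i := by
  induction i with
  | zero => exact Submodule.mem_top
  | succ i ih =>
    rw [pow_succ', mul_ap hR h.ts (pow_supp h.ts i)]
    exact Submodule.subset_span ⟨τ, _, St.inJ_tau h, ih, rfl⟩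

theorem St.FJ_zero [Fintype A] {C : Subgroup A} {c ε τ : MonoidAlgebra k A} (h : St C c ε τ)
    {R : A → Module.End k V} (hR : IsRep C R) {r : ℕ} (hr : τ ^ r = 0) {v : V}
    (hv : v ∈ FJ C R r) : ac R c v = 0 := by
  obtain ⟨m, u, y, hu, hy, hf⟩ := h.full
  rw [c_sum h hR v hu hy hf]
  refine Finset.sum_eq_zero fun i _ => ?_
  have hstab : ∀ g ∈ C, ∀ v ∈ FJ C R r, R g v ∈ FJ C R r :=
    FJ_stable le_rfl Subgroup.le_normalizer hR r
  obtain ⟨w, hw⟩ := St.FJ_sub h hR r (ac_stable hstab (hy i) hv)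
  rw [hw, hr, ac_zero, LinearMap.zero_apply, map_zero]

end Pool.Agent.Lib.P0c8ca5.Cb
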