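import Mathlib
import Pool.Agent.Lib.P0c8ca5B.RadSt
import Pool.Agent.Lib.P0c8ca5B.Mor

/-!
# Module StOne: a block with `ε kK ε = k[τ]` has one irreducible representation

PROOF of `St.line`.  `act ρ τ = 0` (`St.inJ_tau`).  `act ρ ε ≠ 0` since `c = ∑ u_i ε v_i` acts as `1` on a nonzero
space; choose `u ≠ 0` with `act ρ ε u = u`.  The span of the `ρ x u`, `x ∈ K` (equivalently
`{act ρ a u | SuppIn K a}`) is a nonzero stable subspace, so every `v` is `act ρ a u`, and `act ρ ε v =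
act ρ (ε a ε) u`, `ε a ε = P(τ) ε` (`h.gen`), which acts as the scalar `P.coeff 0` on `u`.
PROOF of `St.iso`.  Take `u` for `ρ` and `u'` for `σ` from `St.line`, a linear form `χ` with `χ u = 1`, `g v = χ v • u'`.
Apply `St.mor` to `R = ofRep ρ`, `R' = ofRep σ`: `hg`: both sides are `0` (`ac R τ = 0`, `ac R' τ = 0`; `ac_ofRep`); `hge`:
`ac R' ε u' = u'`.  `φ u = φ (ac R ε u) = g u = u' ≠ 0`, so `φ ≠ 0`, and Schur (`Irr'.injective`, `Irr'.surjective` in
P0c8ca5.Rep, as at the end of `PartCAux.main` in P0c8ca5B.PartC) gives the isomorphism.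
PROOF of `St.card_one`: there is an irreducible `ρ` in `c` (`exists_rep` in P0c8ca5R.CardDZ) and all are isomorphic; elements
of `IrrInv K ⊥ c`: `mkIrr`, `mk_eq_mk`, `act_iff`, `irr_iff` (compare P0c8ca5B.Bij and `card_irr_dz` in P0c8ca5R.CardDZ).
-/

namespace Pool.Agent.Lib.P0c8ca5.Cb

open MonoidAlgebra Rk

variable {p : ℕ} {k : Type*} [Field k] {A : Type*} [Group A]

namespace StOneAux

open RadStAux

/-- a nonzero vector generates an irreducible representation -/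
theorem exists_ac [Fintype A] {K : Subgroup A} {V : Type*} [AddCommGroup V] [Module k V]
    {R : A → Module.End k V} (hR : IsRep K R) (hI : Irr K R) {u : V} (hu : u ≠ 0) (v : V) :
    ∃ a, SuppIn K a ∧ v = ac R a u := by
  let W : Submodule k V :=
    { carrier := {x | ∃ a, SuppIn K a ∧ x = ac R a u}
      add_mem' := by
        rintro x y ⟨a, ha, rfl⟩ ⟨b, hb, rfl⟩
        exact ⟨a + b, ha.add hb, by rw [ac_add, LinearMap.add_apply]⟩
      zero_mem' := ⟨0, suppIn_zero, by rw [ac_zero]; rfl⟩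
      smul_mem' := by
        rintro d x ⟨a, ha, rfl⟩
        exact ⟨d • a, smul_supp d ha, by rw [ac_smul, LinearMap.smul_apply]⟩ }
  have hW : ∀ g ∈ K, ∀ x ∈ W, R g x ∈ W := by
    rintro g hg _ ⟨a, ha, rfl⟩
    refine ⟨single g 1 * a, (supp_single hg).mul ha, ?_⟩
    rw [mul_ap hR (supp_single hg) ha, RadStAux.ac_single]
  have hmem : u ∈ W := by
    refine ⟨single 1 1, supp_single K.one_mem, ?_⟩
    rw [RadStAux.ac_single, hR.one]
    rfl
  rcases hI.2 W hW with h0 | h1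
  · rw [h0, Submodule.mem_bot] at hmem
    exact absurd hmem hu
  · have hut : v ∈ W := by rw [h1]; exact Submodule.mem_top
    exact hut

/-- `ε` does not act as zero -/
theorem eps_ne [Fintype A] {K : Subgroup A} {c ε τ : MonoidAlgebra k A} (h : St K c ε τ)
    {V : Type*} [AddCommGroup V] [Module k V] [Nontrivial V]
    {R : A → Module.End k V} (hR : IsRep K R) (h1 : ac R c = 1) : ∃ w, ac R ε w ≠ 0 := by
  by_contra hall
  push Not at hall
  obtain ⟨m, u, v, hu, hv, hf⟩ := h.full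
  obtain ⟨x, hx⟩ := exists_ne (0 : V)
  apply hx
  have h5 := c_sum h hR x hu hv hf
  rw [h1] at h5
  change x = _ at h5
  rw [h5]
  refine Finset.sum_eq_zero fun i _ => ?_
  rw [hall, map_zero]

end StOneAux

open StOneAux RadStAux

theorem St.line [Fintype A] {K : Subgroup A} {c ε τ : MonoidAlgebra k A} (h : St K c ε τ)
    {n : ℕ} {ρ : Rp k K n} (hρ : Irr' ρ) (h1 : act ρ c = 1) :
    ∃ u : Fin n → k, u ≠ 0 ∧ act ρ ε u = u ∧ ∀ v, ∃ a : k, act ρ ε v = a • u := by
  have h3 := (St.inJ_tau h).2 n ρ hρ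
  rw [← ac_ofRep] at h1 h3
  rw [← ac_ofRep]
  have hR := isRep_ofRep ρ
  have hI := (irr_ofRep ρ).1 hρ
  generalize ofRep ρ = R at hR hI h1 h3 ⊢
  have hnt := hI.1
  obtain ⟨w, hw⟩ := eps_ne h hR h1
  have hεu : ac R ε (ac R ε w) = ac R ε w := by
    rw [← mul_ap hR h.es h.es, h.ee]
  generalize ac R ε w = u at hw hεu
  refine ⟨u, hw, hεu, fun v => ?_⟩
  obtain ⟨a, ha, rfl⟩ := exists_ac hR hI hw v
  obtain ⟨P, hP⟩ := h.gen a ha
  refine ⟨P.coeff 0, ?_⟩
  have e1 : ac R ε (ac R a u) = ac R (ε * a * ε) u := by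
    rw [mul_ap hR (h.es.mul ha) h.es, hεu, mul_ap hR h.es ha]
  have hdiv := Polynomial.divX_mul_X_add P
  have hQs : SuppIn K (Polynomial.aeval τ P.divX) := supp_aeval h.ts _
  have hP2 : ε * a * ε = Polynomial.aeval τ P.divX * τ + P.coeff 0 • ε := by
    rw [hP]
    conv_lhs => rw [← hdiv]
    rw [map_add, map_mul, Polynomial.aeval_X, Polynomial.aeval_C, add_mul, mul_assoc,
      h.te, Algebra.algebraMap_eq_smul_one, smul_mul_assoc, one_mul]
  rw [e1, hP2, ac_add, ac_mul hR hQs h.ts, h3, mul_zero, zero_add, ac_smul,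
    LinearMap.smul_apply, hεu]

theorem St.iso [Fintype A] {K : Subgroup A} {c ε τ : MonoidAlgebra k A} (h : St K c ε τ)
    {n m : ℕ} {ρ : Rp k K n} {σ : Rp k K m} (hρ : Irr' ρ) (hσ : Irr' σ) (h1 : act ρ c = 1)
    (h2 : act σ c = 1) : Iso ρ σ := by
  obtain ⟨u, hu, hεu, -⟩ := h.line hρ h1
  obtain ⟨u', hu', hεu', -⟩ := h.line hσ h2
  have ht := (St.inJ_tau h).2 n ρ hρ
  have ht' := (St.inJ_tau h).2 m σ hσ
  rw [← ac_ofRep] at hεu hεu' ht ht'
  obtain ⟨χ, hχ⟩ : ∃ χ : (Fin n → k) →ₗ[k] k, χ u = 1 := by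
    obtain ⟨i, hi⟩ := Function.ne_iff.1 hu
    refine ⟨(u i)⁻¹ • LinearMap.proj i, ?_⟩
    rw [LinearMap.smul_apply, LinearMap.proj_apply, smul_eq_mul]
    exact inv_mul_cancel₀ hi
  have hR := isRep_ofRep ρ
  have hR' := isRep_ofRep σ
  obtain ⟨φ, hφ, -, -, hφε, -⟩ := h.mor hR hR' (LinearMap.toSpanSingleton k _ u' ∘ₗ χ)
    (fun v => by
      rw [ht, ht', LinearMap.zero_apply, LinearMap.zero_apply, map_zero])
    (fun v => by
      rw [LinearMap.comp_apply, LinearMap.toSpanSingleton_apply, map_smul, hεu'])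
  have hφu : φ u = u' := by
    have h4 := hφε u
    rw [hεu, LinearMap.comp_apply, hχ, LinearMap.toSpanSingleton_apply, one_smul] at h4
    exact h4
  have hne : φ ≠ 0 := by
    rintro rfl
    exact hu' hφu.symm
  have hinj := hρ.injective _ hne (fun g v hv => by
    have h1 := hφ g g.2 v
    rw [ofRep_mem ρ g.2] at h1
    change _ = 0
    rw [show ρ g v = ρ ⟨(g : A), g.2⟩ v from rfl, h1, hv, map_zero])
  have hsurj := hσ.surjective _ hne (fun g v => by
    refine ⟨ρ g v, ?_⟩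
    have h1 := hφ g g.2 v
    rw [ofRep_mem ρ g.2, ofRep_mem σ g.2] at h1
    exact h1)
  refine ⟨LinearEquiv.ofBijective _ ⟨hinj, hsurj⟩, fun g v => ?_⟩
  have h1 := hφ g g.2 v
  rw [ofRep_mem ρ g.2, ofRep_mem σ g.2] at h1
  exact h1

theorem St.card_one [Fintype A] {K : Subgroup A} {c ε τ : MonoidAlgebra k A}
    (h : St K c ε τ) : Nat.card (Quotient (irrInvSetoid K ⊥ c)) = 1 := by
  obtain ⟨n, ρ, hρ, h1⟩ := CardDZAux.exists_rep h.blk
  have hne : Nonempty (Quotient (irrInvSetoid K ⊥ c)) := ⟨Quotient.mk _ (mkIrr ρ hρ h1)⟩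
  have hsub : Subsingleton (Quotient (irrInvSetoid K ⊥ c)) := by
    refine ⟨fun x y => ?_⟩
    induction x using Quotient.inductionOn with
    | _ a =>
      induction y using Quotient.inductionOn with
      | _ b =>
        exact mk_eq_mk.2 (h.iso (irr_iff.1 a.irr) (irr_iff.1 b.irr) (act_iff.2 a.blk)
          (act_iff.2 b.blk))
  exact Nat.card_eq_one_iff_unique.2 ⟨hsub, hne⟩

end Pool.Agent.Lib.P0c8ca5.Cb
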