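import Mathlib
import Pool.Agent.Lib.P0c8ca5B.PrC
import Pool.Agent.Lib.P0c8ca5B.InfR
import Pool.Agent.Lib.P0c8ca5B.Rad2
import Pool.Agent.Lib.P0c8ca5B.StOne
import Pool.Agent.Lib.P0c8ca5R.CardDZ

/-!
# Module LiftU: the lifted idempotent is primitive

PROOF.  `exists_rep hf` (P0c8ca5R.CardDZ): `ρ` irreducible with `act ρ f = 1`; `exists_bar`: `ρ'` with
`act ρ' (proj D₁ a) = act ρ a`; `act ρ' (proj D₁ f) = 1`.  `St.line` for `hs`, `ρ'`: `s ≠ 0`, `act ρ' ε' s = s`, `act ρ' ε' v = c • s`; here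
`act ρ' ε' = act ρ ε` (`hl.pe`).  `huniq`: if `σ` is irreducible, `act σ f = 1`, take `σ'` from `exists_bar`; `St.iso hs` gives `Iso σ' ρ'`,
`iso_of_bar` gives `Iso σ ρ`.  `cor_of` (P0c8ca5B.Rad2) gives `Cor f ε ρ s`.  `act ρ t = act ρ' τ' = 0` (`St.inJ_tau hs`),
`act ρ y = act ρ' 0 = 0` (`Cen.proj_yel`).  `ac_ofRep` translates.
-/

namespace Pool.Agent.Lib.P0c8ca5.Cb

open MonoidAlgebra Rk

variable {p : ℕ} {k : Type*} [Field k] {A : Type*} [Group A] {x : A} {D₁ : Subgroup A}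

theorem lft_cor [Fact p.Prime] [CharP k p] [Fintype A] (h : Cen p x D₁)
    {f ε t : MonoidAlgebra k A} (hf : IsBlock ⊤ f) {ε' τ' : MonoidAlgebra k (NQ D₁)}
    (hs : St (⊤ : Subgroup (NQ D₁)) (proj D₁ f) ε' τ') (hl : Lft x D₁ f ε t ε' τ') :
    ∃ (n : ℕ) (ρ : Rp k (⊤ : Subgroup A) n) (s : Fin n → k), Cor f ε ρ s ∧
      ac (ofRep ρ) t = 0 ∧ ac (ofRep ρ) (yel k x) = 0 := by
  classical
  have hfin : Fintype (NQ D₁) := Fintype.ofFinite _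
  obtain ⟨n, ρ, hρ, h1⟩ := CardDZAux.exists_rep hf
  obtain ⟨-, ρ', hρ', ha, -⟩ := exists_bar h hρ
  have h1' : act ρ' (proj D₁ f) = 1 := by rw [ha, h1]
  obtain ⟨s, hs0, hse, hsd⟩ := hs.line hρ' h1'
  rw [← hl.pe, ha] at hse
  have hsd' : ∀ v, ∃ c : k, act ρ ε v = c • s := by
    intro v
    obtain ⟨c, hc⟩ := hsd v
    rw [← hl.pe, ha] at hc
    exact ⟨c, hc⟩
  have huniq : ∀ (m : ℕ) (σ : Rp k (⊤ : Subgroup A) m), Irr' σ → act σ f = 1 → Iso σ ρ := by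
    intro m σ hσ hσ1
    obtain ⟨-, σ', hσ', hb, -⟩ := exists_bar h hσ
    exact iso_of_bar h hb ha (hs.iso hσ' hρ' (by rw [hb, hσ1]) h1')
  refine ⟨n, ρ, s, cor_of hf hρ h1 huniq hl.ee hl.ef hl.full hs0 ?_ ?_, ?_, ?_⟩
  · rw [ac_ofRep]
    exact hse
  · intro v
    rw [ac_ofRep]
    exact hsd' v
  · rw [ac_ofRep, ← ha, hl.pt]
    exact (St.inJ_tau hs).2 n ρ' hρ'
  · rw [ac_ofRep, ← ha, h.proj_yel, ← ac_ofRep, ac_zero]

end Pool.Agent.Lib.P0c8ca5.Cb
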