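import Mathlib
import Pool.Agent.Lib.P0c8ca5B.RadSt
import Pool.Agent.Lib.P0c8ca5B.Mor
import Pool.Agent.Lib.P0c8ca5R.LA

/-!
# Module ExtB: extension of a homomorphism, one block of `C`

PROOF.  Let `W' = range (ac T ε) ≤ W` and `al : W' → V`, `al t = α t`, `al' : W' → V'`, `al' t = α' t`;
`y = ac R τ`, `y' = ac R' τ`.
* `y (al t) = α (ac T τ t) = 0` (`comp_ac`, `hTJ`, `hs.inJ_tau`), the same for `al'`.
* `him` of `exists_phi0` (P0c8ca5R.LA): for `t ∈ W'`, `t = ac T ε t` (`ε ε = ε`), so `α' t = ac R' ε (α' t)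
  = ac R' (τ ^ (l-1)) (ac R' ε w)` by `hs.FJ_sub` and `him`; `ac R' (τ ^ m) = y' ^ m` (`ac_mul`, `ac_one`,
  induction; all elements are supported in `C`).
* `exists_h` for `al` (injective) and `U`: the range of `al` is contained in that of `α`.  It gives
  `h₀ : V → W'` with `h₀ (al t) = t` and `h₀ u = 0` for `u ∈ U`; `(y ^ l) v = ac R (τ ^ l) (ac R ε v)` (as
  `l > 0`, `τ = τ ε`) is in `FJ C R l ≤ U` (`hs.sub_FJ`), so `h₀ ((y ^ l) v) = 0`.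
* `exists_phi0` gives `φ₀ : V → V'` with `φ₀ (y v) = y' (φ₀ v)`, `φ₀ (al t) = al' t`, and `φ₀ v = 0` if `y v = 0`
  and `h₀ v = 0`.
* `g = ac R' ε ∘ φ₀` satisfies the hypotheses of `hs.mor`: `g (ac R τ (ac R ε v)) = ac R' ε (y' (φ₀ (ac R ε v))) =
  ac R' τ (φ₀ (ac R ε v)) = ac R' τ (g (ac R ε v))` (`ε τ = τ = τ ε`); `ε ε = ε`.  Let `ψ` be the result.
* `ψ (α (ac T ε t)) = ψ (ac R ε (α t)) = g (ac R ε (α t)) = ac R' ε (φ₀ (al (ac T ε t))) =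
  ac R' ε (α' (ac T ε t)) = α' (ac T ε t)`; so `(ψ ∘ α) ∘ ac T c = α' ∘ ac T c` by `hs.eq_of_eps`, and
  `ψ ∘ α = ψ ∘ ac R c ∘ α = ψ ∘ α ∘ ac T c` (`comp_ac`).
* for `w ∈ Z`: `ac R ε w ∈ Z` (`ac_stable`), `y (ac R ε w) = 0` (`hZJ`, `inJ_tau`) and `h₀ (ac R ε w) = 0`
  (`Z ≤ U`), so `φ₀ (ac R ε w) = 0`, `g (ac R ε w) = 0`; the last clause of `hs.mor`.
-/

namespace Pool.Agent.Lib.P0c8ca5.Cb

open MonoidAlgebra Rk

variable {p : ℕ} {k : Type*} [Field k] {A : Type*} [Group A]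
variable {V V' W : Type*} [AddCommGroup V] [Module k V] [AddCommGroup V'] [Module k V']
  [AddCommGroup W] [Module k W]

namespace ExtBAux

theorem supp_pow {C : Subgroup A} {τ : MonoidAlgebra k A} (ht : SuppIn C τ) (m : ℕ) :
    SuppIn C (τ ^ m) := by
  induction m with
  | zero =>
    intro x hx
    rw [pow_zero] at hx
    by_contra h
    apply hx
    have h1 : x ≠ 1 := fun h2 => h (h2 ▸ C.one_mem)
    change (Finsupp.single (1 : A) (1 : k)) x = 0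
    exact Finsupp.single_eq_of_ne h1
  | succ m ih =>
    rw [pow_succ]
    exact ih.mul ht

theorem ac_pow [Fintype A] {C : Subgroup A} {τ : MonoidAlgebra k A} (ht : SuppIn C τ)
    {R : A → Module.End k V} (hR : IsRep C R) (m : ℕ) : ac R (τ ^ m) = ac R τ ^ m := by
  induction m with
  | zero => rw [pow_zero, pow_zero, ac_one hR]
  | succ m ih => rw [pow_succ, pow_succ, ac_mul hR (supp_pow ht m) ht, ih]

end ExtBAux

theorem ext_block [Fintype A] {C : Subgroup A} {c ε τ : MonoidAlgebra k A} (hs : St C c ε τ)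
    {R : A → Module.End k V} (hR : IsRep C R) {R' : A → Module.End k V'} (hR' : IsRep C R')
    {T : A → Module.End k W} (hT : IsRep C T) (hTJ : ∀ a, InJ C a → ac T a = 0)
    {α : W →ₗ[k] V} (hα : Eqv C T R α) (hinj : Function.Injective α)
    {α' : W →ₗ[k] V'} (hα' : Eqv C T R' α') {l : ℕ} (hl : 0 < l)
    (him : ∀ t, α' t ∈ FJ C R' (l - 1)) (U : Submodule k V)
    (hU : ∀ g ∈ C, ∀ u ∈ U, R g u ∈ U) (hUl : FJ C R l ≤ U)
    (hd : Disjoint (LinearMap.range α) U) (Z : Submodule k V)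
    (hZ : ∀ g ∈ C, ∀ z ∈ Z, R g z ∈ Z) (hZU : Z ≤ U)
    (hZJ : ∀ a, InJ C a → ∀ z ∈ Z, ac R a z = 0) :
    ∃ ψ : V →ₗ[k] V', Eqv C R R' ψ ∧ ac R' c ∘ₗ ψ = ψ ∧ ψ ∘ₗ α = α' ∘ₗ ac T c ∧
      ∀ z ∈ Z, ψ z = 0 := by
  have hcs : SuppIn C c := (mem_fixAlg.1 hs.blk.mem).1
  have hτJ := hs.inJ_tau
  have mulV : ∀ {a b : MonoidAlgebra k A}, SuppIn C a → SuppIn C b → ∀ v,
      ac R a (ac R b v) = ac R (a * b) v := by
    intro a b ha hb v
    rw [ac_mul hR ha hb]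
    rfl
  have mulV' : ∀ {a b : MonoidAlgebra k A}, SuppIn C a → SuppIn C b → ∀ v,
      ac R' a (ac R' b v) = ac R' (a * b) v := by
    intro a b ha hb v
    rw [ac_mul hR' ha hb]
    rfl
  have mulW : ∀ {a b : MonoidAlgebra k A}, SuppIn C a → SuppIn C b → ∀ v,
      ac T a (ac T b v) = ac T (a * b) v := by
    intro a b ha hb v
    rw [ac_mul hT ha hb]
    rfl
  have cα : ∀ {a : MonoidAlgebra k A}, SuppIn C a → ∀ w, α (ac T a w) = ac R a (α w) :=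
    fun ha w => LinearMap.congr_fun (comp_ac hα ha) w
  have cα' : ∀ {a : MonoidAlgebra k A}, SuppIn C a → ∀ w, α' (ac T a w) = ac R' a (α' w) :=
    fun ha w => LinearMap.congr_fun (comp_ac hα' ha) w
  let W' : Submodule k W := LinearMap.range (ac T ε)
  let al : W' →ₗ[k] V := α ∘ₗ W'.subtype
  let al' : W' →ₗ[k] V' := α' ∘ₗ W'.subtype
  have hET : ∀ t : W', ac T ε (t : W) = t := by
    rintro ⟨_, ⟨w, rfl⟩⟩
    change ac T ε (ac T ε w) = ac T ε w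
    rw [mulW hs.es hs.es, hs.ee]
  have hyal : ∀ t, ac R τ (al t) = 0 := by
    intro t
    change ac R τ (α (t : W)) = 0
    rw [← cα hs.ts, hTJ τ hτJ, LinearMap.zero_apply, map_zero]
  have hyal' : ∀ t, ac R' τ (al' t) = 0 := by
    intro t
    change ac R' τ (α' (t : W)) = 0
    rw [← cα' hs.ts, hTJ τ hτJ, LinearMap.zero_apply, map_zero]
  have him' : ∀ t, ∃ v, (ac R' τ ^ (l - 1)) v = al' t := by
    intro t
    obtain ⟨w, hw⟩ := hs.FJ_sub hR' (l - 1) (him (t : W))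
    refine ⟨ac R' ε w, ?_⟩
    rw [← ExtBAux.ac_pow hs.ts hR' (l - 1), ← hw, ← cα' hs.es, hET t]
    rfl
  have hinj' : Function.Injective al := hinj.comp Subtype.val_injective
  have hd' : Disjoint (LinearMap.range al) U := by
    refine hd.mono_left ?_
    rintro _ ⟨t, rfl⟩
    exact ⟨(t : W), rfl⟩
  obtain ⟨h₀, hh, hU0⟩ := exists_h al hinj' U hd'
  have hτl : τ ^ l * ε = τ ^ l := by
    obtain ⟨m, rfl⟩ : ∃ m, l = m + 1 := ⟨l - 1, by omega⟩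
    rw [pow_succ, mul_assoc, hs.te]
  have hhy : ∀ v, h₀ ((ac R τ ^ l) v) = 0 := by
    intro v
    apply hU0
    apply hUl
    rw [← ExtBAux.ac_pow hs.ts hR l, ← hτl, ← mulV (ExtBAux.supp_pow hs.ts l) hs.es]
    exact hs.sub_FJ hR l v
  obtain ⟨φ₀, hφ1, hφ2, hφ3⟩ := exists_phi0 (ac R τ) (ac R' τ) al al' l hl hyal hyal' him' h₀
    hh hhy
  have hg : ∀ v, (ac R' ε ∘ₗ φ₀) (ac R τ (ac R ε v)) =
      ac R' τ ((ac R' ε ∘ₗ φ₀) (ac R ε v)) := by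
    intro v
    rw [LinearMap.comp_apply, LinearMap.comp_apply, hφ1, mulV' hs.es hs.ts, hs.et,
      mulV' hs.ts hs.es, hs.te]
  have hge : ∀ v, ac R' ε ((ac R' ε ∘ₗ φ₀) (ac R ε v)) = (ac R' ε ∘ₗ φ₀) (ac R ε v) := by
    intro v
    rw [LinearMap.comp_apply, mulV' hs.es hs.es, hs.ee]
  obtain ⟨ψ, hψ1, hψ2, hψ3, hψ4, hψ5⟩ := hs.mor hR hR' (ac R' ε ∘ₗ φ₀) hg hge
  refine ⟨ψ, hψ1, hψ2, ?_, ?_⟩
  · have h1 : (ψ ∘ₗ α) ∘ₗ ac T c = α' ∘ₗ ac T c := by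
      apply hs.eq_of_eps hT hR' _ hα'
      · intro v
        rw [LinearMap.comp_apply, cα hs.es, hψ4, LinearMap.comp_apply, ← cα hs.es]
        have h2 := hφ2 ⟨ac T ε v, ⟨v, rfl⟩⟩
        change φ₀ (α (ac T ε v)) = α' (ac T ε v) at h2
        rw [h2, ← cα' hs.es, mulW hs.es hs.es, hs.ee]
      · intro x hx v
        rw [LinearMap.comp_apply, LinearMap.comp_apply, hα x hx, hψ1 x hx]
    rw [← h1]
    conv_lhs => rw [← hψ3]
    rw [LinearMap.comp_assoc, LinearMap.comp_assoc, comp_ac hα hcs]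
  · apply hψ5 Z hZ
    intro w hw
    have hwZ : ac R ε w ∈ Z := ac_stable hZ hs.es hw
    rw [LinearMap.comp_apply, hφ3 _ (hZJ τ hτJ _ hwZ) (hU0 _ (hZU hwZ)), map_zero]

end Pool.Agent.Lib.P0c8ca5.Cb
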