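import Mathlib
import Pool.Agent.Lib.P0c8ca5B.RadSt
import Pool.Agent.Lib.P0c8ca5N.WSum

/-!
# Module Ht: the height of a homomorphism

PROOF of `sum_cent_blocks`: `WSumAux.sum_blocks` (P0c8ca5N.WSum) for `H = C` and the central idempotent `b`
(`h.bmem`, `h.bb`); the set of the blocks is finite (`finite_isBlock`, see P0c8ca5R.Base1).
PROOF of `height`.  `α` is injective: its kernel is an `N`-stable submodule, `α ≠ 0`.
Claim: some `r` with `Disjoint (range α) (FJ C R r)`, even `α t ∈ FJ C R r → t = 0`.  Let `Bl` be the finite set of the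
blocks `c` of `C` with `c * b ≠ 0`; choose `r` such that `τ_c ^ r = 0` for all of them (`hst`, a
maximum).  If `α t ∈ FJ C R r` then `ac R c (α t) = 0` for all `c ∈ Bl` (`St.FJ_zero`), so
`ac R b (α t) = 0` (`sum_cent_blocks`, `ac_sum`), but `ac R b (α t) = α (ac T b t) = α t` (`comp_ac`, `hTb`).
So `t = 0`.  Since `W ≠ 0`, `∀ t, α t ∈ FJ C R r` fails.  Take the least `l` such that
`∀ t, α t ∈ FJ C R l` fails (`Nat.find`); `l > 0` as `FJ C R 0 = ⊤`; `∀ t, α t ∈ FJ C R (l - 1)`.  The set of the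
`t` with `α t ∈ FJ C R l` is an `N`-stable proper submodule (`FJ_stable`, `h.CN`, `h.NC`), so it is `⊥`.
(Compare the proof of `height` in P0c8ca5R.Height.)
-/

namespace Pool.Agent.Lib.P0c8ca5.Cb

open MonoidAlgebra Rk

variable {p : ℕ} {k : Type*} [Field k] {A : Type*} [Group A]
variable {V W : Type*} [AddCommGroup V] [Module k V] [AddCommGroup W] [Module k W]

theorem sum_cent_blocks [Fact p.Prime] [CharP k p] [IsAlgClosed k] [Fintype A]
    {e a b : MonoidAlgebra k A} {x : A} {D D₁ N C : Subgroup A} {X : Finset A}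
    (h : Data p e a b x D D₁ N C X) : ∃ B : Finset (MonoidAlgebra k A),
      (∀ c, c ∈ B ↔ IsBlock C c ∧ c * b ≠ 0) ∧ ∑ c ∈ B, c = b := by
  classical
  have hfin : {c : MonoidAlgebra k A | IsBlock C c ∧ c * b ≠ 0}.Finite :=
    (finite_isBlock (k := k) C).subset (fun c hc => hc.1)
  have hB : ∀ c, c ∈ hfin.toFinset ↔ IsBlock C c ∧ c * b ≠ 0 := by
    intro c
    rw [Set.Finite.mem_toFinset]
    rfl
  exact ⟨hfin.toFinset, hB, WSumAux.sum_blocks (p := p) h.bmem h.bb hfin.toFinset hB⟩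

theorem height [Fact p.Prime] [CharP k p] [IsAlgClosed k] [Fintype A]
    {e a b : MonoidAlgebra k A} {x : A} {D D₁ N C : Subgroup A} {X : Finset A}
    (h : Data p e a b x D D₁ N C X)
    (hst : ∀ c : MonoidAlgebra k A, IsBlock C c → c * b ≠ 0 → ∃ ε τ, St C c ε τ)
    {R : A → Module.End k V} (hR : IsRep N R) {T : A → Module.End k W} (hT : IsRep N T)
    (hTirr : Irr N T) (hTb : ac T b = 1) {α : W →ₗ[k] V} (hα : Eqv N T R α)
    (hα0 : α ≠ 0) :
    Function.Injective α ∧ ∃ l : ℕ, 0 < l ∧ (∀ t, α t ∈ FJ C R (l - 1)) ∧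
      Disjoint (LinearMap.range α) (FJ C R l) := by
  classical
  have hinj : Function.Injective α := by
    rcases hTirr.2 (LinearMap.ker α) (fun g hg w hw => by
      rw [LinearMap.mem_ker] at hw ⊢
      rw [hα g hg, hw, map_zero]) with h1 | h1
    · exact LinearMap.ker_eq_bot.1 h1
    · exact absurd (LinearMap.ker_eq_top.1 h1) hα0
  refine ⟨hinj, ?_⟩
  have hRC : IsRep C R := hR.mono h.CN
  obtain ⟨B, hB, hBs⟩ := sum_cent_blocks h
  have hex1 : ∀ c ∈ B, ∃ r : ℕ, ∀ v ∈ FJ C R r, ac R c v = 0 := by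
    intro c hc
    obtain ⟨h1, h2⟩ := (hB c).1 hc
    obtain ⟨ε, τ, hs⟩ := hst c h1 h2
    obtain ⟨r, hr⟩ := hs.nil
    exact ⟨r, fun v hv => hs.FJ_zero hRC hr hv⟩
  have hex2 : ∃ r : ℕ, ∀ c ∈ B, ∀ v ∈ FJ C R r, ac R c v = 0 := by
    choose! r hr using hex1
    refine ⟨B.sup r, fun c hc v hv => hr c hc v ?_⟩
    exact FJ_anti (Finset.le_sup hc) hv
  obtain ⟨r, hr⟩ := hex2
  have hex3 : ∃ l : ℕ, ¬ ∀ t, α t ∈ FJ C R l := by
    refine ⟨r, fun hall => ?_⟩
    have := hTirr.1
    obtain ⟨t, ht⟩ := exists_ne (0 : W)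
    apply ht
    apply hinj
    rw [map_zero]
    have h1 : ac R b (α t) = 0 := by
      rw [← hBs, ac_sum, LinearMap.sum_apply]
      exact Finset.sum_eq_zero (fun c hc => hr c hc _ (hall t))
    have h2 := LinearMap.congr_fun (comp_ac hα h.bN) t
    rw [LinearMap.comp_apply, LinearMap.comp_apply, hTb] at h2
    rw [h1] at h2
    exact h2
  have h1 := Nat.find_spec hex3
  have h2 : 0 < Nat.find hex3 := by
    rw [Nat.pos_iff_ne_zero]
    intro h0
    apply h1
    intro t
    rw [h0]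
    exact Submodule.mem_top
  refine ⟨Nat.find hex3, h2, ?_, ?_⟩
  · have h3 := Nat.find_min hex3 (Nat.sub_lt h2 one_pos)
    exact not_not.1 h3
  · rw [Submodule.disjoint_def]
    rintro z ⟨t, rfl⟩ hz
    rcases hTirr.2 ((FJ C R (Nat.find hex3)).comap α) (by
      intro g hg w hw
      rw [Submodule.mem_comap] at hw ⊢
      rw [hα g hg]
      exact FJ_stable h.CN h.NC hR _ g hg _ hw) with h4 | h4
    · have h5 : t ∈ (FJ C R (Nat.find hex3)).comap α := hz
      rw [h4, Submodule.mem_bot] at h5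
      rw [h5, map_zero]
    · exfalso
      apply h1
      intro t
      have h5 : t ∈ (FJ C R (Nat.find hex3)).comap α := by
        rw [h4]
        exact Submodule.mem_top
      exact h5

end Pool.Agent.Lib.P0c8ca5.Cb
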