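import Mathlib
import Pool.Agent.Lib.P0c8ca5B.ExtB
import Pool.Agent.Lib.P0c8ca5B.Ht

/-!
# Module Ext: extension of an `N`-homomorphism

PROOF of `index_ne_zero`: `N / C` embeds into the automorphism group of `D₁`, which has order `p - 1`.  Elementary:
the number of the `g x g⁻¹`, `g ∈ N`, is `[N : C]` (`C` is the centralizer of `x`); the group
`N / C` acts freely on the generators of `D₁ = ⟨x⟩`, so `[N : C]` divides `p - 1`.  Or: an element
`g ∈ N` of `p`-power order modulo `C` centralizes `D₁` (`g x g⁻¹ = x ^ j`, `g ^ (p ^ n) ∈ C` gives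
`j ^ (p ^ n) = 1` mod `p`, so `j = 1` mod `p` by Fermat), hence `p` does not divide `[N : C]` (Cauchy).
`C.relIndex N` is the index of `C` in `N`.
PROOF of `ext_hom`.  Let `B` be the set of the blocks `c` of `C` with `c * b ≠ 0` (`sum_cent_blocks`), for `c ∈ B` choose
`St C c ε τ` (`hst`) and `ψ_c` from `ext_block`; `ψ = ∑_{c ∈ B} ψ_c`: `Eqv C R R' ψ`,
`ac R' b ∘ ψ = ψ` (`ac R' b ∘ ac R' c = ac R' (b * c) = ac R' c`: `b * c = c` for `c ∈ B`, by
`IsBlock.mul_eq` and `commute_of`; or `b = ∑ c`), `ψ ∘ α = α' ∘ ac T b = α'`, `ψ z = 0` for `z ∈ Z`.  Let `Y` be a set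
of representatives of the cosets of `C` in `N` (`exists_reps`); `φ = (1 / |Y|) • RT Y R R' ψ`,
`|Y| = C.relIndex N ≠ 0` in `k`.  `Eqv N R R' φ` (`RT_eqv`, `Eqv` is stable under scalars).  `φ ∘ α =
(1 / |Y|) • RT Y T R' (ψ ∘ α) = (1 / |Y|) • RT Y T R' α' = α'` (`RT_comp_right`, `hc_of_eqv`).
`ac R' b ∘ φ = φ` (`RT_comp_left` as `ac R' b` is `N`-equivariant, `ac_eqv`, `h.binv`).  `φ z = 0` for `z ∈ Z`:
`R q⁻¹ z ∈ Z`.
-/

namespace Pool.Agent.Lib.P0c8ca5.Cb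

open MonoidAlgebra Rk

variable {p : ℕ} {k : Type*} [Field k] {A : Type*} [Group A]
variable {V V' W : Type*} [AddCommGroup V] [Module k V] [AddCommGroup V'] [Module k V']
  [AddCommGroup W] [Module k W]

namespace ExtAux

theorem card_reps {Y : Finset A} {N C : Subgroup A} (hY : Reps Y N C) :
    Y.card = C.relIndex N := by
  classical
  have h1 : C.relIndex N = Nat.card (↥N ⧸ C.subgroupOf N) := rfl
  rw [h1, ← Nat.card_congr (Equiv.ofBijective
    (fun q : Y => (QuotientGroup.mk ⟨(q : A), hY.mem q q.2⟩ : ↥N ⧸ C.subgroupOf N)) ⟨?_, ?_⟩),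
    Nat.card_eq_fintype_card, Fintype.card_coe]
  · intro q q' h
    have h2 : (q : A)⁻¹ * (q' : A) ∈ C := by
      have h3 := QuotientGroup.eq.1 h
      rwa [Subgroup.mem_subgroupOf] at h3
    have h4 : (q' : A)⁻¹ * (q' : A) ∈ C := by
      rw [inv_mul_cancel]
      exact C.one_mem
    exact Subtype.ext ((hY.uniq q' (hY.mem q' q'.2)).unique ⟨q.2, h2⟩ ⟨q'.2, h4⟩)
  · intro w
    obtain ⟨⟨g, hg⟩, rfl⟩ := QuotientGroup.mk_surjective w
    obtain ⟨q, ⟨hq1, hq2⟩, _⟩ := hY.uniq g hg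
    refine ⟨⟨q, hq1⟩, ?_⟩
    apply QuotientGroup.eq.2
    rw [Subgroup.mem_subgroupOf]
    exact hq2

end ExtAux

theorem index_ne_zero [Fact p.Prime] [CharP k p] [Fintype A]
    {e a b : MonoidAlgebra k A} {x : A} {D D₁ N C : Subgroup A} {X : Finset A}
    (h : Data p e a b x D D₁ N C X) : ((C.relIndex N : ℕ) : k) ≠ 0 := by
  have hp : p.Prime := Fact.out
  intro h0
  rw [CharP.cast_eq_zero_iff k p] at h0
  have hnorm : (C.subgroupOf N).Normal := by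
    constructor
    intro n hn g
    rw [Subgroup.mem_subgroupOf] at hn ⊢
    exact (Subgroup.mem_normalizer_iff.1 (h.NC g.2) _).1 hn
  have h1 : p ∣ Nat.card (↥N ⧸ C.subgroupOf N) := h0
  obtain ⟨w, hw⟩ := exists_prime_orderOf_dvd_card' p h1
  obtain ⟨⟨g, hg⟩, rfl⟩ := QuotientGroup.mk_surjective w
  have hgp : g ^ p ∈ C := by
    have h2 := pow_orderOf_eq_one (QuotientGroup.mk ⟨g, hg⟩ : ↥N ⧸ C.subgroupOf N)
    rw [hw, ← QuotientGroup.mk_pow, QuotientGroup.eq_one_iff, Subgroup.mem_subgroupOf] at h2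
    exact h2
  have hgC : g ∉ C := by
    intro h2
    have h3 : (QuotientGroup.mk ⟨g, hg⟩ : ↥N ⧸ C.subgroupOf N) = 1 := by
      rw [QuotientGroup.eq_one_iff, Subgroup.mem_subgroupOf]
      exact h2
    rw [h3, orderOf_one] at hw
    exact hp.one_lt.ne hw
  apply hgC
  have hgx : g * x * g⁻¹ ∈ D₁ := (Subgroup.mem_normalizer_iff.1 (h.ND1 hg) x).1 h.mem
  rw [h.hD₁] at hgx
  obtain ⟨j, hj⟩ := mem_powers_iff_mem_zpowers.2 hgx
  have hj' : x ^ j = g * x * g⁻¹ := hj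
  have hpow : ∀ n : ℕ, g ^ n * x * (g ^ n)⁻¹ = x ^ (j ^ n) := by
    intro n
    induction n with
    | zero => simp
    | succ n ih =>
      have e1 : g ^ (n + 1) * x * (g ^ (n + 1))⁻¹ = g * (g ^ n * x * (g ^ n)⁻¹) * g⁻¹ := by
        rw [pow_succ']
        group
      rw [e1, ih, pow_succ, mul_comm (j ^ n) j, pow_mul, hj', conj_pow]
  have hx1 : x ^ (j ^ p) = x := by
    rw [← hpow p]
    have h2 := hgp
    rw [h.hC, Subgroup.mem_centralizer_iff] at h2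
    have h3 := h2 x h.mem
    rw [← h3]
    group
  have hmod : j ^ p ≡ 1 [MOD p] := by
    have h2 : x ^ (j ^ p) = x ^ 1 := by rw [hx1, pow_one]
    rw [pow_eq_pow_iff_modEq, h.ord] at h2
    exact h2
  have hfer : (j : ZMod p) = 1 := by
    have h2 := (ZMod.natCast_eq_natCast_iff _ _ _).2 hmod
    rw [Nat.cast_pow, ZMod.pow_card, Nat.cast_one] at h2
    exact h2
  have hj1 : j ≡ 1 [MOD p] := by
    apply (ZMod.natCast_eq_natCast_iff _ _ _).1
    rw [hfer, Nat.cast_one]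
  have hxj : x ^ j = x := by
    have h2 : x ^ j = x ^ 1 := by
      rw [pow_eq_pow_iff_modEq, h.ord]
      exact hj1
    rw [h2, pow_one]
  have hcomm : g * x = x * g := by
    have h2 : g * x * g⁻¹ = x := by rw [← hj', hxj]
    calc g * x = g * x * g⁻¹ * g := by group
      _ = x * g := by rw [h2]
  rw [h.hC, Subgroup.mem_centralizer_iff]
  intro d hd
  rw [h.hD₁] at hd
  obtain ⟨m, rfl⟩ := hd
  have h3 : Commute x g := hcomm.symm
  exact h3.zpow_left m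

theorem ext_hom [Fact p.Prime] [CharP k p] [IsAlgClosed k] [Fintype A]
    {e a b : MonoidAlgebra k A} {x : A} {D D₁ N C : Subgroup A} {X : Finset A}
    (h : Data p e a b x D D₁ N C X)
    (hst : ∀ c : MonoidAlgebra k A, IsBlock C c → c * b ≠ 0 → ∃ ε τ, St C c ε τ)
    {R : A → Module.End k V} (hR : IsRep N R) {R' : A → Module.End k V'} (hR' : IsRep N R')
    {T : A → Module.End k W} (hT : IsRep N T) (hTJ : ∀ a, InJ C a → ac T a = 0)
    (hTb : ac T b = 1) {α : W →ₗ[k] V} (hα : Eqv N T R α) (hinj : Function.Injective α)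
    {α' : W →ₗ[k] V'} (hα' : Eqv N T R' α') {l : ℕ} (hl : 0 < l)
    (him : ∀ t, α' t ∈ FJ C R' (l - 1)) (U : Submodule k V)
    (hU : ∀ g ∈ N, ∀ u ∈ U, R g u ∈ U) (hUl : FJ C R l ≤ U)
    (hd : Disjoint (LinearMap.range α) U) (Z : Submodule k V)
    (hZ : ∀ g ∈ N, ∀ z ∈ Z, R g z ∈ Z) (hZU : Z ≤ U)
    (hZJ : ∀ a, InJ C a → ∀ z ∈ Z, ac R a z = 0) :
    ∃ φ : V →ₗ[k] V', Eqv N R R' φ ∧ ac R' b ∘ₗ φ = φ ∧ φ ∘ₗ α = α' ∧
      ∀ z ∈ Z, φ z = 0 := by
  classical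
  obtain ⟨B, hB, hBs⟩ := sum_cent_blocks h
  have hRC := hR.mono h.CN
  have hR'C := hR'.mono h.CN
  have hTC := hT.mono h.CN
  have hαC : Eqv C T R α := fun g hg => hα g (h.CN hg)
  have hα'C : Eqv C T R' α' := fun g hg => hα' g (h.CN hg)
  have key : ∀ c : MonoidAlgebra k A, ∃ ψ : V →ₗ[k] V', c ∈ B → (Eqv C R R' ψ ∧
      ac R' c ∘ₗ ψ = ψ ∧ ψ ∘ₗ α = α' ∘ₗ ac T c ∧ ∀ z ∈ Z, ψ z = 0) := by
    intro c
    by_cases hc : c ∈ B
    · obtain ⟨hc1, hc2⟩ := (hB c).1 hc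
      obtain ⟨ε, τ, hs⟩ := hst c hc1 hc2
      obtain ⟨ψ, hψ⟩ := ext_block hs hRC hR'C hTC hTJ hαC hinj hα'C hl him U
        (fun g hg => hU g (h.CN hg)) hUl hd Z (fun g hg => hZ g (h.CN hg)) hZU hZJ
      exact ⟨ψ, fun _ => hψ⟩
    · exact ⟨0, fun h => absurd h hc⟩
  choose ψ hψ using key
  have hΨ1 : Eqv C R R' (∑ c ∈ B, ψ c) := by
    intro g hg v
    rw [LinearMap.sum_apply, LinearMap.sum_apply, map_sum]
    exact Finset.sum_congr rfl (fun c hc => (hψ c hc).1 g hg v)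
  have hΨ2 : ac R' b ∘ₗ (∑ c ∈ B, ψ c) = ∑ c ∈ B, ψ c := by
    apply LinearMap.ext
    intro v
    rw [LinearMap.comp_apply, LinearMap.sum_apply, map_sum]
    refine Finset.sum_congr rfl (fun c hc => ?_)
    obtain ⟨hc1, hc2⟩ := (hB c).1 hc
    have hcs : SuppIn C c := (mem_fixAlg.1 hc1.mem).1
    have hbc : b * c = c := by
      rcases hc1.mul_eq h.bmem h.bb with h1 | h1
      · exfalso
        apply hc2
        rw [commute_of hcs h.binvC]
        exact h1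
      · exact h1
    have h1 : ψ c v = ac R' c (ψ c v) := (LinearMap.congr_fun (hψ c hc).2.1 v).symm
    rw [h1]
    have h2 := ac_mul hR'C h.bsupp hcs
    rw [hbc] at h2
    have h3 := LinearMap.congr_fun h2 (ψ c v)
    exact h3.symm
  have hΨ3 : (∑ c ∈ B, ψ c) ∘ₗ α = α' := by
    apply LinearMap.ext
    intro t
    rw [LinearMap.comp_apply, LinearMap.sum_apply]
    have h1 : ∀ c ∈ B, ψ c (α t) = α' (ac T c t) :=
      fun c hc => LinearMap.congr_fun (hψ c hc).2.2.1 t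
    rw [Finset.sum_congr rfl h1, ← map_sum, ← LinearMap.sum_apply, ← ac_sum, hBs, hTb]
    rfl
  have hΨ4 : ∀ z ∈ Z, (∑ c ∈ B, ψ c) z = 0 := by
    intro z hz
    rw [LinearMap.sum_apply]
    exact Finset.sum_eq_zero (fun c hc => (hψ c hc).2.2.2 z hz)
  obtain ⟨Y, hY⟩ := exists_reps h.CN
  have hYc : ((Y.card : ℕ) : k) ≠ 0 := by
    rw [ExtAux.card_reps hY]
    exact index_ne_zero h
  have hYN : ∀ q ∈ Y, q ∈ N := hY.mem
  have hbE : Eqv N R' R' (ac R' b) := ac_eqv hR' le_rfl h.bN h.binv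
  refine ⟨((Y.card : ℕ) : k)⁻¹ • RT Y R R' (∑ c ∈ B, ψ c), ?_, ?_, ?_, ?_⟩
  · intro g hg v
    rw [LinearMap.smul_apply, LinearMap.smul_apply, map_smul,
      RT_eqv hY h.CN hR hR' hΨ1 g hg v]
  · rw [LinearMap.comp_smul, ← RT_comp_left hYN hbE, hΨ2]
  · rw [LinearMap.smul_comp, ← RT_comp_right hYN hα, hΨ3]
    have h1 : RT Y T R' α' = ((Y.card : ℕ) : k) • α' := by
      rw [RT, Finset.sum_congr rfl (fun q hq => hc_of_eqv hT hα' (hYN q hq)),
        Finset.sum_const, Nat.cast_smul_eq_nsmul]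
    rw [h1, smul_smul, inv_mul_cancel₀ hYc, one_smul]
  · intro z hz
    rw [LinearMap.smul_apply, RT, LinearMap.sum_apply, Finset.sum_eq_zero, smul_zero]
    intro q hq
    rw [hc_apply, hΨ4 _ (hZ _ (N.inv_mem (hYN q hq)) z hz), map_zero]

end Pool.Agent.Lib.P0c8ca5.Cb
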