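import Mathlib
import Pool.Agent.Lib.P0c8ca5B.Defs

/-!
# Module LemM: from an `N`-homomorphism to an `A`-homomorphism
-/

namespace Pool.Agent.Lib.P0c8ca5.Cb

open MonoidAlgebra Rk

variable {p : ℕ} {k : Type*} [Field k] {A : Type*} [Group A]
variable {V V' V'' : Type*} [AddCommGroup V] [Module k V] [AddCommGroup V'] [Module k V']

theorem lemM [Fact p.Prime] [Fintype A] {e a b : MonoidAlgebra k A} {x : A} {D D₁ N C : Subgroup A}
    {X : Finset A} (h : Data p e a b x D D₁ N C X) {R : A → Module.End k V}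
    {R' : A → Module.End k V'} (hR : IsRep ⊤ R) (hR' : IsRep ⊤ R') {φ : V →ₗ[k] V'}
    (hφ : Eqv N R R' φ) (hb : ac R' b ∘ₗ φ = φ) :
    Eqv ⊤ R R' (RT X R R' (ac R' a ∘ₗ φ)) ∧
      ∃ θ : V →ₗ[k] V', ac R' b ∘ₗ RT X R R' (ac R' a ∘ₗ φ) = φ + trS N R R' θ := by
  classical
  have haT : SuppIn (⊤ : Subgroup A) a := h.aN.mono le_top
  have hacD : Eqv D R' R' (ac R' a) := ac_eqv hR' le_top haT h.ainv
  have hf : Eqv D R R' (ac R' a ∘ₗ φ) := hacD.comp (hφ.mono h.DN)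
  have hΦ : Eqv ⊤ R R' (RT X R R' (ac R' a ∘ₗ φ)) := RT_eqv h.reps le_top hR hR' hf
  refine ⟨hΦ, ?_⟩
  have hX1 : ∀ q ∈ X.filter (fun q => q ∈ N), q ∈ N := fun q hq => (Finset.mem_filter.1 hq).2
  have hbR : RT (X.filter (fun q => q ∈ N)) R' R' (ac R' a) = ac R' b := by
    rw [RT_ac (N := ⊤) (fun _ _ => Subgroup.mem_top _) hR' haT]
    exact congrArg (ac R') h.trb
  have h1 : RT (X.filter (fun q => q ∈ N)) R R' (ac R' a ∘ₗ φ) = φ := by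
    rw [RT_comp_right hX1 hφ, hbR, hb]
  have hsplit : RT X R R' (ac R' a ∘ₗ φ) = φ +
      ∑ q ∈ X.filter (fun q => q ∉ N), hc R R' q (ac R' a ∘ₗ φ) := by
    have h0 : RT X R R' (ac R' a ∘ₗ φ) = RT (X.filter (fun q => q ∈ N)) R R' (ac R' a ∘ₗ φ) +
        ∑ q ∈ X.filter (fun q => q ∉ N), hc R R' q (ac R' a ∘ₗ φ) := by
      rw [RT, RT, Finset.sum_filter_add_sum_filter_not]
    rw [h0, h1]
  obtain ⟨Ψ₀, hΨ₀⟩ := free_sum h.reps h.DN h.free hR hR' hf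
  have hΨ : Eqv N R R' (trS D R R' Ψ₀) := by
    have h2 : trS D R R' Ψ₀ = RT X R R' (ac R' a ∘ₗ φ) - φ := by
      rw [hsplit, ← hΨ₀, add_sub_cancel_left]
    rw [h2]
    exact (hΦ.mono le_top).sub hφ
  refine ⟨ac R' a ∘ₗ Ψ₀, ?_⟩
  rw [hsplit, hΨ₀, LinearMap.comp_add, hb]
  congr 1
  rw [← hbR, ← RT_comp_right hX1 hΨ, ← trS_comp_left hacD,
    RT_trS (h.reps.filter h.DN) h.DN (hR.mono le_top) (hR'.mono le_top)]

end Pool.Agent.Lib.P0c8ca5.Cb
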