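import Mathlib
import Pool.Agent.Lib.P0c8ca5B.LemM
import Pool.Agent.Lib.P0c8ca5B.Ht
import Pool.Agent.Lib.P0c8ca5B.Ext

/-!
# Module PartC: `τ ~ ρ` and `τ ~ ρ'` imply `ρ ≅ ρ'` (compare P0c8ca5R.PartC)
-/

namespace Pool.Agent.Lib.P0c8ca5.Cb

open MonoidAlgebra Rk

variable {p : ℕ} {k : Type*} [Field k] {A : Type*} [Group A]

namespace PartCAux

theorem ne_zero_of_notInP [Fintype A] {V V' : Type*} [AddCommGroup V] [Module k V]
    [AddCommGroup V'] [Module k V'] {K : Subgroup A} {R : A → Module.End k V}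
    {R' : A → Module.End k V'} {α : V →ₗ[k] V'} (h : ¬ InP K R R' α) : α ≠ 0 := by
  rintro rfl
  exact h inP_zero

theorem main [Fact p.Prime] [CharP k p] [IsAlgClosed k] [Fintype A] {e a b : MonoidAlgebra k A}
    {x : A} {D D₁ N C : Subgroup A} {X : Finset A} (h : Data p e a b x D D₁ N C X)
    (hst : ∀ c : MonoidAlgebra k A, IsBlock C c → c * b ≠ 0 → ∃ ε τ, St C c ε τ) {m n n' : ℕ}
    (τ : Rp k N m) (hTJ : ∀ a, InJ C a → ac (ofRep τ) a = 0) (hTb : ac (ofRep τ) b = 1)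
    (ρ : Rp k (⊤ : Subgroup A) n)
    (hρ : Irr' ρ) (ρ' : Rp k (⊤ : Subgroup A) n') (hρ' : Irr' ρ')
    {α : (Fin m → k) →ₗ[k] (Fin n → k)} (hα : Eqv N (ofRep τ) (ofRep ρ) α)
    {α' : (Fin m → k) →ₗ[k] (Fin n' → k)}
    (hα' : Eqv N (ofRep τ) (ofRep ρ') α') (hαP' : ¬ InP N (ofRep τ) (ofRep ρ') α')
    (hinj : Function.Injective α) {l : ℕ} (hl : 0 < l)
    (him : ∀ t, α' t ∈ FJ C (ofRep ρ') (l - 1))
    (hd : Disjoint (LinearMap.range α) (FJ C (ofRep ρ) l)) :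
    Iso ρ ρ' := by
  have hR : IsRep (⊤ : Subgroup A) (ofRep ρ) := isRep_ofRep ρ
  have hR' : IsRep (⊤ : Subgroup A) (ofRep ρ') := isRep_ofRep ρ'
  have hT : IsRep N (ofRep τ) := isRep_ofRep τ
  obtain ⟨φ, hφ, hbφ, hφα, -⟩ := ext_hom h hst (hR.mono le_top) (hR'.mono le_top) hT hTJ hTb hα
    hinj hα' hl him (FJ C (ofRep ρ) l) (FJ_stable h.CN h.NC (hR.mono le_top) l) le_rfl hd ⊥
    (fun g _ z hz => by
      rw [Submodule.mem_bot] at hz ⊢
      rw [hz, map_zero]) bot_le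
    (fun a _ z hz => by
      rw [Submodule.mem_bot] at hz
      rw [hz, map_zero])
  obtain ⟨hΦ, θ, hθ⟩ := lemM h hR hR' hφ hbφ
  have hne : RT X (ofRep ρ) (ofRep ρ') (ac (ofRep ρ') a ∘ₗ φ) ≠ 0 := by
    intro h0
    rw [h0, LinearMap.comp_zero] at hθ
    have h1 : φ = - trS N (ofRep ρ) (ofRep ρ') θ := eq_neg_of_add_eq_zero_left hθ.symm
    apply hαP'
    rw [← hφα]
    apply InP.comp_right _ hα
    rw [h1]
    exact InP.neg ⟨θ, rfl⟩
  have hinj' := hρ.injective _ hne (fun g v hv => by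
    have h1 := hΦ g g.2 v
    rw [ofRep_mem ρ g.2] at h1
    change _ = 0
    rw [show ρ g v = ρ ⟨(g : A), g.2⟩ v from rfl, h1, hv, map_zero])
  have hsurj := hρ'.surjective _ hne (fun g v => by
    refine ⟨ρ g v, ?_⟩
    have h1 := hΦ g g.2 v
    rw [ofRep_mem ρ g.2, ofRep_mem ρ' g.2] at h1
    exact h1)
  refine ⟨LinearEquiv.ofBijective _ ⟨hinj', hsurj⟩, fun g v => ?_⟩
  have h1 := hΦ g g.2 v
  rw [ofRep_mem ρ g.2, ofRep_mem ρ' g.2] at h1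
  exact h1

end PartCAux

open PartCAux

theorem partC [Fact p.Prime] [CharP k p] [IsAlgClosed k] [Fintype A] {e a b : MonoidAlgebra k A}
    {x : A} {D D₁ N C : Subgroup A} {X : Finset A} (h : Data p e a b x D D₁ N C X)
    (hst : ∀ c : MonoidAlgebra k A, IsBlock C c → c * b ≠ 0 → ∃ ε τ, St C c ε τ) {m n n' : ℕ}
    (τ : Rp k N m) (hτ : Irr' τ) (hb : act τ b = 1) (ρ : Rp k (⊤ : Subgroup A) n)
    (hρ : Irr' ρ) (ρ' : Rp k (⊤ : Subgroup A) n') (hρ' : Irr' ρ')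
    {α : (Fin m → k) →ₗ[k] (Fin n → k)} (hα : Eqv N (ofRep τ) (ofRep ρ) α)
    (hαP : ¬ InP N (ofRep τ) (ofRep ρ) α) {α' : (Fin m → k) →ₗ[k] (Fin n' → k)}
    (hα' : Eqv N (ofRep τ) (ofRep ρ') α') (hαP' : ¬ InP N (ofRep τ) (ofRep ρ') α') :
    Iso ρ ρ' := by
  have hR : IsRep N (ofRep ρ) := (isRep_ofRep ρ).mono le_top
  have hR' : IsRep N (ofRep ρ') := (isRep_ofRep ρ').mono le_top
  have hT : IsRep N (ofRep τ) := isRep_ofRep τ
  have hirr : Irr N (ofRep τ) := (irr_ofRep τ).1 hτ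
  have hTJ : ∀ a, InJ C a → ac (ofRep τ) a = 0 := fun a ha => J_zero_irr h.CN h.NC hT hirr ha
  have hTb : ac (ofRep τ) b = 1 := by rw [ac_ofRep, hb]
  obtain ⟨hinj, l, hl, him, hd⟩ := height h hst hR hT hirr hTb hα (ne_zero_of_notInP hαP)
  obtain ⟨hinj', l', hl', him', hd'⟩ :=
    height h hst hR' hT hirr hTb hα' (ne_zero_of_notInP hαP')
  rcases le_total l l' with hll | hll
  · exact main h hst τ hTJ hTb ρ hρ ρ' hρ' hα hα' hαP' hinj hl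
      (fun t => FJ_anti (by omega) (him' t)) hd
  · exact (main h hst τ hTJ hTb ρ' hρ' ρ hρ hα' hα hαP hinj' hl'
      (fun t => FJ_anti (by omega) (him t)) hd').symm

end Pool.Agent.Lib.P0c8ca5.Cb
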