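import Mathlib
import Pool.Agent.Lib.P0c8ca5B.PrC
import Pool.Agent.Lib.P0c8ca5B.LiftU
import Pool.Agent.Lib.P0c8ca5B.Mor
import Pool.Agent.Lib.P0c8ca5B.Der
import Pool.Agent.Lib.P0c8ca5B.PartD

/-!
# Module LiftC: a derivation `d` with `d (x - 1) = 1`

Notation: `y = yel k x`, central (`Cen.yel_comm`), `E = ε kA ε`.
PROOF.  Take `ρ`, `s` from `lft_cor`, `M = MI ε ρ s`.
(1) Every `m ∈ M` is `t l + y l'` with `l, l' ∈ E`: `m = ε m ε = P(t) ε + y (ε a' ε)` (`hl.gen`); apply it to `s`: `0 = P.coeff 0 • s`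
    (`ac t = 0`, `ac y = 0`), so `P(t) ε = t (Q(t) ε)`.
(2) `W = {t (ε l ε) + y² (ε l' ε)}` is a subspace of `kA` and `y ε ∉ W` (`hn`).  `Submodule.exists_le_ker_of_notMem` and scaling: a
    linear form `ψ` with `ψ = 0` on `W` and `ψ (y ε) = 1`.
(3) `M M ≤ W`: `(t l₁ + y l₂) (t l₃ + y l₄) = t (l₁ t l₃ + y l₁ l₄ + y l₂ l₃) + y² l₂ l₄` (`hl.comm`: `t` commutes with `E`; `y`
    central; `l₁ t l₃ ∈ E` as `t = ε t ε`).
(4) `exists_der` (P0c8ca5B.Der): `d` with `d m s = ψ m • s` for `m ∈ M`.  `y ε ∈ M`.  `d (y ε) = ac y * d ε + d y * ac ε`, so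
    `s = d (y ε) s = d y (ε s) = d y s`.
(5) `d (y a) = d y * ac a` and `d (a y) = ac a * d y`, and `y a = a y`: `d y` commutes with all `ac R a`, so `Eqv ⊤ R R (d y)`
    (`a = single g 1`, `ac_single` in P0c8ca5B.Mor) and by Schur (`PartDAux.schur` in P0c8ca5B.PartD) `d y v = c • v`; `c = 1` by (4).
-/

namespace Pool.Agent.Lib.P0c8ca5.Cb

open MonoidAlgebra Rk

variable {p : ℕ} {k : Type*} [Field k] {A : Type*} [Group A] {x : A} {D₁ : Subgroup A}

namespace LiftCAux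

/-- the subspace of the elements `t (ε l ε) + y² (ε l' ε)` -/
def W (t y ε : MonoidAlgebra k A) : Submodule k (MonoidAlgebra k A) where
  carrier := {w | ∃ l l', w = t * (ε * l * ε) + y ^ 2 * (ε * l' * ε)}
  add_mem' := by
    rintro w w' ⟨l, l', rfl⟩ ⟨m, m', rfl⟩
    refine ⟨l + m, l' + m', ?_⟩
    simp only [mul_add, add_mul]
    abel
  zero_mem' := ⟨0, 0, by simp only [mul_zero, zero_mul, add_zero]⟩
  smul_mem' := by
    rintro c w ⟨l, l', rfl⟩
    refine ⟨c • l, c • l', ?_⟩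
    simp only [mul_smul_comm, smul_mul_assoc, smul_add]

theorem mul_mem_W {t y ε : MonoidAlgebra k A} (ht : ∀ a, t * (ε * a * ε) = ε * a * ε * t)
    (hy : ∀ a, y * a = a * y) (a₁ a₂ a₃ a₄ : MonoidAlgebra k A) :
    (t * (ε * a₁ * ε) + y * (ε * a₂ * ε)) * (t * (ε * a₃ * ε) + y * (ε * a₄ * ε)) ∈ W t y ε := by
  refine ⟨a₁ * ε * t * ε * a₃ + a₁ * ε * y * ε * a₄ + y * a₂ * ε * ε * a₃, a₂ * ε * ε * a₄, ?_⟩
  have e1 : t * (ε * a₁ * ε) * (t * (ε * a₃ * ε)) = t * (ε * (a₁ * ε * t * ε * a₃) * ε) := by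
    simp only [mul_assoc]
  have e2 : t * (ε * a₁ * ε) * (y * (ε * a₄ * ε)) = t * (ε * (a₁ * ε * y * ε * a₄) * ε) := by
    simp only [mul_assoc]
  have e3 : y * (ε * a₂ * ε) * (t * (ε * a₃ * ε)) = t * (ε * (y * a₂ * ε * ε * a₃) * ε) := by
    have h1 : y * (ε * a₂ * ε) * (t * (ε * a₃ * ε)) = y * (ε * a₂ * ε * t) * (ε * a₃ * ε) := by
      simp only [mul_assoc]
    have h2 : y * (t * (ε * a₂ * ε)) = t * (ε * (y * a₂ * ε)) := by
      rw [← mul_assoc y t, hy t]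
      simp only [mul_assoc]
      rw [← mul_assoc y ε, hy ε]
      simp only [mul_assoc]
    rw [h1, ← ht a₂, h2]
    simp only [mul_assoc]
  have e4 : y * (ε * a₂ * ε) * (y * (ε * a₄ * ε)) = y ^ 2 * (ε * (a₂ * ε * ε * a₄) * ε) := by
    have h1 : y * (ε * a₂ * ε) * (y * (ε * a₄ * ε)) = y * ((ε * a₂ * ε) * y) * (ε * a₄ * ε) := by
      simp only [mul_assoc]
    rw [h1, ← hy, pow_two]
    simp only [mul_assoc]
  rw [mul_add, add_mul, add_mul, e1, e2, e3, e4]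
  simp only [mul_add, add_mul]
  abel

theorem ac_mulR [Fintype A] {n : ℕ} (ρ : Rp k (⊤ : Subgroup A) n) (a b : MonoidAlgebra k A) :
    ac (ofRep ρ) (a * b) = ac (ofRep ρ) a * ac (ofRep ρ) b :=
  ac_mul (isRep_ofRep ρ) (suppIn_top _) (suppIn_top _)

end LiftCAux

open LiftCAux in
theorem lft_der [Fact p.Prime] [CharP k p] [IsAlgClosed k] [Fintype A] (h : Cen p x D₁)
    {f ε t : MonoidAlgebra k A} (hf : IsBlock ⊤ f) {ε' τ' : MonoidAlgebra k (NQ D₁)}
    (hs : St (⊤ : Subgroup (NQ D₁)) (proj D₁ f) ε' τ') (hl : Lft x D₁ f ε t ε' τ')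
    (hn : ¬ ∃ l l', yel k x * ε = t * (ε * l * ε) + yel k x ^ 2 * (ε * l' * ε)) :
    ∃ (n : ℕ) (ρ : Rp k (⊤ : Subgroup A) n)
      (d : MonoidAlgebra k A →ₗ[k] Module.End k (Fin n → k)), Irr' ρ ∧ act ρ f = 1 ∧
        IsDer (ofRep ρ) d ∧ d (yel k x) = 1 := by
  obtain ⟨n, ρ, s, hc, htz, hyz⟩ := lft_cor h hf hs hl
  have hyc : ∀ a, yel k x * a = a * yel k x := fun a => h.yel_comm a
  -- the elements of `M`
  have hM : ∀ m ∈ MI ε ρ s, ∃ l l', m = t * (ε * l * ε) + yel k x * (ε * l' * ε) := by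
    intro m hm
    have h1 : ε * m = m := hm.1
    have h2 : m * ε = m := hm.2.1
    have h3 : ac (ofRep ρ) m s = 0 := hm.2.2
    obtain ⟨P, a', hP⟩ := hl.gen m
    rw [h1, h2] at hP
    have hPx : Polynomial.aeval t P = Polynomial.aeval t P.divX * t +
        algebraMap k (MonoidAlgebra k A) (P.coeff 0) := by
      conv_lhs => rw [← Polynomial.divX_mul_X_add P]
      rw [map_add, map_mul, Polynomial.aeval_X, Polynomial.aeval_C]
    have hP0 : Polynomial.aeval t P * ε = Polynomial.aeval t P.divX * t + P.coeff 0 • ε := by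
      rw [hPx, add_mul, mul_assoc, hl.te, ← Algebra.smul_def]
    have h4 : P.coeff 0 • s = 0 := by
      rw [hP, hP0, ac_add, ac_add, ac_mulR, ac_mulR, htz, hyz, mul_zero, zero_mul, zero_add,
        add_zero, ac_smul, LinearMap.smul_apply, hc.es] at h3
      exact h3
    have h5 : P.coeff 0 = 0 := by
      rcases smul_eq_zero.1 h4 with h5 | h5
      · exact h5
      · exact absurd h5 hc.s0
    refine ⟨Polynomial.aeval t P.divX, a', ?_⟩
    rw [hP, hP0, h5, zero_smul, add_zero]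
    congr 1
    have h6 : Polynomial.aeval t P.divX * t = t * Polynomial.aeval t P.divX := by
      have h7 : Polynomial.aeval t (P.divX * Polynomial.X) =
          Polynomial.aeval t (Polynomial.X * P.divX) := by rw [mul_comm]
      rwa [map_mul, map_mul, Polynomial.aeval_X] at h7
    have h8 : Polynomial.aeval t P.divX * t * ε = Polynomial.aeval t P.divX * t := by
      rw [mul_assoc, hl.te]
    rw [← h8, h6]
    rw [← mul_assoc t, ← mul_assoc t, hl.te]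
  -- the linear form
  have hnW : yel k x * ε ∉ W t (yel k x) ε := hn
  obtain ⟨φ, hφ, hφW⟩ := Submodule.exists_le_ker_of_notMem hnW
  set ψ : MonoidAlgebra k A →ₗ[k] k := (φ (yel k x * ε))⁻¹ • φ with hψd
  have hψW : ∀ w ∈ W t (yel k x) ε, ψ w = 0 := by
    intro w hw
    have h1 : φ w = 0 := hφW hw
    rw [hψd, LinearMap.smul_apply, h1, smul_zero]
  have hψ1 : ψ (yel k x * ε) = 1 := by
    rw [hψd, LinearMap.smul_apply, smul_eq_mul, inv_mul_cancel₀ hφ]
  have hψM : ∀ m ∈ MI ε ρ s, ∀ m' ∈ MI ε ρ s, ψ (m * m') = 0 := by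
    intro m hm m' hm'
    obtain ⟨a₁, a₂, rfl⟩ := hM m hm
    obtain ⟨a₃, a₄, rfl⟩ := hM m' hm'
    exact hψW _ (mul_mem_W hl.comm hyc a₁ a₂ a₃ a₄)
  obtain ⟨d, hd, hdM⟩ := exists_der hc ψ hψM
  have hyM : yel k x * ε ∈ MI ε ρ s := by
    refine ⟨?_, ?_, ?_⟩
    · rw [← mul_assoc, ← hyc, mul_assoc, hl.ee]
    · rw [mul_assoc, hl.ee]
    · rw [ac_mulR, hyz, zero_mul]
      rfl
  have hds : d (yel k x) s = s := by
    have h1 := hdM _ hyM
    rw [hψ1, one_smul, hd, hyz, zero_mul, zero_add, Module.End.mul_apply, hc.es] at h1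
    exact h1
  have hcomm : Eqv (⊤ : Subgroup A) (ofRep ρ) (ofRep ρ) (d (yel k x)) := by
    intro g _ v
    have h1 := hd (yel k x) (single g 1)
    have h2 := hd (single g 1) (yel k x)
    rw [hyz, zero_mul, zero_add, MorAux.ac_single] at h1
    rw [hyz, mul_zero, add_zero, MorAux.ac_single, ← hyc, h1] at h2
    exact LinearMap.congr_fun h2 v
  obtain ⟨c, hcv⟩ := PartDAux.schur ((irr_ofRep ρ).1 hc.irr) hcomm
  have hc1 : c = 1 := by
    have h1 := hcv s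
    rw [hds] at h1
    have h2 : (c - 1) • s = 0 := by rw [sub_smul, one_smul, ← h1, sub_self]
    rcases smul_eq_zero.1 h2 with h3 | h3
    · exact sub_eq_zero.1 h3
    · exact absurd h3 hc.s0
  refine ⟨n, ρ, d, hc.irr, ?_, hd, ?_⟩
  · rw [← ac_ofRep]
    exact hc.one
  · apply LinearMap.ext
    intro v
    rw [hcv, hc1, one_smul]
    rfl

end Pool.Agent.Lib.P0c8ca5.Cb
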