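import Mathlib
import Pool.Agent.Lib.P0c8ca5R.Inf4
import Pool.Agent.Lib.P0c8ca5P.Red

/-!
# Module Inf5: cyclic Brauer subgroups modulo a normal p-subgroup

PROOF of `hasBr_infl'`: copy the proof of `hasBr_infl` (P0c8ca5R.Inf4); with `hmem : x ∈ P ↔ ∃ hx, qm R x hx ∈ P'` the
equality `sec P R = P'` follows from `mem_sec` and `qm_surj`.
PROOF of `isCyclic_sec`: `sec P R` is a homomorphic image of `P.subgroupOf (normalizer R)`, which embeds into `P`
(`isCyclic_of_surjective`, `isCyclic_of_injective`; or: a generator `u` of `P ∩ N(R)`, then `qm R u _` generates).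
-/

namespace Pool.Agent.Lib.P0c8ca5.Cb

open MonoidAlgebra Rk

variable {p : ℕ} {k : Type*} [Field k] {A : Type*} [Group A]

theorem hasBr_infl' [Fact p.Prime] [CharP k p] [Fintype A] {K R : Subgroup A}
    (hRK : R ≤ K) (hn : K ≤ Subgroup.normalizer (R : Set A)) (hR : IsPGroup p R)
    {b : MonoidAlgebra k A} (hb : SuppIn K b) (hb' : InvBy K b) (hbb : b * b = b)
    {b' : MonoidAlgebra k (NQ R)} (hblk : IsBlock (sec K R) b') (hne : b' * proj R b ≠ 0)
    {P' : Subgroup (NQ R)} (hP' : P' ≤ sec K R) (hpP' : IsPGroup p P') (hbr : HasBr P' b') :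
    ∃ P : Subgroup A, R ≤ P ∧ P ≤ K ∧ IsPGroup p P ∧ HasBr P b ∧ sec P R = P' :=
  RedAux.hasBr_infl_sec hRK hn hR hb hb' hbb hblk hne hP' hpP' hbr

theorem isCyclic_sec {P R : Subgroup A} (h : IsCyclic P) : IsCyclic (sec P R) := by
  have h1 : IsCyclic ↥(P.subgroupOf (Subgroup.normalizer (R : Set A))) := by
    let f : ↥(P.subgroupOf (Subgroup.normalizer (R : Set A))) →* P :=
      ((Subgroup.normalizer (R : Set A)).subtype.comp
        (P.subgroupOf (Subgroup.normalizer (R : Set A))).subtype).codRestrict P (fun x => x.2)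
    apply isCyclic_of_injective f
    intro x y hxy
    apply Subtype.ext
    apply Subtype.ext
    exact congrArg (fun z : P => (z : A)) hxy
  let g := (QuotientGroup.mk' (R.subgroupOf (Subgroup.normalizer (R : Set A)))).subgroupMap
    (P.subgroupOf (Subgroup.normalizer (R : Set A)))
  exact isCyclic_of_surjective g (MonoidHom.subgroupMap_surjective _ _)

end Pool.Agent.Lib.P0c8ca5.Cb
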