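import Mathlib
import Pool.Agent.Lib.P0c8ca5B.PrI
import Pool.Agent.Lib.P0c8ca5B.Inf5

/-!
# Module BlkQ: blocks modulo a central subgroup of order `p`

Let `π` be the homomorphism of `Cen.exists_pi`, `f' = proj D₁ f = π f`, `yel` central, `yel ^ p = 0`.
PROOF of `blk_bar`.  `mem`: `proj_invBy` (P0c8ca5.Weights) and `mem_fixAlg`, `suppIn_top`; `idem`: `π f π f = π f`;
`ne_zero`: if `π f = 0` then `f = yel * c`, `f = f ^ p = yel ^ p * c ^ p = 0`.  `prim`: let `F'` be a central idempotent of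
`k (NQ D₁)` with `F' f' = F'`; `Cen.lift_idem` gives an idempotent `F` with `F f = F`, `π F = F'`.
Claim: `F a (f - F) = 0` for all `a`.  `π` of it is `F' π(a) (f' - F') = π(a) F' (f' - F') = 0`, so `F a (f - F) = yel * c`; multiply
by `F` from the left and `f - F` from the right: `F a (f - F) = yel * (F c (f - F))`.  So by induction on `j`: for every `a` and `j`
there is `c` with `F a (f - F) = yel ^ j * (F c (f - F))`; take `j = p`.  In the same way `(f - F) a F = 0`.  So
`F a = F a f = F a F = f a F = a F` for all `a` (`f` central, `F f = F = f F`), that is, `F` is a central idempotent and `hf.prim`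
gives `F = 0` or `F = f`.
PROOF of `nil_bar`.  `blk`: `blk_bar`.  Let `P'` be a p-subgroup of `NQ D₁` with `HasBr P' f'`.  `hasBr_infl'` (P0c8ca5B.Inf5) with `K = ⊤`,
`R = D₁`, `b = f`, `b' = f'` (`Cen.sec_top`; `f' * f' = f' ≠ 0`): a p-subgroup `P ≥ D₁` with `HasBr P f`, `sec P D₁ = P'`.  `cyc`:
`isCyclic_sec` (P0c8ca5B.Inf5).  `cen`: let `w = qm D₁ g _` normalize `P'`; then `g` normalizes `P` (`mem_normalizer_sec` in
P0c8ca5R.Inf2 with `K = ⊤`), so `g ^ p ^ n` centralizes `P`, and `w ^ p ^ n` centralizes `sec P D₁` (`mem_sec`).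
-/

namespace Pool.Agent.Lib.P0c8ca5.Cb

open MonoidAlgebra Rk

variable {p : ℕ} {k : Type*} [Field k] {A : Type*} [Group A] {x : A} {D₁ : Subgroup A}

namespace BlkQAux

/-- an element commuting with all group elements is central -/
theorem comm_of_single {a : MonoidAlgebra k A} (h : ∀ g : A, Commute (single g (1 : k)) a)
    (b : MonoidAlgebra k A) : b * a = a * b := by
  induction b using MonoidAlgebra.induction_on with
  | of g => exact (h g).eq
  | add x y hx hy => rw [add_mul, mul_add, hx, hy]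
  | smul r x hx => rw [smul_mul_assoc, mul_smul_comm, hx]

/-- the elements of `u kA v` are zero if their images are -/
theorem corner_zero [Fact p.Prime] [CharP k p] (h : Cen p x D₁) {B : Type*} [Semiring B]
    [Algebra k B] (π : MonoidAlgebra k A →ₐ[k] B)
    (hker : ∀ a, π a = 0 → ∃ a', a = yel k x * a') {u v : MonoidAlgebra k A}
    (hu : u * u = u) (hv : v * v = v) (huv : ∀ a, π (u * a * v) = 0) (a : MonoidAlgebra k A) :
    u * a * v = 0 := by
  have key : ∀ j : ℕ, ∃ c, u * a * v = yel k x ^ j * (u * c * v) := by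
    intro j
    induction j with
    | zero => exact ⟨a, by rw [pow_zero, one_mul]⟩
    | succ j ih =>
      obtain ⟨c, hc⟩ := ih
      obtain ⟨c', hc'⟩ := hker _ (huv c)
      refine ⟨c', ?_⟩
      have e1 : u * c * v = yel k x * (u * c' * v) := by
        calc u * c * v = (u * u) * c * (v * v) := by rw [hu, hv]
          _ = u * (u * c * v) * v := by simp only [mul_assoc]
          _ = u * (yel k x * c') * v := by rw [hc']
          _ = (u * yel k x) * c' * v := by simp only [mul_assoc]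
          _ = (yel k x * u) * c' * v := by rw [h.yel_comm]
          _ = yel k x * (u * c' * v) := by simp only [mul_assoc]
      rw [hc, pow_succ, e1]
      simp only [mul_assoc]
  obtain ⟨c, hc⟩ := key p
  rw [hc, h.yel_pow, zero_mul]

end BlkQAux

theorem blk_bar [Fact p.Prime] [CharP k p] [Fintype A] (h : Cen p x D₁)
    {f : MonoidAlgebra k A} (hf : IsBlock ⊤ f) :
    IsBlock (⊤ : Subgroup (NQ D₁)) (proj D₁ f) := by
  obtain ⟨π, hπ, hsurj, hker⟩ := h.exists_pi (k := k)
  have hfc : ∀ a, a * f = f * a :=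
    BlkQAux.comm_of_single (fun g => hf.mem.2 g (Subgroup.mem_top g))
  have hinv : InvBy ⊤ f := (mem_fixAlg.1 hf.mem).2
  refine ⟨mem_fixAlg.2 ⟨fun _ _ => Subgroup.mem_top _, proj_invBy hinv D₁⟩, ?_, ?_, ?_⟩
  · rw [← hπ, ← map_mul, hf.idem]
  · intro h0
    rw [← hπ] at h0
    obtain ⟨c, hc⟩ := hker f h0
    apply hf.ne_zero
    have hp : p = (p - 1) + 1 := (Nat.succ_pred_eq_of_pos (Fact.out : p.Prime).pos).symm
    have h1 : f ^ p = f := by
      rw [hp]; exact IsIdempotentElem.pow_succ_eq (p - 1) hf.idem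
    have h2 : f ^ p = yel k x ^ p * c ^ p := by
      have h3 : Commute (yel k x) c := h.yel_comm c
      rw [← h3.mul_pow, ← hc]
    rw [← h1, h2, h.yel_pow, zero_mul]
  · intro F' hF' hFi hFf
    obtain ⟨F, hFF, hFf', hpF⟩ := h.lift_idem hf hFi hFf
    have hFc : ∀ w, w * F' = F' * w :=
      BlkQAux.comm_of_single (fun g => hF'.2 g (Subgroup.mem_top g))
    have hfF : f * F = F := by rw [← hfc, hFf']
    have hsub : (f - F) * (f - F) = f - F := by
      rw [mul_sub, sub_mul, sub_mul, hf.idem, hfF, hFf', hFF, sub_self, sub_zero]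
    have hπF : π F = F' := by rw [hπ, hpF]
    have hFf2 : F' * π f = F' := by rw [hπ]; exact hFf
    have hfF2 : π f * F' = F' := by rw [hFc]; exact hFf2
    have k1 : ∀ a, F * a * (f - F) = 0 := by
      refine BlkQAux.corner_zero h π hker hFF hsub (fun a => ?_)
      rw [map_mul, map_mul, map_sub, hπF, ← hFc, mul_assoc, mul_sub, hFf2, hFi, sub_self,
        mul_zero]
    have k2 : ∀ a, (f - F) * a * F = 0 := by
      refine BlkQAux.corner_zero h π hker hsub hFF (fun a => ?_)
      rw [map_mul, map_mul, map_sub, hπF, mul_assoc, hFc, ← mul_assoc, sub_mul, hfF2, hFi,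
        sub_self, zero_mul]
    have hc : ∀ a, a * F = F * a := by
      intro a
      have e1 : F * a = F * a * F := by
        have h1 := k1 a
        rw [mul_sub, sub_eq_zero, mul_assoc F a f, hfc, ← mul_assoc, hFf'] at h1
        exact h1
      have e2 : a * F = F * a * F := by
        have h1 := k2 a
        rw [sub_mul, sub_mul, sub_eq_zero, ← hfc, mul_assoc, hfF] at h1
        exact h1
      rw [e2, ← e1]
    have hFmem : F ∈ fixAlg k (⊤ : Subgroup A) ⊤ :=
      ⟨fun _ _ => Subgroup.mem_top _, fun g _ => hc (single g 1)⟩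
    rcases hf.prim F hFmem hFF hFf' with h1 | h1
    · left
      rw [← hπF, h1, map_zero]
    · right
      rw [← hπF, h1, hπ]

theorem nil_bar [Fact p.Prime] [CharP k p] [Fintype A] (h : Cen p x D₁)
    {f : MonoidAlgebra k A} (hf : Nil p ⊤ f) : Nil p (⊤ : Subgroup (NQ D₁)) (proj D₁ f) := by
  have hb := blk_bar h hf.blk
  have hn : (⊤ : Subgroup A) ≤ Subgroup.normalizer (D₁ : Set A) := le_of_eq h.norm.symm
  have key : ∀ P' : Subgroup (NQ D₁), IsPGroup p P' → HasBr P' (proj D₁ f) →
      ∃ P : Subgroup A, D₁ ≤ P ∧ IsPGroup p P ∧ HasBr P f ∧ sec P D₁ = P' := by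
    intro P' hP' hbr
    obtain ⟨P, h1, _, h3, h4, h5⟩ := hasBr_infl' (K := ⊤) (R := D₁) le_top hn h.isPGroup
      (b := f) (fun _ _ => Subgroup.mem_top _) (mem_fixAlg.1 hf.blk.mem).2 hf.blk.idem
      (b' := proj D₁ f) (by rw [h.sec_top]; exact hb) (by rw [hb.idem]; exact hb.ne_zero)
      (P' := P') (by rw [h.sec_top]; exact le_top) hP' hbr
    exact ⟨P, h1, h3, h4, h5⟩
  refine ⟨hb, ?_, ?_⟩
  · intro P' _ hP' hbr
    obtain ⟨P, _, h3, h4, rfl⟩ := key P' hP' hbr
    exact isCyclic_sec (hf.cyc P le_top h3 h4)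
  · intro P' _ hP' hbr w _ hw
    obtain ⟨P, h1, h3, h4, rfl⟩ := key P' hP' hbr
    obtain ⟨g, hg, rfl⟩ := qm_surj w
    have hgP := (mem_normalizer_sec h1 le_top hn (Subgroup.mem_top g)).1 hw
    obtain ⟨n, hcen⟩ := hf.cen P le_top h3 h4 g (Subgroup.mem_top g) hgP
    refine ⟨n, ?_⟩
    rw [Subgroup.mem_centralizer_iff] at hcen ⊢
    intro y hy
    obtain ⟨z, hzP, hz, rfl⟩ := mem_sec.1 hy
    have e : z * g ^ p ^ n = g ^ p ^ n * z := hcen z hzP
    have e2 : ∀ {a b : A} (ha hb), a = b → qm D₁ a ha = qm D₁ b hb := by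
      rintro a b ha hb rfl; rfl
    exact e2 (mul_mem hz (pow_mem hg _)) (mul_mem (pow_mem hg _) hz) e

end Pool.Agent.Lib.P0c8ca5.Cb
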