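import Mathlib
import Pool.Agent.Lib.P0c8ca5B.PrC
import Pool.Agent.Lib.P0c8ca5B.Grp
import Pool.Agent.Lib.P0c8ca5B.Defs2

/-!
# Module CycR: a derivation on a cyclic p-subgroup

PROOF.  Let `m = Nat.card D / p`, so `Nat.card D = m p` (`Subgroup.card_dvd_of_le`, `D₁` has order `p`).
(1) There is a generator `u` of `D` with `u ^ m = x`: let `v` generate `D`, `x = v ^ i`; `x ^ p = 1` gives `m p ∣ i p`, `i = m j`, and
    `p ∤ j` as `x ≠ 1`.  Since `Nat.card D` is a power of `p`, `j` is prime to it and `u = v ^ j` generates `D` (`zpowers` of a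
    coprime power; `u ^ m = v ^ (j m) = x`).
(2) `Y = image of i ↦ u ^ i, i < m`: `Reps Y D D₁`: an element `u ^ i'` (`i' = q m + i`) is in `u ^ i D₁` as `u ^ (q m) = x ^ q`; uniqueness:
    `u ^ (i - i') ∈ ⟨u ^ m⟩` implies `m ∣ i - i'` (orders).
(3) `θ = d(u) * R(u⁻¹)`, where `d(g) = d (single g 1)`.  By induction on `i`: `d(u ^ i) * R(u⁻¹ ^ i) = ∑_{j < i} hc R R (u ^ j) θ`
    (`d(u ^ i u) = R(u ^ i) d(u) + d(u ^ i) R(u)`; `d(1) = 0` as `d(1 1) = 2 d(1)`).  For `i = m`: `RT Y R R θ = d(x) R(x⁻¹) = d(x)`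
    (`R x = 1` gives `R x⁻¹ = 1`), and `d(x) = d(yel k x) + d(1) = 1`.
-/

namespace Pool.Agent.Lib.P0c8ca5.Cb

open MonoidAlgebra Rk

variable {p : ℕ} {k : Type*} [Field k] {A : Type*} [Group A] {x : A} {D D₁ : Subgroup A}
variable {V : Type*} [AddCommGroup V] [Module k V]

namespace CycRAux

set_option linter.unusedSectionVars false in
theorem ac_single [Fintype A] (R : A → Module.End k V) (g : A) :
    ac R (single g (1 : k)) = R g := by
  classical
  rw [ac, Finset.sum_eq_single g]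
  · simp
  · intro b _ hb
    simp [Ne.symm hb]
  · intro h
    exact absurd (Finset.mem_univ _) h

theorem exists_gen [Fact p.Prime] [Finite A] (hord : orderOf x = p) (hx : x ∈ D)
    (hc : IsCyclic D) (hD : IsPGroup p D) :
    ∃ (u : A) (m : ℕ), D = Subgroup.zpowers u ∧ 0 < m ∧ orderOf u = m * p ∧ u ^ m = x := by
  have hp : p.Prime := Fact.out
  obtain ⟨⟨v, hv⟩, hgen⟩ := hc
  have hDv : D = Subgroup.zpowers v := by
    apply le_antisymm
    · intro w hw
      obtain ⟨n, hn⟩ := hgen ⟨w, hw⟩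
      exact ⟨n, congrArg Subtype.val hn⟩
    · rw [Subgroup.zpowers_le]
      exact hv
  have hcard : Nat.card D = orderOf v := by rw [hDv, Nat.card_zpowers]
  obtain ⟨n, hn⟩ := IsPGroup.iff_card.1 hD
  obtain ⟨i, hi⟩ := GrpAux.mem_natpow (hDv ▸ hx)
  have hx1 : x ≠ 1 := by
    intro h
    rw [h, orderOf_one] at hord
    exact hp.one_lt.ne hord
  have hn0 : n ≠ 0 := by
    intro h0
    rw [h0, pow_zero] at hn
    rw [hn] at hcard
    rw [orderOf_eq_one_iff.1 hcard.symm, one_pow] at hi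
    exact hx1 hi.symm
  obtain ⟨l, rfl⟩ := Nat.exists_eq_succ_of_ne_zero hn0
  have hov : orderOf v = p ^ l * p := by rw [← hcard, hn, pow_succ]
  have hip : p ^ l * p ∣ i * p := by
    rw [← hov]
    apply orderOf_dvd_of_pow_eq_one
    rw [pow_mul, hi, ← hord, pow_orderOf_eq_one]
  obtain ⟨j, rfl⟩ := Nat.dvd_of_mul_dvd_mul_right hp.pos hip
  have hj : ¬ p ∣ j := by
    rintro ⟨c, rfl⟩
    apply hx1
    rw [← hi, ← mul_assoc, ← hov, pow_mul, pow_orderOf_eq_one, one_pow]
  have hcop : (orderOf v).Coprime j := by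
    rw [hov, ← pow_succ]
    exact Nat.Coprime.pow_left _ ((Nat.Prime.coprime_iff_not_dvd hp).2 hj)
  have hou : orderOf (v ^ j) = orderOf v := hcop.orderOf_pow
  refine ⟨v ^ j, p ^ l, ?_, pow_pos hp.pos _, ?_, ?_⟩
  · rw [hDv]
    symm
    apply Subgroup.eq_of_le_of_card_ge
    · rw [Subgroup.zpowers_le]
      exact Subgroup.pow_mem _ (Subgroup.mem_zpowers v) j
    · rw [Nat.card_zpowers, Nat.card_zpowers, hou]
  · rw [hou, hov]
  · rw [← pow_mul, mul_comm, hi]

theorem pow_inj_lt {u : A} {m : ℕ} (ho : orderOf u = m * p) (hp : 0 < p) {i j : ℕ} (hi : i < m)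
    (hj : j < m) (h : u ^ i = u ^ j) : i = j := by
  rw [pow_eq_pow_iff_modEq, ho] at h
  have h1 : i < m * p := lt_of_lt_of_le hi (Nat.le_mul_of_pos_right m hp)
  have h2 : j < m * p := lt_of_lt_of_le hj (Nat.le_mul_of_pos_right m hp)
  rw [Nat.ModEq, Nat.mod_eq_of_lt h1, Nat.mod_eq_of_lt h2] at h
  exact h

open Classical in
theorem reps [Finite A] {u : A} {m : ℕ} (hD₁ : D₁ = Subgroup.zpowers x)
    (hDu : D = Subgroup.zpowers u) (hm : 0 < m) (ho : orderOf u = m * p) (hum : u ^ m = x) :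
    Reps ((Finset.range m).image (fun i => u ^ i)) D D₁ := by
  subst hDu
  subst hD₁
  refine ⟨?_, ?_⟩
  · intro q hq
    obtain ⟨i, -, rfl⟩ := Finset.mem_image.1 hq
    exact Subgroup.pow_mem _ (Subgroup.mem_zpowers u) i
  · intro g hg
    obtain ⟨i, rfl⟩ := GrpAux.mem_natpow hg
    refine ⟨u ^ (i % m), ⟨?_, ?_⟩, ?_⟩
    · exact Finset.mem_image.2 ⟨i % m, Finset.mem_range.2 (Nat.mod_lt _ hm), rfl⟩
    · have h1 : (u ^ (i % m))⁻¹ * u ^ i = x ^ (i / m) := by
        conv_lhs =>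
          rw [← Nat.mod_add_div i m]
        rw [pow_add, Nat.add_mul_mod_self_left, Nat.mod_mod, inv_mul_cancel_left, pow_mul, hum]
      rw [h1]
      exact Subgroup.pow_mem _ (Subgroup.mem_zpowers x) _
    · rintro q ⟨hq, hq'⟩
      obtain ⟨j, hj, rfl⟩ := Finset.mem_image.1 hq
      rw [Finset.mem_range] at hj
      obtain ⟨l, hl⟩ := GrpAux.mem_natpow hq'
      have h1 : u ^ i = u ^ (j + m * l) := by
        rw [pow_add, pow_mul, hum, hl, mul_inv_cancel_left]
      rw [pow_eq_pow_iff_modEq, ho] at h1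
      have h2 : i % m = j := by
        have h3 : i ≡ j + m * l [MOD m] := h1.of_mul_right p
        rw [Nat.ModEq, Nat.add_mul_mod_self_left, Nat.mod_eq_of_lt hj] at h3
        exact h3
      change u ^ j = u ^ (i % m)
      rw [h2]

theorem der_one [Fintype A] {R : A → Module.End k V} (hR : IsRep ⊤ R)
    {d : MonoidAlgebra k A →ₗ[k] Module.End k V} (hd : IsDer R d) : d 1 = 0 := by
  have h := hd 1 1
  have h1 : ac R (1 : MonoidAlgebra k A) = 1 := by
    rw [MonoidAlgebra.one_def, ac_single, hR.one]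
  rw [mul_one, h1, one_mul, mul_one] at h
  exact left_eq_add.1 h

theorem der_pow [Fintype A] {R : A → Module.End k V} (hR : IsRep ⊤ R)
    {d : MonoidAlgebra k A →ₗ[k] Module.End k V} (hd : IsDer R d) (u : A) (i : ℕ) :
    d (single (u ^ i) 1) * R (u ^ i)⁻¹
      = ∑ j ∈ Finset.range i, hc R R (u ^ j) (d (single u 1) * R u⁻¹) := by
  induction i with
  | zero =>
    rw [Finset.sum_range_zero, pow_zero, ← MonoidAlgebra.one_def, der_one hR hd, zero_mul]
  | succ i ih =>
    rw [Finset.sum_range_succ, ← ih]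
    have h1 : (single (u ^ (i + 1)) 1 : MonoidAlgebra k A) = single (u ^ i) 1 * single u 1 := by
      rw [single_mul_single, pow_succ, one_mul]
    rw [h1, hd, ac_single, ac_single, pow_succ, mul_inv_rev,
      hR.mul _ (Subgroup.mem_top _) _ (Subgroup.mem_top _), add_mul, add_comm]
    congr 1
    rw [mul_assoc, ← mul_assoc (R u), hR.mul_inv (Subgroup.mem_top u), one_mul]

end CycRAux

open CycRAux

theorem exists_cyc [Fact p.Prime] [Fintype A] (h : Cen p x D₁) (hle : D₁ ≤ D)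
    (hc : IsCyclic D) (hD : IsPGroup p D) {R : A → Module.End k V} (hR : IsRep ⊤ R)
    (hx : R x = 1) {d : MonoidAlgebra k A →ₗ[k] Module.End k V} (hd : IsDer R d)
    (h1 : d (yel k x) = 1) :
    ∃ (Y : Finset A) (θ : Module.End k V), Reps Y D D₁ ∧ RT Y R R θ = 1 := by
  classical
  have hp : p.Prime := Fact.out
  have hxD : x ∈ D := hle (by rw [h.hD₁]; exact Subgroup.mem_zpowers x)
  obtain ⟨u, m, hDu, hm, ho, hum⟩ := exists_gen h.ord hxD hc hD
  refine ⟨(Finset.range m).image (fun i => u ^ i), d (single u 1) * R u⁻¹,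
    reps h.hD₁ hDu hm ho hum, ?_⟩
  rw [RT, Finset.sum_image]
  · rw [← der_pow hR hd u m, hum]
    have h2 : R x⁻¹ = 1 := by
      have h3 := hR.inv_mul (Subgroup.mem_top x)
      rwa [hx, mul_one] at h3
    have h4 : d (single x 1) = 1 := by
      have h5 : (single x 1 : MonoidAlgebra k A) = yel k x + 1 := by
        rw [yel, sub_add_cancel]
      rw [h5, map_add, h1, der_one hR hd, add_zero]
    rw [h2, h4, mul_one]
  · intro i hi j hj hij
    exact pow_inj_lt ho hp.pos (Finset.mem_range.1 hi) (Finset.mem_range.1 hj) hij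

end Pool.Agent.Lib.P0c8ca5.Cb
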