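import Mathlib
import Pool.Agent.Lib.P0c8ca5B.Defs

/-!
# Module DzOf: a criterion for defect zero

PROOF.  Exactly the end of the proof of `partA2` in P0c8ca5B.PartA2 (from `hmem` on), with `f` for `e`: `trK ⊤ u` is in
`fixAlg k ⊤ ⊤`; by `PrimIdem.nilp_or_unit` either `(trK ⊤ u * f) ^ m = 0` for some `m` (impossible, it acts as `1` on `ρ`), or
`trK ⊤ u * w' * f = f` with `w'` central, so `f = trK ⊤ (u * (w' * f))` (`trK_mul`).  Then for a p-subgroup `Q ≠ ⊥` the coefficients of `f`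
on the centralizer of `Q` vanish (`coeff_trK_eq_zero`), so `HasBr Q f` is impossible (compare the end of `exists_trace` in
P0c8ca5B.Tra).
-/

namespace Pool.Agent.Lib.P0c8ca5.Cb

open MonoidAlgebra Rk

variable {p : ℕ} {k : Type*} [Field k] {A : Type*} [Group A]

theorem dz_of [Fact p.Prime] [CharP k p] [IsAlgClosed k] [Fintype A] {f : MonoidAlgebra k A}
    (hf : IsBlock ⊤ f) {n : ℕ} {ρ : Rp k (⊤ : Subgroup A) n} (hρ : Irr' ρ)
    (h1 : act ρ f = 1) {u : MonoidAlgebra k A} (hu : act ρ (trK ⊤ u) = 1) :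
    IsDZ p ⊤ f := by
  classical
  have hR : IsRep ⊤ (ofRep ρ) := isRep_ofRep ρ
  have he' : ac (ofRep ρ) f = 1 := by rw [ac_ofRep]; exact h1
  have e7 : ac (ofRep ρ) (trK ⊤ u) = 1 := by rw [ac_ofRep]; exact hu
  generalize ofRep ρ = R at hR he' e7
  have hST : ∀ c : MonoidAlgebra k A, SuppIn ⊤ c := fun c x _ => Subgroup.mem_top x
  have hmem : trK ⊤ u ∈ fixAlg k (⊤ : Subgroup A) ⊤ := mem_fixAlg.2 ⟨hST _, trK_invBy ⊤ u⟩
  have hart : IsArtinianRing (fixAlg k (⊤ : Subgroup A) ⊤) := by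
    have : Module.Finite k (MonoidAlgebra k A) :=
      inferInstance
    have h3 : FiniteDimensional k (fixAlg k (⊤ : Subgroup A) ⊤) :=
      inferInstance
    exact IsArtinianRing.of_finite k _
  have hnt := hρ.nontriv
  rcases hf.primIdem.nilp_or_unit ⟨trK ⊤ u, hmem⟩ with h1 | ⟨w', h1⟩
  · exfalso
    obtain ⟨m, hm⟩ := h1
    have h2 : (trK ⊤ u * f) ^ m = 0 := congrArg Subtype.val hm
    have h3 : ac R (trK ⊤ u * f) = 1 := by
      rw [ac_mul hR (hST _) (hST _), he', e7, mul_one]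
    have h4 : ∀ j : ℕ, ac R ((trK ⊤ u * f) ^ j) = 1 := by
      intro j
      induction j with
      | zero => rw [pow_zero, ac_one hR]
      | succ j ih => rw [pow_succ, ac_mul hR (hST _) (hST _), ih, h3, one_mul]
    have h5 := h4 m
    rw [h2] at h5
    have h6 : ac R (0 : MonoidAlgebra k A) = 0 := by
      have := ac_sum (R := R) (∅ : Finset ℕ) (fun _ => (0 : MonoidAlgebra k A))
      simpa using this
    rw [h6] at h5
    exact zero_ne_one h5
  · have h2 : trK ⊤ u * (w' : MonoidAlgebra k A) * f = f := congrArg Subtype.val h1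
    have hinv : InvBy ⊤ ((w' : MonoidAlgebra k A) * f) :=
      (mem_fixAlg.1 (Subalgebra.mul_mem _ w'.2 hf.mem)).2
    have h3 : f = trK ⊤ (u * ((w' : MonoidAlgebra k A) * f)) := by
      rw [trK_mul u hinv, ← mul_assoc, h2]
    refine ⟨hf, fun Q _ hQ hbrQ => ?_⟩
    by_contra hQne
    obtain ⟨y, hy, hy'⟩ := hbrQ
    apply hy'
    rw [h3]
    exact coeff_trK_eq_zero hQ le_top hQne _ hy

end Pool.Agent.Lib.P0c8ca5.Cb
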