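import Mathlib
import Pool.Agent.Lib.P0c8ca5B.PrC

/-!
# Module RepQ: representatives modulo a central subgroup

PROOF.  `(q, y) ↦ qm D₁ (q y)` is a bijection from `X × Y` to `NQ D₁`: surjective: `g = q d`, `d ∈ D`, `d = y d₁`;
injective: `q y D₁ = q' y' D₁` gives `q D = q' D`, `q = q'` (`hX.uniq`), then `y = y'`.  `Finset.sum_product'`, `Finset.sum_bij`.
-/

namespace Pool.Agent.Lib.P0c8ca5.Cb

open MonoidAlgebra Rk

variable {p : ℕ} {k : Type*} [Field k] {A : Type*} [Group A] {x : A} {D D₁ : Subgroup A}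

theorem sum_reps_bar [Fintype A] [Fintype (NQ D₁)] (h : Cen p x D₁) (hle : D₁ ≤ D)
    {X Y : Finset A} (hX : Reps X ⊤ D) (hY : Reps Y D D₁) {M : Type*} [AddCommMonoid M]
    (F : NQ D₁ → M) :
    ∑ q ∈ X, ∑ y ∈ Y, F (qm D₁ (q * y) (h.mem_norm _)) = ∑ w : NQ D₁, F w := by
  classical
  rw [← Finset.sum_product']
  refine Finset.sum_bij (fun x _ => qm D₁ (x.1 * x.2) (h.mem_norm _)) ?_ ?_ ?_ ?_
  · rintro ⟨q, y⟩ _
    exact Finset.mem_univ _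
  · rintro ⟨q, y⟩ hx ⟨q', y'⟩ hx' he
    rw [Finset.mem_product] at hx hx'
    have h1 : (q * y)⁻¹ * (q' * y') ∈ D₁ := qm_eq_iff.1 he
    have hq : q = q' := by
      apply TrAux.reps_eq' hX hx.1 hx'.1
      have h2 : y * ((q * y)⁻¹ * (q' * y')) * y'⁻¹ ∈ D :=
        D.mul_mem (D.mul_mem (hY.mem y hx.2) (hle h1)) (D.inv_mem (hY.mem y' hx'.2))
      have e1 : y * ((q * y)⁻¹ * (q' * y')) * y'⁻¹ = q⁻¹ * q' := by group
      rwa [e1] at h2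
    subst hq
    have hy : y = y' := by
      apply TrAux.reps_eq' hY hx.2 hx'.2
      have e1 : (q * y)⁻¹ * (q * y') = y⁻¹ * y' := by group
      rwa [e1] at h1
    rw [hy]
  · intro w _
    obtain ⟨g, hg, rfl⟩ := qm_surj w
    obtain ⟨q, ⟨hq, hq'⟩, -⟩ := hX.uniq g (Subgroup.mem_top g)
    obtain ⟨y, ⟨hy, hy'⟩, -⟩ := hY.uniq (q⁻¹ * g) hq'
    refine ⟨(q, y), Finset.mem_product.2 ⟨hq, hy⟩, ?_⟩
    apply qm_eq_iff.2
    have e1 : (q * y)⁻¹ * g = y⁻¹ * (q⁻¹ * g) := by group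
    rw [e1]
    exact hy'
  · rintro ⟨q, y⟩ _
    rfl

end Pool.Agent.Lib.P0c8ca5.Cb
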