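import Mathlib
import Pool.Agent.Lib.P0c8ca5B.CycR
import Pool.Agent.Lib.P0c8ca5B.RepQ
import Pool.Agent.Lib.P0c8ca5B.InfR
import Pool.Agent.Lib.P0c8ca5B.BlkQ
import Pool.Agent.Lib.P0c8ca5B.DzOf
import Pool.Agent.Lib.P0c8ca5B.PartA2

/-!
# Module LiftE: a derivation with `d (x - 1) = 1` implies that `proj D₁ f` has defect zero

PROOF.  `Cen p x D₁` (`cen_of_data`): `ord`, `hD₁` from `h`, and `x` is central because `C = ⊤` is the centralizer of `D₁ ∋ x`.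
`R = ofRep ρ`, `IsRep ⊤ R`.  `exists_bar`: `R x = 1` and `ρ'`.  `exists_cyc` for `D` (`h.D1D`, `h.cycD`, `h.hDp`): `Y`, `θ` with
`Reps Y D D₁`, `RT Y R R θ = 1`.
`z = ∑_{q ∈ X} cj q a`, `ac R z = RT X R R (ac R a)` (as in the proof of `partA2`), `Eqv D R R (ac R a)`, so
`ac R a = ac R a ∘ RT Y R R θ = RT Y R R (ac R a ∘ θ)` (`RT_comp_left` or its proof).  `h.unit`: `z w f = f`, `w` central; so
`1 = ac R z * ac R w` (`ac R f = 1`), and with `θ₂ = ac R a ∘ θ ∘ ac R w` (`ac R w` commutes with `A`)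
`1 = RT X R R (RT Y R R θ₂) = ∑_{q ∈ X} ∑_{y ∈ Y} hc R R (q y) θ₂`.
With `R' = ofRep ρ'`, `R' (qm D₁ g _) = R g` (`exists_bar`), so `hc R R (q y) θ₂ = hc R' R' (qm D₁ (q y) _) θ₂`, and by
`sum_reps_bar` with `F w = hc R' R' w θ₂`: `1 = ∑_{w : NQ D₁} hc R' R' w θ₂ = trS ⊤ R' R' θ₂`.  Density for `ρ'`
(`PartA2Aux.exists_ac`): `θ₂ = ac R' u`; `trS_ac`: `1 = ac R' (trK ⊤ u) = act ρ' (trK ⊤ u)` (`ac_ofRep`).  `dz_of` for the block
`proj D₁ f` of `NQ D₁` (`blk_bar`; `act ρ' (proj D₁ f) = act ρ f = 1`).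
-/

namespace Pool.Agent.Lib.P0c8ca5.Cb

open MonoidAlgebra Rk

variable {p : ℕ} {k : Type*} [Field k] {A : Type*} [Group A]

theorem cen_of_data {f a b : MonoidAlgebra k A} {x : A} {D D₁ N C : Subgroup A} {X : Finset A}
    (h : Data p f a b x D D₁ N C X) (hC : C = ⊤) : Cen p x D₁ := by
  refine ⟨h.ord, h.hD₁, fun g => ?_⟩
  have hg : g ∈ Subgroup.centralizer (D₁ : Set A) := by
    rw [← h.hC, hC]
    exact Subgroup.mem_top g
  rw [Subgroup.mem_centralizer_iff] at hg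
  exact (hg x h.mem).symm

theorem dz_bar [Fact p.Prime] [CharP k p] [IsAlgClosed k] [Fintype A]
    {f a b : MonoidAlgebra k A} {x : A} {D D₁ N C : Subgroup A} {X : Finset A}
    (h : Data p f a b x D D₁ N C X) (hC : C = ⊤) {n : ℕ} {ρ : Rp k (⊤ : Subgroup A) n}
    (hρ : Irr' ρ) (h1 : act ρ f = 1)
    {d : MonoidAlgebra k A →ₗ[k] Module.End k (Fin n → k)} (hd : IsDer (ofRep ρ) d)
    (hd1 : d (yel k x) = 1) : IsDZ p (⊤ : Subgroup (NQ D₁)) (proj D₁ f) := by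
  classical
  have hcen := cen_of_data h hC
  have hR : IsRep ⊤ (ofRep ρ) := isRep_ofRep ρ
  have he' : ac (ofRep ρ) f = 1 := by
    rw [ac_ofRep]
    exact h1
  obtain ⟨hx1, ρ', hρ', hact, hval⟩ := exists_bar hcen hρ
  obtain ⟨Y, θ, hY, hθ⟩ := exists_cyc hcen h.D1D h.cycD h.hDp hR hx1 hd hd1
  haveI : Fintype (NQ D₁) := Fintype.ofFinite _
  have hR' : IsRep ⊤ (ofRep ρ') := isRep_ofRep ρ'
  have hST : ∀ c : MonoidAlgebra k A, SuppIn ⊤ c := fun c x _ => Subgroup.mem_top x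
  set R := ofRep ρ with hRdef
  set R' := ofRep ρ' with hR'def
  set z := ∑ q ∈ X, cj q a with hz
  have e1 : ac R z = RT X R R (ac R a) :=
    (RT_ac (fun q _ => Subgroup.mem_top q) hR (hST a)).symm
  have heD : Eqv D R R (ac R a) := ac_eqv hR le_top (hST a) h.ainv
  have e4 : RT Y R R (ac R a ∘ₗ θ) = ac R a := by
    rw [RT_comp_left hY.mem heD, hθ]
    rfl
  obtain ⟨w, hw, hzw⟩ := h.unit
  have hw2 : InvBy ⊤ w := (mem_fixAlg.1 hw).2
  have e6 : (1 : Module.End k (Fin n → k)) = ac R z * ac R w := by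
    rw [← ac_mul hR (hST _) (hST _)]
    have h1 := congrArg (ac R) hzw
    rw [ac_mul hR (hST _) (hST _), he', mul_one] at h1
    exact h1.symm
  have hwE : Eqv ⊤ R R (ac R w) := ac_eqv hR le_rfl (hST w) hw2
  have e7 : RT X R R (RT Y R R ((ac R a ∘ₗ θ) ∘ₗ ac R w)) = 1 := by
    rw [RT_comp_right hY.mem (hwE.mono le_top), e4,
      RT_comp_right (K := ⊤) (fun q _ => Subgroup.mem_top q) hwE, ← e1]
    exact e6.symm
  set θ₂ := (ac R a ∘ₗ θ) ∘ₗ ac R w with hθ₂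
  have e8 : ∀ g, hc R R g θ₂ = hc R' R' (qm D₁ g (hcen.mem_norm g)) θ₂ := by
    intro g
    have h2 : (qm D₁ g (hcen.mem_norm g))⁻¹ = qm D₁ g⁻¹ (hcen.mem_norm g⁻¹) :=
      (qm_inv _ _).symm
    rw [hc, hc, h2, hval g, hval g⁻¹]
  have e9 : (1 : Module.End k (Fin n → k)) = trS ⊤ R' R' θ₂ := by
    rw [← e7, RT, trS]
    have e10 : ∀ q ∈ X, hc R R q (RT Y R R θ₂)
        = ∑ y ∈ Y, hc R' R' (qm D₁ (q * y) (hcen.mem_norm _)) θ₂ := by
      intro q hq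
      rw [RT, hc_sum]
      refine Finset.sum_congr rfl (fun y _ => ?_)
      rw [← hc_mul hR hR (Subgroup.mem_top q) (Subgroup.mem_top y), e8]
    rw [Finset.sum_congr rfl e10,
      sum_reps_bar hcen h.D1D h.reps hY (fun w => hc R' R' w θ₂)]
    symm
    refine Finset.sum_congr ?_ (fun _ _ => rfl)
    ext q
    simp
  obtain ⟨u, hu⟩ := PartA2Aux.exists_ac ρ' hρ' θ₂
  rw [← hu, hR'def, trS_ac hR' le_rfl (fun y _ => Subgroup.mem_top y), ac_ofRep] at e9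
  exact dz_of (blk_bar hcen h.blk) hρ' (by rw [hact]; exact h1) e9.symm

end Pool.Agent.Lib.P0c8ca5.Cb
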