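import Mathlib
import Pool.Agent.Lib.P0c8ca5B.DzSt
import Pool.Agent.Lib.P0c8ca5B.LiftA
import Pool.Agent.Lib.P0c8ca5B.LiftB
import Pool.Agent.Lib.P0c8ca5B.LiftC
import Pool.Agent.Lib.P0c8ca5B.LiftE

/-!
# Module StepA: the central step
-/

namespace Pool.Agent.Lib.P0c8ca5.Cb

open MonoidAlgebra Rk

variable {p : ℕ} {k : Type*} [Field k] {A : Type*} [Group A]

theorem step_one [Fact p.Prime] [CharP k p] [IsAlgClosed k] [Fintype A]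
    {f a b : MonoidAlgebra k A} {x : A} {D D₁ N C : Subgroup A} {X : Finset A}
    (h : Data p f a b x D D₁ N C X) (hC : C = ⊤) (hn : Nil p ⊤ f)
    (IH : ∀ f' : MonoidAlgebra k (NQ D₁), Nil p (⊤ : Subgroup (NQ D₁)) f' →
      ∃ ε τ, St (⊤ : Subgroup (NQ D₁)) f' ε τ) : ∃ ε τ, St ⊤ f ε τ := by
  have hc : Cen p x D₁ := cen_of_data h hC
  have : Fintype (NQ D₁) := Fintype.ofFinite _
  by_cases hdz : IsDZ p (⊤ : Subgroup (NQ D₁)) (proj D₁ f)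
  · obtain ⟨ε', hs⟩ := dz_st hdz
    obtain ⟨ε, t, hl⟩ := exists_lft hc h.blk hs
    exact ⟨ε, _, lft_zero hc h.blk hl⟩
  · obtain ⟨ε', τ', hs⟩ := IH _ (nil_bar hc hn)
    obtain ⟨ε, t, hl⟩ := exists_lft hc h.blk hs
    refine ⟨ε, t, lft_gen hc h.blk hl ?_⟩
    by_contra hno
    obtain ⟨n, ρ, d, hρ, h1, hd, hd1⟩ := lft_der hc h.blk hs hl hno
    exact hdz (dz_bar h hC hρ h1 hd hd1)

end Pool.Agent.Lib.P0c8ca5.Cb
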