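import Mathlib
import Pool.Agent.Lib.P0c8ca5B.Defs
import Pool.Agent.Lib.P0c8ca5R.Dev2
import Pool.Agent.Lib.P0c8ca5R.Coind

/-!
# Module PartB (compare P0c8ca5R.PartB)
-/

namespace Pool.Agent.Lib.P0c8ca5.Cb

open MonoidAlgebra Rk

variable {p : ℕ} {k : Type*} [Field k] {A : Type*} [Group A]

universe u

namespace PartBAux

theorem sub_rep {Y : Type u} [AddCommGroup Y] [Module k Y] [Module.Finite k Y]
    {R : A → Module.End k Y}
    (hR : IsRep ⊤ R) {E : Module.End k Y} (hE : Eqv ⊤ R R E) (hEE : ∀ y, E (E y) = E y) :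
    ∃ (V : Type u) (_ : AddCommGroup V) (_ : Module k V) (_ : Module.Finite k V)
      (R₁ : A → Module.End k V) (ι : V →ₗ[k] Y) (π : Y →ₗ[k] V),
      IsRep ⊤ R₁ ∧ Eqv ⊤ R₁ R ι ∧ Eqv ⊤ R R₁ π ∧ (∀ y, ι (π y) = E y) ∧
      (∀ v, E (ι v) = ι v) ∧ Function.Injective ι := by
  have hst : ∀ g : A, ∀ y ∈ LinearMap.range E, R g y ∈ LinearMap.range E := by
    rintro g y ⟨z, rfl⟩
    exact ⟨R g z, hE g (Subgroup.mem_top g) z⟩
  refine ⟨LinearMap.range E, inferInstance, inferInstance, inferInstance, fun g => (R g).restrict (hst g), (LinearMap.range E).subtype,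
    E.rangeRestrict, ⟨?_, ?_⟩, ?_, ?_, ?_, ?_, ?_⟩
  · apply LinearMap.ext
    intro v
    apply Subtype.ext
    show R 1 v.1 = v.1
    rw [hR.one]
    rfl
  · intro g hg g' hg'
    apply LinearMap.ext
    intro v
    apply Subtype.ext
    show R (g * g') v.1 = R g (R g' v.1)
    rw [hR.mul g hg g' hg']
    rfl
  · intro g _ v
    rfl
  · intro g hg y
    apply Subtype.ext
    show E (R g y) = R g (E y)
    exact hE g hg y
  · intro y
    rfl
  · rintro ⟨v, z, rfl⟩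
    exact hEE z
  · exact Subtype.val_injective

end PartBAux

theorem partB [Fact p.Prime] [CharP k p] [IsAlgClosed k] [Fintype A] {e a b : MonoidAlgebra k A}
    {x : A} {D D₁ N C : Subgroup A} {X : Finset A} (h : Data p e a b x D D₁ N C X) {m : ℕ}
    (τ : Rp k N m) (hτ : Irr' τ) (hb : act τ b = 1) :
    ∃ (n : ℕ) (ρ : Rp k (⊤ : Subgroup A) n), Irr' ρ ∧ act ρ e = 1 ∧
      ∃ α : (Fin m → k) →ₗ[k] (Fin n → k),
        Eqv N (ofRep τ) (ofRep ρ) α ∧ ¬ InP N (ofRep τ) (ofRep ρ) α := by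
  classical
  by_contra hcon
  have hall : ∀ (n : ℕ) (ρ : Rp k (⊤ : Subgroup A) n), Irr' ρ → act ρ e = 1 →
      ∀ α : (Fin m → k) →ₗ[k] (Fin n → k), Eqv N (ofRep τ) (ofRep ρ) α →
        InP N (ofRep τ) (ofRep ρ) α := by
    intro n ρ h1 h2 α h3
    by_contra h4
    exact hcon ⟨n, ρ, h1, h2, α, h3, h4⟩
  set T := ofRep τ with hTdef
  have hT : IsRep N T := isRep_ofRep τ
  have hirr : Irr N T := (irr_ofRep τ).1 hτ
  have hnorm : N ≤ Subgroup.normalizer (D₁ : Set A) := h.ND1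
  have hT1 : ∀ d ∈ D₁, T d = 1 := irr_trivial h.D1N hnorm h.isPGroup hT hirr
  obtain ⟨Y, R, i, r, hR, hi, hr, hri⟩ := exists_coind hT
  have heS : SuppIn ⊤ e := h.blk.suppIn
  have heI : InvBy ⊤ e := h.blk.invBy
  have hee : e * e = e := h.blk.idem
  have hE : Eqv ⊤ R R (ac R e) := ac_eqv hR le_rfl heS heI
  have hEE : ∀ y, ac R e (ac R e y) = ac R e y := by
    intro y
    rw [← Module.End.mul_apply, ← ac_mul hR heS heS, hee]
  obtain ⟨V, _, _, _, R₁, ι, π, hR₁, hι, hπ, hιπ, hEι, hinj⟩ := PartBAux.sub_rep hR hE hEE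
  have hR₁e : ac R₁ e = 1 := by
    apply LinearMap.ext
    intro v
    apply hinj
    have h1 : (ι ∘ₗ ac R₁ e) v = (ac R e ∘ₗ ι) v := by rw [comp_ac hι heS]
    rw [LinearMap.comp_apply, LinearMap.comp_apply, hEι] at h1
    exact h1
  have hα : Eqv N T R₁ (π ∘ₗ i) := Eqv.comp (hπ.mono le_top) hi
  obtain ⟨θ, hθ⟩ := dev2 hT hall hR₁ hR₁e hα
  have hrι : Eqv N R₁ T (r ∘ₗ ι) := Eqv.comp hr (hι.mono le_top)
  have hzero : (r ∘ₗ ι) ∘ₗ (π ∘ₗ i) = 0 := by
    rw [hθ, ← trS_comp_left hrι]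
    exact trS_eq_zero (p := p) (h.D1N h.mem) h.ord hT hT (hT1 x h.mem) (hT1 x h.mem) _
  have hres : resS (Subgroup.centralizer (D₁ : Set A) : Set A) (resS (N : Set A) e) = b := by
    ext g
    rw [coeff_resS]
    by_cases hg : g ∈ Subgroup.centralizer (D₁ : Set A)
    · have hg' : g ∈ C := by rw [h.hC]; exact hg
      rw [if_pos (SetLike.mem_coe.2 hg), coeff_resS, if_pos (SetLike.mem_coe.2 (h.CN hg')),
        h.be g hg']
    · rw [if_neg (fun h' => hg (SetLike.mem_coe.1 h'))]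
      by_contra hne
      apply hg
      have := h.bsupp g (Ne.symm hne)
      rwa [h.hC] at this
  have hinvD : InvBy D₁ (resS (N : Set A) e) := by
    intro d hd g
    have hdN := h.D1N hd
    rw [coeff_resS, coeff_resS, heI d (Subgroup.mem_top d) g]
    have hiff : d * g * d⁻¹ ∈ (N : Set A) ↔ g ∈ (N : Set A) := by
      constructor
      · intro hh
        have h1 : d⁻¹ * (d * g * d⁻¹) * d ∈ N := N.mul_mem (N.mul_mem (N.inv_mem hdN) hh) hdN
        have h2 : d⁻¹ * (d * g * d⁻¹) * d = g := by group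
        rwa [h2] at h1
      · intro hh
        exact N.mul_mem (N.mul_mem hdN hh) (N.inv_mem hdN)
    by_cases hg : g ∈ (N : Set A)
    · rw [if_pos hg, if_pos (hiff.2 hg)]
    · rw [if_neg hg, if_neg (fun h' => hg (hiff.1 h'))]
  have hwz : ∀ w, w = (0 : Fin m → k) := by
    intro w
    have h1 := LinearMap.congr_fun hzero w
    have h2 : r (ac R e (i w)) = 0 := by
      rw [← hιπ]
      exact h1
    rw [hri, sum_cj_fixed (p := p) h.D1N hnorm h.isPGroup hT hT1 resS_suppIn hinvD, hres,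
      hTdef, ac_ofRep, hb] at h2
    exact h2
  obtain ⟨w, hw⟩ := @exists_ne _ hirr.1 (0 : Fin m → k)
  exact hw (hwz w)

end Pool.Agent.Lib.P0c8ca5.Cb
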