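import Mathlib
import Pool.Agent.Lib.P0c8ca5B.PartA
import Pool.Agent.Lib.P0c8ca5B.PartB
import Pool.Agent.Lib.P0c8ca5B.PartC
import Pool.Agent.Lib.P0c8ca5B.PartD

/-!
# Module Bij (compare P0c8ca5R.Bij)
-/

namespace Pool.Agent.Lib.P0c8ca5.Cb

open MonoidAlgebra Rk

variable {p : ℕ} {k : Type*} [Field k] {A : Type*} [Group A]

namespace BijAux

/-- the relation -/
def Rel0 [Fintype A] {N : Subgroup A} {n m : ℕ} (ρ : Rp k (⊤ : Subgroup A) n) (τ : Rp k N m) : Prop :=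
  ∃ α : (Fin m → k) →ₗ[k] (Fin n → k),
    Eqv N (ofRep τ) (ofRep ρ) α ∧ ¬ InP N (ofRep τ) (ofRep ρ) α

/-- the relation on representatives -/
def Rel [Fintype A] {N : Subgroup A} {e b : MonoidAlgebra k A} (ρ : IrrInv (⊤ : Subgroup A) ⊥ e)
    (τ : IrrInv N ⊥ b) : Prop := Rel0 ρ.ρ τ.ρ

theorem eqv_of_iso {M : Subgroup A} {n m : ℕ} {ρ : Rp k M n} {σ : Rp k M m}
    {P : (Fin n → k) ≃ₗ[k] (Fin m → k)} (hP : ∀ (x : M) v, P (ρ x v) = σ x (P v)) :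
    Eqv M (ofRep ρ) (ofRep σ) P.toLinearMap ∧ Eqv M (ofRep σ) (ofRep ρ) P.symm.toLinearMap := by
  constructor
  · intro g hg v
    rw [ofRep_mem ρ hg, ofRep_mem σ hg]
    exact hP ⟨g, hg⟩ v
  · intro g hg v
    rw [ofRep_mem ρ hg, ofRep_mem σ hg]
    change P.symm (σ ⟨g, hg⟩ v) = ρ ⟨g, hg⟩ (P.symm v)
    apply P.injective
    rw [P.apply_symm_apply, hP, P.apply_symm_apply]

theorem Rel0.of_left [Fintype A] {N : Subgroup A} {n n' m : ℕ} {ρ : Rp k (⊤ : Subgroup A) n}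
    {ρ' : Rp k (⊤ : Subgroup A) n'} {τ : Rp k N m} (h : Rel0 ρ τ) (hi : Iso ρ ρ') :
    Rel0 ρ' τ := by
  obtain ⟨α, hα, hαP⟩ := h
  obtain ⟨P, hP⟩ := hi
  obtain ⟨h1, h2⟩ := eqv_of_iso hP
  refine ⟨P.toLinearMap ∘ₗ α, (h1.mono le_top).comp hα, fun h3 => hαP ?_⟩
  have h4 := h3.comp_left (h2.mono le_top)
  have h5 : P.symm.toLinearMap ∘ₗ P.toLinearMap ∘ₗ α = α := by
    apply LinearMap.ext
    intro v
    exact P.symm_apply_apply (α v)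
  rwa [h5] at h4

theorem Rel0.of_right [Fintype A] {N : Subgroup A} {n m m' : ℕ} {ρ : Rp k (⊤ : Subgroup A) n}
    {τ : Rp k N m} {τ' : Rp k N m'} (h : Rel0 ρ τ) (hi : Iso τ' τ) :
    Rel0 ρ τ' := by
  obtain ⟨α, hα, hαP⟩ := h
  obtain ⟨P, hP⟩ := hi
  obtain ⟨h1, h2⟩ := eqv_of_iso hP
  refine ⟨α ∘ₗ P.toLinearMap, hα.comp h1, fun h3 => hαP ?_⟩
  have h4 := h3.comp_right h2
  have h5 : (α ∘ₗ P.toLinearMap) ∘ₗ P.symm.toLinearMap = α := by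
    apply LinearMap.ext
    intro v
    exact congrArg α (P.apply_symm_apply v)
  rwa [h5] at h4

theorem Rel.of_right [Fintype A] {N : Subgroup A} {e b : MonoidAlgebra k A}
    {ρ : IrrInv (⊤ : Subgroup A) ⊥ e} {τ τ' : IrrInv N ⊥ b} (h : Rel ρ τ) (hi : Iso τ'.ρ τ.ρ) :
    Rel0 ρ.ρ τ'.ρ := Rel0.of_right h hi

end BijAux

theorem card_irr_bij [Fact p.Prime] [CharP k p] [IsAlgClosed k] [Fintype A]
    {e a b : MonoidAlgebra k A} {x : A} {D D₁ N C : Subgroup A} {X : Finset A}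
    (h : Data p e a b x D D₁ N C X)
    (hst : ∀ c : MonoidAlgebra k A, IsBlock C c → c * b ≠ 0 → ∃ ε τ, St C c ε τ) :
    Nat.card (Quotient (irrInvSetoid (⊤ : Subgroup A) ⊥ e))
      = Nat.card (Quotient (irrInvSetoid N ⊥ b)) := by
  classical
  have hcod : ∀ x : Quotient (irrInvSetoid (⊤ : Subgroup A) ⊥ e),
      ∃ τ : IrrInv N ⊥ b, BijAux.Rel x.out τ := by
    intro q
    obtain ⟨m, τ, h1, h2, h3⟩ := partA h q.out.ρ (irr_iff.1 q.out.irr) (act_iff.2 q.out.blk)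
    exact ⟨mkIrr τ h1 h2, h3⟩
  choose f hf using hcod
  have hirr : ∀ {M H : Subgroup A} {c : MonoidAlgebra k A} (σ : IrrInv M H c), Irr' σ.ρ :=
    fun σ => irr_iff.1 σ.irr
  have hact : ∀ {M H : Subgroup A} {c : MonoidAlgebra k A} (σ : IrrInv M H c), act σ.ρ c = 1 :=
    fun σ => act_iff.2 σ.blk
  refine Nat.card_congr (Equiv.ofBijective
    (fun q => (⟦f q⟧ : Quotient (irrInvSetoid N ⊥ b))) ⟨?_, ?_⟩)
  · intro q q' hqq
    have h1 : Iso (f q').ρ (f q).ρ := (mk_eq_mk.1 hqq).symm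
    obtain ⟨α, hα, hαP⟩ := hf q'
    obtain ⟨α', hα', hαP'⟩ := (BijAux.Rel.of_right (hf q) h1)
    have h2 : Iso q.out.ρ q'.out.ρ :=
      partC h hst (f q').ρ (hirr _) (hact _) q.out.ρ (hirr _) q'.out.ρ (hirr _) hα' hαP' hα hαP
    have h3 := mk_eq_mk.2 h2
    rwa [Quotient.out_eq, Quotient.out_eq] at h3
  · intro y
    obtain ⟨n, ρ, h1, h2, h3⟩ := partB h y.out.ρ (hirr _) (hact _)
    let q : Quotient (irrInvSetoid (⊤ : Subgroup A) ⊥ e) := ⟦mkIrr ρ h1 h2⟧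
    have h4 : Iso ρ q.out.ρ := by
      have h5 : (⟦mkIrr ρ h1 h2⟧ : Quotient (irrInvSetoid (⊤ : Subgroup A) ⊥ e)) = ⟦q.out⟧ :=
        (Quotient.out_eq q).symm
      exact mk_eq_mk.1 h5
    have h6 : BijAux.Rel0 ρ y.out.ρ := h3
    obtain ⟨α, hα, hαP⟩ := h6.of_left h4
    obtain ⟨α', hα', hαP'⟩ := hf q
    refine ⟨q, ?_⟩
    have h7 : Iso (f q).ρ y.out.ρ :=
      partD h hst (f q).ρ (hirr _) (hact _) y.out.ρ (hirr _) (hact _) q.out.ρ (hirr _)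
        hα' hαP' hα hαP
    have h8 := mk_eq_mk.2 h7
    rw [Quotient.out_eq] at h8
    exact h8

end Pool.Agent.Lib.P0c8ca5.Cb
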