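import Mathlib
import Pool.Agent.Lib.P0c8ca5B.Defs2
import Pool.Agent.Lib.P0c8ca5N.WSum

/-!
# Further definitions

* `RE R d`: the representation on `V × V` defined by a derivation `d`.
* `wt p K c Q`: the number of the blocks of defect zero of `N_K(Q) / Q` below the idempotent `c`; `WS p K c` is the sum
  `∑ |N_K(Q)| * wt p K c Q` over the p-subgroups `Q` of `K`.
-/

namespace Pool.Agent.Lib.P0c8ca5.Cb

open MonoidAlgebra Rk

variable {p : ℕ} {k : Type*} [Field k] {A : Type*} [Group A]
variable {V : Type*} [AddCommGroup V] [Module k V]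

/-- the representation on `V × V` defined by a derivation -/
noncomputable def RE [Fintype A] (R : A → Module.End k V)
    (d : MonoidAlgebra k A →ₗ[k] Module.End k V) : A → Module.End k (V × V) := fun g =>
  LinearMap.prod (R g ∘ₗ LinearMap.fst k V V + d (single g 1) ∘ₗ LinearMap.snd k V V)
    (R g ∘ₗ LinearMap.snd k V V)

/-- the number of the blocks of defect zero of `N_K(Q) / Q` below `c` -/
noncomputable def wt (p : ℕ) (K : Subgroup A) (c : MonoidAlgebra k A) (Q : Subgroup A) : ℕ :=
  Nat.card {f : MonoidAlgebra k (NQ Q) | IsDZ p (sec K Q) f ∧ f * proj Q c = f}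

open Classical in
/-- the sum over the p-subgroups of `K` -/
noncomputable def WS (p : ℕ) [Fintype A] (K : Subgroup A) (c : MonoidAlgebra k A) : ℕ :=
  ∑ Q ∈ Finset.univ.filter (fun Q : Subgroup A => Q ≤ K ∧ IsPGroup p Q),
    Nat.card ↥(K ⊓ Subgroup.normalizer (Q : Set A)) * wt p K c Q

end Pool.Agent.Lib.P0c8ca5.Cb
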