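import Mathlib
import Pool.Agent.Lib.P0c8ca5B.Defs3

/-!
# Module DerE: the extension defined by a derivation; derivations of nilpotent elements

PROOF of `ac_RE`: `ac (RE R d) a (v, w) = ∑_g a(g) • (R g v + d(g) w, R g w)`, and `∑_g a(g) • d(single g 1) = d a` by linearity
(`a = ∑_g a(g) • single g 1`; compare `ac_single` in P0c8ca5B.Mor).
PROOF of `isRep_RE`: `d(1) = 0` from `d(1 * 1) = d(1) + d(1)` (`ac_one`), and `d(g h) = R g d(h) + d(g) R h` (`single_mul_single`).
PROOF of `beta_sum`: by induction on `m`, `d(τ ^ (m + 1)) = ∑_{i < m + 1} ac R τ ^ (m - i) * d τ * ac R τ ^ i` (`pow_succ'`: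
`d(τ τ ^ m) = ac R τ * d(τ ^ m) + d τ * ac R (τ ^ m)`, and `ac R (τ ^ m) = ac R τ ^ m`: `ac_pow` in P0c8ca5B.ExtB).  With
`m + 1 = r`, `τ ^ r = 0`, multiply by `ac R ε` from both sides; `ac R ε` commutes with the powers of `ac R τ`
(`ac R ε * ac R τ = ac R τ = ac R τ * ac R ε`).
-/

namespace Pool.Agent.Lib.P0c8ca5.Cb

open MonoidAlgebra Rk

variable {p : ℕ} {k : Type*} [Field k] {A : Type*} [Group A]
variable {V : Type*} [AddCommGroup V] [Module k V]

namespace DerEAux

theorem ac_single [Fintype A] {R : A → Module.End k V} (g : A) :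
    ac R (single g (1 : k)) = R g := by
  classical
  rw [ac, Finset.sum_eq_single g]
  · change (Finsupp.single g (1 : k)) g • R g = R g
    rw [Finsupp.single_eq_same, one_smul]
  · intro x _ hx
    change (Finsupp.single g (1 : k)) x • R x = 0
    rw [Finsupp.single_eq_of_ne hx, zero_smul]
  · intro h; exact absurd (Finset.mem_univ _) h

theorem sum_single' [Fintype A] (a : MonoidAlgebra k A) :
    a = ∑ g, a.coeff g • single g (1 : k) := by
  classical
  apply MonoidAlgebra.coeff_injective
  apply Finsupp.ext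
  intro x
  have h1 : (∑ g, a.coeff g • single g (1 : k)).coeff x
      = ∑ g, (a.coeff g • single g (1 : k)).coeff x := by
    have h2 : ∀ s : Finset A, (∑ g ∈ s, a.coeff g • single g (1 : k)).coeff x
        = ∑ g ∈ s, (a.coeff g • single g (1 : k)).coeff x := by
      intro s
      induction s using Finset.induction_on with
      | empty => rfl
      | insert y s hy ih =>
        rw [Finset.sum_insert hy, Finset.sum_insert hy, ← ih]
        rfl
    exact h2 _
  rw [h1, Finset.sum_eq_single x]
  · change a.coeff x = a.coeff x * (Finsupp.single x (1 : k)) x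
    rw [Finsupp.single_eq_same, mul_one]
  · intro g _ hg
    change a.coeff g * (Finsupp.single g (1 : k)) x = 0
    rw [Finsupp.single_eq_of_ne (Ne.symm hg), mul_zero]
  · intro h; exact absurd (Finset.mem_univ _) h

theorem d_sum [Fintype A] {W : Type*} [AddCommGroup W] [Module k W]
    (d : MonoidAlgebra k A →ₗ[k] W) (a : MonoidAlgebra k A) :
    d a = ∑ g, a.coeff g • d (single g 1) := by
  conv_lhs => rw [sum_single' a]
  rw [map_sum]
  exact Finset.sum_congr rfl (fun g _ => by rw [map_smul])

end DerEAux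

open DerEAux

theorem ac_RE [Fintype A] {R : A → Module.End k V}
    {d : MonoidAlgebra k A →ₗ[k] Module.End k V} (a : MonoidAlgebra k A) (v w : V) :
    ac (RE R d) a (v, w) = (ac R a v + d a w, ac R a w) := by
  have h1 : ∀ g : A, RE R d g (v, w) = (R g v + d (single g 1) w, R g w) := fun g => rfl
  rw [d_sum d a, ac, ac, LinearMap.sum_apply, LinearMap.sum_apply, LinearMap.sum_apply,
    ← Finset.sum_add_distrib]
  have h2 : ∀ s : Finset A, ∑ g ∈ s, (a.coeff g • RE R d g) (v, w) =
      (∑ g ∈ s, ((a.coeff g • R g) v + (a.coeff g • d (single g 1)) w),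
        ∑ g ∈ s, (a.coeff g • R g) w) := by
    classical
    intro s
    induction s using Finset.induction_on with
    | empty => rfl
    | insert y s hy ih =>
      rw [Finset.sum_insert hy, Finset.sum_insert hy, Finset.sum_insert hy, ih,
        LinearMap.smul_apply, h1 y]
      simp only [LinearMap.smul_apply, Prod.smul_mk, Prod.mk_add_mk, smul_add]
  rw [h2 Finset.univ, LinearMap.sum_apply]

theorem isRep_RE [Fintype A] {R : A → Module.End k V} (hR : IsRep ⊤ R)
    {d : MonoidAlgebra k A →ₗ[k] Module.End k V} (hd : IsDer R d) : IsRep ⊤ (RE R d) := by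
  have h1 : d (1 : MonoidAlgebra k A) = 0 := by
    have h := hd 1 1
    rw [mul_one, ac_one hR, one_mul, mul_one] at h
    exact left_eq_add.mp h
  constructor
  · apply LinearMap.ext
    rintro ⟨v, w⟩
    change (R 1 v + d (single 1 1) w, R 1 w) = (v, w)
    have h2 : (single (1 : A) (1 : k)) = 1 := rfl
    rw [hR.one, h2, h1]
    simp
  · intro g _ h _
    apply LinearMap.ext
    rintro ⟨v, w⟩
    change (R (g * h) v + d (single (g * h) 1) w, R (g * h) w)
      = (R g (R h v + d (single h 1) w) + d (single g 1) (R h w), R g (R h w))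
    have h2 : (single (g * h) (1 : k)) = single g 1 * single h 1 := by
      rw [single_mul_single, mul_one]
    rw [h2, hd, ac_single, ac_single, hR.mul g trivial h trivial]
    ext
    · simp [add_assoc]
    · rfl

theorem beta_sum [Fintype A] {R : A → Module.End k V} (hR : IsRep ⊤ R)
    {d : MonoidAlgebra k A →ₗ[k] Module.End k V} (hd : IsDer R d) {ε τ : MonoidAlgebra k A}
    (hee : ε * ε = ε) (het : ε * τ = τ) (hte : τ * ε = τ) {r : ℕ} (h0 : 0 < r)
    (hr : τ ^ r = 0) :
    ∑ i ∈ Finset.range r, (ac R τ ^ (r - 1 - i) * ac R ε) * d τ * (ac R τ ^ i * ac R ε) = 0 := by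
  have mul' : ∀ a b : MonoidAlgebra k A, ac R (a * b) = ac R a * ac R b := fun a b =>
    ac_mul hR (suppIn_top _) (suppIn_top _)
  have pow' : ∀ m : ℕ, ac R (τ ^ m) = ac R τ ^ m := by
    intro m
    induction m with
    | zero => rw [pow_zero, pow_zero, ac_one hR]
    | succ m ih => rw [pow_succ, pow_succ, mul', ih]
  have hc : ∀ m : ℕ, ac R ε * ac R τ ^ m = ac R τ ^ m * ac R ε := by
    intro m
    have h1 : ac R ε * ac R τ = ac R τ * ac R ε := by
      rw [← mul', ← mul', het, hte]
    exact ((show Commute (ac R ε) (ac R τ) from h1).pow_right m).eq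
  have key : ∀ m : ℕ, d (τ ^ (m + 1)) =
      ∑ i ∈ Finset.range (m + 1), ac R τ ^ (m - i) * d τ * ac R τ ^ i := by
    intro m
    induction m with
    | zero => simp
    | succ m ih =>
      rw [pow_succ', hd, ih, Finset.sum_range_succ _ (m + 1), pow' (m + 1), Finset.mul_sum]
      congr 1
      · refine Finset.sum_congr rfl (fun i hi => ?_)
        have h1 : i ≤ m := by
          have := Finset.mem_range.1 hi; omega
        rw [← mul_assoc, ← mul_assoc, ← pow_succ']
        congr 3
        omega
      · rw [Nat.sub_self, pow_zero, one_mul]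
  obtain ⟨m, rfl⟩ : ∃ m, r = m + 1 := ⟨r - 1, by omega⟩
  have h2 := key m
  rw [hr, map_zero] at h2
  have h3 : ac R ε * (∑ i ∈ Finset.range (m + 1), ac R τ ^ (m - i) * d τ * ac R τ ^ i)
      * ac R ε = 0 := by
    rw [← h2, mul_zero, zero_mul]
  rw [Finset.mul_sum, Finset.sum_mul] at h3
  rw [← h3]
  refine Finset.sum_congr rfl (fun i _ => ?_)
  have h4 : m + 1 - 1 - i = m - i := by omega
  rw [h4, ← hc (m - i)]
  simp only [mul_assoc]

end Pool.Agent.Lib.P0c8ca5.Cb
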