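import Mathlib
import Pool.Agent.Lib.P0c8ca5B.DerE
import Pool.Agent.Lib.P0c8ca5B.Mor
import Pool.Agent.Lib.P0c8ca5B.LemM
import Pool.Agent.Lib.P0c8ca5B.PartA2
import Pool.Agent.Lib.P0c8ca5B.PartD

/-!
# Module DerIn: a criterion for inner derivations

Notation: `R = ofRep ρ`, `V = Fin n → k`, `R_E = RE R d` on `E = V × V` (`isRep_RE`, `ac_RE`), `π = LinearMap.snd`, `Eqv ⊤ R_E R π`.
PROOF.
(1) From `IsDer`: `d ε = ε d(ε) + d(ε) ε` (so `ε d(ε) ε = 0`), `d τ = ε d(τ) + d(ε) τ`, `d τ = τ d(ε) + d(τ) ε` (so `τ d(ε) ε = 0`).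
(2) `g₀ : V → E`, `g₀ w = (d(ε) w - g w, w)`.  For `w = ε v`:
    `ε_E g₀ w = (ε (d(ε) w - g w) + d(ε) w, ε w) = (- g w + d(ε) w, w) = g₀ w` (`ε g = g` on such `w`), and
    `τ_E g₀ w = (τ d(ε) w - τ g w + d(τ) w, τ w) = (- τ g w + d(τ) w, τ w)`, `g₀ (τ w) = (d(ε) τ w - g τ w, τ w)`; they are equal
    because `d(τ) w - d(ε) τ w = ε d(τ) w = τ g w - g τ w` (`he`).
(3) `hs.mor` (P0c8ca5B.Mor) with `R' = R_E`: `φ : V → E`, `Eqv C R R_E φ`, `ac R_E b ∘ φ = φ`, `φ ∘ ac R b = φ`, `φ (ε v) = g₀ (ε v)`.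
    `π φ` and the identity are `C`-equivariant and agree on `ε V`, so `π φ = π φ b = b` (`St.eq_of_eps`): `π ∘ φ = ac R b`.
(4) `lemM` (`N = C`, `R' = R_E`): `Φ = RT X R R_E (ac R_E a ∘ φ)`, `Eqv ⊤ R R_E Φ`, `ac R_E b ∘ Φ = φ + trS N R R_E θ`.
    `π Φ` commutes with `A`, so `π Φ v = c • v` (`PartDAux.schur`).  Apply `π`: `c • ac R b = ac R b + trS N R R (π θ)`
    (`trS_comp_left`).  If `c ≠ 1` then `ac R b = trS N R R ((c - 1)⁻¹ • π θ)`, which contradicts `partA2`.  So `c = 1`.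
(5) So `Φ v = (σ v, v)` with `σ = LinearMap.fst ∘ Φ`, and `Eqv ⊤ R R_E Φ` says `R g (σ v) + d(g) v = σ (R g v)`; by linearity
    `d a = σ * ac R a - ac R a * σ`; `γ = - σ`.
-/

namespace Pool.Agent.Lib.P0c8ca5.Cb

open MonoidAlgebra Rk

variable {p : ℕ} {k : Type*} [Field k] {A : Type*} [Group A]

theorem derIn [Fact p.Prime] [CharP k p] [IsAlgClosed k] [Fintype A]
    {f a b : MonoidAlgebra k A} {x : A} {D D₁ N C : Subgroup A} {X : Finset A}
    (h : Data p f a b x D D₁ N C X) (hNC : N = C) {ε τ : MonoidAlgebra k A} (hs : St C b ε τ)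
    {n : ℕ} {ρ : Rp k (⊤ : Subgroup A) n} (hρ : Irr' ρ) (hf : act ρ f = 1)
    {d : MonoidAlgebra k A →ₗ[k] Module.End k (Fin n → k)} (hd : IsDer (ofRep ρ) d)
    {g : Module.End k (Fin n → k)} (hg : ac (ofRep ρ) ε * g * ac (ofRep ρ) ε = g)
    (he : ac (ofRep ρ) ε * d τ * ac (ofRep ρ) ε =
      ac (ofRep ρ) τ * g - g * ac (ofRep ρ) τ) : IsInn (ofRep ρ) d := by
  classical
  subst hNC
  have hR : IsRep ⊤ (ofRep ρ) := isRep_ofRep ρ
  have hIR := (irr_ofRep ρ).1 hρ
  have hpA := partA2 h ρ hρ hf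
  generalize ofRep ρ = R at hd hg he hR hIR hpA ⊢
  have hRE : IsRep ⊤ (RE R d) := isRep_RE hR hd
  have hm : ∀ y z : MonoidAlgebra k A, ac R (y * z) = ac R y * ac R z := fun y z =>
    ac_mul hR (suppIn_top y) (suppIn_top z)
  have hee : ac R ε * ac R ε = ac R ε := by rw [← hm, hs.ee]
  have het : ac R ε * ac R τ = ac R τ := by rw [← hm, hs.et]
  have hte : ac R τ * ac R ε = ac R τ := by rw [← hm, hs.te]
  have hge1 : ac R ε * g = g := by
    rw [← hg, ← mul_assoc, ← mul_assoc, hee]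
  have hge2 : g * ac R ε = g := by
    rw [← hg, mul_assoc, hee]
  have d1 : d ε = ac R ε * d ε + d ε * ac R ε := by
    have := hd ε ε
    rwa [hs.ee] at this
  have d2 : d τ = ac R ε * d τ + d ε * ac R τ := by
    have := hd ε τ
    rwa [hs.et] at this
  have d3 : d τ = ac R τ * d ε + d τ * ac R ε := by
    have := hd τ ε
    rwa [hs.te] at this
  have e1 : ac R ε * d ε * ac R ε = 0 := by
    have h1 := congrArg (fun T => T * ac R ε) d1
    simp only [add_mul, mul_assoc, hee] at h1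
    rw [mul_assoc]
    exact left_eq_add.1 (by rw [add_comm]; exact h1)
  have e3 : ac R τ * d ε * ac R ε = 0 := by
    have h1 := congrArg (fun T => T * ac R ε) d3
    simp only [add_mul, mul_assoc, hee] at h1
    rw [mul_assoc]
    exact left_eq_add.1 (by rw [add_comm]; exact h1)
  -- the map g₀
  let g₀ : (Fin n → k) →ₗ[k] (Fin n → k) × (Fin n → k) := LinearMap.prod (d ε - g) LinearMap.id
  have hg₀ : ∀ w, g₀ w = (d ε w - g w, w) := fun w => rfl
  have ap : ∀ (S T : Module.End k (Fin n → k)) (w : Fin n → k), S (T w) = (S * T) w :=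
    fun S T w => rfl
  have hh1 : ∀ v, g₀ (ac R τ (ac R ε v)) = ac (RE R d) τ (g₀ (ac R ε v)) := by
    intro v
    rw [hg₀, hg₀, ac_RE]
    refine Prod.ext ?_ rfl
    show d ε (ac R τ (ac R ε v)) - g (ac R τ (ac R ε v)) =
      ac R τ (d ε (ac R ε v) - g (ac R ε v)) + d τ (ac R ε v)
    rw [map_sub]
    have a1 : ac R τ (d ε (ac R ε v)) = 0 := by
      have := LinearMap.congr_fun e3 v
      exact this
    have a2 : d ε (ac R τ (ac R ε v)) = d τ (ac R ε v) - ac R ε (d τ (ac R ε v)) := by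
      have := LinearMap.congr_fun d2 (ac R ε v)
      rw [LinearMap.add_apply] at this
      exact eq_sub_of_add_eq' this.symm
    have a3 : ac R ε (d τ (ac R ε v)) = ac R τ (g v) - g (ac R τ v) := by
      have := LinearMap.congr_fun he v
      exact this
    have a4 : g (ac R ε v) = g v := by
      have := LinearMap.congr_fun hge2 v
      exact this
    have a5 : ac R τ (ac R ε v) = ac R τ v := by
      have := LinearMap.congr_fun hte v
      exact this
    rw [a1, a2, a3, a4, a5]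
    abel
  have hh2 : ∀ v, ac (RE R d) ε (g₀ (ac R ε v)) = g₀ (ac R ε v) := by
    intro v
    rw [hg₀, ac_RE]
    have a1 : ac R ε (d ε (ac R ε v)) = 0 := by
      have := LinearMap.congr_fun e1 v
      exact this
    have a2 : ac R ε (g (ac R ε v)) = g (ac R ε v) := by
      have := LinearMap.congr_fun hge1 (ac R ε v)
      exact this
    have a3 : ac R ε (ac R ε v) = ac R ε v := by
      have := LinearMap.congr_fun hee v
      exact this
    refine Prod.ext ?_ a3
    show ac R ε (d ε (ac R ε v) - g (ac R ε v)) + d ε (ac R ε v) = d ε (ac R ε v) - g (ac R ε v)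
    rw [map_sub, a1, a2]
    abel
  obtain ⟨φ, hφ, hbφ, hφb, hφe, -⟩ := hs.mor (hR.mono le_top) (hRE.mono le_top) g₀ hh1 hh2
  have hπ : Eqv ⊤ (RE R d) R (LinearMap.snd k (Fin n → k) (Fin n → k)) := fun y _ v => rfl
  have hπφ : LinearMap.snd k (Fin n → k) (Fin n → k) ∘ₗ φ = ac R b := by
    have h1 := hs.eq_of_eps (hR.mono le_top) (hR.mono le_top)
      (φ := LinearMap.snd k (Fin n → k) (Fin n → k) ∘ₗ φ) (φ' := LinearMap.id)
      ((hπ.mono le_top).comp hφ) (fun y _ v => rfl) (by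
        intro v
        rw [LinearMap.comp_apply, hφe, hg₀]
        rfl)
    rw [LinearMap.comp_assoc, hφb, LinearMap.id_comp] at h1
    exact h1
  obtain ⟨hΦ, θ, hθ⟩ := lemM h hR hRE hφ hbφ
  generalize RT X R (RE R d) (ac (RE R d) a ∘ₗ φ) = Φ at hΦ hθ
  obtain ⟨c, hc⟩ := PartDAux.schur hIR (hπ.comp hΦ)
  have h1 : c • ac R b = ac R b +
      trS N R R (LinearMap.snd k (Fin n → k) (Fin n → k) ∘ₗ θ) := by
    rw [trS_comp_left (hπ.mono le_top), ← hπφ, ← LinearMap.comp_add, ← hθ, ← LinearMap.comp_assoc,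
      comp_ac hπ (suppIn_top b), LinearMap.comp_assoc, hπφ]
    apply LinearMap.ext
    intro v
    rw [LinearMap.comp_apply, hc v, map_smul, LinearMap.smul_apply]
  have hc1 : c = 1 := by
    by_contra hne
    have hne' : c - 1 ≠ 0 := sub_ne_zero.2 hne
    apply hpA ((c - 1)⁻¹ • (LinearMap.snd k (Fin n → k) (Fin n → k) ∘ₗ θ))
    have h2 : Eqv N R R ((c - 1)⁻¹ • (LinearMap.id : (Fin n → k) →ₗ[k] (Fin n → k))) := by
      intro y _ v
      simp
    have h3 := trS_comp_left (R := R) h2 (LinearMap.snd k (Fin n → k) (Fin n → k) ∘ₗ θ)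
    rw [LinearMap.smul_comp, LinearMap.id_comp, LinearMap.smul_comp, LinearMap.id_comp] at h3
    rw [h3]
    have h4 : trS N R R (LinearMap.snd k (Fin n → k) (Fin n → k) ∘ₗ θ) = (c - 1) • ac R b := by
      apply LinearMap.ext
      intro v
      have h5 := LinearMap.congr_fun h1 v
      rw [LinearMap.smul_apply, LinearMap.add_apply] at h5
      rw [LinearMap.smul_apply, sub_smul, one_smul, h5, add_sub_cancel_left]
    rw [h4, smul_smul, inv_mul_cancel₀ hne', one_smul]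
  refine ⟨- (LinearMap.fst k (Fin n → k) (Fin n → k) ∘ₗ Φ), fun y => ?_⟩
  apply LinearMap.ext
  intro v
  have h5 := LinearMap.congr_fun (comp_ac hΦ (suppIn_top y)) v
  rw [LinearMap.comp_apply, LinearMap.comp_apply] at h5
  have h6 : Φ v = ((Φ v).1, v) := by
    refine Prod.ext rfl ?_
    have := hc v
    rw [hc1, one_smul] at this
    exact this
  rw [h6, ac_RE] at h5
  have h7 := congrArg Prod.fst h5
  have h8 : (Φ (ac R y v)).1 = ac R y (Φ v).1 + d y v := h7
  rw [LinearMap.sub_apply, Module.End.mul_apply, Module.End.mul_apply, LinearMap.neg_apply,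
    LinearMap.neg_apply, LinearMap.comp_apply, LinearMap.comp_apply, map_neg]
  show d y v = - ac R y (Φ v).1 - - (Φ (ac R y v)).1
  rw [h8]
  abel

end Pool.Agent.Lib.P0c8ca5.Cb
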