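import Mathlib

/-!
# Module Herb: linear algebra

PROOF of `exists_gen`.  If `M ≤ M₂` take `τ = 0`.  Otherwise choose `τ ∈ M`, `τ ∉ M₂`.  Suppose `m ∈ M` is not in
`span {τ} ⊔ M₂`.  By `Submodule.exists_le_ker_of_notMem` there are linear forms `ψ₁`, zero on `M₂`, `ψ₁ τ ≠ 0`, and `ψ₂`,
zero on `span {τ} ⊔ M₂`, `ψ₂ m ≠ 0`.  `H` gives `c₁, c₂`, not both zero, with `c₁ ψ₁ + c₂ ψ₂ = 0` on `M`.  At `τ`: `c₁ = 0`; at
`m`: `c₂ = 0`.  Contradiction.
PROOF of `herbrand`.  `δ g = t g - g t`, `N g = ∑_{i < r} t ^ (r - 1 - i) g t ^ i`, linear maps of `E = End V` (finite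
dimensional).  `δ (N g) = t ^ r g - g t ^ r = 0` and `N (δ g) = 0` (telescoping sums; for `r = 0` we have `1 = t ^ 0 = 0`, so `E` is
zero).  `H`: `ker δ ≤ span {1} ⊔ range N`, so `dim ker δ ≤ 1 + dim range N`.  Rank nullity for both:
`dim ker N = dim E - dim range N ≤ dim E - dim ker δ + 1 = dim range δ + 1`.  `range δ ≤ ker N`.  Suppose no nontrivial
combination of `β₁, β₂` is in `range δ`; then `range δ ⊕ span {β₁, β₂}` has dimension `dim range δ + 2` and is contained in
`ker N`: contradiction.  (In detail: the images of `β₁, β₂` in `ker N / range δ`, of dimension at most `1`, are linearly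
dependent.)
-/

namespace Pool.Agent.Lib.P0c8ca5.Cb

variable {k : Type*} [Field k]

namespace HerbAux

variable {V : Type*} [AddCommGroup V] [Module k V]

/-- the commutator with `t` -/
noncomputable def dl (t : Module.End k V) : Module.End k V →ₗ[k] Module.End k V :=
  LinearMap.mulLeft k t - LinearMap.mulRight k t

lemma dl_apply (t g : Module.End k V) : dl t g = t * g - g * t := rfl

/-- the norm map -/
noncomputable def nr (t : Module.End k V) (r : ℕ) : Module.End k V →ₗ[k] Module.End k V :=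
  ∑ i ∈ Finset.range r, (LinearMap.mulLeft k (t ^ (r - 1 - i))).comp (LinearMap.mulRight k (t ^ i))

lemma nr_apply (t g : Module.End k V) (r : ℕ) :
    nr t r g = ∑ i ∈ Finset.range r, t ^ (r - 1 - i) * g * t ^ i := by
  unfold nr
  rw [LinearMap.sum_apply]
  refine Finset.sum_congr rfl fun i _ => ?_
  show t ^ (r - 1 - i) * (g * t ^ i) = _
  rw [mul_assoc]

lemma nr_dl (t g : Module.End k V) {r : ℕ} (hr : t ^ r = 0) : nr t r (dl t g) = 0 := by
  rw [nr_apply, dl_apply]
  have h1 : ∀ i ∈ Finset.range r, t ^ (r - 1 - i) * (t * g - g * t) * t ^ i =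
      (fun j => t ^ (r - j) * g * t ^ j) i - (fun j => t ^ (r - j) * g * t ^ j) (i + 1) := by
    intro i hi
    rw [Finset.mem_range] at hi
    show _ = t ^ (r - i) * g * t ^ i - t ^ (r - (i + 1)) * g * t ^ (i + 1)
    have e1 : r - i = (r - 1 - i) + 1 := by omega
    have e2 : r - (i + 1) = r - 1 - i := by omega
    rw [e2, e1, pow_succ t (r - 1 - i), pow_succ' t i, mul_sub, sub_mul]
    simp only [mul_assoc]
  rw [Finset.sum_congr rfl h1, Finset.sum_range_sub']
  show t ^ (r - 0) * g * t ^ 0 - t ^ (r - r) * g * t ^ r = 0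
  rw [Nat.sub_zero, hr]
  simp

end HerbAux

open HerbAux

theorem exists_gen {E : Type*} [AddCommGroup E] [Module k E] (M M₂ : Submodule k E)
    (H : ∀ ψ₁ ψ₂ : E →ₗ[k] k, (∀ m ∈ M₂, ψ₁ m = 0) → (∀ m ∈ M₂, ψ₂ m = 0) →
      ∃ c₁ c₂ : k, ¬ (c₁ = 0 ∧ c₂ = 0) ∧ ∀ m ∈ M, c₁ * ψ₁ m + c₂ * ψ₂ m = 0) :
    ∃ τ ∈ M, M ≤ Submodule.span k {τ} ⊔ M₂ := by
  by_cases h : M ≤ M₂
  · exact ⟨0, M.zero_mem, h.trans le_sup_right⟩
  · rw [SetLike.not_le_iff_exists] at h
    obtain ⟨τ, hτ, hτ2⟩ := h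
    refine ⟨τ, hτ, fun m hm => ?_⟩
    by_contra hcon
    obtain ⟨ψ₁, h1, h1'⟩ := Submodule.exists_le_ker_of_notMem hτ2
    obtain ⟨ψ₂, h2, h2'⟩ := Submodule.exists_le_ker_of_notMem hcon
    obtain ⟨c₁, c₂, hc, hM⟩ := H ψ₁ ψ₂ (fun m hm => h1' hm)
      (fun m hm => h2' (Submodule.mem_sup_right hm))
    have hψ : ψ₂ τ = 0 := h2' (Submodule.mem_sup_left (Submodule.mem_span_singleton_self τ))
    have e1 := hM τ hτ
    rw [hψ, mul_zero, add_zero] at e1
    have hc1 : c₁ = 0 := (mul_eq_zero.1 e1).resolve_right h1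
    have e2 := hM m hm
    rw [hc1, zero_mul, zero_add] at e2
    have hc2 : c₂ = 0 := (mul_eq_zero.1 e2).resolve_right h2
    exact hc ⟨hc1, hc2⟩

theorem herbrand {V : Type*} [AddCommGroup V] [Module k V] [Module.Finite k V]
    (t : Module.End k V) {r : ℕ} (hr : t ^ r = 0)
    (H : ∀ g : Module.End k V, g * t = t * g → ∃ (c : k) (G : Module.End k V),
      g = c • (1 : Module.End k V) + ∑ i ∈ Finset.range r, t ^ (r - 1 - i) * G * t ^ i)
    (β₁ β₂ : Module.End k V)
    (h₁ : ∑ i ∈ Finset.range r, t ^ (r - 1 - i) * β₁ * t ^ i = 0)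
    (h₂ : ∑ i ∈ Finset.range r, t ^ (r - 1 - i) * β₂ * t ^ i = 0) :
    ∃ c₁ c₂ : k, ¬ (c₁ = 0 ∧ c₂ = 0) ∧ ∃ g : Module.End k V, c₁ • β₁ + c₂ • β₂ = t * g - g * t := by
  set D := dl t with hD
  set N := nr t r with hN
  -- dimensions
  have hker : LinearMap.ker D ≤ Submodule.span k {(1 : Module.End k V)} ⊔ LinearMap.range N := by
    intro g hg
    rw [LinearMap.mem_ker, hD, dl_apply, sub_eq_zero] at hg
    obtain ⟨c, G, hG⟩ := H g hg.symm
    rw [hG]
    refine Submodule.add_mem_sup (Submodule.smul_mem _ _ (Submodule.mem_span_singleton_self _)) ?_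
    exact ⟨G, by rw [hN, nr_apply]⟩
  have d1 : Module.finrank k (LinearMap.ker D) ≤ 1 + Module.finrank k (LinearMap.range N) := by
    refine (Submodule.finrank_mono hker).trans ?_
    refine (Submodule.finrank_add_le_finrank_add_finrank _ _).trans ?_
    have h5 : Module.finrank k (Submodule.span k {(1 : Module.End k V)}) ≤ 1 := by
      have := finrank_span_le_card (R := k) ({(1 : Module.End k V)} : Set (Module.End k V))
      simpa using this
    omega
  have d2 := LinearMap.finrank_range_add_finrank_ker D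
  have d3 := LinearMap.finrank_range_add_finrank_ker N
  by_contra hcon
  push Not at hcon
  -- an injective map
  set Φ : (k × k × LinearMap.range D) →ₗ[k] Module.End k V :=
    (LinearMap.toSpanSingleton k _ β₁).coprod ((LinearMap.toSpanSingleton k _ β₂).coprod
      (-(LinearMap.range D).subtype)) with hΦ
  have hΦa : ∀ c₁ c₂ y, Φ (c₁, c₂, y) = c₁ • β₁ + (c₂ • β₂ + -(y : Module.End k V)) := by
    intro c₁ c₂ y
    rfl
  have hinj : Function.Injective Φ := by
    rw [← LinearMap.ker_eq_bot, LinearMap.ker_eq_bot']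
    rintro ⟨c₁, c₂, y⟩ h0
    rw [hΦa] at h0
    obtain ⟨g, hg⟩ := y.2
    have h5 : c₁ • β₁ + c₂ • β₂ = t * g - g * t := by
      rw [← dl_apply, ← hD, hg]
      have : c₁ • β₁ + c₂ • β₂ = (c₁ • β₁ + (c₂ • β₂ + -(y : Module.End k V))) + (y : Module.End k V) := by
        abel
      rw [this, h0, zero_add]
    have h6 : c₁ = 0 ∧ c₂ = 0 := by
      by_contra hc
      exact hcon c₁ c₂ (fun a b => hc ⟨a, b⟩) g h5
    obtain ⟨rfl, rfl⟩ := h6
    have h7 : (y : Module.End k V) = 0 := by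
      have h8 := h0
      rw [zero_smul, zero_smul, zero_add, zero_add, neg_eq_zero] at h8
      exact h8
    have h8 : y = 0 := Subtype.ext h7
    rw [h8]
    rfl
  have hrange : LinearMap.range Φ ≤ LinearMap.ker N := by
    rintro _ ⟨⟨c₁, c₂, y⟩, rfl⟩
    rw [LinearMap.mem_ker, hΦa, map_add, map_add, map_neg, map_smul, map_smul]
    obtain ⟨g, hg⟩ := y.2
    have n1 : N β₁ = 0 := by rw [hN, nr_apply, h₁]
    have n2 : N β₂ = 0 := by rw [hN, nr_apply, h₂]
    have n3 : N (y : Module.End k V) = 0 := by rw [← hg, hN, hD, nr_dl t g hr]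
    rw [n1, n2, n3]
    simp
  have d4 := Submodule.finrank_mono hrange
  rw [LinearMap.finrank_range_of_inj hinj] at d4
  have d5 : Module.finrank k (k × k × LinearMap.range D) = 1 + (1 + Module.finrank k (LinearMap.range D)) := by
    rw [Module.finrank_prod, Module.finrank_prod, Module.finrank_self]
  rw [d5] at d4
  omega

end Pool.Agent.Lib.P0c8ca5.Cb
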