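import Mathlib
import Pool.Agent.Lib.P0c8ca5B.Herb

/-!
# Module HerbE: `herbrand` on the range of an idempotent

PROOF.  `U = LinearMap.range E`, `t : End U` the restriction of `T` (`T = E * T`), `t ^ r = 0`.  For `g : End U` put
`g^ = ι g π` with `ι : U → V` the inclusion and `π : V → U`, `π v = E v` (`LinearMap.rangeRestrict`); `π ι = 1`, `ι π = E`,
`T ι = ι t`, `π T = t π`.  Apply `herbrand` to `t` and to `β_j' = π β_j ι`.
`H` for `t`: if `g t = t g` then `g^` satisfies `E g^ E = g^` and `g^ T = T g^`, so `g^ = c • E + ∑ (T ^ (r - 1 - i) E) G (T ^ i E)`,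
and `g = π g^ ι = c • 1 + ∑ t ^ (r - 1 - i) (π G ι) t ^ i` (`(T ^ i E) ι = ι t ^ i`, `π (T ^ j E) = t ^ j π`).
The sums for `β_j'`: `∑ t ^ (r - 1 - i) π β_j ι t ^ i = π (∑ (T ^ (r - 1 - i) E) β_j (T ^ i E)) ι = 0`.
Conclusion: `c₁ • β₁' + c₂ • β₂' = t g - g t`; put `g^ = ι g π`: `E (c₁ • β₁ + c₂ • β₂) E = T g^ - g^ T`.
-/

namespace Pool.Agent.Lib.P0c8ca5.Cb

variable {k : Type*} [Field k]

namespace HerbEAux

variable {V U : Type*} [AddCommGroup V] [Module k V] [AddCommGroup U] [Module k U]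

/-- the compression `G ↦ π G ι` -/
noncomputable def cmp (ι : U →ₗ[k] V) (π : V →ₗ[k] U) : Module.End k V →ₗ[k] Module.End k U where
  toFun G := π ∘ₗ G ∘ₗ ι
  map_add' a b := by
    ext x
    simp
  map_smul' c a := by
    ext x
    simp

lemma cmp_apply (ι : U →ₗ[k] V) (π : V →ₗ[k] U) (G : Module.End k V) (x : U) :
    cmp ι π G x = π (G (ι x)) := rfl

section

variable {ι : U →ₗ[k] V} {π : V →ₗ[k] U} {E T : Module.End k V} {t : Module.End k U}

lemma iota_pow (h : ∀ u, ι (t u) = T (ι u)) (i : ℕ) (u : U) : ι ((t ^ i) u) = (T ^ i) (ι u) := by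
  induction i generalizing u with
  | zero => rfl
  | succ n ih =>
    rw [pow_succ, pow_succ, Module.End.mul_apply, Module.End.mul_apply, ih, h]

lemma pi_pow (h : ∀ v, t (π v) = π (T v)) (i : ℕ) (v : V) : (t ^ i) (π v) = π ((T ^ i) v) := by
  induction i generalizing v with
  | zero => rfl
  | succ n ih =>
    rw [pow_succ, pow_succ, Module.End.mul_apply, Module.End.mul_apply, h, ih]

lemma cmp_sum (hπι : ∀ u, π (ι u) = u) (hιπ : ∀ v, ι (π v) = E v)
    (hι : ∀ u, ι (t u) = T (ι u)) (hπ : ∀ v, t (π v) = π (T v)) (r : ℕ) (G : Module.End k V) :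
    cmp ι π (∑ i ∈ Finset.range r, (T ^ (r - 1 - i) * E) * G * (T ^ i * E)) =
      ∑ i ∈ Finset.range r, t ^ (r - 1 - i) * cmp ι π G * t ^ i := by
  rw [map_sum]
  refine Finset.sum_congr rfl fun i _ => ?_
  ext u
  rw [cmp_apply]
  simp only [Module.End.mul_apply, cmp_apply]
  rw [← pi_pow hπ, ← hιπ, ← hιπ, hπι, hπι, iota_pow hι]

end

end HerbEAux

open HerbEAux

theorem herbrandE {V : Type*} [AddCommGroup V] [Module k V] [Module.Finite k V]
    {E T : Module.End k V} (hE : E * E = E) (hET : E * T = T) (hTE : T * E = T) {r : ℕ}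
    (h0 : 0 < r) (hr : T ^ r = 0)
    (H : ∀ g : Module.End k V, E * g * E = g → g * T = T * g →
      ∃ (c : k) (G : Module.End k V),
        g = c • E + ∑ i ∈ Finset.range r, (T ^ (r - 1 - i) * E) * G * (T ^ i * E))
    (β₁ β₂ : Module.End k V)
    (h₁ : ∑ i ∈ Finset.range r, (T ^ (r - 1 - i) * E) * β₁ * (T ^ i * E) = 0)
    (h₂ : ∑ i ∈ Finset.range r, (T ^ (r - 1 - i) * E) * β₂ * (T ^ i * E) = 0) :
    ∃ c₁ c₂ : k, ¬ (c₁ = 0 ∧ c₂ = 0) ∧ ∃ g : Module.End k V, E * g * E = g ∧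
      E * (c₁ • β₁ + c₂ • β₂) * E = T * g - g * T := by
  set U := LinearMap.range E with hU
  set ι : U →ₗ[k] V := U.subtype with hιd
  set π : V →ₗ[k] U := E.rangeRestrict with hπd
  have hιπ : ∀ v, ι (π v) = E v := fun v => rfl
  have hEE : ∀ v, E (E v) = E v := fun v => by
    have := congrArg (fun f : Module.End k V => f v) hE
    exact this
  have hETv : ∀ v, E (T v) = T v := fun v => by
    have := congrArg (fun f : Module.End k V => f v) hET
    exact this
  have hTEv : ∀ v, T (E v) = T v := fun v => by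
    have := congrArg (fun f : Module.End k V => f v) hTE
    exact this
  have hιinj : Function.Injective ι := Subtype.val_injective
  have hEι : ∀ u, E (ι u) = ι u := by
    intro u
    obtain ⟨w, hw⟩ := u.2
    have : ι u = E w := hw.symm
    rw [this, hEE]
  have hπι : ∀ u, π (ι u) = u := by
    intro u
    apply hιinj
    rw [hιπ, hEι]
  set t : Module.End k U := cmp ι π T with ht
  have hι : ∀ u, ι (t u) = T (ι u) := by
    intro u
    rw [ht, cmp_apply, hιπ, hETv]
  have hπ : ∀ v, t (π v) = π (T v) := by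
    intro v
    rw [ht, cmp_apply, hιπ, hTEv]
  have htr : t ^ r = 0 := by
    ext u
    rw [← hπι ((t ^ r) u), iota_pow hι, hr]
    simp
  have hcE : cmp ι π E = 1 := by
    ext u
    rw [cmp_apply, hEι, hπι]
    rfl
  have key : ∀ g : Module.End k U, g * t = t * g → ∃ (c : k) (G : Module.End k U),
      g = c • (1 : Module.End k U) + ∑ i ∈ Finset.range r, t ^ (r - 1 - i) * G * t ^ i := by
    intro g hg
    have hgv : ∀ u, g (t u) = t (g u) := fun u => by
      have := congrArg (fun f : Module.End k U => f u) hg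
      exact this
    set G0 : Module.End k V := ι ∘ₗ g ∘ₗ π with hG0
    have hG0v : ∀ v, G0 v = ι (g (π v)) := fun v => rfl
    have a1 : E * G0 * E = G0 := by
      ext v
      simp only [Module.End.mul_apply]
      rw [hG0v, hG0v, hEι, ← hιπ v, hπι]
    have a2 : G0 * T = T * G0 := by
      ext v
      simp only [Module.End.mul_apply]
      rw [hG0v, hG0v, ← hπ, hgv, hι]
    obtain ⟨c, G, hc⟩ := H G0 a1 a2
    refine ⟨c, cmp ι π G, ?_⟩
    have a3 : cmp ι π G0 = g := by
      ext u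
      rw [cmp_apply, hG0v, hπι, hπι]
    rw [← a3, hc, map_add, map_smul, hcE, cmp_sum hπι hιπ hι hπ]
  have b1 : ∑ i ∈ Finset.range r, t ^ (r - 1 - i) * cmp ι π β₁ * t ^ i = 0 := by
    rw [← cmp_sum hπι hιπ hι hπ, h₁, map_zero]
  have b2 : ∑ i ∈ Finset.range r, t ^ (r - 1 - i) * cmp ι π β₂ * t ^ i = 0 := by
    rw [← cmp_sum hπι hιπ hι hπ, h₂, map_zero]
  obtain ⟨c₁, c₂, hc, g, hg⟩ := herbrand t htr key _ _ b1 b2
  refine ⟨c₁, c₂, hc, ι ∘ₗ g ∘ₗ π, ?_, ?_⟩
  · ext v
    simp only [Module.End.mul_apply, LinearMap.comp_apply]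
    rw [hEι, ← hιπ v, hπι]
  · rw [← map_smul, ← map_smul, ← map_add] at hg
    ext v
    have hgv := congrArg (fun f : Module.End k U => ι (f (π v))) hg
    simp only [cmp_apply, LinearMap.sub_apply, Module.End.mul_apply, map_sub, hιπ, hι, hπ] at hgv
    simp only [LinearMap.sub_apply, Module.End.mul_apply, LinearMap.comp_apply]
    exact hgv

end Pool.Agent.Lib.P0c8ca5.Cb
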