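import Mathlib
import Pool.Agent.Lib.P0c8ca5B.Defs2

/-!
# Module Lam: the linear form of `ε kC ε = k[τ]`

PROOF.  Let `r` be minimal with `τ ^ r = 0` (`h.nil`); `r ≥ 1` because `1 ≠ 0` in `kA`.  `τ ^ (r - 1) * ε ≠ 0`: for `r ≥ 2` it is
`τ ^ (r - 1)` (`h.te`), and for `r = 1` it is `ε ≠ 0` (otherwise `c = ∑ u_i ε v_i = 0`, against `h.blk.ne_zero`).
(1) If `∑_{i < r} c_i • (τ ^ i * ε) = 0` then all `c_i = 0`: for the smallest `j` with `c_j ≠ 0` multiply by `τ ^ (r - 1 - j)`
    from the left: `c_j • (τ ^ (r - 1) * ε) = 0`.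
(2) So `τ ^ (r - 1) * ε` is not in the span of the `τ ^ i * ε`, `i < r - 1`, and there is a linear form `lam` with
    `lam (τ ^ i * ε) = 0` for `i < r - 1` and `lam (τ ^ (r - 1) * ε) = 1` (`Submodule.exists_le_ker_of_notMem`, then scale; or
    extend the linearly independent family).
(3) For `a` in `kC`: `ε * a * ε = aeval τ P * ε = ∑_{j < r} c_j • (τ ^ j * ε)` (`h.gen`; `Polynomial.aeval_eq_sum_range'` or
    induction on `P`, the powers `τ ^ j`, `j ≥ r`, vanish).  `lam (τ ^ i * ∑_j c_j • (τ ^ j * ε)) = ∑_j c_j lam (τ ^ (i + j) * ε) =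
    c_{r - 1 - i}` for `i < r`.  Then reverse the sum (`Finset.sum_range_reflect`).
-/

namespace Pool.Agent.Lib.P0c8ca5.Cb

open MonoidAlgebra Rk

variable {p : ℕ} {k : Type*} [Field k] {A : Type*} [Group A]

namespace LamAux

theorem exists_coord {M : Type*} [AddCommGroup M] [Module k M] (r : ℕ) (w : ℕ → M)
    (hr : 0 < r) (hli : LinearIndependent k (fun i : Fin r => w i)) :
    ∃ lam : M →ₗ[k] k, ∀ i, i < r → lam (w i) = if i = r - 1 then 1 else 0 := by
  classical
  obtain ⟨lam, hlam⟩ := LinearMap.exists_extend ((Module.Basis.span hli).coord ⟨r - 1, by omega⟩)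
  refine ⟨lam, fun i hi => ?_⟩
  have h0 : ((Module.Basis.span hli) ⟨i, hi⟩ : M) = w i := by
    rw [Module.Basis.span_apply]
  have h1 : lam (w i) = (Module.Basis.span hli).coord ⟨r - 1, by omega⟩
      ((Module.Basis.span hli) ⟨i, hi⟩) := by
    rw [← h0]
    have := LinearMap.congr_fun hlam ((Module.Basis.span hli) ⟨i, hi⟩)
    simpa using this
  rw [h1, Module.Basis.coord_apply, Module.Basis.repr_self, Finsupp.single_apply]
  by_cases h : i = r - 1
  · rw [if_pos h, if_pos (by ext; exact h)]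
  · rw [if_neg h, if_neg (by intro hh; exact h (congrArg Fin.val hh))]

variable {R : Type*} [Ring R] [Algebra k R]

theorem coeff_zero {τ ε : R} {r : ℕ} (hτ : τ ^ r = 0) (htop : τ ^ (r - 1) * ε ≠ 0)
    (c : ℕ → k) (h : ∑ i ∈ Finset.range r, c i • (τ ^ i * ε) = 0) : ∀ i, i < r → c i = 0 := by
  intro i
  induction i using Nat.strong_induction_on with
  | _ m ih =>
    intro hm
    have h1 : τ ^ (r - 1 - m) * ∑ i ∈ Finset.range r, c i • (τ ^ i * ε) = 0 := by
      rw [h, mul_zero]
    rw [Finset.mul_sum, Finset.sum_eq_single m] at h1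
    · rw [mul_smul_comm, ← mul_assoc, ← pow_add,
        show r - 1 - m + m = r - 1 by omega] at h1
      rcases smul_eq_zero.1 h1 with h2 | h2
      · exact h2
      · exact absurd h2 htop
    · intro j hj hjm
      rw [Finset.mem_range] at hj
      rcases lt_or_gt_of_ne hjm with h2 | h2
      · rw [ih j h2 hj, zero_smul, mul_zero]
      · rw [mul_smul_comm, ← mul_assoc, ← pow_add,
          pow_eq_zero_of_le (show r ≤ r - 1 - m + j by omega) hτ, zero_mul, smul_zero]
    · intro h2
      exact absurd (Finset.mem_range.2 hm) h2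

theorem aeval_trunc {τ ε : R} {r : ℕ} (hτ : τ ^ r = 0) (P : Polynomial k) :
    Polynomial.aeval τ P * ε = ∑ i ∈ Finset.range r, P.coeff i • (τ ^ i * ε) := by
  rw [Polynomial.aeval_eq_sum_range' (n := max r (P.natDegree + 1)) (by
    exact lt_of_lt_of_le (Nat.lt_succ_self _) (le_max_right _ _)), Finset.sum_mul]
  symm
  refine (Finset.sum_subset (Finset.range_mono (le_max_left _ _)) ?_).trans
    (Finset.sum_congr rfl fun i _ => ?_)
  · intro i _ hi
    rw [Finset.mem_range, not_lt] at hi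
    rw [pow_eq_zero_of_le hi hτ, zero_mul, smul_zero]
  · rw [smul_mul_assoc]

end LamAux

theorem St.exists_lam [Fintype A] {C : Subgroup A} {c ε τ : MonoidAlgebra k A}
    (h : St C c ε τ) : ∃ (r : ℕ) (lam : MonoidAlgebra k A →ₗ[k] k), 0 < r ∧ τ ^ r = 0 ∧
      ∀ a, SuppIn C a → ε * a * ε =
        ∑ i ∈ Finset.range r, lam (τ ^ i * (ε * a * ε)) • (τ ^ (r - 1 - i) * ε) := by
  classical
  have hne : ε ≠ 0 := by
    intro h0
    obtain ⟨m, u, v, -, -, huv⟩ := h.full
    apply h.blk.ne_zero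
    rw [← huv]
    exact Finset.sum_eq_zero fun i _ => by rw [h0, mul_zero, zero_mul]
  have hnil : ∃ n, τ ^ n = 0 := h.nil
  set r := Nat.find hnil with hr
  have hτ : τ ^ r = 0 := Nat.find_spec hnil
  have hmin : ∀ m, m < r → τ ^ m ≠ 0 := fun m hm => Nat.find_min hnil hm
  have hr0 : 0 < r := by
    rcases Nat.eq_zero_or_pos r with h0 | h0
    · exfalso
      rw [h0, pow_zero] at hτ
      apply hne
      rw [← one_mul ε, hτ, zero_mul]
    · exact h0
  have htop : τ ^ (r - 1) * ε ≠ 0 := by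
    rcases Nat.eq_zero_or_pos (r - 1) with h0 | h0
    · rw [h0, pow_zero, one_mul]; exact hne
    · have h1 : τ ^ (r - 1) * ε = τ ^ (r - 1) := by
        obtain ⟨s, hs⟩ : ∃ s, r - 1 = s + 1 := ⟨r - 1 - 1, by omega⟩
        rw [hs, pow_succ, mul_assoc, h.te]
      rw [h1]
      exact hmin _ (by omega)
  have hli : LinearIndependent k (fun i : Fin r => τ ^ (i : ℕ) * ε) := by
    rw [Fintype.linearIndependent_iff]
    intro g hg i
    have h1 := LamAux.coeff_zero (k := k) hτ htop
      (fun j => if hj : j < r then g ⟨j, hj⟩ else 0) (by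
        rw [← Fin.sum_univ_eq_sum_range (fun j => (if hj : j < r then g ⟨j, hj⟩ else 0) •
          (τ ^ j * ε)) r]
        rw [← hg]
        refine Finset.sum_congr rfl fun j _ => ?_
        rw [dif_pos j.2]) i i.2
    simpa [i.2] using h1
  obtain ⟨lam, hlam⟩ := LamAux.exists_coord (k := k) r (fun i => τ ^ i * ε) hr0 hli
  refine ⟨r, lam, hr0, hτ, fun a ha => ?_⟩
  obtain ⟨P, hP⟩ := h.gen a ha
  have hP' : ε * a * ε = ∑ i ∈ Finset.range r, P.coeff i • (τ ^ i * ε) := by
    rw [hP, LamAux.aeval_trunc hτ]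
  have hc : ∀ i, i < r → lam (τ ^ i * (ε * a * ε)) = P.coeff (r - 1 - i) := by
    intro i hi
    rw [hP', Finset.mul_sum, map_sum, Finset.sum_eq_single (r - 1 - i)]
    · rw [mul_smul_comm, ← mul_assoc, ← pow_add, map_smul,
        show i + (r - 1 - i) = r - 1 by omega]
      have := hlam (r - 1) (by omega)
      simp only [if_pos] at this
      rw [this, smul_eq_mul, mul_one]
    · intro j hj hne'
      rw [Finset.mem_range] at hj
      rw [mul_smul_comm, ← mul_assoc, ← pow_add, map_smul]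
      by_cases h2 : i + j < r
      · have := hlam (i + j) h2
        rw [if_neg (by omega)] at this
        rw [this, smul_zero]
      · rw [pow_eq_zero_of_le (not_lt.1 h2) hτ, zero_mul, map_zero, smul_zero]
    · intro h2
      exact absurd (Finset.mem_range.2 (by omega)) h2
  rw [Finset.sum_congr rfl fun i hi => by rw [hc i (Finset.mem_range.1 hi)]]
  rw [hP']
  exact (Finset.sum_range_reflect (fun j => P.coeff j • (τ ^ j * ε)) r).symm

end Pool.Agent.Lib.P0c8ca5.Cb
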