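import Mathlib
import Pool.Agent.Lib.P0c8ca5B.ExtB

/-!
# Module NTr: the trace over `C` in terms of `τ`

PROOF.  `c = ∑_j u_j ε v_j` (`h.full`).  Write `a v` for `ac R a v` (multiplicative on `kC`: `ac_mul hR`); `ac R (τ ^ i) = ac R τ ^ i`
(`ac_pow` in ExtB).  Put `μ_j(a) = lam (ε * a * u_j * ε)` and
  `G(u) = ∑_{g ∈ C} ∑_j μ_j(g) • (ε v_j) (θ (R g⁻¹ u))`   (`μ_j(g) = lam (ε * single g 1 * u_j * ε)`).
(1) Casimir: for a linear form `μ` on `kA` and `y ∈ kC`, `∑_{g ∈ C} μ(y * single g 1) • R g⁻¹ = ∑_{g ∈ C} μ(single g 1) •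
    (R g⁻¹ ∘ ac R y)`: both sides are linear in `y`, and for `y = single c' 1`, `c' ∈ C`, substitute `g → c'⁻¹ g`.
(2) For `g ∈ C`: `ε R g w = (ε g) w = (ε g c) w` (`ε g c = ε c g = ε g`: `commute_of`, `h.ef`) `= ∑_j (ε g u_j ε) (ε v_j) w =
    ∑_j ∑_{i < r} lam (τ ^ i (ε g u_j ε)) • (τ ^ (r - 1 - i) ε) (ε v_j) w` by `hlam`.
(3) `τ ^ i (ε g u_j ε) = ε ((τ ^ i ε) g) u_j ε`, so `lam (τ ^ i (ε g u_j ε)) = μ_j ((τ ^ i ε) g)`.
(4) `ε (∑_{g ∈ C} R g θ R g⁻¹) (ε v) = ∑_i (τ ^ (r - 1 - i) ε) ∑_j (ε v_j) θ (∑_{g ∈ C} μ_j ((τ ^ i ε) g) • R g⁻¹ (ε v))`, and by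
    (1) the inner sum is `∑_{g ∈ C} μ_j(g) • R g⁻¹ ((τ ^ i ε) (ε v))`.
-/

namespace Pool.Agent.Lib.P0c8ca5.Cb

open MonoidAlgebra Rk

variable {p : ℕ} {k : Type*} [Field k] {A : Type*} [Group A]
variable {V : Type*} [AddCommGroup V] [Module k V]

namespace NTrAux

theorem eq_sum [Fintype A] (a : MonoidAlgebra k A) :
    a = ∑ g, a.coeff g • single g (1 : k) := by
  classical
  ext x
  rw [coeff_sum, Finsupp.finsetSum_apply, Finset.sum_eq_single x]
  · change a.coeff x = a.coeff x • (Finsupp.single x (1 : k)) x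
    rw [Finsupp.single_eq_same, smul_eq_mul, mul_one]
  · intro y _ hy
    change a.coeff y • (Finsupp.single y (1 : k)) x = 0
    rw [Finsupp.single_eq_of_ne (Ne.symm hy), smul_zero]
  · intro h; exact absurd (Finset.mem_univ _) h

open Classical in
/-- the Casimir element, for one group element -/
theorem casimir_one [Fintype A] {C : Subgroup A} (μ : MonoidAlgebra k A →ₗ[k] k)
    {R : A → Module.End k V} (hR : IsRep C R) {x : A} (hx : x ∈ C) :
    ∑ g ∈ Finset.univ.filter (fun g => g ∈ C),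
      μ (single x (1 : k) * single g (1 : k)) • R g⁻¹ =
    ∑ g ∈ Finset.univ.filter (fun g => g ∈ C), μ (single g (1 : k)) • (R g⁻¹ * R x) := by
  refine Finset.sum_nbij' (fun g => x * g) (fun g => x⁻¹ * g) ?_ ?_ ?_ ?_ ?_
  · intro g hg
    rw [Finset.mem_filter] at hg ⊢
    exact ⟨Finset.mem_univ _, C.mul_mem hx hg.2⟩
  · intro g hg
    rw [Finset.mem_filter] at hg ⊢
    exact ⟨Finset.mem_univ _, C.mul_mem (C.inv_mem hx) hg.2⟩
  · intro g _
    exact inv_mul_cancel_left x g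
  · intro g _
    exact mul_inv_cancel_left x g
  · intro g hg
    rw [Finset.mem_filter] at hg
    rw [single_mul_single, one_mul, ← hR.mul _ (C.inv_mem (C.mul_mem hx hg.2)) _ hx]
    congr 2
    group

open Classical in
/-- the Casimir element -/
theorem casimir [Fintype A] {C : Subgroup A} (μ : MonoidAlgebra k A →ₗ[k] k)
    {R : A → Module.End k V} (hR : IsRep C R) {y : MonoidAlgebra k A} (hy : SuppIn C y) :
    ∑ g ∈ Finset.univ.filter (fun g => g ∈ C), μ (y * single g (1 : k)) • R g⁻¹ =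
    ∑ g ∈ Finset.univ.filter (fun g => g ∈ C), μ (single g (1 : k)) • (R g⁻¹ * ac R y) := by
  have h1 : ∀ g : A, μ (y * single g (1 : k)) • R g⁻¹ =
      ∑ x, y.coeff x • (μ (single x (1 : k) * single g (1 : k)) • R g⁻¹) := by
    intro g
    conv_lhs => rw [eq_sum y]
    rw [Finset.sum_mul, map_sum, Finset.sum_smul]
    refine Finset.sum_congr rfl (fun x _ => ?_)
    rw [smul_mul_assoc, map_smul, smul_assoc]
  have h2 : ∀ g : A, μ (single g (1 : k)) • (R g⁻¹ * ac R y) =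
      ∑ x, y.coeff x • (μ (single g (1 : k)) • (R g⁻¹ * R x)) := by
    intro g
    rw [ac, Finset.mul_sum, Finset.smul_sum]
    refine Finset.sum_congr rfl (fun x _ => ?_)
    rw [mul_smul_comm, smul_comm]
  rw [Finset.sum_congr rfl (fun g _ => h1 g), Finset.sum_congr rfl (fun g _ => h2 g),
    Finset.sum_comm]
  conv_rhs => rw [Finset.sum_comm]
  refine Finset.sum_congr rfl (fun x _ => ?_)
  rw [← Finset.smul_sum, ← Finset.smul_sum]
  by_cases hx : x ∈ C
  · rw [casimir_one μ hR hx]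
  · have h0 : y.coeff x = 0 := by
      by_contra h; exact hx (hy x h)
    rw [h0, zero_smul, zero_smul]

end NTrAux

open NTrAux in
theorem St.trace_mem [Fintype A] {C : Subgroup A} {c ε τ : MonoidAlgebra k A} (h : St C c ε τ)
    {r : ℕ} {lam : MonoidAlgebra k A →ₗ[k] k}
    (hlam : ∀ a, SuppIn C a → ε * a * ε =
      ∑ i ∈ Finset.range r, lam (τ ^ i * (ε * a * ε)) • (τ ^ (r - 1 - i) * ε))
    {R : A → Module.End k V} (hR : IsRep C R) (θ : Module.End k V) :
    ∃ G : Module.End k V, ac R ε * trS C R R θ * ac R ε =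
      ∑ i ∈ Finset.range r, (ac R τ ^ (r - 1 - i) * ac R ε) * G * (ac R τ ^ i * ac R ε) := by
  classical
  obtain ⟨m, u, v, hu, hv, huv⟩ := h.full
  set E : Module.End k V := ac R ε with hE
  set T : Module.End k V := ac R τ with hT
  have hEE : E * E = E := by
    rw [hE, ← ac_mul hR h.es h.es, h.ee]
  have hTp : ∀ n : ℕ, ac R (τ ^ n * ε) = T ^ n * E := by
    intro n
    rw [ac_mul hR (ExtBAux.supp_pow h.ts n) h.es, ExtBAux.ac_pow h.ts hR]
  -- the linear forms
  have hmu : ∀ j : Fin m, ∃ μ : MonoidAlgebra k A →ₗ[k] k,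
      ∀ a, μ a = lam (ε * a * u j * ε) := by
    intro j
    refine ⟨lam ∘ₗ (LinearMap.mulRight k ε ∘ₗ LinearMap.mulRight k (u j) ∘ₗ
      LinearMap.mulLeft k ε), fun a => rfl⟩
  choose μ hμ using hmu
  -- the formula for one group element
  have key : ∀ g ∈ C, E * R g = ∑ i ∈ Finset.range r, ∑ j,
      μ j ((τ ^ i * ε) * single g (1 : k)) • ((T ^ (r - 1 - i) * E) * ac R (v j)) := by
    intro g hg
    have hgs : SuppIn C (single g (1 : k)) := MorAux.suppIn_single hg
    have e1 : ε * single g (1 : k) = ∑ j, (ε * (single g (1 : k) * u j) * ε) * v j := by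
      rw [← MorAux.eps_mul h hgs, ← huv, Finset.mul_sum]
      refine Finset.sum_congr rfl (fun j _ => ?_)
      simp only [mul_assoc]
    have e2 : E * R g = ac R (ε * single g (1 : k)) := by
      rw [ac_mul hR h.es hgs, MorAux.ac_single]
    rw [e2, e1, ac_sum, Finset.sum_comm]
    refine Finset.sum_congr rfl (fun j _ => ?_)
    rw [hlam _ (hgs.mul (hu j)), Finset.sum_mul, ac_sum]
    refine Finset.sum_congr rfl (fun i _ => ?_)
    rw [smul_mul_assoc, ac_smul, ac_mul hR (MorAux.supp_pow h _) (hv j), hTp]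
    congr 1
    rw [hμ]
    congr 1
    have e3 := MorAux.eps_pow h i
    calc τ ^ i * (ε * (single g (1 : k) * u j) * ε)
        = (τ ^ i * ε) * single g (1 : k) * u j * ε := by simp only [mul_assoc]
      _ = (ε * (τ ^ i * ε)) * single g (1 : k) * u j * ε := by rw [e3]
      _ = _ := by simp only [mul_assoc]
  refine ⟨∑ j, ac R (v j) * θ * ∑ g ∈ Finset.univ.filter (fun g => g ∈ C),
    μ j (single g (1 : k)) • R g⁻¹, ?_⟩
  have e4 : ∀ g ∈ Finset.univ.filter (fun g => g ∈ C), E * hc R R g θ * E =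
      ∑ i ∈ Finset.range r, ∑ j, (T ^ (r - 1 - i) * E) * (ac R (v j) * θ *
        (μ j ((τ ^ i * ε) * single g (1 : k)) • R g⁻¹)) * E := by
    intro g hg
    have hgC : g ∈ C := (Finset.mem_filter.1 hg).2
    have e5 : E * hc R R g θ * E = (E * R g) * (θ * R g⁻¹ * E) := by
      rw [hc]
      change E * (R g * (θ * R g⁻¹)) * E = _
      simp only [mul_assoc]
    rw [e5, key g hgC, Finset.sum_mul]
    refine Finset.sum_congr rfl (fun i _ => ?_)
    rw [Finset.sum_mul]
    refine Finset.sum_congr rfl (fun j _ => ?_)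
    simp only [mul_smul_comm, smul_mul_assoc, mul_assoc]
  rw [trS, Finset.mul_sum, Finset.sum_mul, Finset.sum_congr rfl e4, Finset.sum_comm]
  refine Finset.sum_congr rfl (fun i _ => ?_)
  rw [Finset.sum_comm, Finset.mul_sum, Finset.sum_mul]
  refine Finset.sum_congr rfl (fun j _ => ?_)
  rw [← Finset.sum_mul, ← Finset.mul_sum, ← Finset.mul_sum,
    casimir (μ j) hR (MorAux.supp_pow h i), hTp]
  have e6 : ∑ g ∈ Finset.univ.filter (fun g => g ∈ C),
      μ j (single g (1 : k)) • (R g⁻¹ * (T ^ i * E)) =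
      (∑ g ∈ Finset.univ.filter (fun g => g ∈ C), μ j (single g (1 : k)) • R g⁻¹) *
        (T ^ i * E) := by
    rw [Finset.sum_mul]
    refine Finset.sum_congr rfl (fun g _ => ?_)
    rw [smul_mul_assoc]
  rw [e6]
  simp only [mul_assoc, hEE]

end Pool.Agent.Lib.P0c8ca5.Cb
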