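import Mathlib
import Pool.Agent.Lib.P0c8ca5B.Lam
import Pool.Agent.Lib.P0c8ca5B.NTr
import Pool.Agent.Lib.P0c8ca5B.Mor
import Pool.Agent.Lib.P0c8ca5B.LemM
import Pool.Agent.Lib.P0c8ca5B.PartD

/-!
# Module KerD: the endomorphisms of `ε V` that commute with `τ`

PROOF.  `R = ofRep ρ`, `IsRep ⊤ R` (`isRep_ofRep`), so `IsRep C R`.  Take `r`, `lam` from `hs.exists_lam`.  Let `g` satisfy `ε g ε = g`
and `g τ = τ g` (as operators).  `hs.mor` (P0c8ca5B.Mor) with `R' = R` and this `g` (`g (τ ε v) = τ g (ε v)`, `ε g (ε v) = g (ε v)`)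
gives `φ : V → V`, `Eqv C R R φ`, `ac R b ∘ φ = φ`, `φ (ε v) = g (ε v)`.  As `N = C`, `lemM` gives `Φ = RT X R R (ac R a ∘ φ)`,
`Eqv ⊤ R R Φ`, and `θ` with `ac R b ∘ Φ = φ + trS N R R θ`.  By Schur (`PartDAux.schur` in P0c8ca5B.PartD, `(irr_ofRep ρ).1 hρ`)
`Φ v = c • v`.  Multiply by `ac R ε` from both sides (`ε b = ε`, `b ε = ε`: `commute_of`): `c • ε = ε φ ε + ε (trS C R R θ) ε =
g + ∑_i (τ ^ (r - 1 - i) ε) G (τ ^ i ε)` by `hs.trace_mem` (`ε φ ε v = ε g ε v = g v`).  So `g = c • ε + ∑_i (..) (- G) (..)`.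
-/

namespace Pool.Agent.Lib.P0c8ca5.Cb

open MonoidAlgebra Rk

variable {p : ℕ} {k : Type*} [Field k] {A : Type*} [Group A]

theorem kerD [Fact p.Prime] [CharP k p] [IsAlgClosed k] [Fintype A]
    {f a b : MonoidAlgebra k A} {x : A} {D D₁ N C : Subgroup A} {X : Finset A}
    (h : Data p f a b x D D₁ N C X) (hNC : N = C) {ε τ : MonoidAlgebra k A} (hs : St C b ε τ)
    {n : ℕ} {ρ : Rp k (⊤ : Subgroup A) n} (hρ : Irr' ρ) :
    ∃ r : ℕ, 0 < r ∧ τ ^ r = 0 ∧ ∀ g : Module.End k (Fin n → k),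
      ac (ofRep ρ) ε * g * ac (ofRep ρ) ε = g →
      g * ac (ofRep ρ) τ = ac (ofRep ρ) τ * g →
      ∃ (c : k) (G : Module.End k (Fin n → k)), g = c • ac (ofRep ρ) ε +
        ∑ i ∈ Finset.range r, (ac (ofRep ρ) τ ^ (r - 1 - i) * ac (ofRep ρ) ε) * G *
          (ac (ofRep ρ) τ ^ i * ac (ofRep ρ) ε) := by
  classical
  subst hNC
  have hRT : IsRep (⊤ : Subgroup A) (ofRep ρ) := isRep_ofRep ρ
  have hR : IsRep N (ofRep ρ) := hRT.mono le_top
  obtain ⟨r, lam, hr0, hτr, hlam⟩ := hs.exists_lam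
  refine ⟨r, hr0, hτr, fun g hg hgτ => ?_⟩
  set E : Module.End k (Fin n → k) := ac (ofRep ρ) ε with hE
  have hEE : E * E = E := by rw [hE, ← ac_mul hR hs.es hs.es, hs.ee]
  have hEb : E * ac (ofRep ρ) b = E := by
    rw [hE, ← ac_mul hR hs.es hs.blk.suppIn, hs.ef]
  have hgE : g * E = g := by
    calc g * E = E * g * E * E := by rw [hg]
      _ = E * g * (E * E) := by rw [mul_assoc (E * g)]
      _ = g := by rw [hEE, hg]
  have hEg : E * g = g := by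
    calc E * g = E * (E * g * E) := by rw [hg]
      _ = (E * E) * g * E := by simp only [mul_assoc]
      _ = g := by rw [hEE, hg]
  obtain ⟨φ, hφ, hbφ, -, hφε, -⟩ := hs.mor (R := ofRep ρ) (R' := ofRep ρ) hR hR g
    (fun v => LinearMap.congr_fun hgτ (E v)) (fun v => LinearMap.congr_fun hEg (E v))
  obtain ⟨hΦ, θ, hθ⟩ := lemM h hRT hRT hφ hbφ
  obtain ⟨c, hc⟩ := PartDAux.schur ((irr_ofRep ρ).1 hρ) hΦ
  have hΦc : RT X (ofRep ρ) (ofRep ρ) (ac (ofRep ρ) a ∘ₗ φ) =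
      c • (1 : Module.End k (Fin n → k)) := by
    apply LinearMap.ext
    intro v
    rw [hc v]
    rfl
  rw [hΦc] at hθ
  obtain ⟨G, hG⟩ := hs.trace_mem hlam hR θ
  have h1 : E * (φ : Module.End k (Fin n → k)) * E = g := by
    apply LinearMap.ext
    intro v
    change E (φ (E v)) = g v
    rw [hE, hφε, ← hE]
    have h2 := LinearMap.congr_fun hEg (E v)
    have h3 := LinearMap.congr_fun hgE v
    exact h2.trans h3
  have h4 : E * (ac (ofRep ρ) b * (c • (1 : Module.End k (Fin n → k)))) * E =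
      E * ((φ : Module.End k (Fin n → k)) + trS N (ofRep ρ) (ofRep ρ) θ) * E := by
    have h5 : ac (ofRep ρ) b * (c • (1 : Module.End k (Fin n → k))) =
      (φ : Module.End k (Fin n → k)) + trS N (ofRep ρ) (ofRep ρ) θ := hθ
    rw [h5]
  rw [mul_add, add_mul, h1, hG, mul_smul_comm, mul_one, mul_smul_comm, hEb, smul_mul_assoc,
    hEE] at h4
  refine ⟨c, (-1 : k) • G, ?_⟩
  have h6 : ∑ i ∈ Finset.range r, (ac (ofRep ρ) τ ^ (r - 1 - i) * E) * ((-1 : k) • G) *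
      (ac (ofRep ρ) τ ^ i * E) = (-1 : k) • ∑ i ∈ Finset.range r,
        (ac (ofRep ρ) τ ^ (r - 1 - i) * E) * G * (ac (ofRep ρ) τ ^ i * E) := by
    rw [Finset.smul_sum]
    refine Finset.sum_congr rfl fun i _ => ?_
    rw [mul_smul_comm, smul_mul_assoc]
  rw [h6, h4, add_assoc, ← one_smul k (∑ i ∈ Finset.range r,
        (ac (ofRep ρ) τ ^ (r - 1 - i) * E) * G * (ac (ofRep ρ) τ ^ i * E)), smul_smul,
    ← add_smul, mul_one, add_neg_cancel, zero_smul, add_zero]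

end Pool.Agent.Lib.P0c8ca5.Cb
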