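import Mathlib
import Pool.Agent.Lib.P0c8ca5B.Dat
import Pool.Agent.Lib.P0c8ca5.Reg

/-!
# Module NilC: the blocks of `C` under `b`

PROOF of `nil_cent`.  `c * b = c` (`IsBlock.mul_eq` with `h.bmem`, `h.bb`; `commute_of`).  Let `P ≤ C` be a p-subgroup with
`HasBr P c` and `Q = P ⊔ D₁`, a p-group (`D₁` is central in `C`).  There is `y` centralizing `P` with `c.coeff y ≠ 0`; `y ∈ C`
(support), so `y` centralizes `D₁` and `Q`: `HasBr Q c`.  `hasBr_of_mul` (P0c8ca5.Reg, `InvBy Q` of both because `Q ≤ C`):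
`HasBr Q b`; with `h.be`, `h.bsupp`: `HasBr Q e`.  So `Q` is cyclic (`hcyc`), and `P` too (`isCyclic_of_le`).  `cen`: let `g ∈ C`
normalize `P`; `g` centralizes `D₁`, so it normalizes `Q`; `pow_cent_of_cyclic` for `Q` and `x`: a power `g ^ (p ^ n)`
centralizes `Q`, hence `P`.
PROOF of `nil_data`.  `N = C`: let `g ∈ N`; `HasBr D₁ e` (the centralizer of `D` is contained in that of `D₁`), so by `hn.cen` a
power `g ^ (p ^ n)` centralizes `D₁`, and `cent_of_pow` gives `g ∈ C`.
`IsBlock C b`: `mem`: `h.bmem`; `idem`: `h.bb`; `ne_zero`: `HasBr D e` and `h.be`.  `prim`: let `f ∈ fixAlg k C C`, `f * f = f`,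
`f * b = f`.  Put `z = ∑_{q ∈ X} cj q (a * f)`; `a * f` is `D`-invariant (`D ≤ C`), so `z ∈ fixAlg k ⊤ ⊤` (`BrBAux.invBy_sum_cj`),
and `resS C z = ∑_{q ∈ X ∩ N} cj q (a * f) = (∑_{q ∈ X ∩ N} cj q a) * f = b * f = f` (`resS_sum_cj'` with `hfix` from `norm_iff`;
`a * f` is supported in `C`, `resS_eq_self`; `cj q f = f` for `q ∈ N = C`; `h.trb`; `b * f = f * b`).  By `PrimIdem.nilp_or_unit`
(`h.blk.primIdem`, as in P0c8ca5R.BrB): if `z * e` is nilpotent then `resS C (z * e) = f * b = f` is nilpotent, `f = 0`.  Otherwise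
`z * w * e = e` with `w ∈ fixAlg k ⊤ ⊤`; apply `resS C`: `f * w' * b = b`, `w' = resS C w`; multiply by `b - f`
on the left (`(b - f) * f = 0`): `(b - f) * b = 0`, i.e. `b - f = 0`.  (`resS C e = b` by `h.be`, `h.bsupp`; `resS_mul` for `D₁`.)
-/

namespace Pool.Agent.Lib.P0c8ca5.Cb

open MonoidAlgebra Rk

variable {p : ℕ} {k : Type*} [Field k] {A : Type*} [Group A]

namespace NilCAux

theorem hasBr_mul' [Fact p.Prime] [CharP k p] [Fintype A] {P : Subgroup A} (hP : IsPGroup p P)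
    {f' f : MonoidAlgebra k A}
    (h1 : InvBy P f') (h2 : InvBy P f) (hmul : f' * f = f') (hbr : HasBr P f') :
    HasBr P f := by
  by_contra hcon
  obtain ⟨x, hx, hfx⟩ := hbr
  have h3 := resS_mul (p := p) hP h1 h2
  have h4 : resS (Subgroup.centralizer (P : Set A) : Set A) f = 0 := by
    ext y
    by_cases hy : y ∈ (Subgroup.centralizer (P : Set A) : Set A)
    · rw [coeff_resS_of_mem _ hy]
      by_contra h
      exact hcon ⟨y, hy, h⟩
    · rw [coeff_resS_of_notMem _ hy]; rfl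
  rw [h4, mul_zero, hmul] at h3
  apply hfx
  rw [← coeff_resS_of_mem (S := (Subgroup.centralizer (P : Set A) : Set A)) f' hx, h3]
  rfl

/-- `P D₁` has a nonzero Brauer map on `e` -/
theorem br_sup [Fact p.Prime] [CharP k p] [Fintype A] {e a b : MonoidAlgebra k A} {x : A}
    {D D₁ N C : Subgroup A} {X : Finset A} (h : Data p e a b x D D₁ N C X)
    {c : MonoidAlgebra k A} (hc : IsBlock C c) (hcb : c * b ≠ 0) {P : Subgroup A} (hPC : P ≤ C)
    (hP : IsPGroup p P) (hbr : HasBr P c) : IsPGroup p ↥(P ⊔ D₁) ∧ HasBr (P ⊔ D₁) e := by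
  have hPD : P ≤ Subgroup.centralizer (D₁ : Set A) := by rw [← h.hC]; exact hPC
  have hQp : IsPGroup p ↥(P ⊔ D₁) :=
    hP.to_sup_of_normal_right' h.isPGroup (hPD.trans (Subgroup.centralizer_le_normalizer _))
  have hQC : P ⊔ D₁ ≤ C := sup_le hPC h.D1C
  refine ⟨hQp, ?_⟩
  have hcb' : c * b = c := by
    have hcomm : b * c = c * b := commute_of h.bsupp hc.invBy
    rcases hc.mul_eq h.bmem h.bb with h1 | h1
    · rw [hcomm] at h1; exact absurd h1 hcb
    · rw [← hcomm]; exact h1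
  have hbrQ : HasBr (P ⊔ D₁) c := by
    obtain ⟨y, hy, hy0⟩ := hbr
    refine ⟨y, ?_, hy0⟩
    have hyC : y ∈ C := hc.suppIn y hy0
    rw [h.hC] at hyC
    have h5 : P ⊔ D₁ ≤ Subgroup.centralizer ({y} : Set A) := by
      apply sup_le
      · intro z hz
        rw [Subgroup.mem_centralizer_iff]
        intro w hw
        rw [Set.mem_singleton_iff] at hw
        subst hw
        exact ((Subgroup.mem_centralizer_iff.1 hy) z hz).symm
      · intro z hz
        rw [Subgroup.mem_centralizer_iff]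
        intro w hw
        rw [Set.mem_singleton_iff] at hw
        subst hw
        exact ((Subgroup.mem_centralizer_iff.1 hyC) z hz).symm
    rw [Subgroup.mem_centralizer_iff]
    intro z hz
    exact ((Subgroup.mem_centralizer_iff.1 (h5 hz)) y rfl).symm
  obtain ⟨y, hy, hy0⟩ := hasBr_mul' hQp (hc.invBy.mono hQC) (h.binvC.mono hQC) hcb' hbrQ
  refine ⟨y, hy, ?_⟩
  rw [← h.be y (h.bsupp y hy0)]
  exact hy0

/-- the centralizer of `D` is contained in `C` -/
theorem cent_le [Fintype A] {e a b : MonoidAlgebra k A} {x : A}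
    {D D₁ N C : Subgroup A} {X : Finset A} (h : Data p e a b x D D₁ N C X) :
    Subgroup.centralizer (D : Set A) ≤ C := by
  rw [h.hC]
  exact Subgroup.centralizer_le h.D1D

theorem b_ne_zero [Fintype A] {e a b : MonoidAlgebra k A} {x : A}
    {D D₁ N C : Subgroup A} {X : Finset A} (h : Data p e a b x D D₁ N C X) : b ≠ 0 := by
  obtain ⟨y, hy, hy0⟩ := h.br
  intro h0
  apply hy0
  rw [← h.be y (cent_le h hy), h0]
  rfl

theorem resS_e [Fintype A] {e a b : MonoidAlgebra k A} {x : A}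
    {D D₁ N C : Subgroup A} {X : Finset A} (h : Data p e a b x D D₁ N C X) :
    resS (C : Set A) e = b := by
  ext y
  by_cases hy : y ∈ (C : Set A)
  · rw [coeff_resS_of_mem _ hy, h.be y hy]
  · rw [coeff_resS_of_notMem _ hy]
    by_contra h0
    exact hy (h.bsupp y (Ne.symm h0))

end NilCAux

open NilCAux

theorem nil_cent [Fact p.Prime] [CharP k p] [Fintype A] {e a b : MonoidAlgebra k A} {x : A}
    {D D₁ N C : Subgroup A} {X : Finset A} (h : Data p e a b x D D₁ N C X)
    (hcyc : ∀ P : Subgroup A, IsPGroup p P → HasBr P e → IsCyclic P)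
    {c : MonoidAlgebra k A} (hc : IsBlock C c) (hcb : c * b ≠ 0) : Nil p C c := by
  refine ⟨hc, fun P hPC hP hbr => ?_, fun P hPC hP hbr g hg hgP => ?_⟩
  · obtain ⟨h1, h2⟩ := br_sup h hc hcb hPC hP hbr
    exact isCyclic_of_le le_sup_left (hcyc _ h1 h2)
  · obtain ⟨h1, h2⟩ := br_sup h hc hcb hPC hP hbr
    have hgc : g ∈ Subgroup.centralizer (D₁ : Set A) := by rw [← h.hC]; exact hg
    have hgN : g ∈ Subgroup.normalizer (D₁ : Set A) := Subgroup.centralizer_le_normalizer _ hgc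
    have hgQ : g ∈ Subgroup.normalizer ((P ⊔ D₁ : Subgroup A) : Set A) := by
      rw [← cg_eq_self_iff] at hgP hgN ⊢
      rw [show cg g (P ⊔ D₁) = cg g P ⊔ cg g D₁ from Subgroup.map_sup _ _ _, hgP, hgN]
    have hgx : g * x = x * g := (Subgroup.mem_centralizer_iff.1 hgc x h.mem).symm
    obtain ⟨n, hn⟩ := pow_cent_of_cyclic h1 (hcyc _ h1 h2)
      ((le_sup_right : D₁ ≤ P ⊔ D₁) h.mem) h.ord hgQ hgx
    exact ⟨n, Subgroup.centralizer_le (le_sup_left : P ≤ P ⊔ D₁) hn⟩

theorem nil_data [Fact p.Prime] [CharP k p] [IsAlgClosed k] [Fintype A]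
    {e a b : MonoidAlgebra k A} {x : A}
    {D D₁ N C : Subgroup A} {X : Finset A} (h : Data p e a b x D D₁ N C X)
    (hn : Nil p ⊤ e) : N = C ∧ IsBlock C b := by
  classical
  have hD₁ := h.hD₁
  have hNC : N = C := by
    apply le_antisymm _ h.CN
    intro g hg
    have hbr1 : HasBr D₁ e := by
      obtain ⟨y, hy, hy0⟩ := h.br
      exact ⟨y, Subgroup.centralizer_le h.D1D hy, hy0⟩
    have hgN : g ∈ Subgroup.normalizer (D₁ : Set A) := by rw [← h.hN]; exact hg
    obtain ⟨n, hn'⟩ := hn.cen D₁ le_top h.isPGroup hbr1 g (Subgroup.mem_top _) hgN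
    rw [h.hC]
    rw [hD₁] at hgN hn' ⊢
    exact cent_of_pow h.ord hgN hn'
  refine ⟨hNC, h.bmem, h.bb, b_ne_zero h, ?_⟩
  intro f hf hff hfb
  obtain ⟨hfs, hfi⟩ := mem_fixAlg.1 hf
  have hbf : b * f = f := by rw [← commute_of hfs h.binvC]; exact hfb
  have hfix : ∀ q, (∀ u ∈ D₁, q⁻¹ * u * q ∈ D) ↔ q ∈ Subgroup.normalizer (D₁ : Set A) := by
    intro q
    have hxD : x ∈ D := h.D1D h.mem
    have h1 := norm_iff (q := q) hxD h.ord (by rw [← hD₁]; exact h.min)
    rw [← hD₁] at h1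
    exact h1
  have haf : InvBy D (a * f) := by
    have h1 := h.ainv
    have h2 : InvBy D f := hfi.mono h.DC
    rw [invBy_iff_commute] at h1 h2 ⊢
    exact fun g hg => (h1 g hg).mul_right (h2 g hg)
  have hafs : SuppIn C (a * f) := h.asupp.mul hfs
  set z := ∑ q ∈ X, cj q (a * f) with hz
  have hzinv : InvBy ⊤ z := BrBAux.invBy_sum_cj h.reps haf
  have hzmem : z ∈ fixAlg k ⊤ ⊤ := mem_fixAlg.2 ⟨fun _ _ => Subgroup.mem_top _, hzinv⟩
  have hzD : InvBy D₁ z := hzinv.mono le_top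
  have heD : InvBy D₁ e := h.blk.invBy.mono le_top
  have hD₁p := h.isPGroup
  have hrm : ∀ u v : MonoidAlgebra k A, InvBy D₁ u → InvBy D₁ v →
      resS (C : Set A) (u * v) = resS (C : Set A) u * resS (C : Set A) v := by
    intro u v hu hv
    rw [h.hC]
    exact resS_mul hD₁p hu hv
  have hzr : resS (C : Set A) z = f := by
    have h1 := resS_sum_cj' h.reps hD₁p hfix haf
    rw [← h.hC, ← h.hN] at h1
    rw [hz, h1]
    have h2 : ∀ q ∈ X.filter (fun q => q ∈ N), cj q (resS (C : Set A) (a * f)) = cj q a * f := by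
      intro q hq
      have hqC : q ∈ C := by rw [← hNC]; exact (Finset.mem_filter.1 hq).2
      rw [resS_eq_self hafs, cj_mul, invBy_iff_cj.1 hfi q hqC]
    rw [Finset.sum_congr rfl h2, ← Finset.sum_mul, h.trb, hbf]
  have hzeD : InvBy D₁ (z * e) := by
    rw [invBy_iff_commute] at hzD heD ⊢
    exact fun g hg => (hzD g hg).mul_right (heD g hg)
  have hzer : resS (C : Set A) (z * e) = f := by
    rw [hrm _ _ hzD heD, hzr, resS_e h, hfb]
  have hA : IsArtinianRing (fixAlg k (⊤ : Subgroup A) ⊤) := IsArtinianRing.of_finite k _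
  rcases h.blk.primIdem.nilp_or_unit ⟨z, hzmem⟩ with ⟨n, hn⟩ | ⟨w, hw⟩
  · left
    have h1 : (z * e) ^ n = 0 := congrArg Subtype.val hn
    have h2 : ∀ m : ℕ, InvBy D₁ ((z * e) ^ m) ∧ resS (C : Set A) ((z * e) ^ (m + 1)) = f := by
      intro m
      induction m with
      | zero =>
        refine ⟨?_, ?_⟩
        · rw [pow_zero, invBy_iff_commute]
          intro g _; exact Commute.one_right _
        · rw [zero_add, pow_one, hzer]
      | succ m ih =>
        have h3 : InvBy D₁ ((z * e) ^ (m + 1)) := by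
          rw [invBy_iff_commute] at hzeD ⊢
          exact fun g hg => (hzeD g hg).pow_right _
        refine ⟨h3, ?_⟩
        rw [pow_succ, hrm _ _ h3 hzeD, ih.2, hzer, hff]
    have h3 : (z * e) ^ (n + 1) = 0 := by rw [pow_succ, h1, zero_mul]
    rw [← (h2 n).2, h3, resS_zero]
  · right
    have h1 : z * w.1 * e = e := congrArg Subtype.val hw
    have hwD : InvBy D₁ w.1 := (mem_fixAlg.1 w.2).2.mono le_top
    have hzwD : InvBy D₁ (z * w.1) := by
      rw [invBy_iff_commute] at hzD hwD ⊢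
      exact fun g hg => (hzD g hg).mul_right (hwD g hg)
    have h2 := congrArg (resS (C : Set A)) h1
    rw [hrm _ _ hzwD heD, hrm _ _ hzD hwD, hzr, resS_e h] at h2
    have h3 : (b - f) * b = 0 := by
      have h4 : (b - f) * (f * resS (C : Set A) w.1 * b) = 0 := by
        rw [← mul_assoc, ← mul_assoc, sub_mul, hbf, hff, sub_self, zero_mul, zero_mul]
      rw [h2] at h4
      exact h4
    rw [sub_mul, h.bb, hfb, sub_eq_zero] at h3
    exact h3.symm

end Pool.Agent.Lib.P0c8ca5.Cb
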