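import Mathlib
import Pool.Agent.Lib.P0c8ca5B.NilC
import Pool.Agent.Lib.P0c8ca5B.Bij
import Pool.Agent.Lib.P0c8ca5B.StOne
import Pool.Agent.Lib.P0c8ca5B.CorX
import Pool.Agent.Lib.P0c8ca5B.Der
import Pool.Agent.Lib.P0c8ca5B.DerTr
import Pool.Agent.Lib.P0c8ca5B.Gen
import Pool.Agent.Lib.P0c8ca5B.HerbE
import Pool.Agent.Lib.P0c8ca5B.KerD
import Pool.Agent.Lib.P0c8ca5B.DerIn
import Pool.Agent.Lib.P0c8ca5R.CardDZ

/-!
# Module StepB: the step from the centralizer to the group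

PROOF of `huniq_of_card`.  `mkIrr`, `mk_eq_mk`, `iso_iff` (compare the end of P0c8ca5R.CardDZ): `Nat.card (..) = 1` gives
`Subsingleton` (`Nat.card_eq_one_iff_unique`).
PROOF of `step_two`.
(1) `nil_data h hn`: `N = C` and `IsBlock C b`.  A block `c` of `kC` with `c * b ≠ 0` is `b` (`IsBlock.eq_or_mul_eq_zero`), so
    `card_irr_bij h` applies with `hst` from `hs`, and `Nat.card (Quotient (irrInvSetoid ⊤ ⊥ f)) = 1` by `hs.card_one` (P0c8ca5B.StOne).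
(2) `exists_rep h.blk` (P0c8ca5R.CardDZ): `ρ` irreducible, `act ρ f = 1`; `huniq_of_card`; `exists_cor`: `ε'`, `s`, `hc : Cor f ε' ρ s`.
(3) `exists_gen (MI ε' ρ s) (MI ε' ρ s ^ 2)`: let `ψ₁`, `ψ₂` vanish on `MI ^ 2`.  `exists_der hc ψ_j` (`pow_two`,
    `Submodule.mul_mem_mul`): derivations `d_j` with `d_j m s = ψ_j m • s`.
(4) `kerD h hNC hs hρ`: `r`.  `herbrandE` with `E = ac R ε`, `T = ac R τ`, `β_j = d_j τ` (`beta_sum`; `ac R τ ^ r = ac R (τ ^ r) = 0` by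
    `ac_pow`): `c₁, c₂`, `g`.
(5) `d = c₁ • d₁ + c₂ • d₂` is a derivation; `derIn` with `g`: `IsInn R d`.  `inn_zero hc`: `0 = d m s = (c₁ ψ₁ m + c₂ ψ₂ m) • s`
    for `m ∈ MI`, and `s ≠ 0`.
(6) `exists_gen` gives `τ' ∈ MI` with `MI ≤ span {τ'} ⊔ MI ^ 2`, and `hc.st` (P0c8ca5B.Gen) finishes the proof.
-/

namespace Pool.Agent.Lib.P0c8ca5.Cb

open MonoidAlgebra Rk

variable {p : ℕ} {k : Type*} [Field k] {A : Type*} [Group A]

theorem huniq_of_card [Fintype A] {f : MonoidAlgebra k A}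
    (h1 : Nat.card (Quotient (irrInvSetoid (⊤ : Subgroup A) ⊥ f)) = 1) {n : ℕ}
    {ρ : Rp k (⊤ : Subgroup A) n} (hρ : Irr' ρ) (hone : act ρ f = 1) :
    ∀ (m : ℕ) (σ : Rp k (⊤ : Subgroup A) m), Irr' σ → act σ f = 1 → Iso σ ρ := by
  intro m σ hσ h2
  have hsub : Subsingleton (Quotient (irrInvSetoid (⊤ : Subgroup A) ⊥ f)) :=
    (Nat.card_eq_one_iff_unique.1 h1).1
  have h3 : (⟦mkIrr σ hσ h2⟧ : Quotient (irrInvSetoid (⊤ : Subgroup A) ⊥ f))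
      = ⟦mkIrr ρ hρ hone⟧ := Subsingleton.elim _ _
  exact mk_eq_mk.1 h3

theorem step_two [Fact p.Prime] [CharP k p] [IsAlgClosed k] [Fintype A]
    {f a b : MonoidAlgebra k A} {x : A} {D D₁ N C : Subgroup A} {X : Finset A}
    (h : Data p f a b x D D₁ N C X) (hn : Nil p ⊤ f) {ε τ : MonoidAlgebra k A}
    (hs : St C b ε τ) : ∃ ε' τ', St ⊤ f ε' τ' := by
  obtain ⟨hNC, hb⟩ := nil_data h hn
  -- (1) the number of irreducible representations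
  have hst : ∀ c : MonoidAlgebra k A, IsBlock C c → c * b ≠ 0 → ∃ ε τ, St C c ε τ := by
    intro c hc hcb
    rcases hc.eq_or_mul_eq_zero hb with h1 | h1
    · rw [h1]
      exact ⟨ε, τ, hs⟩
    · exact absurd h1 hcb
  have hcard : Nat.card (Quotient (irrInvSetoid (⊤ : Subgroup A) ⊥ f)) = 1 := by
    rw [card_irr_bij h hst, hNC]
    exact hs.card_one
  -- (2) the corner
  obtain ⟨n, ρ, hρ, hone⟩ := CardDZAux.exists_rep h.blk
  obtain ⟨ε', s, hc⟩ := exists_cor h.blk hρ hone (huniq_of_card hcard hρ hone)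
  -- (3)
  obtain ⟨r, h0, hr, H⟩ := kerD h hNC hs hρ
  have hE : ac (ofRep ρ) ε * ac (ofRep ρ) ε = ac (ofRep ρ) ε := by
    rw [← CorXAux.ac_mul', hs.ee]
  have hET : ac (ofRep ρ) ε * ac (ofRep ρ) τ = ac (ofRep ρ) τ := by
    rw [← CorXAux.ac_mul', hs.et]
  have hTE : ac (ofRep ρ) τ * ac (ofRep ρ) ε = ac (ofRep ρ) τ := by
    rw [← CorXAux.ac_mul', hs.te]
  have hTr : ac (ofRep ρ) τ ^ r = 0 := by
    rw [← CorXAux.ac_pow, hr, ac_zero]
  obtain ⟨τ', hτ', hle⟩ := exists_gen (MI ε' ρ s) (MI ε' ρ s ^ 2) (by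
    intro ψ₁ ψ₂ hψ₁ hψ₂
    obtain ⟨d₁, hd₁, hm₁⟩ := exists_der hc ψ₁ (fun m hm m' hm' =>
      hψ₁ _ (by rw [pow_two]; exact Submodule.mul_mem_mul hm hm'))
    obtain ⟨d₂, hd₂, hm₂⟩ := exists_der hc ψ₂ (fun m hm m' hm' =>
      hψ₂ _ (by rw [pow_two]; exact Submodule.mul_mem_mul hm hm'))
    have hβ₁ := beta_sum (isRep_ofRep ρ) hd₁ hs.ee hs.et hs.te h0 hr
    have hβ₂ := beta_sum (isRep_ofRep ρ) hd₂ hs.ee hs.et hs.te h0 hr
    obtain ⟨c₁, c₂, hne, g, hg, he⟩ := herbrandE hE hET hTE h0 hTr H (d₁ τ) (d₂ τ) hβ₁ hβ₂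
    refine ⟨c₁, c₂, hne, fun m hm => ?_⟩
    have hd : IsDer (ofRep ρ) (c₁ • d₁ + c₂ • d₂) := by
      intro x y
      simp only [LinearMap.add_apply, LinearMap.smul_apply]
      rw [hd₁ x y, hd₂ x y]
      simp only [smul_add, mul_add, add_mul, mul_smul_comm, smul_mul_assoc]
      abel
    have hinn : IsInn (ofRep ρ) (c₁ • d₁ + c₂ • d₂) := derIn h hNC hs hρ hone hd hg (by
      rw [LinearMap.add_apply, LinearMap.smul_apply, LinearMap.smul_apply]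
      exact he)
    have h3 := inn_zero hc hinn hm
    have h4 : (c₁ * ψ₁ m + c₂ * ψ₂ m) • s = 0 := by
      rw [← h3]
      simp only [LinearMap.add_apply, LinearMap.smul_apply]
      rw [hm₁ m hm, hm₂ m hm, add_smul, mul_smul, mul_smul]
    exact (smul_eq_zero.1 h4).resolve_right hc.s0)
  exact ⟨ε', τ', hc.st hτ' hle⟩

end Pool.Agent.Lib.P0c8ca5.Cb
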