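import Mathlib
import Pool.Agent.Lib.P0c8ca5B.Defs2
import Pool.Agent.Lib.P0c8ca5N.TrC

/-!
# Module TrK: from the group `↥K` to the subgroup `K`

`dn K : MonoidAlgebra k A → MonoidAlgebra k ↥K` is the restriction (P0c8ca5N.TrA; `coeff_dn`).
PROOF.  `f' = dn K f` is a block of `↥K` (`dn_isBlock`).  `Nil p ⊤ f'`: let `P'` be a p-subgroup of `↥K` with `HasBr P' f'`;
`P = P'.map K.subtype` is a p-subgroup of `K` and `HasBr P f` (`hasBr_up` in P0c8ca5R.Final has exactly this proof: copy it or import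
the file).  `cyc`: `P' ≃* P` (`Subgroup.equivMapOfInjective`, `isCyclic_of_surjective`).  `cen`: if `g ∈ ↥K` normalizes `P'` then
`(g : A)` normalizes `P`; `(g : A) ^ p ^ n` centralizes `P`, so `g ^ p ^ n` centralizes `P'`.
`IH f'` gives `ε'`, `τ'` with `St ⊤ f' ε' τ'`.  Let `U : MonoidAlgebra k ↥K →ₐ[k] MonoidAlgebra k A` be
`MonoidAlgebra.mapDomainAlgHom k k K.subtype`; it is injective, `SuppIn K (U b)` for all `b`, and `U (dn K a) = a` if `SuppIn K a`
(compare coefficients: `Finsupp.mapDomain_apply` for the injective map `K.subtype`, `Finsupp.mapDomain_notin_range`).  Put `ε = U ε'`,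
`τ = U τ'`.  All fields of `St K f ε τ` follow by applying `U` (`f = U f'`); `gen`: for `a` in `kK`, `a = U a'` with `a' = dn K a`,
`ε a ε = U (ε' a' ε') = U (aeval τ' P * ε') = aeval τ P * ε` (`Polynomial.aeval_algHom_apply`); `full`: apply `U` to
`hs.full`.
-/

namespace Pool.Agent.Lib.P0c8ca5.Cb

open MonoidAlgebra Rk

variable {p : ℕ} {k : Type*} [Field k] {A : Type*} [Group A]

namespace TrKAux

theorem hasBr_up' {H : Subgroup A} {c : MonoidAlgebra k A} {P : Subgroup ↥H}
    (h : HasBr P (dn H c)) : HasBr (P.map H.subtype) c := by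
  obtain ⟨x, hx, hx'⟩ := h
  refine ⟨(x : A), ?_, hx'⟩
  rw [Subgroup.mem_centralizer_iff] at hx ⊢
  rintro y ⟨z, hz, rfl⟩
  exact congrArg Subtype.val (hx z hz)

theorem map_le' {H : Subgroup A} (P : Subgroup ↥H) : P.map H.subtype ≤ H := by
  rintro _ ⟨y, _, rfl⟩
  exact y.2

theorem nil_dn {K : Subgroup A} {f : MonoidAlgebra k A} (hf : Nil p K f) :
    Nil p (⊤ : Subgroup ↥K) (dn K f) where
  blk := dn_isBlock hf.blk
  cyc P _ hP hbr := by
    have h1 : IsCyclic ↥(P.map K.subtype) :=
      hf.cyc _ (map_le' P) (hP.map K.subtype) (hasBr_up' hbr)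
    have e := P.equivMapOfInjective K.subtype K.subtype_injective
    exact isCyclic_of_surjective e.symm.toMonoidHom e.symm.surjective
  cen P _ hP hbr g _ hg := by
    have hg' : (g : A) ∈ Subgroup.normalizer ((P.map K.subtype : Subgroup A) : Set A) := by
      rw [Subgroup.mem_normalizer_iff] at hg ⊢
      intro y
      constructor
      · rintro ⟨z, hz, rfl⟩
        exact ⟨g * z * g⁻¹, (hg z).1 hz, rfl⟩
      · rintro ⟨z, hz, hzy⟩
        refine ⟨g⁻¹ * z * g, ?_, ?_⟩
        · apply (hg _).2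
          have e1 : g * (g⁻¹ * z * g) * g⁻¹ = z := by group
          rw [e1]
          exact hz
        · change (g : A)⁻¹ * (z : A) * (g : A) = y
          have e2 : (z : A) = (g : A) * y * (g : A)⁻¹ := hzy
          rw [e2]
          group
    obtain ⟨n, hn⟩ := hf.cen _ (map_le' P) (hP.map K.subtype) (hasBr_up' hbr) (g : A) g.2 hg'
    refine ⟨n, ?_⟩
    rw [Subgroup.mem_centralizer_iff] at hn ⊢
    intro y hy
    apply Subtype.ext
    exact hn (y : A) ⟨y, hy, rfl⟩

/-- the inclusion of `k↥K` in `kA` -/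
noncomputable def U (k : Type*) [Field k] (K : Subgroup A) :
    MonoidAlgebra k ↥K →ₐ[k] MonoidAlgebra k A :=
  MonoidAlgebra.mapDomainAlgHom k k K.subtype

theorem U_dn {K : Subgroup A} {a : MonoidAlgebra k A} (ha : SuppIn K a) : U k K (dn K a) = a := by
  change MonoidAlgebra.mapDomain (K.subtype)
    (MonoidAlgebra.comapDomain Subtype.val Subtype.val_injective a) = a
  apply MonoidAlgebra.mapDomain_comapDomain
  intro x hx
  exact ⟨⟨x, ha x (Finsupp.mem_support_iff.1 hx)⟩, rfl⟩

theorem U_supp (K : Subgroup A) (b : MonoidAlgebra k ↥K) : SuppIn K (U k K b) := by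
  intro x hx
  by_contra hxK
  apply hx
  change (Finsupp.mapDomain (K.subtype) b.coeff) x = 0
  apply Finsupp.mapDomain_of_notMem_range
  rintro ⟨y, rfl⟩
  exact hxK y.2

end TrKAux

open TrKAux

theorem st_of_sub [Fact p.Prime] [CharP k p] [Fintype A] {K : Subgroup A}
    {f : MonoidAlgebra k A} (hf : Nil p K f)
    (IH : ∀ f' : MonoidAlgebra k ↥K, Nil p (⊤ : Subgroup ↥K) f' →
      ∃ ε τ, St (⊤ : Subgroup ↥K) f' ε τ) : ∃ ε τ, St K f ε τ := by
  obtain ⟨ε, τ, hs⟩ := IH (dn K f) (nil_dn hf)
  have hU : U k K (dn K f) = f := U_dn hf.blk.suppIn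
  refine ⟨U k K ε, U k K τ, ?_⟩
  exact
    { blk := hf.blk
      es := U_supp K ε
      ts := U_supp K τ
      ee := by rw [← map_mul, hs.ee]
      ef := by
        have h1 := congrArg (U k K) hs.ef
        rwa [map_mul, hU] at h1
      et := by rw [← map_mul, hs.et]
      te := by rw [← map_mul, hs.te]
      nil := hs.nil.map (U k K)
      gen := by
        intro a ha
        obtain ⟨P, hP⟩ := hs.gen (dn K a) (suppIn_top _)
        refine ⟨P, ?_⟩
        have h1 := congrArg (U k K) hP
        rw [map_mul, map_mul, map_mul, U_dn ha, ← Polynomial.aeval_algHom_apply] at h1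
        exact h1
      full := by
        obtain ⟨m, u, v, -, -, huv⟩ := hs.full
        refine ⟨m, fun i => U k K (u i), fun i => U k K (v i), fun i => U_supp K _,
          fun i => U_supp K _, ?_⟩
        have h1 := congrArg (U k K) huv
        rw [hU, map_sum] at h1
        rw [← h1]
        exact Finset.sum_congr rfl (fun i _ => by rw [map_mul, map_mul]) }

end Pool.Agent.Lib.P0c8ca5.Cb
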