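import Mathlib
import Pool.Agent.Lib.P0c8ca5B.StepA
import Pool.Agent.Lib.P0c8ca5B.StepB
import Pool.Agent.Lib.P0c8ca5B.TrK
import Pool.Agent.Lib.P0c8ca5B.Dat

/-!
# Module NilM: the structure of the nil blocks
-/

namespace Pool.Agent.Lib.P0c8ca5.Cb

open MonoidAlgebra Rk

universe u v

variable {p : ℕ} {k : Type v} [Field k]

theorem nil_struct_aux [Fact p.Prime] [CharP k p] [IsAlgClosed k] (n : ℕ) :
    ∀ (A : Type u) [Group A] [Fintype A], Nat.card A ≤ n → ∀ f : MonoidAlgebra k A,
      Nil p (⊤ : Subgroup A) f → ∃ ε τ, St (⊤ : Subgroup A) f ε τ := by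
  induction n with
  | zero =>
    intro A _ _ hA
    exact absurd Nat.card_pos (not_lt.2 hA)
  | succ n ih =>
    intro A _ _ hA f hf
    by_cases hdz : IsDZ p (⊤ : Subgroup A) f
    · obtain ⟨ε, hs⟩ := dz_st hdz
      exact ⟨ε, 0, hs⟩
    · obtain ⟨a, b, x, D, D₁, N, C, X, hd⟩ := exists_data hf.blk
        (fun P hP hbr => hf.cyc P le_top hP hbr) hdz
      by_cases hC : C = ⊤
      · refine step_one hd hC hf (fun f' hf' => ?_)
        have : Fintype (NQ D₁) := Fintype.ofFinite _
        refine ih (NQ D₁) ?_ f' hf'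
        have := (cen_of_data hd hC).card_lt
        omega
      · obtain ⟨hNC, hbC⟩ := nil_data hd hf
        have hcyc : ∀ P : Subgroup A, IsPGroup p P → HasBr P f → IsCyclic P :=
          fun P hP hbr => hf.cyc P le_top hP hbr
        have hbb : b * b ≠ 0 := by rw [hbC.idem]; exact hbC.ne_zero
        have hnil : Nil p C b := nil_cent hd hcyc hbC hbb
        have : Fintype ↥C := Fintype.ofFinite _
        obtain ⟨ε, τ, hs⟩ := st_of_sub hnil (fun f' hf' => ih ↥C (by
          have h1 : Nat.card ↥C < Nat.card A := by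
            rw [← Subgroup.card_top (G := A)]
            refine lt_of_le_of_ne (Subgroup.card_le_of_le le_top) (fun h => hC ?_)
            exact Subgroup.eq_of_le_of_card_ge le_top h.ge
          omega) f' hf')
        exact step_two hd hf hs

theorem nil_struct [Fact p.Prime] [CharP k p] [IsAlgClosed k] {A : Type u} [Group A] [Fintype A]
    {K : Subgroup A} {f : MonoidAlgebra k A} (hf : Nil p K f) : ∃ ε τ, St K f ε τ := by
  have : Fintype ↥K := Fintype.ofFinite _
  exact st_of_sub hf (fun f' hf' => nil_struct_aux _ ↥K le_rfl f' hf')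

end Pool.Agent.Lib.P0c8ca5.Cb
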