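import Mathlib
import Pool.Agent.Lib.P0c8ca5B.Defs3
import Pool.Agent.Lib.P0c8ca5N.Rad
import Pool.Agent.Lib.P0c8ca5N.WInv
import Pool.Agent.Lib.P0c8ca5R.BrA

/-!
# Module WtL: the weights over `D₁` are local

PROOF of `local_norm`.  `h.conj`: `Q ≤ cg g D`.  So `D₁ ≤ cg g D`, `cg g⁻¹ D₁ ≤ D` is nontrivial, so `D₁ ≤ cg g⁻¹ D₁` (`h.min`), and
the orders agree: `cg g⁻¹ D₁ = D₁`.  Let `n` normalize `Q`: `cg n D₁ ≤ cg n Q = Q ≤ cg g D`; in the same way `cg g⁻¹ (cg n D₁) = D₁`.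
So `cg n D₁ = D₁` and `n ∈ N` (`cg_eq_self_iff`, `h.hN`).
PROOF of `wt_local`.  `sec ⊤ Q = sec (⊤ ⊓ N(Q)) Q = sec (N ⊓ N(Q)) Q = sec N Q` (`sec_inf_normalizer`, `local_norm`).
`proj Q e = proj Q (cS Q e)` and `proj Q b = proj Q (cS Q b)` (`proj_cS` in P0c8ca5N.WInv; `h.blk.invBy.mono`, `h.binv.mono` with
`Q ≤ N`), and `cS Q e = cS Q b` since the centralizer of `Q` is contained in that of `D₁`, which is `C` (`h.be`) (compare `proj_e` in
P0c8ca5R.Base1).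
PROOF of `hasBr_local`: `D₁ ≤ Q` from `radical` (P0c8ca5N.Rad; `K = N`, `R = D₁`; see its use in P0c8ca5R.Inf3): `wt ≠ 0` gives a block
`f` of defect zero of `sec N Q` with `f * proj Q b = f`.  `HasBr Q b` by `hasBr_of_proj` (P0c8ca5.Reg) as `proj Q b ≠ 0`; an element
centralizing `Q` centralizes `D₁`, so it is in `C` and `b` and `e` have the same coefficient there (`h.be`).
PROOF of `hasBr_wt`: `wt ≠ 0` gives `proj Q e ≠ 0`, then `hasBr_of_proj`.
PROOF of `exists_conj`: `Q ≤ cg g D`, `cg g⁻¹ Q ≤ D` is nontrivial, so `D₁ ≤ cg g⁻¹ Q`, `cg g D₁ ≤ Q`; if also `cg g' D₁ ≤ Q` then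
`cg g⁻¹ (cg g' D₁) ≤ D` contains `D₁` and has the same order.
-/

namespace Pool.Agent.Lib.P0c8ca5.Cb

open MonoidAlgebra Rk

variable {p : ℕ} {k : Type*} [Field k] {A : Type*} [Group A]
variable {e a b : MonoidAlgebra k A} {x : A} {D D₁ N C : Subgroup A} {X : Finset A}

namespace WtLAux

theorem key [Fact p.Prime] [Fintype A] (h : Data p e a b x D D₁ N C X) {g : A} {S : Subgroup A}
    (hS : S ≤ cg g D) (hc : Nat.card S = p) : S = cg g D₁ := by
  have h1 : cg g⁻¹ S ≤ D := by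
    have := cg_le_cg (g := g⁻¹) hS
    rwa [cg_cg, inv_mul_cancel, cg_one] at this
  have h2 : Nat.card (cg g⁻¹ S) = p := by rw [card_cg, hc]
  have h3 : cg g⁻¹ S ≠ ⊥ := by
    intro h4
    rw [h4, Subgroup.card_bot] at h2
    exact (Fact.out : p.Prime).one_lt.ne h2
  have h4 := h.min _ h1 h3
  have h5 : D₁ = cg g⁻¹ S := Subgroup.eq_of_le_of_card_ge h4 (by rw [h2, h.card])
  rw [h5, cg_cg, mul_inv_cancel, cg_one]

theorem cent_le (h : Data p e a b x D D₁ N C X) {Q : Subgroup A} (hD : D₁ ≤ Q) {y : A}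
    (hy : y ∈ Subgroup.centralizer (Q : Set A)) : y ∈ C := by
  rw [h.hC]
  exact Subgroup.centralizer_le hD hy

theorem ex_dz {K Q : Subgroup A} {c : MonoidAlgebra k A} (hw : wt p K c Q ≠ 0) :
    ∃ f : MonoidAlgebra k (NQ Q), IsDZ p (sec K Q) f ∧ f * proj Q c = f := by
  by_contra hcon
  apply hw
  unfold wt
  have h1 : {f : MonoidAlgebra k (NQ Q) | IsDZ p (sec K Q) f ∧ f * proj Q c = f} = ∅ := by
    apply Set.eq_empty_of_forall_notMem
    intro f hf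
    exact hcon ⟨f, hf⟩
  rw [h1]
  exact Nat.card_of_isEmpty

theorem proj_ne {K Q : Subgroup A} {c : MonoidAlgebra k A} (hw : wt p K c Q ≠ 0) :
    proj Q c ≠ 0 := by
  obtain ⟨f, h1, h2⟩ := ex_dz hw
  intro h5
  rw [h5, mul_zero] at h2
  exact h1.blk.ne_zero h2.symm

theorem br_of_proj [Fact p.Prime] [CharP k p] [Fintype A] {Q : Subgroup A} (hQ : IsPGroup p Q)
    {a : MonoidAlgebra k A} (ha : InvBy Q a) (h : proj Q a ≠ 0) : HasBr Q a := by
  classical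
  by_contra hcon
  apply h
  ext w
  obtain ⟨n, hn, rfl⟩ := qm_surj w
  have hn' := Subgroup.mem_normalizer_iff.1 hn
  rw [coeff_proj]
  change _ = (0 : k)
  rw [sum_conj_eq (p := p) hQ (fun x => if n⁻¹ * x ∈ Q then a.coeff x else 0) ?_
    (Finset.univ.filter (fun x => x ∈ Subgroup.centralizer (Q : Set A))) (fun x => by simp)]
  · apply Finset.sum_eq_zero
    intro x hx
    rw [Finset.mem_filter] at hx
    have : a.coeff x = 0 := by
      by_contra h0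
      exact hcon ⟨x, hx.2, h0⟩
    rw [this]; simp
  · intro d hd x
    have h5 : n⁻¹ * d * n ∈ Q := by
      apply (hn' _).2
      have e2 : n * (n⁻¹ * d * n) * n⁻¹ = d := by group
      rw [e2]; exact hd
    have hcond : n⁻¹ * (d * x * d⁻¹) ∈ Q ↔ n⁻¹ * x ∈ Q := by
      have e1 : n⁻¹ * (d * x * d⁻¹) = (n⁻¹ * d * n) * (n⁻¹ * x) * d⁻¹ := by group
      rw [e1, Q.mul_mem_cancel_right (Q.inv_mem hd), Q.mul_mem_cancel_left h5]
    simp only [hcond]
    rw [ha d hd x]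

end WtLAux

open WtLAux

theorem local_norm [Fact p.Prime] [CharP k p] [Fintype A] (h : Data p e a b x D D₁ N C X)
    {Q : Subgroup A} (hQ : IsPGroup p Q) (hbr : HasBr Q e) (hD : D₁ ≤ Q) :
    Subgroup.normalizer (Q : Set A) ≤ N := by
  obtain ⟨g, hg⟩ := h.conj Q hQ hbr
  intro n hn
  have h1 : D₁ = cg g D₁ := key h (hD.trans hg) h.card
  have h2 : cg n D₁ ≤ Q := by
    have := cg_le_cg (g := n) hD
    rwa [cg_eq_self_iff.2 hn] at this
  have h3 : cg n D₁ = cg g D₁ := key h (h2.trans hg) (by rw [card_cg, h.card])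
  rw [h.hN, ← cg_eq_self_iff, h3, ← h1]

theorem wt_local [Fact p.Prime] [CharP k p] [Fintype A] (h : Data p e a b x D D₁ N C X)
    {Q : Subgroup A} (hQ : IsPGroup p Q) (hbr : HasBr Q e) (hD : D₁ ≤ Q) :
    wt p ⊤ e Q = wt p N b Q := by
  have h0 := local_norm h hQ hbr hD
  have h1 : sec ⊤ Q = sec N Q := by
    rw [← sec_inf_normalizer ⊤ Q, ← sec_inf_normalizer N Q, top_inf_eq, inf_eq_right.2 h0]
  have hQN : Q ≤ N := Subgroup.le_normalizer.trans h0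
  have h2 : cS Q e = cS Q b := by
    ext y
    rw [cS, cS, coeff_resS, coeff_resS]
    by_cases hy : y ∈ (Subgroup.centralizer (Q : Set A) : Set A)
    · rw [if_pos hy, if_pos hy, h.be y (cent_le h hD hy)]
    · rw [if_neg hy, if_neg hy]
  have h3 : proj Q e = proj Q b := by
    rw [← proj_cS hQ (h.blk.invBy.mono le_top), ← proj_cS hQ (h.binv.mono hQN), h2]
  unfold wt
  rw [h1, h3]

theorem hasBr_local [Fact p.Prime] [CharP k p] [IsAlgClosed k] [Fintype A]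
    (h : Data p e a b x D D₁ N C X) {Q : Subgroup A} (hQN : Q ≤ N) (hQ : IsPGroup p Q)
    (hw : wt p N b Q ≠ 0) : D₁ ≤ Q ∧ HasBr Q e := by
  obtain ⟨f, h1, h2⟩ := ex_dz hw
  have hD : D₁ ≤ Q := radical h.D1N h.ND1 h.isPGroup hQN hQ h1
  obtain ⟨y, hy, hyb⟩ := br_of_proj (p := p) hQ (h.binv.mono hQN) (proj_ne hw)
  refine ⟨hD, y, hy, ?_⟩
  rwa [← h.be y (cent_le h hD hy)]

theorem hasBr_wt [Fact p.Prime] [CharP k p] [Fintype A] (h : Data p e a b x D D₁ N C X)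
    {Q : Subgroup A} (hQ : IsPGroup p Q) (hw : wt p ⊤ e Q ≠ 0) : HasBr Q e :=
  br_of_proj (p := p) hQ (h.blk.invBy.mono le_top) (proj_ne hw)

theorem exists_conj [Fact p.Prime] [Fintype A] (h : Data p e a b x D D₁ N C X)
    {Q : Subgroup A} (hQ : IsPGroup p Q) (hbr : HasBr Q e) (hne : Q ≠ ⊥) :
    ∃ g : A, cg g D₁ ≤ Q ∧ ∀ g' : A, cg g' D₁ ≤ Q → cg g' D₁ = cg g D₁ := by
  obtain ⟨g, hg⟩ := h.conj Q hQ hbr
  have h1 : cg g⁻¹ Q ≤ D := by
    have := cg_le_cg (g := g⁻¹) hg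
    rwa [cg_cg, inv_mul_cancel, cg_one] at this
  have h3 : cg g⁻¹ Q ≠ ⊥ := by
    intro h4
    apply hne
    rw [← Subgroup.card_eq_one, ← card_cg g⁻¹, h4, Subgroup.card_bot]
  have h4 := h.min _ h1 h3
  refine ⟨g, cg_le_iff.2 h4, fun g' hg' => key h (hg'.trans hg) (by rw [card_cg, h.card])⟩

end Pool.Agent.Lib.P0c8ca5.Cb
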