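import Mathlib
import Pool.Agent.Lib.P0c8ca5B.WtL
import Pool.Agent.Lib.P0c8ca5R.Base0

/-!
# Module WtS: the sum of the weights

PROOF.  Let `F(Q) = |N_A(Q)| * wt p ⊤ e Q` for a p-subgroup `Q` of `A` (`⊤ ⊓ N(Q) = N(Q)`), `O` the finite set of the conjugates
`cg g D₁`.  `F(cg g Q) = F(Q)` (`card_cg_eq` in P0c8ca5.Conj, `cg_normalizer`, `card_cg`).
(1) `F(⊥) = 0` by `card_w_bot h.blk` and `hdz`.  If `F(Q) ≠ 0` then `HasBr Q e` (`hasBr_wt`), `Q ≠ ⊥`, and by `exists_conj` exactly one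
    member of `O` is contained in `Q`.
(2) So `∑_Q F(Q) = ∑_Q ∑_{E ∈ O, E ≤ Q} F(Q) = ∑_{E ∈ O} ∑_{Q ≥ E} F(Q)` (sums over the p-subgroups; `Finset.sum_comm'`), and the
    inner sum does not depend on `E = cg g D₁` (substitute `Q → cg g Q`): it is `S = ∑_{Q ≥ D₁} F(Q)`.
(3) `|O| * |N| = |A|`: `sum_class ⊤ D₁ O` (P0c8ca5.WeightsC; `∑_{E ∈ O} |⊤ ⊓ N(E)| = |⊤|`) and `|N(cg g D₁)| = |N(D₁)| = |N|`.
(4) `S = WS p N b`: both sums can be restricted to the p-subgroups `Q` with `D₁ ≤ Q`, `HasBr Q e`, `Q ≤ N` (for `S`: `hasBr_wt`, and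
    `Q ≤ N(Q) ≤ N` by `local_norm`; for `WS p N b`: `hasBr_local`), and there the terms agree (`wt_local`; `N(Q) ≤ N`, so
    `⊤ ⊓ N(Q) = N ⊓ N(Q)`).
So `|N| * WS p ⊤ e = |N| * |O| * S = |A| * WS p N b`.
-/

namespace Pool.Agent.Lib.P0c8ca5.Cb

open MonoidAlgebra Rk

variable {p : ℕ} {k : Type*} [Field k] {A : Type*} [Group A]
variable {e a b : MonoidAlgebra k A} {x : A} {D D₁ N C : Subgroup A} {X : Finset A}

namespace WtSAux

theorem wt_cg [Fintype A] (he : SuppIn (⊤ : Subgroup A) e) (hi : InvBy (⊤ : Subgroup A) e) (g : A)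
    (Q : Subgroup A) : wt p ⊤ e (cg g Q) = wt p ⊤ e Q :=
  card_cg_eq he hi (Subgroup.mem_top g)

theorem card_top_norm (Q : Subgroup A) :
    Nat.card ↥((⊤ : Subgroup A) ⊓ Subgroup.normalizer (Q : Set A)) =
      Nat.card ↥(Subgroup.normalizer (Q : Set A)) := by
  rw [top_inf_eq]

theorem card_norm_cg (g : A) (Q : Subgroup A) :
    Nat.card ↥((⊤ : Subgroup A) ⊓ Subgroup.normalizer (cg g Q : Set A)) =
      Nat.card ↥((⊤ : Subgroup A) ⊓ Subgroup.normalizer (Q : Set A)) := by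
  rw [card_top_norm, card_top_norm, ← cg_normalizer, card_cg]

theorem isPGroup_cg' {g : A} {Q : Subgroup A} (hQ : IsPGroup p Q) : IsPGroup p (cg g Q) :=
  hQ.map _

end WtSAux

open WtSAux

theorem ws_eq [Fact p.Prime] [CharP k p] [IsAlgClosed k] [Fintype A]
    (h : Data p e a b x D D₁ N C X) (hdz : ¬ IsDZ p ⊤ e) :
    Nat.card N * WS p ⊤ e = Nat.card A * WS p N b := by
  classical
  set F : Subgroup A → ℕ := fun Q =>
    Nat.card ↥((⊤ : Subgroup A) ⊓ Subgroup.normalizer (Q : Set A)) * wt p ⊤ e Q with hF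
  set PS : Finset (Subgroup A) :=
    Finset.univ.filter (fun Q : Subgroup A => Q ≤ ⊤ ∧ IsPGroup p Q) with hPS
  set O : Finset (Subgroup A) := Finset.univ.image (fun g : A => cg g D₁) with hO
  have hPSm : ∀ Q, Q ∈ PS ↔ IsPGroup p Q := by
    intro Q
    rw [hPS, Finset.mem_filter]
    exact ⟨fun h => h.2.2, fun h => ⟨Finset.mem_univ _, le_top, h⟩⟩
  have hOm : ∀ Q, Q ∈ O ↔ ∃ g : A, cg g D₁ = Q := by
    intro Q
    rw [hO, Finset.mem_image]
    exact ⟨fun ⟨g, _, hg⟩ => ⟨g, hg⟩, fun ⟨g, hg⟩ => ⟨g, Finset.mem_univ _, hg⟩⟩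
  have hWS : WS p ⊤ e = ∑ Q ∈ PS, F Q := by
    unfold WS
    rw [hPS, hF]
  have hFcg : ∀ (g : A) (Q : Subgroup A), F (cg g Q) = F Q := by
    intro g Q
    rw [hF]
    change Nat.card ↥((⊤ : Subgroup A) ⊓ Subgroup.normalizer (cg g Q : Set A)) *
      wt p ⊤ e (cg g Q) = Nat.card ↥((⊤ : Subgroup A) ⊓ Subgroup.normalizer (Q : Set A)) *
      wt p ⊤ e Q
    rw [card_norm_cg, wt_cg h.blk.suppIn h.blk.invBy]
  have hF0 : ∀ Q : Subgroup A, IsPGroup p Q → F Q ≠ 0 → HasBr Q e ∧ Q ≠ ⊥ := by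
    intro Q hQ hne
    have hw : wt p ⊤ e Q ≠ 0 := fun h0 => hne (by
      change Nat.card ↥((⊤ : Subgroup A) ⊓ Subgroup.normalizer (Q : Set A)) * wt p ⊤ e Q = 0
      rw [h0, mul_zero])
    refine ⟨hasBr_wt h hQ hw, ?_⟩
    rintro rfl
    exact hw ((card_w_bot h.blk).2 hdz)
  -- (2)
  have h2 : ∑ Q ∈ PS, F Q = ∑ E ∈ O, ∑ Q ∈ PS.filter (fun Q => E ≤ Q), F Q := by
    have h3 : ∀ Q ∈ PS, F Q = ∑ E ∈ O.filter (fun E => E ≤ Q), F Q := by
      intro Q hQ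
      rw [Finset.sum_const, smul_eq_mul]
      by_cases h0 : F Q = 0
      · rw [h0, mul_zero]
      · obtain ⟨hbr, hne⟩ := hF0 Q ((hPSm Q).1 hQ) h0
        obtain ⟨g, hg1, hg2⟩ := exists_conj h ((hPSm Q).1 hQ) hbr hne
        have h4 : O.filter (fun E => E ≤ Q) = {cg g D₁} := by
          ext E
          rw [Finset.mem_filter, Finset.mem_singleton, hOm]
          constructor
          · rintro ⟨⟨g', rfl⟩, hE⟩
            exact hg2 g' hE
          · rintro rfl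
            exact ⟨⟨g, rfl⟩, hg1⟩
        rw [h4, Finset.card_singleton, one_mul]
    rw [Finset.sum_congr rfl h3]
    exact Finset.sum_comm' (fun Q E =>
      ⟨fun h => ⟨Finset.mem_filter.2 ⟨h.1, (Finset.mem_filter.1 h.2).2⟩,
        (Finset.mem_filter.1 h.2).1⟩,
      fun h => ⟨(Finset.mem_filter.1 h.1).1,
        Finset.mem_filter.2 ⟨h.2, (Finset.mem_filter.1 h.1).2⟩⟩⟩)
  set S : ℕ := ∑ Q ∈ PS.filter (fun Q => D₁ ≤ Q), F Q with hS
  have h3 : ∀ E ∈ O, ∑ Q ∈ PS.filter (fun Q => E ≤ Q), F Q = S := by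
    intro E hE
    obtain ⟨g, rfl⟩ := (hOm E).1 hE
    rw [hS]
    refine Finset.sum_nbij' (fun Q => cg g⁻¹ Q) (fun Q => cg g Q) ?_ ?_ ?_ ?_ ?_
    · intro Q hQ
      rw [Finset.mem_filter, hPSm] at hQ ⊢
      exact ⟨isPGroup_cg' hQ.1, cg_le_iff.1 hQ.2⟩
    · intro Q hQ
      rw [Finset.mem_filter, hPSm] at hQ ⊢
      exact ⟨isPGroup_cg' hQ.1, cg_le_cg hQ.2⟩
    · intro Q _
      change cg g (cg g⁻¹ Q) = Q
      rw [cg_cg, mul_inv_cancel, cg_one]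
    · intro Q _
      change cg g⁻¹ (cg g Q) = Q
      rw [cg_cg, inv_mul_cancel, cg_one]
    · intro Q _
      exact (hFcg g⁻¹ Q).symm
  have h4 : WS p ⊤ e = O.card * S := by
    rw [hWS, h2, Finset.sum_congr rfl h3, Finset.sum_const, smul_eq_mul]
  -- (3)
  have h5 : O.card * Nat.card N = Nat.card A := by
    have h6 := sum_class (⊤ : Subgroup A) D₁ O (fun Q => by
      rw [hOm]
      exact ⟨fun ⟨g, hg⟩ => ⟨g, Subgroup.mem_top g, hg.symm⟩, fun ⟨g, _, hg⟩ => ⟨g, hg.symm⟩⟩)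
    have h7 : ∀ Q ∈ O, Nat.card ↥((⊤ : Subgroup A) ⊓ Subgroup.normalizer (Q : Set A)) =
        Nat.card N := by
      intro Q hQ
      obtain ⟨g, rfl⟩ := (hOm Q).1 hQ
      rw [card_norm_cg, card_top_norm, h.hN]
    rw [Finset.sum_congr rfl h7, Finset.sum_const, smul_eq_mul, Subgroup.card_top] at h6
    exact h6
  -- (4)
  set T0 : Finset (Subgroup A) := Finset.univ.filter
    (fun Q : Subgroup A => Q ≤ N ∧ IsPGroup p Q ∧ D₁ ≤ Q ∧ HasBr Q e) with hT0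
  have h8 : S = ∑ Q ∈ T0, F Q := by
    rw [hS]
    symm
    refine Finset.sum_subset (fun Q hQ => ?_) (fun Q hQ hQ' => ?_)
    · rw [hT0, Finset.mem_filter] at hQ
      rw [Finset.mem_filter, hPSm]
      exact ⟨hQ.2.2.1, hQ.2.2.2.1⟩
    · rw [Finset.mem_filter, hPSm] at hQ
      by_contra hne
      obtain ⟨hbr, -⟩ := hF0 Q hQ.1 hne
      apply hQ'
      rw [hT0, Finset.mem_filter]
      exact ⟨Finset.mem_univ _, Subgroup.le_normalizer.trans (local_norm h hQ.1 hbr hQ.2), hQ.1,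
        hQ.2, hbr⟩
  have h9 : WS p N b = ∑ Q ∈ T0,
      Nat.card ↥(N ⊓ Subgroup.normalizer (Q : Set A)) * wt p N b Q := by
    unfold WS
    symm
    refine Finset.sum_subset (fun Q hQ => ?_) (fun Q hQ hQ' => ?_)
    · rw [hT0, Finset.mem_filter] at hQ
      rw [Finset.mem_filter]
      exact ⟨Finset.mem_univ _, hQ.2.1, hQ.2.2.1⟩
    · rw [Finset.mem_filter] at hQ
      have hw : wt p N b Q = 0 := by
        by_contra hne
        obtain ⟨hD, hbr⟩ := hasBr_local h hQ.2.1 hQ.2.2 hne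
        apply hQ'
        rw [hT0, Finset.mem_filter]
        exact ⟨Finset.mem_univ _, hQ.2.1, hQ.2.2, hD, hbr⟩
      rw [hw, mul_zero]
  have h10 : S = WS p N b := by
    rw [h8, h9]
    refine Finset.sum_congr rfl (fun Q hQ => ?_)
    rw [hT0, Finset.mem_filter] at hQ
    obtain ⟨-, -, hQp, hD, hbr⟩ := hQ
    have h11 := local_norm h hQp hbr hD
    change Nat.card ↥((⊤ : Subgroup A) ⊓ Subgroup.normalizer (Q : Set A)) * wt p ⊤ e Q = _
    rw [wt_local h hQp hbr hD, top_inf_eq, inf_eq_right.2 h11]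
  rw [h4, ← h10, ← h5]
  ring

end Pool.Agent.Lib.P0c8ca5.Cb
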