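import Mathlib
import Pool.Agent.Lib.P0c8ca5B.WtS
import Pool.Agent.Lib.P0c8ca5B.Bij
import Pool.Agent.Lib.P0c8ca5B.Inf5
import Pool.Agent.Lib.P0c8ca5R.Inf3
import Pool.Agent.Lib.P0c8ca5N.TrC
import Pool.Agent.Lib.P0c8ca5N.WSum
import Pool.Agent.Lib.P0c8ca5.Reg

/-!
# Module StepC: the inductive step for the weight equality

PROOF.  (1) Let `c` be a block of `kN` with `c * b ≠ 0`.  `NavarroEq p N N c` by `navarro_infl` (P0c8ca5R.Inf3; `K = N`, `R = D₁`,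
`h.D1N`, `h.ND1`, `h.isPGroup`): for a block `b'` of `sec N D₁` with `b' * proj D₁ c ≠ 0` use `navarro_transport` (P0c8ca5N.TrC) and
`IH (dn (sec N D₁) b')` (`dn_isBlock`): a p-subgroup `P` with `HasBr P (dn _ b')`: `HasBr (P.map (sec N D₁).subtype) b'` (`hasBr_up` in
P0c8ca5R.Final, copy its proof), `hasBr_infl'` (P0c8ca5B.Inf5): `P₁ ≥ D₁`, `P₁ ≤ N`, `HasBr P₁ c`, `sec P₁ D₁ = P.map _`.  `HasBr P₁ b`:
`c b = c` (`IsBlock.mul_eq`, `h.bN`, `h.binv`, `h.bb`) and `hasBr_of_mul` (P0c8ca5.Reg) or the argument in `nil_cent`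
(P0c8ca5B.NilC).  `HasBr P₁ e` as the centralizer of `P₁ ≥ D₁` is in `C` (`h.be`).  So `P₁` is cyclic (`hcyc`), `sec P₁ D₁` is cyclic
(`isCyclic_sec`), and `P` is isomorphic to it.
(2) `card_irr_eq_sum` (P0c8ca5N.WSum) for `N` and `b`: `|N| * l(N, b) = WS p N b` (`WS`, `wt` unfold to the sum in the statement;
compare the use in P0c8ca5R.Inf3).  `card_irr_bij h hst`: `l(e) = l(N, b)`.  `ws_eq`: `|N| * WS p ⊤ e = |A| * |N| * l(e)`, so
`WS p ⊤ e = |A| * l(e)`.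
(3) `NavarroEq p ⊤ ⊤ e` from this: `card_irr_eq`, `sum_DZ_eq h.blk T hT1 hT2 D₀ hD₀` as in `base` of P0c8ca5R.Base1
(`Nat.card ↥(⊤ : Subgroup A) = Nat.card A`: `Subgroup.card_top`).
-/

namespace Pool.Agent.Lib.P0c8ca5.Cb

open MonoidAlgebra Rk

variable {p : ℕ} {k : Type*} [Field k] {A : Type*} [Group A]
variable {e a b : MonoidAlgebra k A} {x : A} {D D₁ N C : Subgroup A} {X : Finset A}

namespace StepCAux

theorem hasBr_up' {H : Subgroup A} {c : MonoidAlgebra k A} {P : Subgroup ↥H}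
    (h : HasBr P (dn H c)) : HasBr (P.map H.subtype) c := by
  obtain ⟨x, hx, hx'⟩ := h
  refine ⟨(x : A), ?_, hx'⟩
  rw [Subgroup.mem_centralizer_iff] at hx ⊢
  rintro y ⟨z, hz, rfl⟩
  exact congrArg Subtype.val (hx z hz)

/-- Navarro's equality for the blocks of `N` below `b` -/
theorem navarro_N [Fact p.Prime] [CharP k p] [IsAlgClosed k] [Fintype A]
    (h : Data p e a b x D D₁ N C X)
    (hcyc : ∀ P : Subgroup A, IsPGroup p P → HasBr P e → IsCyclic P)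
    (IH : ∀ f : MonoidAlgebra k ↥(sec N D₁), IsBlock (⊤ : Subgroup ↥(sec N D₁)) f →
      (∀ P : Subgroup ↥(sec N D₁), IsPGroup p P → HasBr P f → IsCyclic P) →
      NavarroEq p (⊤ : Subgroup ↥(sec N D₁)) ⊤ f)
    {c : MonoidAlgebra k A} (hc : IsBlock N c) (hcb : c * b ≠ 0) : NavarroEq p N N c := by
  classical
  have : Fintype (NQ D₁) := Fintype.ofFinite _
  have hbmem : b ∈ fixAlg k N N := mem_fixAlg.2 ⟨h.bN, h.binv⟩
  have hcb' : c * b = c := by
    have hcomm : b * c = c * b := commute_of h.bN hc.invBy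
    rcases hc.mul_eq hbmem h.bb with h1 | h1
    · rw [hcomm] at h1; exact absurd h1 hcb
    · rw [← hcomm]; exact h1
  apply navarro_infl h.D1N h.ND1 h.isPGroup hc
  intro b' hb' hne
  apply navarro_transport hb'
  apply IH (dn (sec N D₁) b') (dn_isBlock hb')
  intro P hP hbr
  have hbr' := hasBr_up' hbr
  have hP' : P.map (sec N D₁).subtype ≤ sec N D₁ := by
    rintro _ ⟨y, _, rfl⟩
    exact y.2
  obtain ⟨P₁, hRP, hPK, hpP, hbrP, hsec⟩ := hasBr_infl' (p := p) h.D1N h.ND1 h.isPGroup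
    hc.suppIn hc.invBy hc.idem hb' hne hP' (hP.map _) hbr'
  obtain ⟨y, hy, hy0⟩ := hasBr_of_mul hpP (hc.invBy.mono hPK) (h.binv.mono hPK) hcb' hbrP
  have hyC : y ∈ C := h.bsupp y hy0
  have hbre : HasBr P₁ e := ⟨y, hy, by rw [← h.be y hyC]; exact hy0⟩
  have h1 : IsCyclic ↥(sec P₁ D₁) := isCyclic_sec (hcyc P₁ hpP hbre)
  rw [hsec] at h1
  exact (Subgroup.equivMapOfInjective P _ (Subgroup.subtype_injective _)).isCyclic.2 h1

end StepCAux

open StepCAux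

theorem step_cyc [Fact p.Prime] [CharP k p] [IsAlgClosed k] [Fintype A]
    (h : Data p e a b x D D₁ N C X) (hdz : ¬ IsDZ p ⊤ e)
    (hcyc : ∀ P : Subgroup A, IsPGroup p P → HasBr P e → IsCyclic P)
    (hst : ∀ c : MonoidAlgebra k A, IsBlock C c → c * b ≠ 0 → ∃ ε τ, St C c ε τ)
    (IH : ∀ f : MonoidAlgebra k ↥(sec N D₁), IsBlock (⊤ : Subgroup ↥(sec N D₁)) f →
      (∀ P : Subgroup ↥(sec N D₁), IsPGroup p P → HasBr P f → IsCyclic P) →
      NavarroEq p (⊤ : Subgroup ↥(sec N D₁)) ⊤ f) : NavarroEq p ⊤ ⊤ e := by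
  classical
  intro T hT1 hT2
  rw [card_irr_eq]
  have hD : ∀ K Q : Subgroup A, Q ∈ Finset.univ.filter (fun Q : Subgroup A => Q ≤ K ∧ IsPGroup p Q)
      ↔ Q ≤ K ∧ IsPGroup p Q := by
    intro K Q
    rw [Finset.mem_filter]
    exact ⟨fun h => h.2, fun h => ⟨Finset.mem_univ _, h⟩⟩
  have h1 := sum_DZ_eq h.blk T hT1 hT2 _ (hD ⊤)
  have h2 := card_irr_eq_sum h.bN h.binv h.bb
    (fun c hc hcb => navarro_N h hcyc IH hc hcb) _ (hD N)
  have h3 := ws_eq h hdz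
  have h4 : WS p ⊤ e = Nat.card (⊤ : Subgroup A) * ∑ Q ∈ T, Nat.card (DZ p ⊤ e Q) := by
    rw [h1]
    unfold WS wt
    exact Finset.sum_congr (Finset.filter_congr_decidable _ _ _) (fun _ _ => rfl)
  have h5 : WS p N b = Nat.card N * Nat.card (Quotient (irrInvSetoid N ⊥ b)) := by
    rw [h2]
    unfold WS wt
    exact Finset.sum_congr (Finset.filter_congr_decidable _ _ _) (fun _ _ => rfl)
  rw [h4, h5, ← card_irr_bij h hst, Subgroup.card_top] at h3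
  have hA : 0 < Nat.card A := Nat.card_pos
  have hN : 0 < Nat.card N := Nat.card_pos
  have h6 : (Nat.card N * Nat.card A) * ∑ Q ∈ T, Nat.card (DZ p ⊤ e Q)
      = (Nat.card N * Nat.card A) * Nat.card (Quotient (irrInvSetoid (⊤ : Subgroup A) ⊥ e)) := by
    rw [mul_assoc, h3]
    ring
  exact (Nat.eq_of_mul_eq_mul_left (Nat.mul_pos hN hA) h6).symm

end Pool.Agent.Lib.P0c8ca5.Cb
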