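import Mathlib
import Pool.Agent.Lib.P0c8ca5B.NilM
import Pool.Agent.Lib.P0c8ca5B.StepC
import Pool.Agent.Lib.P0c8ca5R.Base0
import Pool.Agent.Lib.P0c8ca5C.Defs

/-!
# The blockwise weight conjecture for blocks with cyclic Brauer subgroups
-/

namespace Pool.Agent.Lib.P0c8ca5.Cb

open MonoidAlgebra Rk

universe u v

variable {p : ℕ} {k : Type v} [Field k]

theorem base_aux [Fact p.Prime] [CharP k p] [IsAlgClosed k] (n : ℕ) :
    ∀ (A : Type u) [Group A] [Fintype A], Nat.card A ≤ n → ∀ e : MonoidAlgebra k A,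
      IsBlock (⊤ : Subgroup A) e →
      (∀ P : Subgroup A, IsPGroup p P → HasBr P e → IsCyclic P) →
      NavarroEq p (⊤ : Subgroup A) ⊤ e := by
  induction n with
  | zero =>
    intro A _ _ hA
    exact absurd Nat.card_pos (not_lt.2 hA)
  | succ n ih =>
    intro A _ _ hA e he hcyc
    by_cases hdz : IsDZ p (⊤ : Subgroup A) e
    · exact base_zero hdz
    · obtain ⟨a, b, x, D, D₁, N, C, X, hd⟩ := exists_data he hcyc hdz
      refine step_cyc hd hdz hcyc (fun c hc hcb => nil_struct (nil_cent hd hcyc hc hcb))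
        (fun f hf hfc => ?_)
      have : Fintype ↥(sec N D₁) := Fintype.ofFinite _
      refine ih ↥(sec N D₁) ?_ f hf hfc
      have h1 := Inf3Aux.card_secK hd.D1N hd.ND1
      rw [hd.card] at h1
      have h2 : Nat.card N ≤ Nat.card A := Subgroup.card_le_card_group N
      have h3 : 0 < Nat.card ↥(sec N D₁) := Nat.card_pos
      have h4 : 2 ≤ p := (Fact.out : p.Prime).two_le
      have h5 : 2 * Nat.card ↥(sec N D₁) ≤ p * Nat.card ↥(sec N D₁) := Nat.mul_le_mul_right _ h4
      omega

/-- **The blockwise weight conjecture for blocks with cyclic Brauer subgroups.** -/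
theorem base_cyc [Fact p.Prime] [CharP k p] [IsAlgClosed k] :
    Cy.BaseHyp.{u, v} p k (fun _ => True) := by
  intro B _ _ e he hs
  exact base_aux _ B le_rfl e he (fun P hP hbr => (hs P le_top hP hbr).1)

end Pool.Agent.Lib.P0c8ca5.Cb
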